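import Pool.Agent.K6.H56.TF1

/-! Many primes of degree one with distinct residue characteristics, with the degrees of the factors of a
polynomial modulo these primes (a refinement of `Pool.Agent.W723.SecC.partD1`, whose proof is repeated). -/

set_option autoImplicit false

namespace Pool.Agent.K6.H56.AE

open Polynomial NumberField IsDedekindDomain
open Pool.Agent.W401.Cheb Pool.Agent.W723.SecC

universe u

theorem exists_L_aux' (Ω : Type) [Field Ω] [Algebra ℚ Ω] [IsAlgClosure ℚ Ω] [IsAlgClosed Ω]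
    [IsGalois ℚ Ω]
    (K : Type u) [Field K] [NumberField K] (f : K[X]) (hf : f ≠ 0)
    (σ : AlgebraicClosure K ≃ₐ[K] AlgebraicClosure K) :
    ∃ (L : Type) (_ : Field L) (_ : NumberField L) (_ : IsGalois ℚ L) (i : K →+* L)
      (τ : L ≃ₐ[ℚ] L), (∀ x, τ (i x) = i x) ∧ (∀ θ, f.eval₂ i θ = 0 →
        ∃ θ₀ : AlgebraicClosure K, aeval θ₀ f = 0 ∧ ∀ n : ℕ, (τ ^ n) θ = θ → (σ ^ n) θ₀ = θ₀) ∧
        (f.map i).Splits := by
  classical
  have : Algebra.IsAlgebraic ℚ (AlgebraicClosure K) := Algebra.IsAlgebraic.trans ℚ K _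
  have : IsAlgClosure ℚ (AlgebraicClosure K) := ⟨inferInstance, inferInstance⟩
  let e : AlgebraicClosure K ≃ₐ[ℚ] Ω := IsAlgClosure.equiv ℚ (AlgebraicClosure K) Ω
  let j : K →ₐ[ℚ] Ω := (e : AlgebraicClosure K →ₐ[ℚ] Ω).comp
    ((Algebra.ofId K (AlgebraicClosure K)).restrictScalars ℚ)
  have hj : ∀ x, j x = e (algebraMap K (AlgebraicClosure K) x) := fun x => rfl
  let τ₀ : Ω ≃ₐ[ℚ] Ω := e.symm.trans ((σ.restrictScalars ℚ).trans e)
  have hτ₀ : ∀ x, τ₀ x = e (σ (e.symm x)) := fun x => rfl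
  let b := Module.finBasis ℚ K
  let s : Set Ω := (Set.range fun k => j (b k)) ∪ {θ : Ω | (f.map (j : K →+* Ω)).IsRoot θ}
  have hs : s.Finite := by
    refine (Set.finite_range _).union ?_
    have h0 : f.map (j : K →+* Ω) ≠ 0 := by
      rwa [Ne, Polynomial.map_eq_zero]
    exact Polynomial.finite_setOfPred_isRoot h0
  have : Finite s := hs
  let LL := FiniteGaloisIntermediateField.adjoin ℚ s
  have hsub : s ⊆ LL.toIntermediateField := FiniteGaloisIntermediateField.subset_adjoin ℚ s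
  let L := LL.toIntermediateField
  have hjL : ∀ x, j x ∈ L := by
    intro x
    rw [← b.sum_repr x, map_sum]
    refine sum_mem fun k _ => ?_
    rw [map_smul]
    exact L.smul_mem (hsub (Or.inl ⟨k, rfl⟩))
  have hEq : (DivisionRing.toRatAlgebra : Algebra ℚ L) = L.algebra' := Subsingleton.elim _ _
  have hga : IsGalois ℚ L := by
    have h := LL.isGalois
    rw [hEq]
    exact h
  have hn : NumberField L :=
    { to_charZero := inferInstance
      to_finiteDimensional := by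
        have h := LL.finiteDimensional
        rw [hEq]
        exact h }
  have hnorm : @Normal ℚ L _ _ L.algebra' := by
    have h := LL.isGalois
    exact h.to_normal
  let i : K →+* L := (j : K →+* Ω).codRestrict L hjL
  have hi : ∀ x, (i x : Ω) = j x := fun x => rfl
  have hic : (algebraMap L Ω).comp i = (j : K →+* Ω) := by
    ext x; rfl
  have hτex : ∃ τ' : L ≃+* L, ∀ x : L, ((τ' x : L) : Ω) = τ₀ x := by
    let _ : Algebra ℚ L := L.algebra'
    have : Normal ℚ L := hnorm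
    exact ⟨(τ₀.restrictNormal L).toRingEquiv, fun x => τ₀.restrictNormal_commutes L x⟩
  obtain ⟨τ', hτ'⟩ := hτex
  let τ : L ≃ₐ[ℚ] L := AlgEquiv.ofRingEquiv (f := τ') (fun r => by
    rw [eq_ratCast, map_ratCast])
  have hτ : ∀ x : L, (τ x : Ω) = τ₀ x := hτ'
  have hmap : f.map (j : K →+* Ω) = (f.map i).map (algebraMap L Ω) := by
    rw [Polynomial.map_map, hic]
  refine ⟨L, inferInstance, inferInstance, inferInstance, i, τ, ?_, ?_, ?_⟩
  · intro x
    apply Subtype.ext
    rw [hτ, hi, hτ₀, hj]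
    simp
  · intro θ hθ
    have h1 : aeval (e.symm (θ : Ω)) f = 0 := by
      apply e.injective
      rw [map_zero]
      have h2 : e (aeval (e.symm (θ : Ω)) f) = f.eval₂ (j : K →+* Ω) (θ : Ω) := by
        have h3 := Polynomial.hom_eval₂ f (algebraMap K (AlgebraicClosure K))
          (e : AlgebraicClosure K →+* Ω) (e.symm (θ : Ω))
        rw [aeval_def]
        refine h3.trans ?_
        have h4 : (e : AlgebraicClosure K →+* Ω) (e.symm (θ : Ω)) = (θ : Ω) := e.apply_symm_apply _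
        rw [h4]
        rfl
      rw [h2, ← hic]
      have h5 := Polynomial.hom_eval₂ f i (algebraMap L Ω) θ
      rw [hθ, map_zero] at h5
      exact h5.symm
    refine ⟨_, h1, fun n hn => ?_⟩
    have hpow : ∀ n : ℕ, ((τ ^ n) θ : Ω) = e ((σ ^ n) (e.symm (θ : Ω))) := by
      intro n
      induction n with
      | zero =>
        change (θ : Ω) = e (e.symm (θ : Ω))
        rw [e.apply_symm_apply]
      | succ n ih =>
        rw [pow_succ', AlgEquiv.mul_apply, hτ, ih, hτ₀, e.symm_apply_apply, pow_succ',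
          AlgEquiv.mul_apply]
    apply e.injective
    rw [← hpow, hn, e.apply_symm_apply]
  · have h6 : (f.map (j : K →+* Ω)).Splits := IsAlgClosed.splits _
    rw [hmap] at h6
    refine Splits.of_splits_map (algebraMap L Ω) h6 ?_
    intro θ hθ
    rw [← hmap] at hθ
    have h7 : (f.map (j : K →+* Ω)).IsRoot θ := Polynomial.isRoot_of_mem_roots hθ
    exact ⟨⟨θ, hsub (Or.inr h7)⟩, rfl⟩

theorem exists_L' (K : Type u) [Field K] [NumberField K] (f : K[X]) (hf : f ≠ 0)
    (σ : AlgebraicClosure K ≃ₐ[K] AlgebraicClosure K) :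
    ∃ (L : Type) (_ : Field L) (_ : NumberField L) (_ : IsGalois ℚ L) (i : K →+* L)
      (τ : L ≃ₐ[ℚ] L), (∀ x, τ (i x) = i x) ∧ (∀ θ, f.eval₂ i θ = 0 →
        ∃ θ₀ : AlgebraicClosure K, aeval θ₀ f = 0 ∧ ∀ n : ℕ, (τ ^ n) θ = θ → (σ ^ n) θ₀ = θ₀) ∧
        (f.map i).Splits :=
  @exists_L_aux' (AlgebraicClosure ℚ) _ (AlgebraicClosure.instAlgebra ℚ) inferInstance inferInstance
    inferInstance K _ _ f hf σ

/-- the conditions on the primes: the degree of every irreducible factor modulo `v` is a period of `σ`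
at some root -/
def Cond2 {K : Type u} [Field K] [NumberField K] (g : (𝓞 K)[X])
    (σ : AlgebraicClosure K ≃ₐ[K] AlgebraicClosure K) (c : 𝓞 K)
    (v : HeightOneSpectrum (𝓞 K)) : Prop :=
  c ∉ v.asIdeal ∧ g.leadingCoeff ∉ v.asIdeal ∧
    (g.map (Ideal.Quotient.mk v.asIdeal)).Separable ∧
    ∀ h : (𝓞 K ⧸ v.asIdeal)[X], Irreducible h → h ∣ g.map (Ideal.Quotient.mk v.asIdeal) →
      ∃ θ₀ : AlgebraicClosure K, aeval θ₀ (g.map (algebraMap (𝓞 K) K)) = 0 ∧
        (σ ^ h.natDegree) θ₀ = θ₀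

theorem primes2 (K : Type u) [Field K] [NumberField K] (g : (𝓞 K)[X]) (c : 𝓞 K) (hc : c ≠ 0)
    (hsep : (g.map (algebraMap (𝓞 K) K)).Separable)
    (σ : AlgebraicClosure K ≃ₐ[K] AlgebraicClosure K)
    (ε : ℝ) (hε : 0 < ε) : ∃ T : Finset (HeightOneSpectrum (𝓞 K)),
      (∀ v ∈ T, Cond2 g σ c v ∧ (Ideal.absNorm v.asIdeal).Prime) ∧
      (∀ v ∈ T, ∀ w ∈ T, Ideal.absNorm v.asIdeal = Ideal.absNorm w.asIdeal → v = w) ∧
      ∏ v ∈ T, (1 - (1 / (Ideal.absNorm v.asIdeal : ℝ) - 1 / (Ideal.absNorm v.asIdeal : ℝ) ^ 2)) < ε := by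
  classical
  obtain ⟨L, _, _, _, i, τ, hτi, hτθ, hspl⟩ :=
    exists_L' K (g.map (algebraMap (𝓞 K) K)) hsep.ne_zero σ
  let iO : 𝓞 K →+* 𝓞 L := RingOfIntegers.mapRingHom i
  have hiO : ∀ x, ((iO x : 𝓞 L) : L) = i x := fun x => rfl
  have hiinj : Function.Injective iO := by
    intro x y hxy
    have h1 : (iO x : L) = iO y := by rw [hxy]
    rw [hiO, hiO] at h1
    exact RingOfIntegers.coe_injective (i.injective h1)
  have hsmul : ∀ (ρ : L ≃ₐ[ℚ] L) (x : 𝓞 L), ((ρ • x : 𝓞 L) : L) = ρ x := fun ρ x => rfl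
  have hτO : ∀ x, τ • (iO x) = iO x := by
    intro x
    apply RingOfIntegers.ext
    rw [hsmul, hiO, hτi]
  have hτn : ∀ (n : ℕ) (x : K), (τ ^ n) (i x) = i x := by
    intro n x
    induction n with
    | zero => rfl
    | succ n ih => rw [pow_succ, AlgEquiv.mul_apply, hτi, ih]
  obtain ⟨u, w, D, hD, huw⟩ := sep_int K g hsep
  have hg0 : g ≠ 0 := by
    rintro rfl
    exact hsep.ne_zero (Polynomial.map_zero _)
  set lc := g.leadingCoeff with hlc
  have hlc0 : lc ≠ 0 := leadingCoeff_ne_zero.mpr hg0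
  -- the image of `g` over `L`
  set gL : L[X] := (g.map (algebraMap (𝓞 K) K)).map i with hgL
  have hgL0 : gL ≠ 0 := by
    rw [hgL, Ne, Polynomial.map_eq_zero]
    exact hsep.ne_zero
  have hgLlc : gL.leadingCoeff = i (lc : K) := by
    rw [hgL, leadingCoeff_map, leadingCoeff_map_of_injective
      (FaithfulSMul.algebraMap_injective (𝓞 K) K)]
  have hroot : ∀ θ ∈ gL.roots, gL.eval θ = 0 := fun θ hθ => (mem_roots hgL0).mp hθ
  have hint : ∀ θ ∈ gL.roots, IsIntegral ℤ (i (lc : K) * θ) := by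
    intro θ hθ
    have h1 : (i.comp (algebraMap (𝓞 K) K)).IsIntegralElem
        ((i.comp (algebraMap (𝓞 K) K)) lc * θ) := by
      refine (i.comp (algebraMap (𝓞 K) K)).isIntegralElem_leadingCoeff_mul g θ ?_
      have h2 := hroot θ hθ
      rw [hgL, Polynomial.map_map, eval_map] at h2
      exact h2
    let _ : Algebra (𝓞 K) L := (i.comp (algebraMap (𝓞 K) K)).toAlgebra
    exact isIntegral_trans (R := ℤ) (A := 𝓞 K) _ h1
  have hηex : ∀ θ : L, ∃ y : 𝓞 L, θ ∈ gL.roots → ((y : 𝓞 L) : L) = i (lc : K) * θ := by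
    intro θ
    by_cases hθ : θ ∈ gL.roots
    · exact ⟨⟨_, hint θ hθ⟩, fun _ => rfl⟩
    · exact ⟨0, fun h => absurd h hθ⟩
  choose η hη using hηex
  have hilc : i (lc : K) ≠ 0 := by
    intro h1
    apply hlc0
    apply RingOfIntegers.coe_injective
    apply i.injective
    rw [h1]
    simp
  have hfixθ : ∀ θ ∈ gL.roots, ∀ n : ℕ, (τ ^ n) • (η θ) = η θ → (τ ^ n) θ = θ := by
    intro θ hθ n h0
    have h1 : (((τ ^ n) • (η θ) : 𝓞 L) : L) = η θ := by rw [h0]
    rw [hsmul, hη θ hθ, map_mul, hτn] at h1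
    exact mul_left_cancel₀ hilc h1
  -- the integral form of the factorisation
  have hfacO : C (iO lc) ^ (Multiset.card gL.roots) * g.map iO =
      C (iO lc) * (gL.roots.map fun θ => C (iO lc) * X - C (η θ)).prod := by
    apply Polynomial.map_injective (algebraMap (𝓞 L) L) RingOfIntegers.coe_injective
    have hfac : gL = C gL.leadingCoeff * (gL.roots.map fun θ => X - C θ).prod :=
      hspl.eq_prod_roots
    have h7 : (g.map iO).map (algebraMap (𝓞 L) L) = gL := by
      rw [hgL, Polynomial.map_map, Polynomial.map_map]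
      rfl
    have h8 : (algebraMap (𝓞 L) L) (iO lc) = i (lc : K) := rfl
    have h10 : (gL.roots.map fun θ => C (iO lc) * X - C (η θ)).map
        (Polynomial.map (algebraMap (𝓞 L) L)) =
        gL.roots.map (fun θ => C (i (lc : K)) * (X - C θ)) := by
      rw [Multiset.map_map]
      refine Multiset.map_congr rfl fun θ hθ => ?_
      have h11 := hη θ hθ
      change (C (iO lc) * X - C (η θ)).map (algebraMap (𝓞 L) L) = _
      rw [Polynomial.map_sub, Polynomial.map_mul, map_C, map_X, map_C, h8]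
      change C (i (lc : K)) * X - C ((η θ : 𝓞 L) : L) = _
      rw [h11, C_mul]
      ring
    rw [Polynomial.map_mul, Polynomial.map_pow, map_C, h7, h8, Polynomial.map_mul, map_C, h8,
      Polynomial.map_multiset_prod, h10, Multiset.prod_map_mul, Multiset.map_const',
      Multiset.prod_replicate]
    rw [hgLlc] at hfac
    exact (congrArg (fun q => C (i (lc : K)) ^ (Multiset.card gL.roots) * q) hfac).trans (by
      ring)
  -- the bad primes
  have hE1 : iO (c * lc * D) ≠ 0 := by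
    rw [Ne, map_eq_zero_iff iO hiinj]
    exact mul_ne_zero (mul_ne_zero hc hlc0) hD
  obtain ⟨m1, hm1, hm1'⟩ := nz L _ hE1
  have hnz : ∀ p : {θ // θ ∈ gL.roots.toFinset} × Fin (orderOf τ), ∃ m : ℕ, 0 < m ∧
      ∀ (k : Type) [Field k] (φ : 𝓞 L →+* k), (m : k) ≠ 0 →
        (τ ^ (p.2 : ℕ)) • (η p.1.1) - η p.1.1 ≠ 0 → φ ((τ ^ (p.2 : ℕ)) • (η p.1.1) - η p.1.1) ≠ 0 := by
    intro p
    by_cases h : (τ ^ (p.2 : ℕ)) • (η p.1.1) - η p.1.1 = 0
    · exact ⟨1, one_pos, fun k _ φ _ h' => absurd h h'⟩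
    · obtain ⟨m, hm, hm'⟩ := nz L _ h
      exact ⟨m, hm, fun k _ φ hk _ => hm' k φ hk⟩
  choose mθ hmθ hmθ' using hnz
  set m : ℕ := m1 * ∏ p, mθ p with hm
  have hmpos : 0 < m := Nat.mul_pos hm1 (Finset.prod_pos fun p _ => hmθ p)
  obtain ⟨δ, C', hδpos, hcount⟩ := count L τ m hmpos
  suffices hmain : ∀ p ∈ frobSet L τ m, ∃ v : HeightOneSpectrum (𝓞 K), Cond2 g σ c v ∧
      Ideal.absNorm v.asIdeal = p by
    choose v' hv1' hv2' using hmain
    let v : frobSet L τ m → HeightOneSpectrum (𝓞 K) := fun p => v' p p.2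
    have hv1 : ∀ p, Cond2 g σ c (v p) := fun p => hv1' p p.2
    have hv2 : ∀ p, Ideal.absNorm (v p).asIdeal = p := fun p => hv2' p p.2
    obtain ⟨T, -, hT⟩ := many (frobSet L τ m) (fun p hp => hp.1) (diverge _ δ C' hδpos hcount)
      (fun p : frobSet L τ m => (p : ℕ)) (fun _ => True) (fun p hp => ⟨⟨p, hp⟩, trivial, rfl⟩) ε hε
    have hinj : Function.Injective v := by
      intro p q hpq
      apply Subtype.ext
      rw [← hv2 p, ← hv2 q, hpq]
    refine ⟨T.image v, ?_, ?_, ?_⟩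
    · intro w hw
      obtain ⟨p, -, rfl⟩ := Finset.mem_image.1 hw
      refine ⟨hv1 p, ?_⟩
      rw [hv2 p]
      exact p.2.1
    · intro w hw w' hw' h
      obtain ⟨p, -, rfl⟩ := Finset.mem_image.1 hw
      obtain ⟨q, -, rfl⟩ := Finset.mem_image.1 hw'
      rw [hv2 p, hv2 q] at h
      rw [Subtype.ext h]
    · rw [Finset.prod_image hinj.injOn]
      simp only [hv2]
      exact hT
  intro p hp
  obtain ⟨hpp, hpm, hxp⟩ := hp
  have : Fact p.Prime := ⟨hpp⟩
  have hex : ∃ φ : 𝓞 L →+* AlgebraicClosure (ZMod p), HasFrob p φ τ := by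
    unfold xp at hxp
    rw [dif_pos hpp] at hxp
    by_contra h
    push Not at h
    apply hxp
    rw [Nat.card_eq_zero]
    left
    exact ⟨fun x => h x.1 x.2⟩
  obtain ⟨φ, hφ⟩ := hex
  have hcast : ∀ n : ℕ, n ∣ m → (n : AlgebraicClosure (ZMod p)) ≠ 0 := by
    intro n hn h
    rw [CharP.cast_eq_zero_iff (AlgebraicClosure (ZMod p)) p] at h
    exact hpm (h.trans hn)
  have hφE1 : φ (iO (c * lc * D)) ≠ 0 := hm1' _ φ (hcast m1 (Dvd.intro _ rfl))
  have hφn : ∀ (n : ℕ) (x : 𝓞 L), φ ((τ ^ n) • x) = φ x ^ p ^ n := by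
    intro n
    induction n with
    | zero => intro x; rw [pow_zero, one_smul, pow_zero, pow_one]
    | succ n ih =>
      intro x
      rw [pow_succ, mul_smul, ih, hφ x, ← pow_mul, pow_succ, mul_comm p]
  have hφθ : ∀ θ ∈ gL.roots, ∀ n : ℕ, φ ((τ ^ n) • (η θ)) = φ (η θ) → (τ ^ n) θ = θ := by
    intro θ hθ n hn
    apply hfixθ θ hθ n
    have hθ' : θ ∈ gL.roots.toFinset := Multiset.mem_toFinset.mpr hθ
    have hord : 0 < orderOf τ := orderOf_pos τ
    rw [← pow_mod_orderOf] at hn ⊢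
    by_contra h0
    refine hmθ' (⟨θ, hθ'⟩, ⟨n % orderOf τ, Nat.mod_lt _ hord⟩) _ φ (hcast _ ?_)
      (sub_ne_zero.2 h0) ?_
    · exact (Finset.dvd_prod_of_mem mθ (Finset.mem_univ _)).trans (Dvd.intro_left _ rfl)
    · rw [map_sub, sub_eq_zero]
      exact hn
  let ψ : 𝓞 K →+* AlgebraicClosure (ZMod p) := φ.comp iO
  have hψ : ∀ x, ψ x ^ p = ψ x := by
    intro x
    have h1 := hφ (iO x)
    rw [hτO] at h1
    exact h1.symm
  have hψn : ∀ (n : ℕ) x, ψ x ^ p ^ n = ψ x := by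
    intro n x
    induction n with
    | zero => rw [pow_zero, pow_one]
    | succ n ih => rw [pow_succ, pow_mul, ih, hψ]
  have hnorm := absNorm_ker K p (AlgebraicClosure (ZMod p)) ψ hψ
  have hmem : ∀ x, x ∈ RingHom.ker ψ ↔ φ (iO x) = 0 := fun x => RingHom.mem_ker
  have hprime : (RingHom.ker ψ).IsPrime := RingHom.ker_isPrime ψ
  have hbot : RingHom.ker ψ ≠ ⊥ := by
    intro h
    rw [h, Ideal.absNorm_bot] at hnorm
    exact hpp.ne_zero hnorm.symm
  have hmax : (RingHom.ker ψ).IsMaximal := hprime.isMaximal hbot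
  have hφ4 : φ (iO c) ≠ 0 ∧ φ (iO lc) ≠ 0 ∧ φ (iO D) ≠ 0 := by
    rw [map_mul, map_mul, map_mul, map_mul] at hφE1
    refine ⟨?_, ?_, ?_⟩ <;> intro h <;> apply hφE1 <;> rw [h] <;> ring
  obtain ⟨h4c, h4lc, h4D⟩ := hφ4
  refine ⟨⟨RingHom.ker ψ, hprime, hbot⟩, ⟨?_, ?_, ?_, ?_⟩, hnorm⟩
  · exact fun h => h4c ((hmem _).mp h)
  · exact fun h => h4lc ((hmem _).mp h)
  · obtain ⟨y, hy⟩ : ∃ y : 𝓞 K, (Ideal.Quotient.mk (RingHom.ker ψ)) (y * D) = 1 := by
      obtain ⟨y, z, hz, hy⟩ := hmax.exists_inv (fun h => h4D ((hmem _).mp h))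
      refine ⟨y, ?_⟩
      have h6 := congrArg (Ideal.Quotient.mk (RingHom.ker ψ)) hy
      rw [map_add, Ideal.Quotient.eq_zero_iff_mem.mpr hz, add_zero, map_one] at h6
      exact h6
    refine ⟨C (Ideal.Quotient.mk _ y) * u.map (Ideal.Quotient.mk _),
      C (Ideal.Quotient.mk _ y) * w.map (Ideal.Quotient.mk _), ?_⟩
    have h5 := congrArg (Polynomial.map (Ideal.Quotient.mk (RingHom.ker ψ))) huw
    rw [Polynomial.map_add, Polynomial.map_mul, Polynomial.map_mul, map_C] at h5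
    rw [derivative_map, mul_assoc, mul_assoc, ← mul_add, h5, ← C_mul, ← map_mul, hy, C_1]
  · intro h hirr hdvd
    let _ : Field (𝓞 K ⧸ RingHom.ker ψ) := Ideal.Quotient.field _
    have hfact : Fact (Irreducible h) := ⟨hirr⟩
    have hcardκ : Nat.card (𝓞 K ⧸ RingHom.ker ψ) = p := by
      have h1 := hnorm
      rw [Ideal.absNorm_apply, Submodule.cardQuot_apply] at h1
      exact h1
    have hfinκ : Finite (𝓞 K ⧸ RingHom.ker ψ) := by
      apply Nat.finite_of_card_ne_zero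
      rw [hcardκ]
      exact hpp.ne_zero
    let M := AdjoinRoot h
    have hM : FiniteDimensional (𝓞 K ⧸ RingHom.ker ψ) M :=
      (AdjoinRoot.powerBasis hirr.ne_zero).finite
    have hfinM : Finite M := Module.finite_of_finite (𝓞 K ⧸ RingHom.ker ψ)
    have hcardM : Nat.card M = p ^ h.natDegree := by
      rw [Module.natCard_eq_pow_finrank (K := 𝓞 K ⧸ RingHom.ker ψ), hcardκ,
        (AdjoinRoot.powerBasis hirr.ne_zero).finrank, AdjoinRoot.powerBasis_dim]
    let _ : Fintype M := Fintype.ofFinite M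
    set x : M := AdjoinRoot.root h with hx
    have hxp : x ^ p ^ h.natDegree = x := by
      rw [← hcardM, Nat.card_eq_fintype_card]
      exact FiniteField.pow_card x
    let _ : Algebra (𝓞 K ⧸ RingHom.ker ψ) (AlgebraicClosure (ZMod p)) :=
      (RingHom.kerLift ψ).toAlgebra
    let ι : M →ₐ[𝓞 K ⧸ RingHom.ker ψ] AlgebraicClosure (ZMod p) := IsAlgClosed.lift
    set y := ι x with hy
    have hyp : y ^ p ^ h.natDegree = y := by
      rw [hy, ← map_pow, hxp]
    have hxroot : aeval x (g.map (Ideal.Quotient.mk (RingHom.ker ψ))) = 0 := by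
      obtain ⟨q, hq⟩ := hdvd
      have h3 : aeval x h = 0 := by
        rw [aeval_def]
        exact AdjoinRoot.eval₂_root h
      change aeval x (g.map (Ideal.Quotient.mk (RingHom.ker ψ))) = 0
      rw [hq, map_mul, h3, zero_mul]
    have hyroot : (g.map ψ).eval y = 0 := by
      have h1 : aeval y (g.map (Ideal.Quotient.mk (RingHom.ker ψ))) = 0 := by
        rw [hy, aeval_algHom_apply, hxroot, map_zero]
      rw [aeval_def, eval₂_map] at h1
      rw [eval_map]
      exact h1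
    have h2 := congrArg (fun q => (q.map φ).eval y) hfacO
    simp only [Polynomial.map_mul, Polynomial.map_pow, map_C, eval_mul, eval_pow, eval_C,
      Polynomial.map_map] at h2
    have h3 : (g.map (φ.comp iO)).eval y = 0 := hyroot
    rw [h3, mul_zero, Polynomial.map_multiset_prod, Multiset.map_map, eval_multiset_prod,
      Multiset.map_map] at h2
    have h5 := (mul_eq_zero.1 h2.symm).resolve_left h4lc
    rw [Multiset.prod_eq_zero_iff, Multiset.mem_map] at h5
    obtain ⟨θ, hθ, h6⟩ := h5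
    have h7 : φ (iO lc) * y = φ (η θ) := by
      have h8 : ((C (iO lc) * X - C (η θ)).map φ).eval y = 0 := h6
      rw [Polynomial.map_sub, Polynomial.map_mul, map_C, map_X, map_C, eval_sub, eval_mul, eval_C,
        eval_X, eval_C, sub_eq_zero] at h8
      exact h8
    have h9 : (τ ^ h.natDegree) θ = θ := by
      apply hφθ θ hθ
      rw [hφn, ← h7, mul_pow, hyp]
      congr 1
      exact hψn _ lc
    obtain ⟨θ₀, hθ₀, hθ₀'⟩ := hτθ θ (by
      have h10 := hroot θ hθ
      rw [hgL, eval_map] at h10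
      exact h10)
    exact ⟨θ₀, hθ₀, hθ₀' _ h9⟩

end Pool.Agent.K6.H56.AE
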