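import Pool.Agent.K6.H56.TF2
import Pool.Agent.K6.H56.TF3
import Pool.Agent.TH377.LocG.Res

/-! The discrete valuation ring of `k` given by an embedding in the completion of a number field at an
unramified prime of degree one. -/

set_option autoImplicit false
set_option linter.all false

namespace Pool.Agent.K6.H56.AE

open IsDedekindDomain NumberField WithZero Polynomial FF Pool.Agent.W623.SecC Pool.Agent.W858.SF
open Pool.Agent.W858.SG Pool.Agent.Y141.PS Pool.Agent.K6.H56.TF

theorem val_prime {L : Type} [Field L] [NumberField L] (v : HeightOneSpectrum (𝓞 L))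
    (hv2 : ((Ideal.absNorm v.asIdeal : ℕ) : 𝓞 L) ∉ v.asIdeal ^ 2) :
    v.valuation L ((Ideal.absNorm v.asIdeal : ℕ) : L) = exp (-1) := by
  have h0 : ((Ideal.absNorm v.asIdeal : ℕ) : L) =
      algebraMap (𝓞 L) L ((Ideal.absNorm v.asIdeal : ℕ) : 𝓞 L) := by rw [map_natCast]
  rw [h0]
  apply le_antisymm
  · rw [HeightOneSpectrum.valuation_of_algebraMap]
    refine (v.intValuation_le_pow_iff_mem _ 1).2 ?_
    rw [pow_one]
    exact Ideal.absNorm_mem _
  · by_contra h2
    rw [not_le] at h2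
    exact hv2 ((val_le_iff v _).1 (lt_exp_neg_one _ h2))

theorem local_data {L : Type} [Field L] [NumberField L] (v : HeightOneSpectrum (𝓞 L))
    (hv1 : (Ideal.absNorm v.asIdeal).Prime)
    (hv2 : ((Ideal.absNorm v.asIdeal : ℕ) : 𝓞 L) ∉ v.asIdeal ^ 2) {k : Type} [Field k] [CharZero k]
    (ψ : k →+* v.adicCompletion L) :
    ∃ (A : ValuationSubring k) (_ : IsDiscreteValuationRing A) (ρ : A →+* (𝓞 L ⧸ v.asIdeal)),
      Function.Surjective ρ ∧ (∀ x : k, x ∈ A ↔ vv v (ψ x) ≤ 1) ∧
      (∀ (y : A) (z : 𝓞 L), vv v (ψ (y : k) -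
        algebraMap L (v.adicCompletion L) (algebraMap (𝓞 L) L z)) < 1 →
          ρ y = Ideal.Quotient.mk v.asIdeal z) ∧
      (∀ y : A, IsUnit y ↔ vv v (ψ (y : k)) = 1) ∧
      ∃ ϖ : A, Irreducible ϖ ∧ ∀ (a : k) (m : ℕ), vv v (ψ a) = exp (-(m : ℤ)) →
        ∃ t : A, IsUnit t ∧ a = (t : k) * (ϖ : k) ^ (m : ℤ) := by
  classical
  set p := Ideal.absNorm v.asIdeal with hp
  have hmax : v.asIdeal.IsMaximal := v.isMaximal
  let _ := Ideal.Quotient.field v.asIdeal
  obtain ⟨θ, hθ, hθr⟩ := exists_residue_map v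
  have hθinj : Function.Injective θ := θ.injective
  let e : (𝓞 L ⧸ v.asIdeal) ≃+* IsLocalRing.ResidueField (vv v).valuationSubring :=
    RingEquiv.ofBijective θ ⟨hθinj, hθ⟩
  have he : ∀ z, e z = θ z := fun _ => rfl
  set w : Valuation k ℤᵐ⁰ := (vv v).comap ψ with hw
  have hwp : w (p : k) = exp (-1) := by
    change vv v (ψ (p : k)) = _
    have h1 : ψ (p : k) = algebraMap L (v.adicCompletion L) (p : L) := by
      rw [map_natCast, map_natCast]
    rw [h1, vv_algebraMap, hp]
    exact val_prime v hv2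
  obtain ⟨hdvr, -⟩ := exists_unif_prime w (p : k) 2 (-1) (by omega) hwp
  let i : w.valuationSubring →+* (vv v).valuationSubring :=
    { toFun := fun y => ⟨ψ y, y.2⟩
      map_one' := Subtype.ext (map_one ψ)
      map_mul' := fun y z => Subtype.ext (map_mul ψ _ _)
      map_zero' := Subtype.ext (map_zero ψ)
      map_add' := fun y z => Subtype.ext (map_add ψ _ _) }
  have hcoe : ∀ y, ((i y : (vv v).valuationSubring) : v.adicCompletion L) = ψ (y : k) := fun _ => rfl
  let ρ : w.valuationSubring →+* (𝓞 L ⧸ v.asIdeal) :=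
    (e.symm : _ →+* (𝓞 L ⧸ v.asIdeal)).comp ((IsLocalRing.residue _).comp i)
  have hρ : ∀ y, ρ y = e.symm (IsLocalRing.residue _ (i y)) := fun _ => rfl
  have hunit : ∀ x : w.valuationSubring, IsUnit x ↔ vv v (ψ (x : k)) = 1 := by
    intro x
    exact Valuation.Integers.isUnit_iff_valuation_eq_one (Valuation.valuationSubring.integers w)
  have hclose : ∀ (y : w.valuationSubring) (z : 𝓞 L), vv v (ψ (y : k) -
        algebraMap L (v.adicCompletion L) (algebraMap (𝓞 L) L z)) < 1 →
          ρ y = Ideal.Quotient.mk v.asIdeal z := by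
    intro y z h
    rw [hρ, hθr z (i y) h, ← he, e.symm_apply_apply]
  have hpA : (p : k) ∈ w.valuationSubring := by
    rw [Valuation.mem_valuationSubring_iff, hwp, ← exp_zero, exp_le_exp]
    omega
  let ϖ : w.valuationSubring := ⟨(p : k), hpA⟩
  have hϖ : Irreducible ϖ := by
    refine ⟨?_, ?_⟩
    · rw [hunit]
      change ¬ w (p : k) = 1
      rw [hwp, ← exp_zero, exp_inj]
      omega
    · intro x y hxy
      have hxyk : (p : k) = (x : k) * (y : k) := congrArg Subtype.val hxy
      have h1 : w (x : k) * w (y : k) = exp (-1) := by rw [← map_mul, ← hxyk, hwp]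
      have hx0 : w (x : k) ≠ 0 := by
        intro h
        rw [h, zero_mul] at h1
        exact exp_ne_zero h1.symm
      have hy0 : w (y : k) ≠ 0 := by
        intro h
        rw [h, mul_zero] at h1
        exact exp_ne_zero h1.symm
      have hx1 : w (x : k) ≤ 1 := (Valuation.mem_valuationSubring_iff _ _).1 x.2
      have hy1 : w (y : k) ≤ 1 := (Valuation.mem_valuationSubring_iff _ _).1 y.2
      rw [← exp_log hx0, ← exp_zero, exp_le_exp] at hx1
      rw [← exp_log hy0, ← exp_zero, exp_le_exp] at hy1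
      rw [← exp_log hx0, ← exp_log hy0, ← exp_add, exp_inj] at h1
      rcases (by omega : log (w (x : k)) = 0 ∨ log (w (y : k)) = 0) with h | h
      · left
        rw [hunit]
        change w (x : k) = 1
        rw [← exp_log hx0, h, exp_zero]
      · right
        rw [hunit]
        change w (y : k) = 1
        rw [← exp_log hy0, h, exp_zero]
  refine ⟨w.valuationSubring, hdvr, ρ, ?_, fun x => Iff.rfl, hclose, hunit, ϖ, hϖ, ?_⟩
  · intro z
    obtain ⟨y, rfl⟩ := Ideal.Quotient.mk_surjective z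
    have hint : ∃ n : ℤ, y - n ∈ v.asIdeal := by
      obtain ⟨n, hn⟩ := exists_int_sub_mem {v} (by
        intro w' hw'
        rw [Finset.mem_singleton] at hw'
        rw [hw']
        exact ⟨hv1, hv2⟩) (by
        intro a ha b hb _
        rw [Finset.mem_singleton] at ha hb
        rw [ha, hb]) y
      rw [Finset.prod_singleton] at hn
      exact ⟨n, Ideal.pow_le_self two_ne_zero hn⟩
    obtain ⟨n, hn⟩ := hint
    refine ⟨(n : w.valuationSubring), ?_⟩
    rw [map_intCast, eq_comm, ← map_intCast (Ideal.Quotient.mk v.asIdeal), Ideal.Quotient.eq]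
    exact hn
  · intro a m ha
    have hwa : w a = exp (-(m : ℤ)) := ha
    have hp0 : (p : k) ≠ 0 := by
      rw [Nat.cast_ne_zero]
      exact hv1.ne_zero
    have h1 : w (a * (p : k) ^ (-(m : ℤ))) = 1 := by
      rw [map_mul, map_zpow₀, hwa, hwp, ← exp_zsmul, ← exp_add, ← exp_zero]
      congr 1
      simp
    refine ⟨⟨a * (p : k) ^ (-(m : ℤ)), le_of_eq h1⟩, (hunit _).2 h1, ?_⟩
    change a = a * (p : k) ^ (-(m : ℤ)) * (p : k) ^ (m : ℤ)
    rw [mul_assoc, ← zpow_add₀ hp0, neg_add_cancel, zpow_zero, mul_one]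

/-- factors and isomorphisms of the field -/
theorem factorDiv_map_equiv {κ κ' : Type} [Field κ] [Field κ'] (e : κ ≃+* κ') (N : ℕ) (P : κ[X]) :
    Pool.Agent.TH377.LocG.FactorDiv N (P.map (e : κ →+* κ')) ↔
      Pool.Agent.TH377.LocG.FactorDiv N P := by
  have key : ∀ (κ κ' : Type) [Field κ] [Field κ'] (e : κ ≃+* κ') (P : κ[X]),
      Pool.Agent.TH377.LocG.FactorDiv N (P.map (e : κ →+* κ')) →
        Pool.Agent.TH377.LocG.FactorDiv N P := by
    intro κ κ' _ _ e P h q hq hqP
    have h1 : Irreducible (q.map (e : κ →+* κ')) :=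
      (MulEquiv.irreducible_iff (Polynomial.mapEquiv e)).2 hq
    have h2 := h _ h1 (Polynomial.map_dvd _ hqP)
    rwa [natDegree_map] at h2
  refine ⟨key κ κ' e P, fun h => key κ' κ e.symm _ ?_⟩
  rw [Polynomial.map_map]
  have h4 : (e.symm : κ' →+* κ).comp (e : κ →+* κ') = RingHom.id _ := by
    ext z
    simp
  rwa [h4, Polynomial.map_id]

end Pool.Agent.K6.H56.AE
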