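import Pool.Agent.K6.H56.TF2
import Pool.Agent.K6.H56.TF3

/-! Density of the fibres without sections in a one-parameter family: the argument at a point of a
model. -/

set_option autoImplicit false
set_option linter.all false

namespace Pool.Agent.K6.H56.TF

open IsDedekindDomain NumberField WithZero Polynomial FF Pool.Agent.W623.SecC Pool.Agent.W858.SF
open Pool.Agent.W858.SG Pool.Agent.Y141.PS
open Pool.Agent.Y157.PS (S_FUN FineP fineP)

/-- an element of the ring close to a unit at `v` -/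
theorem vv_eq_of_close {R k : Type} [CommRing R] [Field k] [Algebra R k] {L : Type} [Field L]
    [NumberField L] (v : HeightOneSpectrum (𝓞 L)) (P : R →+* L) (ψ : k →+* v.adicCompletion L)
    (hψ : ∀ r, vv v (ψ (algebraMap R k r) - algebraMap L (v.adicCompletion L) (P r)) ≤ exp (-2))
    (r : R) (hr : exp (-2) < v.valuation L (P r)) :
    vv v (ψ (algebraMap R k r)) = v.valuation L (P r) := by
  have h5 : ψ (algebraMap R k r) = (ψ (algebraMap R k r) -
      algebraMap L (v.adicCompletion L) (P r)) + algebraMap L (v.adicCompletion L) (P r) := by ring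
  have h6 : vv v (ψ (algebraMap R k r) - algebraMap L (v.adicCompletion L) (P r)) <
      vv v (algebraMap L (v.adicCompletion L) (P r)) := by
    rw [vv_algebraMap]
    exact (hψ r).trans_lt hr
  rw [h5, Valuation.map_add_eq_of_lt_right _ h6, vv_algebraMap]

theorem density_tw (hFUN : S_FUN) {R k R₁ k₁ : Type} [CommRing R] [Field k] [CharZero k]
    [Algebra R k] (hinjk : Function.Injective (algebraMap R k)) [CommRing R₁] [Field k₁]
    [Algebra R₁ k₁] (i : R →+* R₁) (j : k →+* k₁)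
    (hij : ∀ r, algebraMap R₁ k₁ (i r) = j (algebraMap R k r)) (τ s : R₁) (A : R[X]) (F : R[X][X])
    (D : R[X]) (e : ℕ) (B : R₁[X]) (hAB : C s * A.map i = (X - C τ) ^ e * B) (h3 : 3 ≤ F.natDegree)
    {L : Type} [Field L] [NumberField L] (P : R₁ →+* L) (hs : P s ≠ 0) (hB : P (B.eval τ) ≠ 0)
    (hD : P ((D.map i).eval τ) ≠ 0)
    (hlc : P ((F.map (eval₂RingHom i τ)).coeff F.natDegree) ≠ 0)
    (hsep : ((F.map (eval₂RingHom i τ)).map P).Separable)
    (hσ : ∃ σ' : AlgebraicClosure L ≃ₐ[L] AlgebraicClosure L,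
        ∀ θ : AlgebraicClosure L, aeval θ ((F.map (eval₂RingHom i τ)).map P) = 0 → σ' θ ≠ θ)
    (hemb : AE fun v : HeightOneSpectrum (𝓞 L) => (∀ r, v.valuation L (P r) ≤ 1) ∧
      ∃ ψ : k₁ →+* v.adicCompletion L,
        ∀ r, vv v (ψ (algebraMap R₁ k₁ r) - algebraMap L (v.adicCompletion L) (P r)) ≤ exp (-2))
    (ε : ℝ) (hε : 0 < ε) :
    ∃ I : Ideal R, Finite (R ⧸ I) ∧
      (Set.ncard ((Ideal.Quotient.mk I) ''
        {t : R | ¬ (A.eval t ≠ 0 ∧ D.eval t ≠ 0 ∧ ∀ ℓ : ℕ, ℓ.Prime → ℓ ∣ F.natDegree → ¬ ℓ ∣ e →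
          FineP ℓ (algebraMap R k (A.eval t)) ((F.map (evalRingHom t)).map (algebraMap R k)))}) : ℝ) ≤
        ε * Nat.card (R ⧸ I) := by
  classical
  set F₀ := F.map (eval₂RingHom i τ) with hF₀
  obtain ⟨c, hc, hcf⟩ := IsLocalization.integerNormalization_spec (nonZeroDivisors (𝓞 L)) (F₀.map P)
  set g := IsLocalization.integerNormalization (nonZeroDivisors (𝓞 L)) (F₀.map P) with hg
  have hc0 : c ≠ 0 := nonZeroDivisors.ne_zero hc
  have hinj : Function.Injective (algebraMap (𝓞 L) L) := IsFractionRing.injective (𝓞 L) L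
  have hcK : algebraMap (𝓞 L) L c ≠ 0 := by
    rw [Ne, map_eq_zero_iff _ hinj]
    exact hc0
  have hgf : g.map (algebraMap (𝓞 L) L) = C (algebraMap (𝓞 L) L c) * F₀.map P := by
    rw [hcf]
    ext i
    rw [coeff_smul, coeff_C_mul, Algebra.smul_def]
  have hdegP : (F₀.map P).natDegree = F.natDegree := by
    apply le_antisymm
    · exact natDegree_map_le.trans natDegree_map_le
    · apply le_natDegree_of_ne_zero
      rw [coeff_map]
      exact hlc
  have hdeg : g.natDegree = F.natDegree := by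
    rw [← natDegree_map_eq_of_injective hinj g, hgf, natDegree_C_mul hcK, hdegP]
  have hgs : (g.map (algebraMap (𝓞 L) L)).Separable := by
    rw [hgf]
    exact Separable.unit_mul (isUnit_C.2 hcK.isUnit) hsep
  have hgσ : ∃ σ : AlgebraicClosure L ≃ₐ[L] AlgebraicClosure L,
      ∀ θ : AlgebraicClosure L, aeval θ (g.map (algebraMap (𝓞 L) L)) = 0 → σ θ ≠ θ := by
    obtain ⟨σ, hσ⟩ := hσ
    refine ⟨σ, fun θ hθ => hσ θ ?_⟩
    rw [hgf, map_mul, aeval_C] at hθ
    exact (mul_eq_zero.1 hθ).resolve_left ((_root_.map_ne_zero _).2 hcK)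
  obtain ⟨N1, hN1, hemb⟩ := hemb
  obtain ⟨N2, hN2, hunit⟩ := AE.unit (P s) hs
  obtain ⟨N3, hN3, hunitB⟩ := AE.unit (P (B.eval τ) * P ((D.map i).eval τ)) (mul_ne_zero hB hD)
  have hdL : (F.natDegree : 𝓞 L) ≠ 0 := by
    rw [Nat.cast_ne_zero]
    omega
  have hdisc : ((discr L : ℤ) : 𝓞 L) ≠ 0 := by
    exact_mod_cast discr_ne_zero L
  obtain ⟨T, hT, hTinj, hTε⟩ := primes1 L g
    (((c * N1 * N2 * N3) * (F.natDegree : 𝓞 L)) * ((discr L : ℤ) : 𝓞 L))
    (mul_ne_zero (mul_ne_zero (mul_ne_zero (mul_ne_zero (mul_ne_zero hc0 hN1) hN2) hN3) hdL) hdisc)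
    hgs hgσ ε hε
  have hT0 : ∀ v ∈ T, (c * N1 * N2 * N3) * (F.natDegree : 𝓞 L) ∉ v.asIdeal := fun v hv h =>
    (hT v hv).1.1 (Ideal.mul_mem_right _ _ h)
  have hT1 : ∀ v ∈ T, c * N1 * N2 * N3 ∉ v.asIdeal := fun v hv h => hT0 v hv
    (Ideal.mul_mem_right _ _ h)
  have hTc : ∀ v ∈ T, c ∉ v.asIdeal := fun v hv h => hT1 v hv
    (Ideal.mul_mem_right _ _ (Ideal.mul_mem_right _ _ (Ideal.mul_mem_right _ _ h)))
  have hTN1 : ∀ v ∈ T, N1 ∉ v.asIdeal := fun v hv h => hT1 v hv
    (Ideal.mul_mem_right _ _ (Ideal.mul_mem_right _ _ (Ideal.mul_mem_left _ _ h)))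
  have hTN2 : ∀ v ∈ T, N2 ∉ v.asIdeal := fun v hv h => hT1 v hv
    (Ideal.mul_mem_right _ _ (Ideal.mul_mem_left _ _ h))
  have hTN3 : ∀ v ∈ T, N3 ∉ v.asIdeal := fun v hv h => hT1 v hv
    (Ideal.mul_mem_left _ _ h)
  have hTd : ∀ v ∈ T, ((discr L : ℤ) : 𝓞 L) ∉ v.asIdeal := fun v hv h => (hT v hv).1.1
    (Ideal.mul_mem_left _ _ h)
  have hTℓ : ∀ v ∈ T, ∀ ℓ : ℕ, ℓ ∣ F.natDegree → (ℓ : 𝓞 L) ∉ v.asIdeal := by
    intro v hv ℓ hℓd h
    apply hT0 v hv
    obtain ⟨n, hn⟩ := hℓd
    rw [hn, Nat.cast_mul]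
    exact Ideal.mul_mem_left _ _ (Ideal.mul_mem_right _ _ h)
  have hPint : ∀ v ∈ T, ∀ r, v.valuation L (P r) ≤ 1 := fun v hv => (hemb v (hTN1 v hv)).1
  -- congruences
  have hcong : ∀ v ∈ T, ∀ (f : R₁[X]) (y : R₁), v.valuation L (P y - P τ) = exp (-1) →
      v.valuation L (P (f.eval y) - P (f.eval τ)) < 1 := by
    intro v hv f y hy
    obtain ⟨r, hr⟩ := sub_dvd_eval_sub y τ f
    rw [← map_sub, hr, map_mul, map_sub, map_mul, hy]
    refine (mul_le_mul' le_rfl (hPint v hv r)).trans_lt ?_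
    rw [mul_one, ← exp_zero, exp_lt_exp]
    omega
  -- the parameters with valuation one
  have hfine : ∀ v ∈ T, ∀ t : R, v.valuation L (P (i t) - P τ) = exp (-1) →
      (A.eval t ≠ 0 ∧ D.eval t ≠ 0 ∧ ∀ ℓ : ℕ, ℓ.Prime → ℓ ∣ F.natDegree → ¬ ℓ ∣ e →
        FineP ℓ (algebraMap R k (A.eval t)) ((F.map (evalRingHom t)).map (algebraMap R k))) := by
    intro v hv t ht
    have hun : ∀ f : R₁[X], v.valuation L (P (f.eval τ)) = 1 →
        v.valuation L (P (f.eval (i t))) = 1 := by
      intro f hf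
      have h4 : P (f.eval (i t)) = (P (f.eval (i t)) - P (f.eval τ)) + P (f.eval τ) := by ring
      rw [h4, Valuation.map_add_eq_of_lt_right _ (by
        rw [hf]
        exact hcong v hv _ _ ht), hf]
    have hunBD : v.valuation L (P (B.eval τ)) = 1 ∧ v.valuation L (P ((D.map i).eval τ)) = 1 := by
      have h1 : v.valuation L (P (B.eval τ) * P ((D.map i).eval τ)) = 1 := hunitB v (hTN3 v hv)
      rw [map_mul] at h1
      have h2 := hPint v hv (B.eval τ)
      have h4 := hPint v hv ((D.map i).eval τ)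
      constructor
      · apply le_antisymm h2
        by_contra h5
        rw [not_le] at h5
        rw [mul_comm] at h1
        exact absurd h1 (mul_lt_of_le_one_of_lt h4 h5).ne
      · apply le_antisymm h4
        by_contra h5
        rw [not_le] at h5
        exact absurd h1 (mul_lt_of_le_one_of_lt h2 h5).ne
    have hvB : v.valuation L (P (B.eval (i t))) = 1 := hun B hunBD.1
    have hvD : v.valuation L (P ((D.map i).eval (i t))) = 1 := hun _ hunBD.2
    have hAt : s * i (A.eval t) = (i t - τ) ^ e * B.eval (i t) := by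
      have h2 := congrArg (fun q => q.eval (i t)) hAB
      simp only [eval_mul, eval_C, eval_pow, eval_sub, eval_X] at h2
      rw [eval_map, eval₂_at_apply] at h2
      exact h2
    refine ⟨?_, ?_, ?_⟩
    · intro h0
      rw [h0, map_zero, mul_zero] at hAt
      have h1 := congrArg (fun z => v.valuation L (P z)) hAt
      simp only [map_zero, map_mul, map_pow, map_sub] at h1
      rw [ht, hvB, mul_one] at h1
      exact pow_ne_zero _ exp_ne_zero h1.symm
    · intro h0
      rw [eval_map, eval₂_at_apply, h0, map_zero, map_zero, map_zero] at hvD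
      exact zero_ne_one hvD
    intro ℓ hℓ hℓd hℓe
    have hfact : Fact ℓ.Prime := ⟨hℓ⟩
    obtain ⟨⟨-, -, hlcv, hsv, hrv⟩, -⟩ := hT v hv
    obtain ⟨hint, ψ, hψ⟩ := hemb v (hTN1 v hv)
    set G := F.map (evalRingHom t) with hG
    have hGle : G.natDegree ≤ F.natDegree := natDegree_map_le
    have hgG : ∀ n, v.valuation L (algebraMap (𝓞 L) L (g.coeff n) -
        algebraMap (𝓞 L) L c * P (i (G.coeff n))) < 1 := by
      intro n
      have h1 : algebraMap (𝓞 L) L (g.coeff n) = algebraMap (𝓞 L) L c * P (F₀.coeff n) := by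
        have := congrArg (fun q => q.coeff n) hgf
        simpa only [coeff_map, coeff_C_mul] using this
      have h2 : F₀.coeff n = ((F.coeff n).map i).eval τ := by
        rw [hF₀, coeff_map, eval_map]
        rfl
      have h4 : i (G.coeff n) = ((F.coeff n).map i).eval (i t) := by
        rw [hG, coeff_map, eval_map, eval₂_at_apply]
        rfl
      rw [h1, ← mul_sub, map_mul, h2, h4, ← Valuation.map_neg]
      refine mul_lt_of_le_one_of_lt ?_ ?_
      · rw [Valuation.map_neg]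
        exact v.valuation_le_one c
      · rw [← Valuation.map_neg, neg_sub]
        exact hcong v hv _ _ ht
    have hGdeg : g.natDegree = G.natDegree := by
      rw [hdeg]
      apply le_antisymm _ hGle
      apply le_natDegree_of_ne_zero
      intro h0
      have h1 := hgG F.natDegree
      rw [h0, map_zero, map_zero, mul_zero, sub_zero, ← hdeg] at h1
      rw [HeightOneSpectrum.valuation_lt_one_iff_mem] at h1
      exact hlcv h1
    refine fineP_emb' hFUN v hinjk (P.comp i) (ψ.comp j) (fun r => hint (i r)) ?_ (hTℓ v hv ℓ hℓd) G c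
      (hTc v hv) g hgG hGdeg hlcv hsv hrv (by rwa [← hGdeg, hdeg]) (by rwa [← hGdeg, hdeg]) _ (-e) ?_ ?_
    · intro r
      change vv v (ψ (j (algebraMap R k r)) - _) ≤ _
      rw [← hij]
      exact hψ (i r)
    · intro h
      rw [dvd_neg] at h
      exact hℓe (by exact_mod_cast h)
    · change vv v (ψ (j (algebraMap R k (A.eval t)))) = _
      rw [← hij]
      have e2 : (exp (-2) : ℤᵐ⁰) < 1 := by
        rw [← exp_zero, exp_lt_exp]
        omega
      have hvs : vv v (ψ (algebraMap R₁ k₁ s)) = 1 := by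
        rw [vv_eq_of_close v P ψ hψ s, hunit v (hTN2 v hv)]
        rw [hunit v (hTN2 v hv)]
        exact e2
      have hvB' : vv v (ψ (algebraMap R₁ k₁ (B.eval (i t)))) = 1 := by
        rw [vv_eq_of_close v P ψ hψ _ (by rw [hvB]; exact e2), hvB]
      have hvt : vv v (ψ (algebraMap R₁ k₁ (i t - τ))) = exp (-1) := by
        have h6 : v.valuation L (P (i t - τ)) = exp (-1) := by rw [map_sub, ht]
        rw [vv_eq_of_close v P ψ hψ _ (by
          rw [h6, exp_lt_exp]
          omega), h6]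
      have h7 := congrArg (fun z => vv v (ψ (algebraMap R₁ k₁ z))) hAt
      simp only [map_mul, map_pow] at h7
      rw [hvs, hvB', hvt, one_mul, mul_one] at h7
      rw [h7, ← exp_nsmul]
      congr 1
      simp
  set E : Set R := {t : R | ¬ (A.eval t ≠ 0 ∧ D.eval t ≠ 0 ∧ ∀ ℓ : ℕ, ℓ.Prime → ℓ ∣ F.natDegree → ¬ ℓ ∣ e →
          FineP ℓ (algebraMap R k (A.eval t)) ((F.map (evalRingHom t)).map (algebraMap R k)))} with hE
  set J := ∏ v ∈ T, v.asIdeal ^ 2 with hJ
  have hJ0 : J ≠ ⊥ := Finset.prod_ne_zero_iff.2 fun v _ => pow_ne_zero _ v.ne_bot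
  have hfinJ : Finite (𝓞 L ⧸ J) := Ideal.finiteQuotientOfFreeOfNeBot _ hJ0
  -- the ideal
  let I : Ideal R :=
    { carrier := {r | ∀ v ∈ T, v.valuation L (P (i r)) ≤ exp (-2)}
      add_mem' := by
        intro r s hr hs v hv
        rw [map_add, map_add]
        exact (Valuation.map_add _ _ _).trans (max_le (hr v hv) (hs v hv))
      zero_mem' := by
        intro v hv
        rw [map_zero, map_zero, map_zero]
        exact zero_le
      smul_mem' := by
        intro r s hs v hv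
        rw [smul_eq_mul, map_mul, map_mul, map_mul, mul_comm]
        exact mul_le_of_le_of_le_one (hs v hv) (hPint v hv (i r)) }
  have hImem : ∀ r, r ∈ I ↔ ∀ v ∈ T, v.valuation L (P (i r)) ≤ exp (-2) := fun r => Iff.rfl
  have hcl : ∀ r r' : R, ∀ y y' : 𝓞 L,
      (∀ v ∈ T, v.valuation L (P (i r) - P τ - algebraMap (𝓞 L) L y) ≤ exp (-2)) →
      (∀ v ∈ T, v.valuation L (P (i r') - P τ - algebraMap (𝓞 L) L y') ≤ exp (-2)) →
      (r - r' ∈ I ↔ y - y' ∈ J) := by
    intro r r' y y' h1 h2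
    rw [hImem, hJ, mem_prod_iff]
    refine forall₂_congr fun v hv => ?_
    rw [← val_le_iff]
    constructor
    · intro h3
      have h5 : algebraMap (𝓞 L) L (y - y') = P (i (r - r')) - ((P (i r) - P τ -
        algebraMap (𝓞 L) L y) - (P (i r') - P τ - algebraMap (𝓞 L) L y')) := by
        rw [map_sub, map_sub, map_sub]
        ring
      rw [h5]
      exact (Valuation.map_sub _ _ _).trans (max_le h3
        ((Valuation.map_sub _ _ _).trans (max_le (h1 v hv) (h2 v hv))))
    · intro h3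
      have h5 : P (i (r - r')) = algebraMap (𝓞 L) L (y - y') + ((P (i r) - P τ -
        algebraMap (𝓞 L) L y) - (P (i r') - P τ - algebraMap (𝓞 L) L y')) := by
        rw [map_sub, map_sub, map_sub]
        ring
      rw [h5]
      exact (Valuation.map_add _ _ _).trans (max_le h3
        ((Valuation.map_sub _ _ _).trans (max_le (h1 v hv) (h2 v hv))))
  have hex : ∀ r : R, ∃ y : 𝓞 L,
      ∀ v ∈ T, v.valuation L (P (i r) - P τ - algebraMap (𝓞 L) L y) ≤ exp (-2) := fun r =>
    exists_int_near T (P (i r) - P τ) fun v hv => by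
      rw [← map_sub]
      exact hPint v hv _
  choose Y hY using hex
  have hsurj : ∀ y : 𝓞 L, ∃ r : R,
      ∀ v ∈ T, v.valuation L (P (i r) - P τ - algebraMap (𝓞 L) L y) ≤ exp (-2) := by
    intro y
    obtain ⟨y0, hy0⟩ := exists_int_near T (P τ) fun v hv => hPint v hv τ
    obtain ⟨n, hn⟩ := exists_int_sub_mem T (fun v hv => ⟨(hT v hv).2,
      notMem_sq v (hT v hv).2 (hTd v hv)⟩) hTinj (y + y0)
    refine ⟨(n : R), fun v hv => ?_⟩
    have h1 : P (i (n : R)) - P τ - algebraMap (𝓞 L) L y =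
        - algebraMap (𝓞 L) L (y + y0 - n) - (P τ - algebraMap (𝓞 L) L y0) := by
      rw [map_intCast, map_intCast, map_sub, map_add, map_intCast]
      ring
    rw [h1]
    refine (Valuation.map_sub _ _ _).trans (max_le ?_ (hy0 v hv))
    rw [Valuation.map_neg, val_le_iff]
    exact (mem_prod_iff T _).1 hn v hv
  let b : R ⧸ I → 𝓞 L ⧸ J := fun q => Ideal.Quotient.mk J (Y (Quotient.out q))
  have hout : ∀ q : R ⧸ I, Ideal.Quotient.mk I (Quotient.out q) = q := fun q =>
    Quotient.out_eq q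
  have hbmk : ∀ (r : R) (y : 𝓞 L),
      (∀ v ∈ T, v.valuation L (P (i r) - P τ - algebraMap (𝓞 L) L y) ≤ exp (-2)) →
      b (Ideal.Quotient.mk I r) = Ideal.Quotient.mk J y := by
    intro r y hry
    change Ideal.Quotient.mk J _ = _
    rw [Ideal.Quotient.eq]
    refine (hcl _ r _ y (hY _) hry).1 ?_
    rw [← Ideal.Quotient.eq]
    exact hout _
  have hbinj : Function.Injective b := by
    intro q q' hqq
    have h1 := Ideal.Quotient.eq.1 hqq
    rw [← hcl (Quotient.out q) (Quotient.out q') _ _ (hY _) (hY _), ← Ideal.Quotient.eq, hout,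
      hout] at h1
    exact h1
  have hbsurj : Function.Surjective b := by
    intro z
    obtain ⟨y, rfl⟩ := Ideal.Quotient.mk_surjective z
    obtain ⟨r, hr⟩ := hsurj y
    exact ⟨Ideal.Quotient.mk I r, hbmk r y hr⟩
  have hfinI : Finite (R ⧸ I) := Finite.of_injective b hbinj
  have hcard : Nat.card (R ⧸ I) = Nat.card (𝓞 L ⧸ J) :=
    Nat.card_congr (Equiv.ofBijective b ⟨hbinj, hbsurj⟩)
  refine ⟨I, hfinI, ?_⟩
  have hD2 := Pool.Agent.W417.SecC.D2.partD2 L T
    {y : 𝓞 L | ∃ r ∈ E, ∀ v ∈ T, v.valuation L (P (i r) - P τ - algebraMap (𝓞 L) L y) ≤ exp (-2)} (by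
      rintro y ⟨r, hrE, hr⟩ v hv hyv
      by_contra hy2
      apply hrE
      apply hfine v hv r
      have h1 : v.valuation L (algebraMap (𝓞 L) L y) = exp (-1) := by
        apply le_antisymm
        · rw [HeightOneSpectrum.valuation_of_algebraMap]
          exact (v.intValuation_le_pow_iff_mem y 1).2 (by rwa [pow_one])
        · by_contra h2
          rw [not_le] at h2
          exact hy2 ((val_le_iff v y).1 (lt_exp_neg_one _ h2))
      have h2 : P (i r) - P τ = (P (i r) - P τ - algebraMap (𝓞 L) L y) + algebraMap (𝓞 L) L y := by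
        ring
      rw [h2, Valuation.map_add_eq_of_lt_right _ (by
        rw [h1]
        refine (hr v hv).trans_lt ?_
        rw [exp_lt_exp]
        omega), h1])
  have hle : Set.ncard ((Ideal.Quotient.mk I) '' E) ≤ Set.ncard ((Ideal.Quotient.mk J) ''
      {y : 𝓞 L | ∃ r ∈ E, ∀ v ∈ T,
        v.valuation L (P (i r) - P τ - algebraMap (𝓞 L) L y) ≤ exp (-2)}) := by
    refine Set.ncard_le_ncard_of_injOn b ?_ hbinj.injOn (Set.toFinite _)
    rintro _ ⟨r, hr, rfl⟩
    exact ⟨Y r, ⟨r, hr, hY r⟩, (hbmk r _ (hY r)).symm⟩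
  rw [hcard]
  calc (Set.ncard ((Ideal.Quotient.mk I) '' E) : ℝ) ≤ _ := by exact_mod_cast hle
    _ ≤ _ := hD2
    _ ≤ ε * Nat.card (𝓞 L ⧸ J) := mul_le_mul_of_nonneg_right hTε.le (Nat.cast_nonneg _)

end Pool.Agent.K6.H56.TF
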