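import Pool.Agent.K6.H56.AE2
import Pool.Agent.K6.H56.AE3
import Pool.Agent.K6.H56.TF4

/-! Density of the parameters with a good place: the argument at a point of a model. -/

set_option autoImplicit false
set_option linter.all false

namespace Pool.Agent.K6.H56.AE

open IsDedekindDomain NumberField WithZero Polynomial FF Pool.Agent.W623.SecC Pool.Agent.W858.SF
open Pool.Agent.W858.SG Pool.Agent.Y141.PS Pool.Agent.K6.H56.TF

/-- A good place of `k` for `a` and `f`: a discrete valuation ring `O` of `k` with a finite residue field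
`κ` in which `M` is not zero, such that `f` has coefficients in `O`, a unit as leading coefficient and a
separable reduction whose irreducible factors have degrees `n` with `S n`, and such that `a` has the
valuation `e`. -/
def GoodPlace {k : Type} [Field k] (a : k) (f : k[X]) (e : ℕ) (S : ℕ → Prop) (M : ℕ) : Prop :=
  ∃ (O : ValuationSubring k) (_ : IsDiscreteValuationRing O) (κ : Type) (_ : Field κ) (_ : Finite κ)
    (ρ : O →+* κ) (g : O[X]) (ϖ u : O), Function.Surjective ρ ∧ g.map (algebraMap O k) = f ∧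
    IsUnit g.leadingCoeff ∧ (g.map ρ).Separable ∧
    (∀ h : κ[X], Irreducible h → h ∣ g.map ρ → S h.natDegree) ∧
    Irreducible ϖ ∧ IsUnit u ∧ a = (u : k) * (ϖ : k) ^ e ∧ (M : κ) ≠ 0

theorem GoodPlace.mono {k : Type} [Field k] {a : k} {f : k[X]} {e : ℕ} {S S' : ℕ → Prop} {M : ℕ}
    (h : GoodPlace a f e S M) (hS : ∀ n, S n → S' n) : GoodPlace a f e S' M := by
  obtain ⟨O, hO, κ, i1, i2, ρ, g, ϖ, u, h1, h2, h3, h4, h5, h6⟩ := h
  exact ⟨O, hO, κ, i1, i2, ρ, g, ϖ, u, h1, h2, h3, h4, fun q hq hqg => hS _ (h5 q hq hqg), h6⟩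

theorem density_gp {R k R₁ k₁ : Type} [CommRing R] [Field k] [CharZero k]
    [Algebra R k] (hinjk : Function.Injective (algebraMap R k)) [CommRing R₁] [Field k₁]
    [Algebra R₁ k₁] (i : R →+* R₁) (j : k →+* k₁)
    (hij : ∀ r, algebraMap R₁ k₁ (i r) = j (algebraMap R k r)) (τ s : R₁) (A : R[X]) (F : R[X][X])
    (D : R[X]) (e : ℕ) (B : R₁[X]) (hAB : C s * A.map i = (X - C τ) ^ e * B) (M : ℕ) (hM : M ≠ 0)
    {L : Type} [Field L] [NumberField L] (P : R₁ →+* L) (hs : P s ≠ 0) (hB : P (B.eval τ) ≠ 0)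
    (hD : P ((D.map i).eval τ) ≠ 0)
    (hlc : P ((F.map (eval₂RingHom i τ)).coeff F.natDegree) ≠ 0)
    (hsep : ((F.map (eval₂RingHom i τ)).map P).Separable)
    (S : ℕ → Prop) (σ : AlgebraicClosure L ≃ₐ[L] AlgebraicClosure L)
    (hσ : ∀ θ : AlgebraicClosure L, aeval θ ((F.map (eval₂RingHom i τ)).map P) = 0 →
      ∀ n : ℕ, (σ ^ n) θ = θ → S n)
    (hemb : AE fun v : HeightOneSpectrum (𝓞 L) => (∀ r, v.valuation L (P r) ≤ 1) ∧
      ∃ ψ : k₁ →+* v.adicCompletion L,
        ∀ r, vv v (ψ (algebraMap R₁ k₁ r) - algebraMap L (v.adicCompletion L) (P r)) ≤ exp (-2))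
    (ε : ℝ) (hε : 0 < ε) :
    ∃ I : Ideal R, Finite (R ⧸ I) ∧
      (Set.ncard ((Ideal.Quotient.mk I) ''
        {t : R | ¬ (A.eval t ≠ 0 ∧ D.eval t ≠ 0 ∧
          GoodPlace (algebraMap R k (A.eval t)) ((F.map (evalRingHom t)).map (algebraMap R k))
            e S M)}) : ℝ) ≤
        ε * Nat.card (R ⧸ I) := by
  classical
  set F₀ := F.map (eval₂RingHom i τ) with hF₀
  obtain ⟨c, hc, hcf⟩ := IsLocalization.integerNormalization_spec (nonZeroDivisors (𝓞 L)) (F₀.map P)
  set g := IsLocalization.integerNormalization (nonZeroDivisors (𝓞 L)) (F₀.map P) with hg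
  have hc0 : c ≠ 0 := nonZeroDivisors.ne_zero hc
  have hinj : Function.Injective (algebraMap (𝓞 L) L) := IsFractionRing.injective (𝓞 L) L
  have hcK : algebraMap (𝓞 L) L c ≠ 0 := by
    rw [Ne, map_eq_zero_iff _ hinj]
    exact hc0
  have hgf : g.map (algebraMap (𝓞 L) L) = C (algebraMap (𝓞 L) L c) * F₀.map P := by
    rw [hcf]
    ext i
    rw [coeff_smul, coeff_C_mul, Algebra.smul_def]
  have hdegP : (F₀.map P).natDegree = F.natDegree := by
    apply le_antisymm
    · exact natDegree_map_le.trans natDegree_map_le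
    · apply le_natDegree_of_ne_zero
      rw [coeff_map]
      exact hlc
  have hdeg : g.natDegree = F.natDegree := by
    rw [← natDegree_map_eq_of_injective hinj g, hgf, natDegree_C_mul hcK, hdegP]
  have hgs : (g.map (algebraMap (𝓞 L) L)).Separable := by
    rw [hgf]
    exact Separable.unit_mul (isUnit_C.2 hcK.isUnit) hsep
  have hgσ : ∀ θ : AlgebraicClosure L, aeval θ (g.map (algebraMap (𝓞 L) L)) = 0 →
      ∀ n : ℕ, (σ ^ n) θ = θ → S n := by
    intro θ hθ
    rw [hgf, map_mul, aeval_C] at hθ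
    exact hσ θ ((mul_eq_zero.1 hθ).resolve_left ((_root_.map_ne_zero _).2 hcK))
  obtain ⟨N1, hN1, hemb⟩ := hemb
  obtain ⟨N2, hN2, hunit⟩ := AE.unit (P s) hs
  obtain ⟨N3, hN3, hunitB⟩ := AE.unit (P (B.eval τ) * P ((D.map i).eval τ)) (mul_ne_zero hB hD)
  have hdL : (M : 𝓞 L) ≠ 0 := by
    rw [Nat.cast_ne_zero]
    exact hM
  have hdisc : ((discr L : ℤ) : 𝓞 L) ≠ 0 := by
    exact_mod_cast discr_ne_zero L
  obtain ⟨T, hT, hTinj, hTε⟩ := primes2 L g
    (((c * N1 * N2 * N3) * (M : 𝓞 L)) * ((discr L : ℤ) : 𝓞 L))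
    (mul_ne_zero (mul_ne_zero (mul_ne_zero (mul_ne_zero (mul_ne_zero hc0 hN1) hN2) hN3) hdL) hdisc)
    hgs σ ε hε
  have hT0 : ∀ v ∈ T, (c * N1 * N2 * N3) * (M : 𝓞 L) ∉ v.asIdeal := fun v hv h =>
    (hT v hv).1.1 (Ideal.mul_mem_right _ _ h)
  have hT1 : ∀ v ∈ T, c * N1 * N2 * N3 ∉ v.asIdeal := fun v hv h => hT0 v hv
    (Ideal.mul_mem_right _ _ h)
  have hTc : ∀ v ∈ T, c ∉ v.asIdeal := fun v hv h => hT1 v hv
    (Ideal.mul_mem_right _ _ (Ideal.mul_mem_right _ _ (Ideal.mul_mem_right _ _ h)))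
  have hTN1 : ∀ v ∈ T, N1 ∉ v.asIdeal := fun v hv h => hT1 v hv
    (Ideal.mul_mem_right _ _ (Ideal.mul_mem_right _ _ (Ideal.mul_mem_left _ _ h)))
  have hTN2 : ∀ v ∈ T, N2 ∉ v.asIdeal := fun v hv h => hT1 v hv
    (Ideal.mul_mem_right _ _ (Ideal.mul_mem_left _ _ h))
  have hTN3 : ∀ v ∈ T, N3 ∉ v.asIdeal := fun v hv h => hT1 v hv
    (Ideal.mul_mem_left _ _ h)
  have hTd : ∀ v ∈ T, ((discr L : ℤ) : 𝓞 L) ∉ v.asIdeal := fun v hv h => (hT v hv).1.1
    (Ideal.mul_mem_left _ _ h)
  have hTM : ∀ v ∈ T, (M : 𝓞 L) ∉ v.asIdeal := fun v hv h => hT0 v hv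
    (Ideal.mul_mem_left _ _ h)
  have hPint : ∀ v ∈ T, ∀ r, v.valuation L (P r) ≤ 1 := fun v hv => (hemb v (hTN1 v hv)).1
  -- congruences
  have hcong : ∀ v ∈ T, ∀ (f : R₁[X]) (y : R₁), v.valuation L (P y - P τ) = exp (-1) →
      v.valuation L (P (f.eval y) - P (f.eval τ)) < 1 := by
    intro v hv f y hy
    obtain ⟨r, hr⟩ := sub_dvd_eval_sub y τ f
    rw [← map_sub, hr, map_mul, map_sub, map_mul, hy]
    refine (mul_le_mul' le_rfl (hPint v hv r)).trans_lt ?_
    rw [mul_one, ← exp_zero, exp_lt_exp]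
    omega
  -- the parameters with valuation one
  have hfine : ∀ v ∈ T, ∀ t : R, v.valuation L (P (i t) - P τ) = exp (-1) →
      (A.eval t ≠ 0 ∧ D.eval t ≠ 0 ∧
        GoodPlace (algebraMap R k (A.eval t)) ((F.map (evalRingHom t)).map (algebraMap R k))
          e S M) := by
    intro v hv t ht
    have hun : ∀ f : R₁[X], v.valuation L (P (f.eval τ)) = 1 →
        v.valuation L (P (f.eval (i t))) = 1 := by
      intro f hf
      have h4 : P (f.eval (i t)) = (P (f.eval (i t)) - P (f.eval τ)) + P (f.eval τ) := by ring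
      rw [h4, Valuation.map_add_eq_of_lt_right _ (by
        rw [hf]
        exact hcong v hv _ _ ht), hf]
    have hunBD : v.valuation L (P (B.eval τ)) = 1 ∧ v.valuation L (P ((D.map i).eval τ)) = 1 := by
      have h1 : v.valuation L (P (B.eval τ) * P ((D.map i).eval τ)) = 1 := hunitB v (hTN3 v hv)
      rw [map_mul] at h1
      have h2 := hPint v hv (B.eval τ)
      have h4 := hPint v hv ((D.map i).eval τ)
      constructor
      · apply le_antisymm h2
        by_contra h5
        rw [not_le] at h5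
        rw [mul_comm] at h1
        exact absurd h1 (mul_lt_of_le_one_of_lt h4 h5).ne
      · apply le_antisymm h4
        by_contra h5
        rw [not_le] at h5
        exact absurd h1 (mul_lt_of_le_one_of_lt h2 h5).ne
    have hvB : v.valuation L (P (B.eval (i t))) = 1 := hun B hunBD.1
    have hvD : v.valuation L (P ((D.map i).eval (i t))) = 1 := hun _ hunBD.2
    have hAt : s * i (A.eval t) = (i t - τ) ^ e * B.eval (i t) := by
      have h2 := congrArg (fun q => q.eval (i t)) hAB
      simp only [eval_mul, eval_C, eval_pow, eval_sub, eval_X] at h2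
      rw [eval_map, eval₂_at_apply] at h2
      exact h2
    refine ⟨?_, ?_, ?_⟩
    · intro h0
      rw [h0, map_zero, mul_zero] at hAt
      have h1 := congrArg (fun z => v.valuation L (P z)) hAt
      simp only [map_zero, map_mul, map_pow, map_sub] at h1
      rw [ht, hvB, mul_one] at h1
      exact pow_ne_zero _ exp_ne_zero h1.symm
    · intro h0
      rw [eval_map, eval₂_at_apply, h0, map_zero, map_zero, map_zero] at hvD
      exact zero_ne_one hvD
    obtain ⟨⟨-, hlcv, hsv, hfv⟩, hpv⟩ := hT v hv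
    obtain ⟨hint, ψ, hψ⟩ := hemb v (hTN1 v hv)
    set G := F.map (evalRingHom t) with hG
    have hGle : G.natDegree ≤ F.natDegree := natDegree_map_le
    have hgG : ∀ n, v.valuation L (algebraMap (𝓞 L) L (g.coeff n) -
        algebraMap (𝓞 L) L c * P (i (G.coeff n))) < 1 := by
      intro n
      have h1 : algebraMap (𝓞 L) L (g.coeff n) = algebraMap (𝓞 L) L c * P (F₀.coeff n) := by
        have := congrArg (fun q => q.coeff n) hgf
        simpa only [coeff_map, coeff_C_mul] using this
      have h2 : F₀.coeff n = ((F.coeff n).map i).eval τ := by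
        rw [hF₀, coeff_map, eval_map]
        rfl
      have h4 : i (G.coeff n) = ((F.coeff n).map i).eval (i t) := by
        rw [hG, coeff_map, eval_map, eval₂_at_apply]
        rfl
      rw [h1, ← mul_sub, map_mul, h2, h4, ← Valuation.map_neg]
      refine mul_lt_of_le_one_of_lt ?_ ?_
      · rw [Valuation.map_neg]
        exact v.valuation_le_one c
      · rw [← Valuation.map_neg, neg_sub]
        exact hcong v hv _ _ ht
    have hGdeg : g.natDegree = G.natDegree := by
      rw [hdeg]
      apply le_antisymm _ hGle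
      apply le_natDegree_of_ne_zero
      intro h0
      have h1 := hgG F.natDegree
      rw [h0, map_zero, map_zero, mul_zero, sub_zero, ← hdeg] at h1
      rw [HeightOneSpectrum.valuation_lt_one_iff_mem] at h1
      exact hlcv h1
    -- the value of `A t`
    have hval : vv v ((ψ.comp j) (algebraMap R k (A.eval t))) = exp (-(e : ℤ)) := by
      change vv v (ψ (j (algebraMap R k (A.eval t)))) = _
      rw [← hij]
      have e2 : (exp (-2) : ℤᵐ⁰) < 1 := by
        rw [← exp_zero, exp_lt_exp]
        omega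
      have hvs : vv v (ψ (algebraMap R₁ k₁ s)) = 1 := by
        rw [vv_eq_of_close v P ψ hψ s, hunit v (hTN2 v hv)]
        rw [hunit v (hTN2 v hv)]
        exact e2
      have hvB' : vv v (ψ (algebraMap R₁ k₁ (B.eval (i t)))) = 1 := by
        rw [vv_eq_of_close v P ψ hψ _ (by rw [hvB]; exact e2), hvB]
      have hvt : vv v (ψ (algebraMap R₁ k₁ (i t - τ))) = exp (-1) := by
        have h6 : v.valuation L (P (i t - τ)) = exp (-1) := by rw [map_sub, ht]
        rw [vv_eq_of_close v P ψ hψ _ (by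
          rw [h6, exp_lt_exp]
          omega), h6]
      have h7 := congrArg (fun z => vv v (ψ (algebraMap R₁ k₁ z))) hAt
      simp only [map_mul, map_pow] at h7
      rw [hvs, hvB', hvt, one_mul, mul_one] at h7
      rw [h7, ← exp_nsmul]
      congr 1
      simp
    obtain ⟨O, hO, ρ, hρs, hOmem, hρc, hOunit, ϖ, hϖ, hϖa⟩ := local_data v hpv
      (notMem_sq v hpv (hTd v hv)) (ψ.comp j)
    have hmaxv : v.asIdeal.IsMaximal := v.isMaximal
    let _ := Ideal.Quotient.field v.asIdeal
    have hfinv : Finite (𝓞 L ⧸ v.asIdeal) := Ideal.finiteQuotientOfFreeOfNeBot _ v.ne_bot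
    have hψj : ∀ r : R, vv v ((ψ.comp j) (algebraMap R k r) -
        algebraMap L (v.adicCompletion L) (P (i r))) ≤ exp (-2) := by
      intro r
      change vv v (ψ (j (algebraMap R k r)) - _) ≤ _
      rw [← hij]
      exact hψ (i r)
    have hγ2 : (exp (-2) : ℤᵐ⁰) < 1 := by
      rw [← exp_zero, exp_lt_exp]
      omega
    have hRO : ∀ r : R, algebraMap R k r ∈ O := by
      intro r
      rw [hOmem]
      have h1 : (ψ.comp j) (algebraMap R k r) = ((ψ.comp j) (algebraMap R k r) -
        algebraMap L (v.adicCompletion L) (P (i r))) +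
          algebraMap L (v.adicCompletion L) (P (i r)) := by ring
      rw [h1]
      refine (Valuation.map_add _ _ _).trans (max_le ((hψj r).trans hγ2.le) ?_)
      rw [vv_algebraMap]
      exact hint (i r)
    let RO : R →+* O := (algebraMap R k).codRestrict O hRO
    have hROc : (algebraMap O k).comp RO = algebraMap R k := rfl
    have hcunit : Ideal.Quotient.mk v.asIdeal c ≠ 0 := by
      rw [Ne, Ideal.Quotient.eq_zero_iff_mem]
      exact hTc v hv
    -- reductions
    have hred : ∀ r : R, ∀ z : 𝓞 L,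
        v.valuation L (algebraMap (𝓞 L) L z - algebraMap (𝓞 L) L c * P (i r)) < 1 →
        Ideal.Quotient.mk v.asIdeal c * ρ (RO r) = Ideal.Quotient.mk v.asIdeal z := by
      intro r z hz
      have hcO : ∀ y : 𝓞 L, ∃ q : O, vv v ((ψ.comp j) (q : k) -
          algebraMap L (v.adicCompletion L) (algebraMap (𝓞 L) L y)) < 1 := by
        intro y
        obtain ⟨n, hn⟩ := exists_int_sub_mem {v} (by
          intro w' hw'
          rw [Finset.mem_singleton] at hw'
          rw [hw']
          exact ⟨hpv, notMem_sq v hpv (hTd v hv)⟩) (by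
          intro a ha b hb _
          rw [Finset.mem_singleton] at ha hb
          rw [ha, hb]) y
        rw [Finset.prod_singleton] at hn
        refine ⟨(n : O), ?_⟩
        have h1 : (ψ.comp j) (((n : O) : O) : k) =
            algebraMap L (v.adicCompletion L) (algebraMap (𝓞 L) L (n : 𝓞 L)) := by
          have h2 : (((n : O) : O) : k) = (n : k) := by norm_cast
          rw [h2, map_intCast, map_intCast, map_intCast]
        rw [h1, ← map_sub, ← map_sub, vv_algebraMap, HeightOneSpectrum.valuation_lt_one_iff_mem]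
        have h3 : (n : 𝓞 L) - y = -(y - n) := by ring
        rw [h3]
        exact v.asIdeal.neg_mem (Ideal.pow_le_self two_ne_zero hn)
      obtain ⟨q, hq⟩ := hcO c
      rw [← hρc q c hq, ← map_mul]
      apply hρc
      have hq1 : vv v ((ψ.comp j) (q : k)) ≤ 1 := (hOmem _).1 q.2
      have hPr : vv v (algebraMap L (v.adicCompletion L) (P (i r))) ≤ 1 := by
        rw [vv_algebraMap]
        exact hint (i r)
      have h1 : (ψ.comp j) ((q * RO r : O) : k) -
          algebraMap L (v.adicCompletion L) (algebraMap (𝓞 L) L z) =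
          ((ψ.comp j) (q : k) * ((ψ.comp j) (algebraMap R k r) -
            algebraMap L (v.adicCompletion L) (P (i r))) +
          ((ψ.comp j) (q : k) - algebraMap L (v.adicCompletion L) (algebraMap (𝓞 L) L c)) *
            algebraMap L (v.adicCompletion L) (P (i r))) -
          algebraMap L (v.adicCompletion L) (algebraMap (𝓞 L) L z -
            algebraMap (𝓞 L) L c * P (i r)) := by
        have h2 : (((q * RO r : O) : O) : k) = (q : k) * algebraMap R k r := rfl
        rw [h2]
        simp only [map_mul, map_sub]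
        ring
      rw [h1]
      refine (Valuation.map_sub _ _ _).trans_lt (max_lt ((Valuation.map_add _ _ _).trans_lt
        (max_lt ?_ ?_)) ?_)
      · rw [map_mul]
        exact mul_lt_of_le_one_of_lt hq1 ((hψj r).trans_lt hγ2)
      · rw [map_mul, mul_comm]
        exact mul_lt_of_le_one_of_lt hPr hq
      · rw [vv_algebraMap]
        exact hz
    have hpoly : C (Ideal.Quotient.mk v.asIdeal c) * (G.map RO).map ρ =
        g.map (Ideal.Quotient.mk v.asIdeal) := by
      ext n
      rw [coeff_C_mul, coeff_map, coeff_map]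
      exact (hred _ _ (hgG n)).trans (coeff_map _ _).symm
    have hinjRO : Function.Injective RO := by
      intro a b hab
      apply hinjk
      exact congrArg (fun z : O => (z : k)) hab
    have hlcO : (G.map RO).leadingCoeff = RO G.leadingCoeff := leadingCoeff_map_of_injective hinjRO G
    have hlcρ : ρ (G.map RO).leadingCoeff ≠ 0 := by
      intro h0
      have h1 := congrArg (fun q => q.coeff g.natDegree) hpoly
      simp only [coeff_C_mul, coeff_map] at h1
      rw [hGdeg] at h1
      rw [hlcO] at h0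
      have h2 : G.coeff G.natDegree = G.leadingCoeff := rfl
      rw [h2, h0, mul_zero, eq_comm, Ideal.Quotient.eq_zero_iff_mem, ← hGdeg] at h1
      exact hlcv h1
    refine ⟨O, hO, 𝓞 L ⧸ v.asIdeal, inferInstance, hfinv, ρ, G.map RO, ϖ, ?_⟩
    obtain ⟨u, hu, hau⟩ := hϖa _ e hval
    refine ⟨u, hρs, ?_, ?_, ?_, ?_, hϖ, hu, ?_, ?_⟩
    · rw [Polynomial.map_map, hROc]
    · by_contra h0
      apply hlcρ
      have hker : RingHom.ker ρ = IsLocalRing.maximalIdeal O := by
        have hmax : (RingHom.ker ρ).IsMaximal := RingHom.ker_isMaximal_of_surjective ρ hρs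
        exact IsLocalRing.eq_maximalIdeal hmax
      rw [← RingHom.mem_ker, hker]
      exact h0
    · have h1 := hsv
      rw [← hpoly] at h1
      exact h1.of_mul_right
    · intro h hirr hdvd
      obtain ⟨θ₀, hθ₀, hθ₀'⟩ := hfv h hirr (by
        rw [← hpoly]
        exact hdvd.mul_left _)
      exact hgσ θ₀ hθ₀ _ hθ₀'
    · rw [hau, zpow_natCast]
    · have h1 := hTM v hv
      rw [← Ideal.Quotient.eq_zero_iff_mem, map_natCast] at h1
      exact h1
  set E : Set R := {t : R | ¬ (A.eval t ≠ 0 ∧ D.eval t ≠ 0 ∧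
          GoodPlace (algebraMap R k (A.eval t)) ((F.map (evalRingHom t)).map (algebraMap R k))
            e S M)} with hE
  set J := ∏ v ∈ T, v.asIdeal ^ 2 with hJ
  have hJ0 : J ≠ ⊥ := Finset.prod_ne_zero_iff.2 fun v _ => pow_ne_zero _ v.ne_bot
  have hfinJ : Finite (𝓞 L ⧸ J) := Ideal.finiteQuotientOfFreeOfNeBot _ hJ0
  -- the ideal
  let I : Ideal R :=
    { carrier := {r | ∀ v ∈ T, v.valuation L (P (i r)) ≤ exp (-2)}
      add_mem' := by
        intro r s hr hs v hv
        rw [map_add, map_add]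
        exact (Valuation.map_add _ _ _).trans (max_le (hr v hv) (hs v hv))
      zero_mem' := by
        intro v hv
        rw [map_zero, map_zero, map_zero]
        exact zero_le
      smul_mem' := by
        intro r s hs v hv
        rw [smul_eq_mul, map_mul, map_mul, map_mul, mul_comm]
        exact mul_le_of_le_of_le_one (hs v hv) (hPint v hv (i r)) }
  have hImem : ∀ r, r ∈ I ↔ ∀ v ∈ T, v.valuation L (P (i r)) ≤ exp (-2) := fun r => Iff.rfl
  have hcl : ∀ r r' : R, ∀ y y' : 𝓞 L,
      (∀ v ∈ T, v.valuation L (P (i r) - P τ - algebraMap (𝓞 L) L y) ≤ exp (-2)) →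
      (∀ v ∈ T, v.valuation L (P (i r') - P τ - algebraMap (𝓞 L) L y') ≤ exp (-2)) →
      (r - r' ∈ I ↔ y - y' ∈ J) := by
    intro r r' y y' h1 h2
    rw [hImem, hJ, mem_prod_iff]
    refine forall₂_congr fun v hv => ?_
    rw [← val_le_iff]
    constructor
    · intro h3
      have h5 : algebraMap (𝓞 L) L (y - y') = P (i (r - r')) - ((P (i r) - P τ -
        algebraMap (𝓞 L) L y) - (P (i r') - P τ - algebraMap (𝓞 L) L y')) := by
        rw [map_sub, map_sub, map_sub]
        ring
      rw [h5]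
      exact (Valuation.map_sub _ _ _).trans (max_le h3
        ((Valuation.map_sub _ _ _).trans (max_le (h1 v hv) (h2 v hv))))
    · intro h3
      have h5 : P (i (r - r')) = algebraMap (𝓞 L) L (y - y') + ((P (i r) - P τ -
        algebraMap (𝓞 L) L y) - (P (i r') - P τ - algebraMap (𝓞 L) L y')) := by
        rw [map_sub, map_sub, map_sub]
        ring
      rw [h5]
      exact (Valuation.map_add _ _ _).trans (max_le h3
        ((Valuation.map_sub _ _ _).trans (max_le (h1 v hv) (h2 v hv))))
  have hex : ∀ r : R, ∃ y : 𝓞 L,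
      ∀ v ∈ T, v.valuation L (P (i r) - P τ - algebraMap (𝓞 L) L y) ≤ exp (-2) := fun r =>
    exists_int_near T (P (i r) - P τ) fun v hv => by
      rw [← map_sub]
      exact hPint v hv _
  choose Y hY using hex
  have hsurj : ∀ y : 𝓞 L, ∃ r : R,
      ∀ v ∈ T, v.valuation L (P (i r) - P τ - algebraMap (𝓞 L) L y) ≤ exp (-2) := by
    intro y
    obtain ⟨y0, hy0⟩ := exists_int_near T (P τ) fun v hv => hPint v hv τ
    obtain ⟨n, hn⟩ := exists_int_sub_mem T (fun v hv => ⟨(hT v hv).2,
      notMem_sq v (hT v hv).2 (hTd v hv)⟩) hTinj (y + y0)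
    refine ⟨(n : R), fun v hv => ?_⟩
    have h1 : P (i (n : R)) - P τ - algebraMap (𝓞 L) L y =
        - algebraMap (𝓞 L) L (y + y0 - n) - (P τ - algebraMap (𝓞 L) L y0) := by
      rw [map_intCast, map_intCast, map_sub, map_add, map_intCast]
      ring
    rw [h1]
    refine (Valuation.map_sub _ _ _).trans (max_le ?_ (hy0 v hv))
    rw [Valuation.map_neg, val_le_iff]
    exact (mem_prod_iff T _).1 hn v hv
  let b : R ⧸ I → 𝓞 L ⧸ J := fun q => Ideal.Quotient.mk J (Y (Quotient.out q))
  have hout : ∀ q : R ⧸ I, Ideal.Quotient.mk I (Quotient.out q) = q := fun q =>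
    Quotient.out_eq q
  have hbmk : ∀ (r : R) (y : 𝓞 L),
      (∀ v ∈ T, v.valuation L (P (i r) - P τ - algebraMap (𝓞 L) L y) ≤ exp (-2)) →
      b (Ideal.Quotient.mk I r) = Ideal.Quotient.mk J y := by
    intro r y hry
    change Ideal.Quotient.mk J _ = _
    rw [Ideal.Quotient.eq]
    refine (hcl _ r _ y (hY _) hry).1 ?_
    rw [← Ideal.Quotient.eq]
    exact hout _
  have hbinj : Function.Injective b := by
    intro q q' hqq
    have h1 := Ideal.Quotient.eq.1 hqq
    rw [← hcl (Quotient.out q) (Quotient.out q') _ _ (hY _) (hY _), ← Ideal.Quotient.eq, hout,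
      hout] at h1
    exact h1
  have hbsurj : Function.Surjective b := by
    intro z
    obtain ⟨y, rfl⟩ := Ideal.Quotient.mk_surjective z
    obtain ⟨r, hr⟩ := hsurj y
    exact ⟨Ideal.Quotient.mk I r, hbmk r y hr⟩
  have hfinI : Finite (R ⧸ I) := Finite.of_injective b hbinj
  have hcard : Nat.card (R ⧸ I) = Nat.card (𝓞 L ⧸ J) :=
    Nat.card_congr (Equiv.ofBijective b ⟨hbinj, hbsurj⟩)
  refine ⟨I, hfinI, ?_⟩
  have hD2 := Pool.Agent.W417.SecC.D2.partD2 L T
    {y : 𝓞 L | ∃ r ∈ E, ∀ v ∈ T, v.valuation L (P (i r) - P τ - algebraMap (𝓞 L) L y) ≤ exp (-2)} (by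
      rintro y ⟨r, hrE, hr⟩ v hv hyv
      by_contra hy2
      apply hrE
      apply hfine v hv r
      have h1 : v.valuation L (algebraMap (𝓞 L) L y) = exp (-1) := by
        apply le_antisymm
        · rw [HeightOneSpectrum.valuation_of_algebraMap]
          exact (v.intValuation_le_pow_iff_mem y 1).2 (by rwa [pow_one])
        · by_contra h2
          rw [not_le] at h2
          exact hy2 ((val_le_iff v y).1 (lt_exp_neg_one _ h2))
      have h2 : P (i r) - P τ = (P (i r) - P τ - algebraMap (𝓞 L) L y) + algebraMap (𝓞 L) L y := by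
        ring
      rw [h2, Valuation.map_add_eq_of_lt_right _ (by
        rw [h1]
        refine (hr v hv).trans_lt ?_
        rw [exp_lt_exp]
        omega), h1])
  have hle : Set.ncard ((Ideal.Quotient.mk I) '' E) ≤ Set.ncard ((Ideal.Quotient.mk J) ''
      {y : 𝓞 L | ∃ r ∈ E, ∀ v ∈ T,
        v.valuation L (P (i r) - P τ - algebraMap (𝓞 L) L y) ≤ exp (-2)}) := by
    refine Set.ncard_le_ncard_of_injOn b ?_ hbinj.injOn (Set.toFinite _)
    rintro _ ⟨r, hr, rfl⟩
    exact ⟨Y r, ⟨r, hr, hY r⟩, (hbmk r _ (hY r)).symm⟩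
  rw [hcard]
  calc (Set.ncard ((Ideal.Quotient.mk I) '' E) : ℝ) ≤ _ := by exact_mod_cast hle
    _ ≤ _ := hD2
    _ ≤ ε * Nat.card (𝓞 L ⧸ J) := mul_le_mul_of_nonneg_right hTε.le (Nat.cast_nonneg _)

end Pool.Agent.K6.H56.AE
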