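import Pool.Agent.K6.H56.AE1
import Pool.Agent.K6.H56.AE4
import Pool.Agent.K6.H56.TF5

/-! Density of the parameters with a good place: a finitely generated domain. -/

set_option autoImplicit false
set_option linter.all false

namespace Pool.Agent.K6.H56.AE

open IsDedekindDomain NumberField WithZero Polynomial FF Pool.Agent.W623.SecC Pool.Agent.W858.SF
open Pool.Agent.W858.SG Pool.Agent.Y141.PS Pool.Agent.K6.H56.TF

/-- the conclusion -/
def ConclG {R : Type} (k : Type) [CommRing R] [Field k] [Algebra R k] (A : R[X]) (F : R[X][X])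
    (D : R[X]) (e : ℕ) (S : ℕ → Prop) (M : ℕ) : Prop :=
  ∀ ε : ℝ, 0 < ε → ∃ I : Ideal R, Finite (R ⧸ I) ∧
      (Set.ncard ((Ideal.Quotient.mk I) ''
        {t : R | ¬ (A.eval t ≠ 0 ∧ D.eval t ≠ 0 ∧
          GoodPlace (algebraMap R k (A.eval t)) ((F.map (evalRingHom t)).map (algebraMap R k))
            e S M)}) : ℝ) ≤
        ε * Nat.card (R ⧸ I)

theorem density_gp_aux {R k R₁ k₁ : Type} [CommRing R] [Field k] [CharZero k]
    [Algebra R k] (hinjk : Function.Injective (algebraMap R k)) [CommRing R₁] [IsDomain R₁]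
    [Field k₁] [CharZero k₁] [Algebra R₁ k₁] [IsFractionRing R₁ k₁] (i : R →+* R₁) (j : k →+* k₁)
    (hij : ∀ r, algebraMap R₁ k₁ (i r) = j (algebraMap R k r)) (τ s : R₁) (A : R[X]) (F : R[X][X])
    (D : R[X]) (e : ℕ) (B : R₁[X]) (hAB : C s * A.map i = (X - C τ) ^ e * B) (M : ℕ) (hM : M ≠ 0)
    (hs : s ≠ 0) (hB : B.eval τ ≠ 0) (hD : (D.map i).eval τ ≠ 0) (hlc : (F.map (eval₂RingHom i τ)).coeff F.natDegree ≠ 0)
    (hsep : ((F.map (eval₂RingHom i τ)).map (algebraMap R₁ k₁)).Separable)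
    (S : ℕ → Prop) (σ : AlgebraicClosure k₁ ≃ₐ[k₁] AlgebraicClosure k₁)
    (hσ : ∀ θ : AlgebraicClosure k₁,
      aeval θ ((F.map (eval₂RingHom i τ)).map (algebraMap R₁ k₁)) = 0 →
        ∀ n : ℕ, (σ ^ n) θ = θ → S n)
    (G : Finset R₁) (hG : Algebra.adjoin ℤ (G : Set R₁) = ⊤)
    {m : ℕ} {Q : Type} [Field Q] [Algebra (MvPolynomial (Fin m) ℚ) Q]
    [IsFractionRing (MvPolynomial (Fin m) ℚ) Q] [Algebra Q k₁]
    [Algebra (MvPolynomial (Fin m) ℚ) k₁] [IsScalarTower (MvPolynomial (Fin m) ℚ) Q k₁]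
    [Algebra.IsAlgebraic Q k₁] [Algebra.EssFiniteType ℤ k₁] : ConclG k A F D e S M := by
  classical
  intro ε hε
  have e4 : Algebra.EssFiniteType Q k₁ := Algebra.EssFiniteType.of_comp ℤ Q k₁
  have hfin : FiniteDimensional Q k₁ := Algebra.finite_of_essFiniteType_of_isAlgebraic
  have hinjk1 : Function.Injective (algebraMap R₁ k₁) := IsFractionRing.injective R₁ k₁
  have hczQ : CharZero Q := charZero_of_injective_algebraMap
    (IsFractionRing.injective (MvPolynomial (Fin m) ℚ) Q)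
  set F₀ := F.map (eval₂RingHom i τ) with hF₀
  obtain ⟨α, hgen, hα⟩ := Pool.Agent.H298R2.Kuyk.exists_prim (MvPolynomial (Fin m) ℚ) Q k₁
  have hDNex : ∀ r : R₁, ∃ (D : MvPolynomial (Fin m) ℚ) (N : (MvPolynomial (Fin m) ℚ)[X]),
      D ≠ 0 ∧ algebraMap _ k₁ D * algebraMap R₁ k₁ r = aeval α N := by
    intro r
    obtain ⟨p, -, hp⟩ := H33.V4.exists_rep (Q := Q) α hgen (algebraMap R₁ k₁ r)
    obtain ⟨D, hD, hDp⟩ := IsLocalization.integerNormalization_spec
      (nonZeroDivisors (MvPolynomial (Fin m) ℚ)) p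
    refine ⟨D, IsLocalization.integerNormalization (nonZeroDivisors (MvPolynomial (Fin m) ℚ)) p,
      nonZeroDivisors.ne_zero hD, ?_⟩
    rw [← aeval_map_algebraMap Q, hDp, Algebra.smul_def, map_mul, hp]
    congr 1
    rw [IsScalarTower.algebraMap_apply (MvPolynomial (Fin m) ℚ) Q k₁,
      IsScalarTower.algebraMap_apply (MvPolynomial (Fin m) ℚ) Q Q[X]]
    simp
  choose DD NN hDD hDN using hDNex
  obtain ⟨L, _, _, P, c, β, hβtop, hβ, hβ', hDP, hPα, hU, hsepP, σ', hσP⟩ :=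
    exists_spec' (Q := Q) hinjk1 α hα hgen G hG DD NN (fun r _ => hDN r) (fun r _ => hDD r)
      {s, B.eval τ, F₀.coeff F.natDegree, (D.map i).eval τ} (by
        intro u hu
        simp only [Finset.mem_insert, Finset.mem_singleton] at hu
        rcases hu with rfl | rfl | rfl | rfl
        · exact hs
        · exact hB
        · exact hlc
        · exact hD) F₀ hsep σ
  have hemb := exists_emb (Q := Q) α hα hgen P G hG DD NN (fun r _ => hDN r) c β hβ hβ' hDP
  have hU1 : P s ≠ 0 := hU _ (Finset.mem_insert_self _ _)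
  have hU2 : P (B.eval τ) ≠ 0 := hU _ (Finset.mem_insert_of_mem (Finset.mem_insert_self _ _))
  have hU3 : P (F₀.coeff F.natDegree) ≠ 0 :=
    hU _ (Finset.mem_insert_of_mem (Finset.mem_insert_of_mem (Finset.mem_insert_self _ _)))
  have hU4 : P ((D.map i).eval τ) ≠ 0 := hU _ (Finset.mem_insert_of_mem
    (Finset.mem_insert_of_mem (Finset.mem_insert_of_mem (Finset.mem_singleton_self _))))
  exact density_gp hinjk i j hij τ s A F D e B hAB M hM P hU1 hU2 hU4 hU3 hsepP S σ'
    (fun θ hθ n hn => by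
      obtain ⟨θ₀, hθ₀, h⟩ := hσP θ hθ
      exact hσ θ₀ hθ₀ n (h n hn)) hemb ε hε

theorem density_gp_fg {R k R₁ k₁ : Type} [CommRing R] [Field k] [CharZero k]
    [Algebra R k] (hinjk : Function.Injective (algebraMap R k)) [CommRing R₁] [IsDomain R₁]
    [CharZero R₁] [Algebra.FiniteType ℤ R₁]
    [Field k₁] [Algebra R₁ k₁] [IsFractionRing R₁ k₁] (i : R →+* R₁) (j : k →+* k₁)
    (hij : ∀ r, algebraMap R₁ k₁ (i r) = j (algebraMap R k r)) (τ s : R₁) (A : R[X]) (F : R[X][X])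
    (D : R[X]) (e : ℕ) (B : R₁[X]) (hAB : C s * A.map i = (X - C τ) ^ e * B) (M : ℕ) (hM : M ≠ 0)
    (hs : s ≠ 0) (hB : B.eval τ ≠ 0) (hD : (D.map i).eval τ ≠ 0) (hlc : (F.map (eval₂RingHom i τ)).coeff F.natDegree ≠ 0)
    (hsep : ((F.map (eval₂RingHom i τ)).map (algebraMap R₁ k₁)).Separable)
    (S : ℕ → Prop) (σ : AlgebraicClosure k₁ ≃ₐ[k₁] AlgebraicClosure k₁)
    (hσ : ∀ θ : AlgebraicClosure k₁,
      aeval θ ((F.map (eval₂RingHom i τ)).map (algebraMap R₁ k₁)) = 0 →
        ∀ n : ℕ, (σ ^ n) θ = θ → S n) : ConclG k A F D e S M := by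
  classical
  have hcz : CharZero k₁ := charZero_of_injective_algebraMap (IsFractionRing.injective R₁ k₁)
  obtain ⟨G, hG⟩ := (inferInstance : Algebra.FiniteType ℤ R₁).out
  have e1 : Algebra.EssFiniteType R₁ k₁ :=
    Algebra.EssFiniteType.of_isLocalization k₁ (nonZeroDivisors R₁)
  have e2 : Algebra.EssFiniteType ℤ k₁ := Algebra.EssFiniteType.comp ℤ R₁ k₁
  have e3 : Algebra.EssFiniteType ℚ k₁ := Algebra.EssFiniteType.of_comp ℤ ℚ k₁
  obtain ⟨s', hs'⟩ := IntermediateField.fg_top ℚ k₁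
  have halg0 : Algebra.IsAlgebraic (Algebra.adjoin ℚ (s' : Set k₁)) k₁ := by
    rw [← IntermediateField.isAlgebraic_adjoin_iff_top, hs', Algebra.isAlgebraic_iff_isIntegral]
    exact Algebra.isIntegral_of_surjective IntermediateField.topEquiv.surjective
  obtain ⟨t, hts, ht⟩ := exists_isTranscendenceBasis_subset (R := ℚ) (s' : Set k₁)
  lift t to Finset k₁ using s'.finite_toSet.subset hts
  let m := t.card
  let e : Fin m ≃ t := t.equivFin.symm
  let x : Fin m → k₁ := fun i => (e i : k₁)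
  have hx : IsTranscendenceBasis ℚ x := (isTranscendenceBasis_equiv e).2 ht
  let _ : Algebra (MvPolynomial (Fin m) ℚ) k₁ := (MvPolynomial.aeval x).toRingHom.toAlgebra
  have hinj : Function.Injective (algebraMap (MvPolynomial (Fin m) ℚ) k₁) := hx.1
  let _ : Algebra (FractionRing (MvPolynomial (Fin m) ℚ)) k₁ :=
    (IsFractionRing.lift (K := FractionRing (MvPolynomial (Fin m) ℚ)) hinj).toAlgebra
  have htow : IsScalarTower (MvPolynomial (Fin m) ℚ) (FractionRing (MvPolynomial (Fin m) ℚ)) k₁ :=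
    IsScalarTower.of_algebraMap_eq fun p => (IsFractionRing.lift_algebraMap hinj p).symm
  have hta : Algebra.IsAlgebraic (FractionRing (MvPolynomial (Fin m) ℚ)) k₁ := by
    refine ⟨fun y => ?_⟩
    obtain ⟨p, hp, hpy⟩ := hx.isAlgebraic.isAlgebraic y
    have h1 : IsAlgebraic (MvPolynomial (Fin m) ℚ) y := by
      refine ⟨p.map hx.1.aevalEquiv.symm.toRingEquiv.toRingHom, ?_, ?_⟩
      · exact (Polynomial.map_ne_zero_iff
          hx.1.aevalEquiv.symm.toRingEquiv.injective).2 hp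
      · rw [aeval_def, eval₂_map]
        rw [aeval_def] at hpy
        have h2 : (algebraMap (MvPolynomial (Fin m) ℚ) k₁).comp
            hx.1.aevalEquiv.symm.toRingEquiv.toRingHom =
            algebraMap (Algebra.adjoin ℚ (Set.range x)) k₁ := by
          ext1 z
          obtain ⟨p, rfl⟩ := hx.1.aevalEquiv.surjective z
          rw [hx.1.algebraMap_aevalEquiv]
          change MvPolynomial.aeval x (hx.1.aevalEquiv.symm (hx.1.aevalEquiv p)) = _
          rw [AlgEquiv.symm_apply_apply]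
        rw [h2]
        exact hpy
    exact h1.extendScalars (IsFractionRing.injective _ _)
  exact density_gp_aux hinjk i j hij τ s A F D _
    B hAB M hM hs hB hD hlc hsep S σ hσ G hG (m := m) (Q := FractionRing (MvPolynomial (Fin m) ℚ))

end Pool.Agent.K6.H56.AE
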