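import Pool.Agent.K6.H56.AE5
import Pool.Agent.K6.H56.TF7

/-! Density of the parameters with a good place in a one-parameter family with a bad fibre at an
algebraic value of the parameter. -/

set_option autoImplicit false
set_option linter.all false

namespace Pool.Agent.K6.H56.AE

open Polynomial Pool.Agent.K6.H56.TF

theorem density_gp_alg {R k : Type} [CommRing R] [IsDomain R] [CharZero R] [Algebra.FiniteType ℤ R]
    [Field k] [Algebra R k] [IsFractionRing R k] (k₁ : Type) [Field k₁] [Algebra k k₁] (τ : k₁)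
    (hτ : IntermediateField.adjoin k {τ} = ⊤) (A : k[X]) (hA : A ≠ 0) (F : k[X][X])
    (hm : 0 < F.natDegree) (M : ℕ) (hM : M ≠ 0) (hdeg : (F.map (aeval (R := k) τ).toRingHom).natDegree = F.natDegree)
    (hsep : (F.map (aeval (R := k) τ).toRingHom).Separable)
    (S : ℕ → Prop) (σ : AlgebraicClosure k₁ ≃ₐ[k₁] AlgebraicClosure k₁)
    (hσ : ∀ θ : AlgebraicClosure k₁, aeval θ (F.map (aeval (R := k) τ).toRingHom) = 0 →
      ∀ n : ℕ, (σ ^ n) θ = θ → S n)
    (ε : ℝ) (hε : 0 < ε) :
    ∃ I : Ideal R, Finite (R ⧸ I) ∧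
      (Set.ncard ((Ideal.Quotient.mk I) ''
        {t : R | ¬ (A.eval (algebraMap R k t) ≠ 0 ∧
          (F.map (evalRingHom (algebraMap R k t))).natDegree = F.natDegree ∧
          (F.map (evalRingHom (algebraMap R k t))).Separable ∧
          ∃ d : k, d ≠ 0 ∧ GoodPlace (d * A.eval (algebraMap R k t))
            (C d * F.map (evalRingHom (algebraMap R k t)))
            (rootMultiplicity τ (A.map (algebraMap k k₁))) S M)}) : ℝ) ≤
        ε * Nat.card (R ⧸ I) := by
  classical
  have hcz : CharZero k := charZero_of_injective_algebraMap (IsFractionRing.injective R k)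
  have hcz1 : CharZero k₁ := charZero_of_injective_algebraMap (algebraMap k k₁).injective
  have hinjk : Function.Injective (algebraMap R k) := IsFractionRing.injective R k
  obtain ⟨R₁, hft, hfr, hτR, hRR⟩ := exists_ring (R := R) k₁ τ hτ
  have hczR : CharZero R₁ := RingHom.charZero (algebraMap R₁ k₁)
  have hinj1 : Function.Injective (algebraMap R₁ k₁) := Subtype.val_injective
  obtain ⟨d, A', F', hd, hA', hF'⟩ := exists_den (R := R) A F
  have hdk : algebraMap R k d ≠ 0 := by
    rw [Ne, map_eq_zero_iff _ hinjk]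
    exact hd
  let i : R →+* R₁ := ((algebraMap k k₁).comp (algebraMap R k)).codRestrict R₁ hRR
  have hi : ∀ r, algebraMap R₁ k₁ (i r) = algebraMap k k₁ (algebraMap R k r) := fun _ => rfl
  have hidz : i d ≠ 0 := by
    intro h
    have h1 := hi d
    rw [h, map_zero] at h1
    exact hdk ((map_eq_zero_iff _ (algebraMap k k₁).injective).1 h1.symm)
  let τ₁ : R₁ := ⟨τ, hτR⟩
  have hτ₁ : algebraMap R₁ k₁ τ₁ = τ := rfl
  -- the multiplicity
  set e := rootMultiplicity τ (A.map (algebraMap k k₁)) with he
  have hA1 : A.map (algebraMap k k₁) ≠ 0 := (Polynomial.map_ne_zero_iff (algebraMap k k₁).injective).2 hA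
  obtain ⟨B₁, hB₁, hB₁'⟩ := exists_eq_pow_rootMultiplicity_mul_and_not_dvd _ hA1 τ
  rw [← he] at hB₁
  obtain ⟨s, hs, hsB⟩ := IsLocalization.integerNormalization_spec (nonZeroDivisors R₁) B₁
  set B := IsLocalization.integerNormalization (nonZeroDivisors R₁) B₁ with hB
  have hs0 : s ≠ 0 := nonZeroDivisors.ne_zero hs
  have hsB' : B.map (algebraMap R₁ k₁) = C (algebraMap R₁ k₁ s) * B₁ := by
    rw [hsB]
    ext n
    rw [coeff_smul, coeff_C_mul, Algebra.smul_def]
  have hA'1 : (A'.map i).map (algebraMap R₁ k₁) =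
      C (algebraMap R₁ k₁ (i d)) * A.map (algebraMap k k₁) := by
    rw [Polynomial.map_map]
    have h1 : (algebraMap R₁ k₁).comp i = (algebraMap k k₁).comp (algebraMap R k) := rfl
    rw [h1, ← Polynomial.map_map, hA', Polynomial.map_mul, map_C]
    rfl
  have hAB : C s * A'.map i = (X - C τ₁) ^ e * (C (i d) * B) := by
    apply Polynomial.map_injective _ hinj1
    rw [Polynomial.map_mul, Polynomial.map_mul, Polynomial.map_pow, Polynomial.map_sub, map_X, map_C,
      map_C, Polynomial.map_mul, map_C, hsB', hA'1, hτ₁]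
    conv_lhs => rw [hB₁]
    ring
  have hBτ : (C (i d) * B).eval τ₁ ≠ 0 := by
    intro h
    rw [eval_mul, eval_C, mul_eq_zero] at h
    have h1 := h.resolve_left hidz
    apply hB₁'
    rw [dvd_iff_isRoot, IsRoot.def]
    have h2 : (B.map (algebraMap R₁ k₁)).eval τ = 0 := by
      rw [← hτ₁, eval_map, eval₂_at_apply, h1, map_zero]
    rw [hsB', eval_mul, eval_C, mul_eq_zero] at h2
    refine h2.resolve_left ?_
    rw [map_eq_zero_iff _ hinj1]
    exact hs0
  -- the polynomial
  have hmapF : ∀ (F' : R[X][X]), (F'.map (eval₂RingHom i τ₁)).map (algebraMap R₁ k₁) =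
      (F'.map (mapRingHom (algebraMap R k))).map (aeval (R := k) τ).toRingHom := by
    intro F'
    rw [Polynomial.map_map, Polynomial.map_map]
    congr 1
    apply Polynomial.ringHom_ext
    · intro a
      simp [hi]
    · simp [hτ₁]
  have hF0 : (F'.map (eval₂RingHom i τ₁)).map (algebraMap R₁ k₁) =
      C (algebraMap R₁ k₁ (i d)) * F.map (aeval (R := k) τ).toRingHom := by
    rw [hmapF, hF', Polynomial.map_mul, map_C]
    congr 2
    simp [hi]
  have hidk : algebraMap R₁ k₁ (i d) ≠ 0 := by
    rw [Ne, map_eq_zero_iff _ hinj1]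
    exact hidz
  have hFdeg : F'.natDegree = F.natDegree := by
    have h1 : Function.Injective (mapRingHom (algebraMap R k)) := Polynomial.map_injective _ hinjk
    rw [← natDegree_map_eq_of_injective h1 F', hF',
      natDegree_C_mul (C_ne_zero.2 hdk)]
  have hlc : (F'.map (eval₂RingHom i τ₁)).coeff F'.natDegree ≠ 0 := by
    intro h
    have h1 : ((F'.map (eval₂RingHom i τ₁)).map (algebraMap R₁ k₁)).coeff F'.natDegree = 0 := by
      rw [coeff_map, h, map_zero]
    rw [hF0, coeff_C_mul, hFdeg, ← hdeg, mul_eq_zero] at h1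
    have h2 := h1.resolve_left hidk
    rw [coeff_natDegree, leadingCoeff_eq_zero] at h2
    exact hsep.ne_zero h2
  have hsep' : ((F'.map (eval₂RingHom i τ₁)).map (algebraMap R₁ k₁)).Separable := by
    rw [hF0]
    exact Separable.unit_mul (isUnit_C.2 hidk.isUnit) hsep
  have hσ' : ∀ θ : AlgebraicClosure k₁,
        aeval θ ((F'.map (eval₂RingHom i τ₁)).map (algebraMap R₁ k₁)) = 0 →
          ∀ n : ℕ, (σ ^ n) θ = θ → S n := by
    intro θ hθ
    rw [hF0, map_mul, aeval_C] at hθ
    exact hσ θ ((mul_eq_zero.1 hθ).resolve_left ((_root_.map_ne_zero _).2 hidk))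
  have hDτ : ((disc F').map i).eval τ₁ ≠ 0 := by
    intro h
    have h0 : (eval₂RingHom i τ₁) (disc F') = 0 := by
      rw [coe_eval₂RingHom, ← eval_map]
      exact h
    have h1 : ((algebraMap R₁ k₁).comp (eval₂RingHom i τ₁)) (disc F') = 0 := by
      rw [RingHom.comp_apply, h0, map_zero]
    rw [disc_map, ← Polynomial.map_map, mul_eq_zero] at h1
    rcases h1 with h1 | h1
    · rw [coeff_map, map_eq_zero_iff _ hinj1] at h1
      exact hlc h1
    · refine (res_ne_zero_iff _ F'.natDegree (by omega) ?_).2 hsep' h1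
      rw [hF0, natDegree_C_mul hidk, hdeg, hFdeg]
  obtain ⟨I, hI, hle⟩ := density_gp_fg (R := R) (k := k) hinjk i (algebraMap k k₁) hi τ₁ s A' F'
    (disc F') e (C (i d) * B) hAB M hM hs0 hBτ hDτ hlc hsep' S σ hσ' ε hε
  refine ⟨I, hI, le_trans ?_ hle⟩
  have hsub : {t : R | ¬ (A.eval (algebraMap R k t) ≠ 0 ∧
          (F.map (evalRingHom (algebraMap R k t))).natDegree = F.natDegree ∧
          (F.map (evalRingHom (algebraMap R k t))).Separable ∧
          ∃ d : k, d ≠ 0 ∧ GoodPlace (d * A.eval (algebraMap R k t))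
            (C d * F.map (evalRingHom (algebraMap R k t))) e S M)} ⊆
      {t : R | ¬ (A'.eval t ≠ 0 ∧ (disc F').eval t ≠ 0 ∧
        GoodPlace (algebraMap R k (A'.eval t)) ((F'.map (evalRingHom t)).map (algebraMap R k))
          e S M)} := by
    intro t ht hgood
    apply ht
    obtain ⟨h1, h2, h4⟩ := hgood
    have h5 : algebraMap R k (A'.eval t) = algebraMap R k d * A.eval (algebraMap R k t) := by
      rw [← eval₂_at_apply, ← eval_map, hA', eval_mul, eval_C]
    have h6 : (F'.map (evalRingHom t)).map (algebraMap R k) =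
        C (algebraMap R k d) * F.map (evalRingHom (algebraMap R k t)) := by
      have h7 : (algebraMap R k).comp (evalRingHom t) =
          (evalRingHom (algebraMap R k t)).comp (mapRingHom (algebraMap R k)) := by
        apply Polynomial.ringHom_ext
        · intro a
          simp
        · simp
      rw [Polynomial.map_map, h7, ← Polynomial.map_map, hF', Polynomial.map_mul, map_C]
      congr 2
      simp
    have h8 : (algebraMap R k) ((disc F').eval t) ≠ 0 := by
      rw [Ne, map_eq_zero_iff _ hinjk]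
      exact h2
    have h9 : (algebraMap R k) ((disc F').eval t) = ((algebraMap R k).comp (evalRingHom t)) (disc F') :=
      rfl
    rw [h9, disc_map, ← Polynomial.map_map] at h8
    have h10 : ((F'.map (evalRingHom t)).map (algebraMap R k)).natDegree = F'.natDegree := by
      apply le_antisymm (natDegree_map_le.trans natDegree_map_le)
      exact le_natDegree_of_ne_zero (left_ne_zero_of_mul h8)
    have h11 : ((F'.map (evalRingHom t)).map (algebraMap R k)).Separable :=
      (res_ne_zero_iff _ F'.natDegree (by omega) h10).1 (right_ne_zero_of_mul h8)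
    rw [h6] at h10 h11
    refine ⟨?_, ?_, ?_, ?_⟩
    · intro h0
      rw [h0, mul_zero, map_eq_zero_iff _ hinjk] at h5
      exact h1 h5
    · rw [natDegree_C_mul hdk] at h10
      rw [h10, hFdeg]
    · exact h11.of_mul_right
    · rw [h5, h6] at h4
      exact ⟨algebraMap R k d, hdk, h4⟩
  exact_mod_cast Set.ncard_le_ncard (Set.image_mono hsub) (Set.toFinite _)

end Pool.Agent.K6.H56.AE
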