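import Pool.Agent.K6.H56.AE6

/-! Good places and monic polynomials. -/

set_option autoImplicit false
set_option linter.all false

namespace Pool.Agent.K6.H56.AE

open Polynomial Pool.Agent.K6.H56.TF

/-- At a good place for `d a` and `d f`, where `f` is monic, `f` has a monic model. -/
theorem GoodPlace.monic {k : Type} [Field k] {a d : k} {f : k[X]} {e : ℕ} {S : ℕ → Prop} {M : ℕ}
    (hf : f.Monic) (hd : d ≠ 0) (h : GoodPlace (d * a) (C d * f) e S M) :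
    ∃ (O : ValuationSubring k) (_ : IsDiscreteValuationRing O) (κ : Type) (_ : Field κ) (_ : Finite κ)
      (ρ : O →+* κ) (g : O[X]) (ϖ u : O), Function.Surjective ρ ∧ g.map (algebraMap O k) = f ∧
      g.Monic ∧ (g.map ρ).Separable ∧
      (∀ h : κ[X], Irreducible h → h ∣ g.map ρ → S h.natDegree) ∧
      Irreducible ϖ ∧ IsUnit u ∧ a = (u : k) * (ϖ : k) ^ e ∧ (M : κ) ≠ 0 := by
  obtain ⟨O, hO, κ, i1, i2, ρ, g, ϖ, u, h1, h2, ⟨δ, hδ⟩, h4, h5, h6, h7, h8, h9⟩ := h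
  have hinj : Function.Injective (algebraMap O k) := Subtype.val_injective
  have hδk : ((δ : O) : k) = d := by
    have h10 := leadingCoeff_map_of_injective hinj g
    rw [h2, leadingCoeff_mul, leadingCoeff_C, hf.leadingCoeff, mul_one] at h10
    rw [hδ, h10]
    rfl
  have hδi : (((δ⁻¹ : Oˣ) : O) : k) * d = 1 := by
    rw [← hδk]
    have h10 := congrArg (fun z : O => (z : k)) δ.inv_mul
    exact h10
  have hρδ : IsUnit (C (ρ ((δ⁻¹ : Oˣ) : O))) := isUnit_C.2 ((Units.isUnit _).map ρ)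
  refine ⟨O, hO, κ, i1, i2, ρ, C ((δ⁻¹ : Oˣ) : O) * g, ϖ, ((δ⁻¹ : Oˣ) : O) * u, h1, ?_, ?_, ?_, ?_,
    h6, (Units.isUnit _).mul h7, ?_, h9⟩
  · rw [Polynomial.map_mul, map_C, h2, ← mul_assoc, ← C_mul]
    have h10 : algebraMap O k ((δ⁻¹ : Oˣ) : O) * d = 1 := hδi
    rw [h10, C_1, one_mul]
  · rw [Monic, leadingCoeff_mul, leadingCoeff_C, ← hδ, δ.inv_mul]
  · rw [Polynomial.map_mul, map_C]
    exact Separable.unit_mul hρδ h4
  · intro h hh hdvd
    rw [Polynomial.map_mul, map_C] at hdvd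
    exact h5 h hh (hρδ.dvd_mul_left.1 hdvd)
  · have h10 : (((((δ⁻¹ : Oˣ) : O) * u : O)) : k) = (((δ⁻¹ : Oˣ) : O) : k) * (u : k) := rfl
    rw [h10, mul_assoc, ← h8, ← mul_assoc, hδi, one_mul]

end Pool.Agent.K6.H56.AE
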