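import Pool.Agent.K6.H56.AE7
import Pool.Agent.TH377.NC.Gen

/-! Superelliptic curves over finite extensions of a discretely valued field. -/

set_option autoImplicit false
set_option linter.all false

namespace Pool.Agent.K6.H56.AE

open Polynomial IsDedekindDomain Pool.Agent.K6.H56.TF Pool.Agent.TH377.NC
open Pool.Agent.Y157.PS (S_FUN FineP fineP)

/-- a root in an extension of the residue field -/
theorem root_ext {κ κ' : Type} [Field κ] [Field κ'] [Algebra κ κ'] [FiniteDimensional κ κ'] (P : κ[X])
    (S : ℕ → Prop) (hP : ∀ h : κ[X], Irreducible h → h ∣ P → S h.natDegree) (b : κ')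
    (hb : aeval b P = 0) : ∃ n, S n ∧ n ∣ Module.finrank κ κ' := by
  have hint : IsIntegral κ b := Algebra.IsIntegral.isIntegral b
  exact ⟨_, hP _ (minpoly.irreducible hint) (minpoly.dvd _ _ hb), minpoly.degree_dvd hint⟩

theorem fineP_ext (hFUN : S_FUN) {R k L : Type} [CommRing R] [IsDomain R]
    [IsDiscreteValuationRing R] [Finite (IsLocalRing.ResidueField R)] [Field k] [Algebra R k]
    [IsFractionRing R k] [CharZero k] [Field L] [Algebra k L] [FiniteDimensional k L] [Algebra R L]
    [IsScalarTower R k L] {ℓ : ℕ} [Fact ℓ.Prime] (hℓ : IsUnit (ℓ : R)) (g : R[X])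
    (hlc : IsUnit g.leadingCoeff) (hs : (g.map (IsLocalRing.residue R)).Separable)
    (hdvd : ℓ ∣ g.natDegree) (h3 : 3 ≤ g.natDegree) (S : ℕ → Prop)
    (hS : ∀ h : (IsLocalRing.ResidueField R)[X], Irreducible h →
      h ∣ g.map (IsLocalRing.residue R) → S h.natDegree)
    (ϖ0 t0 : R) (hϖ0 : Irreducible ϖ0) (ht0 : IsUnit t0) (e0 : ℕ) (he0 : ¬ ℓ ∣ e0)
    (hfin : Module.finrank k L ∉ AddSubmonoid.closure (insert ℓ {n : ℕ | S n})) :
    FineP ℓ (algebraMap R L t0 * algebraMap R L ϖ0 ^ e0) (g.map (algebraMap R L)) := by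
  classical
  have hsep : Algebra.IsSeparable k L := inferInstance
  let T := integralClosure R L
  have hfr : IsFractionRing T L := integralClosure.isFractionRing_of_finite_extension k L
  have hded : IsDedekindDomain T := integralClosure.isDedekindDomain R k L
  have hfinS : Module.Finite R T := IsIntegralClosure.finite R k L T
  have hRL : Function.Injective (algebraMap R L) := by
    rw [IsScalarTower.algebraMap_eq R k L]
    exact (algebraMap k L).injective.comp (IsFractionRing.injective R k)
  have hRS : Function.Injective (algebraMap R T) := by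
    intro x y hxy
    apply hRL
    rw [IsScalarTower.algebraMap_apply R T L, hxy, ← IsScalarTower.algebraMap_apply R T L]
  have htf : Module.IsTorsionFree R T :=
    (Module.isTorsionFree_iff_algebraMap_injective (R := R) (A := T)).2 hRS
  have hflat : Module.Flat R T := inferInstance
  have hczL : CharZero L := charZero_of_injective_algebraMap (algebraMap k L).injective
  set p : Ideal R := IsLocalRing.maximalIdeal R with hp
  have hp0 : p ≠ ⊥ := IsDiscreteValuationRing.not_a_field R
  have hprime : p.IsPrime := inferInstance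
  have hmaxp : p.IsMaximal := inferInstance
  have hrank : Module.finrank R T = Module.finrank k L := (IsFractionRing.finrank_eq R k T L).symm
  have hft : Finite (p.primesOver T) := inferInstance
  let _ : Fintype (p.primesOver T) := Fintype.ofFinite _
  obtain ⟨q, hq⟩ : ∃ q : p.primesOver T,
      ¬ (ℓ ∣ q.1.ramificationIdx R ∨ ∃ n, S n ∧ n ∣ q.1.inertiaDeg R) := by
    by_contra h1
    rw [not_exists] at h1
    apply hfin
    rw [← hrank, ← Ideal.sum_ramification_inertia_eq_finrank p T]
    refine AddSubmonoid.sum_mem _ fun q _ => ?_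
    rcases not_not.1 (h1 q) with ⟨c, hc⟩ | ⟨n, hn, c, hc⟩
    · rw [hc]
      have h2 : ℓ * c * q.1.inertiaDeg R = (c * q.1.inertiaDeg R) • ℓ := by
        rw [smul_eq_mul]
        ring
      rw [h2]
      exact AddSubmonoid.nsmul_mem _ (AddSubmonoid.subset_closure (Set.mem_insert _ _)) _
    · rw [hc]
      have h2 : q.1.ramificationIdx R * (n * c) = (q.1.ramificationIdx R * c) • n := by
        rw [smul_eq_mul]
        ring
      rw [h2]
      exact AddSubmonoid.nsmul_mem _ (AddSubmonoid.subset_closure (Set.mem_insert_of_mem _ hn)) _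
  rw [not_or] at hq
  obtain ⟨hqe, hqf⟩ := hq
  set e := q.1.ramificationIdx R with he
  set fd := q.1.inertiaDeg R with hfd
  have hqp : q.1.IsPrime := q.2.1
  have hlies : q.1.LiesOver p := q.2.2
  have hq0 : q.1 ≠ ⊥ := by
    intro h
    apply hp0
    have h1 := hlies.over
    rw [h] at h1
    rw [h1]
    exact Ideal.comap_bot_of_injective _ hRS
  have hqm : q.1.IsMaximal := Ideal.IsPrime.isMaximal hqp hq0
  obtain ⟨A, iA1, iA2, iA3, iA4, j, ε, hfrA, hjL, hjr, hbn⟩ := local_ringS (L := L) q.1 hqp hq0
  let _ : Field (R ⧸ p) := Ideal.Quotient.field _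
  let _ : Field (T ⧸ q.1) := Ideal.Quotient.field _
  have hfinq : FiniteDimensional (R ⧸ p) (T ⧸ q.1) := inferInstance
  have hfinRp : Finite (R ⧸ p) := (inferInstance : Finite (IsLocalRing.ResidueField R))
  have hfinTq : Finite (T ⧸ q.1) := Module.finite_of_finite (R ⧸ p)
  have hfinA : Finite (IsLocalRing.ResidueField A) := Finite.of_equiv _ ε.toEquiv
  set ι : (R ⧸ p) →+* (T ⧸ q.1) := algebraMap (R ⧸ p) (T ⧸ q.1) with hι
  have hmap : ((g.map (algebraMap R T)).map j).map (IsLocalRing.residue A) =
      ((g.map (Ideal.Quotient.mk p)).map ι).map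
        (ε : (T ⧸ q.1) →+* IsLocalRing.ResidueField A) := by
    rw [Polynomial.map_map, Polynomial.map_map, Polynomial.map_map, Polynomial.map_map]
    congr 1
    rw [hjr]
    rfl
  have hfdeq : fd = Module.finrank (R ⧸ p) (T ⧸ q.1) := Ideal.inertiaDeg_eq_of_isMaximal p q.1
  -- the uniformiser
  have hϖS : algebraMap R T ϖ0 ≠ 0 := by
    intro h
    exact hϖ0.ne_zero (hRS (by rw [h, map_zero]))
  obtain ⟨ϖ, t, n, hϖ, ht, hb2, hb3⟩ := hbn (algebraMap R T ϖ0) hϖS
  have hspan : p = Ideal.span {ϖ0} := hϖ0.maximalIdeal_eq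
  have hmp : p.map (algebraMap R T) = Ideal.span {algebraMap R T ϖ0} := by
    rw [hspan, Ideal.map_span, Set.image_singleton]
  have hmapp : ∀ i, p.map (algebraMap R T) ≤ q.1 ^ i ↔ i ≤ n := by
    intro i
    rw [← hb3, hmp, Ideal.span_singleton_le_iff_mem]
  have hen : e = n := by
    have h1 : p.ramificationIdx' q.1 = n :=
      Ideal.ramificationIdx'_spec ((hmapp n).2 le_rfl) (fun h => by
        have := (hmapp (n + 1)).1 h
        omega)
    have h2 : p.ramificationIdx' q.1 = q.1.ramificationIdx R :=
      Ideal.ramificationIdx'_eq_ramificationIdx _ _ hp0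
    rw [he, ← h2, h1]
  have htu : IsUnit (j (algebraMap R T t0)) := (ht0.map _).map j
  have hL0 : algebraMap R L t0 = algebraMap A L (j (algebraMap R T t0)) := by
    rw [IsScalarTower.algebraMap_apply R T L, ← hjL, RingHom.comp_apply]
  have hgL : ((g.map (algebraMap R T)).map j).map (algebraMap A L) = g.map (algebraMap R L) := by
    rw [Polynomial.map_map, Polynomial.map_map, hjL]
    congr 1
  have hjinj : Function.Injective (j.comp (algebraMap R T)) := by
    intro x y hxy
    apply hRL
    rw [IsScalarTower.algebraMap_apply R T L, IsScalarTower.algebraMap_apply R T L y, ← hjL,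
      RingHom.comp_apply, RingHom.comp_apply]
    exact congrArg _ hxy
  have hgmap : (g.map (algebraMap R T)).map j = g.map (j.comp (algebraMap R T)) := by
    rw [Polynomial.map_map]
  have hdegA : ((g.map (algebraMap R T)).map j).natDegree = g.natDegree := by
    rw [hgmap, natDegree_map_eq_of_injective hjinj]
  have hlcA : IsUnit ((g.map (algebraMap R T)).map j).leadingCoeff := by
    rw [hgmap, leadingCoeff_map_of_injective hjinj]
    exact hlc.map _
  have hsA : (((g.map (algebraMap R T)).map j).map (IsLocalRing.residue A)).Separable := by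
    rw [hmap]
    exact (hs.map (f := ι)).map
  have hrootA : ∀ b : A, ((g.map (algebraMap R T)).map j).eval b ∉ IsLocalRing.maximalIdeal A := by
    intro b hb
    have h1 : IsLocalRing.residue A (((g.map (algebraMap R T)).map j).eval b) = 0 :=
      (IsLocalRing.residue_eq_zero_iff _).2 hb
    rw [← eval₂_at_apply, ← eval_map, hmap] at h1
    obtain ⟨c, hc⟩ := ε.surjective (IsLocalRing.residue A b)
    rw [← hc, eval_map] at h1
    have h2 : (ε : (T ⧸ q.1) →+* IsLocalRing.ResidueField A)
        (((g.map (Ideal.Quotient.mk p)).map ι).eval c) = 0 := by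
      rw [← eval₂_at_apply]
      exact h1
    have h3 : ((g.map (Ideal.Quotient.mk p)).map ι).eval c = 0 := by
      apply ε.injective
      rw [map_zero]
      exact h2
    have h4 : aeval c (g.map (Ideal.Quotient.mk p)) = 0 := by
      rw [aeval_def, ← eval_map]
      exact h3
    obtain ⟨n', hn', hn'd⟩ := root_ext (g.map (Ideal.Quotient.mk p)) S hS c h4
    exact hqf ⟨n', hn', by rw [hfdeq]; exact hn'd⟩
  have hℓA : IsUnit (ℓ : A) := by
    have h1 := (hℓ.map (algebraMap R T)).map j
    rwa [map_natCast, map_natCast] at h1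
  have hm : ¬ (ℓ : ℤ) ∣ ((e * e0 : ℕ) : ℤ) := by
    intro h
    have h1 : ℓ ∣ e * e0 := by exact_mod_cast h
    rcases (Nat.Prime.dvd_mul (Fact.out : ℓ.Prime)).1 h1 with h2 | h2
    · exact hqe h2
    · exact he0 h2
  have key := fineP hFUN hℓA ((g.map (algebraMap R T)).map j) hlcA hsA (by rwa [hdegA])
    (by rwa [hdegA]) hrootA ϖ hϖ (algebraMap R L t0 * algebraMap R L ϖ0 ^ e0)
    ((e * e0 : ℕ) : ℤ) hm (j (algebraMap R T t0) * t ^ e0) (htu.mul (ht.pow _)) (by
      rw [hL0, IsScalarTower.algebraMap_apply R T L ϖ0, hb2, ← hen, map_mul, map_pow, zpow_natCast,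
        mul_pow, ← pow_mul]
      ring)
  rwa [hgL] at key

/-- the fine assertion over an extension at a good place -/
theorem GoodPlace.fineP (hFUN : S_FUN) {k : Type} [Field k] [CharZero k] {a d : k} {f : k[X]} {e : ℕ}
    {S : ℕ → Prop} {M : ℕ} (hd : d ≠ 0) (h : GoodPlace (d * a) (C d * f) e S M) (L : Type) [Field L]
    [Algebra k L] [FiniteDimensional k L] (ℓ : ℕ) (hℓ : ℓ.Prime) (hℓM : ℓ ∣ M) (hℓd : ℓ ∣ f.natDegree)
    (h3 : 3 ≤ f.natDegree) (hℓe : ¬ ℓ ∣ e)
    (hfin : Module.finrank k L ∉ AddSubmonoid.closure (insert ℓ {n : ℕ | S n})) :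
    FineP ℓ (algebraMap k L a) (f.map (algebraMap k L)) := by
  classical
  obtain ⟨O, hO, κ, i1, i2, ρ, g, ϖ, u, h1, h2, h4, h5, h6, h7, h8, h9, h10⟩ := h
  have hfact : Fact ℓ.Prime := ⟨hℓ⟩
  obtain ⟨l, hl⟩ := Pool.Agent.TH377.LocG.exists_residue_lift ρ h1
  have hfinO : Finite (IsLocalRing.ResidueField O) := Finite.of_equiv _ l.symm.toEquiv
  have hres := Pool.Agent.TH377.LocG.map_residue_map ρ l hl g
  have hinj : Function.Injective (algebraMap O k) := Subtype.val_injective
  have hdeg : g.natDegree = f.natDegree := by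
    rw [← natDegree_map_eq_of_injective hinj g, h2, natDegree_C_mul hd]
  let _ : Algebra O L := ((algebraMap k L).comp (algebraMap O k)).toAlgebra
  have hst : IsScalarTower O k L := IsScalarTower.of_algebraMap_eq (fun _ => rfl)
  have hℓO : IsUnit (ℓ : O) := by
    by_contra h0
    have hmem : (ℓ : O) ∈ IsLocalRing.maximalIdeal O := h0
    have hker : RingHom.ker ρ = IsLocalRing.maximalIdeal O := by
      have hmax : (RingHom.ker ρ).IsMaximal := RingHom.ker_isMaximal_of_surjective ρ h1
      exact IsLocalRing.eq_maximalIdeal hmax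
    rw [← hker, RingHom.mem_ker, map_natCast] at hmem
    apply h10
    obtain ⟨c, rfl⟩ := hℓM
    rw [Nat.cast_mul, hmem, zero_mul]
  have key := fineP_ext (R := O) (k := k) (L := L) hFUN hℓO g h4
    (Pool.Agent.TH377.LocG.separable_residue ρ h1 g h5) (by rwa [hdeg]) (by rwa [hdeg]) S (by
      intro q hq hqg
      have h11 : Irreducible (q.map (l : IsLocalRing.ResidueField O →+* κ)) :=
        (MulEquiv.irreducible_iff (Polynomial.mapEquiv l)).2 hq
      have h12 := h6 _ h11 (by
        rw [← hres]
        exact Polynomial.map_dvd _ hqg)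
      rwa [natDegree_map] at h12) ϖ u h7 h8 e hℓe hfin
  have h13 : algebraMap O L u * algebraMap O L ϖ ^ e = algebraMap k L d * algebraMap k L a := by
    rw [← map_mul, h9, map_mul, map_pow]
    rfl
  have h14 : g.map (algebraMap O L) = C (algebraMap k L d) * f.map (algebraMap k L) := by
    have h15 : algebraMap O L = (algebraMap k L).comp (algebraMap O k) := rfl
    rw [h15, ← Polynomial.map_map, h2, Polynomial.map_mul, map_C]
  rw [h13, h14] at key
  exact key.scale ((_root_.map_ne_zero _).2 hd)

end Pool.Agent.K6.H56.AE
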