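import Mathlib

/-! Density zero sets in rings form an ideal of sets. -/

set_option autoImplicit false
set_option linter.all false

namespace Pool.Agent.K6.H56.AE

/-- small sets at one level -/
def SmallAt {R : Type} [CommRing R] (E : Set R) (I : Ideal R) (ε : ℝ) : Prop :=
  (Set.ncard ((Ideal.Quotient.mk I) '' E) : ℝ) ≤ ε * Nat.card (R ⧸ I)

theorem SmallAt.refine {R : Type} [CommRing R] {E : Set R} {I K : Ideal R} {ε : ℝ}
    (h : SmallAt E I ε) (hK : K ≤ I) [Finite (R ⧸ I)] [Finite (R ⧸ K)] : SmallAt E K ε := by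
  classical
  let φ : (R ⧸ K) →+* (R ⧸ I) := Ideal.Quotient.factor hK
  have hφ : Function.Surjective φ := Ideal.Quotient.factor_surjective hK
  let s : (R ⧸ I) → (R ⧸ K) := Function.surjInv hφ
  have hs : ∀ x, φ (s x) = x := Function.surjInv_eq hφ
  let e : (R ⧸ K) ≃ (R ⧸ I) × RingHom.ker φ :=
    { toFun := fun x => (φ x, ⟨x - s (φ x), by rw [RingHom.mem_ker, map_sub, hs, sub_self]⟩)
      invFun := fun p => s p.1 + p.2.1
      left_inv := fun x => by simp
      right_inv := fun p => by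
        obtain ⟨a, ⟨b, hb⟩⟩ := p
        rw [RingHom.mem_ker] at hb
        have h1 : φ (s a + b) = a := by rw [map_add, hs, hb, add_zero]
        refine Prod.ext h1 (Subtype.ext ?_)
        change s a + b - s (φ (s a + b)) = b
        rw [h1]
        ring }
  have hcard : Nat.card (R ⧸ K) = Nat.card (R ⧸ I) * Nat.card (RingHom.ker φ) := by
    rw [Nat.card_congr e, Nat.card_prod]
  have hsub : Set.ncard ((Ideal.Quotient.mk K) '' E) ≤
      Set.ncard ((Ideal.Quotient.mk I) '' E) * Nat.card (RingHom.ker φ) := by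
    have h1 : Set.ncard (e '' ((Ideal.Quotient.mk K) '' E)) =
        Set.ncard ((Ideal.Quotient.mk K) '' E) := Set.ncard_image_of_injective _ e.injective
    rw [← h1, ← Set.ncard_univ (RingHom.ker φ), ← Set.ncard_prod]
    refine Set.ncard_le_ncard ?_ (Set.toFinite _)
    rintro _ ⟨_, ⟨x, hx, rfl⟩, rfl⟩
    exact ⟨⟨x, hx, rfl⟩, Set.mem_univ _⟩
  unfold SmallAt at h ⊢
  have h2 : (0 : ℝ) ≤ Nat.card (RingHom.ker φ) := Nat.cast_nonneg _
  calc (Set.ncard ((Ideal.Quotient.mk K) '' E) : ℝ)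
      ≤ (Set.ncard ((Ideal.Quotient.mk I) '' E) : ℝ) * Nat.card (RingHom.ker φ) := by
        exact_mod_cast hsub
    _ ≤ (ε * Nat.card (R ⧸ I)) * Nat.card (RingHom.ker φ) := mul_le_mul_of_nonneg_right h h2
    _ = ε * Nat.card (R ⧸ K) := by
        rw [hcard]
        push_cast
        ring

theorem small_union {R : Type} [CommRing R] {E₁ E₂ : Set R}
    (h1 : ∀ ε : ℝ, 0 < ε → ∃ I : Ideal R, Finite (R ⧸ I) ∧ SmallAt E₁ I ε)
    (h2 : ∀ ε : ℝ, 0 < ε → ∃ I : Ideal R, Finite (R ⧸ I) ∧ SmallAt E₂ I ε) :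
    ∀ ε : ℝ, 0 < ε → ∃ I : Ideal R, Finite (R ⧸ I) ∧ SmallAt (E₁ ∪ E₂) I ε := by
  intro ε hε
  obtain ⟨I, hI, hI1⟩ := h1 (ε / 2) (by positivity)
  obtain ⟨J, hJ, hJ1⟩ := h2 (ε / 2) (by positivity)
  have hfin : Finite (R ⧸ (I ⊓ J)) := by
    let g : (R ⧸ (I ⊓ J)) → (R ⧸ I) × (R ⧸ J) := fun x =>
      (Ideal.Quotient.factor inf_le_left x, Ideal.Quotient.factor inf_le_right x)
    refine Finite.of_injective g ?_
    intro x y hxy
    obtain ⟨x, rfl⟩ := Ideal.Quotient.mk_surjective x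
    obtain ⟨y, rfl⟩ := Ideal.Quotient.mk_surjective y
    have e1 : Ideal.Quotient.mk I x = Ideal.Quotient.mk I y := congrArg Prod.fst hxy
    have e2 : Ideal.Quotient.mk J x = Ideal.Quotient.mk J y := congrArg Prod.snd hxy
    rw [Ideal.Quotient.eq] at e1 e2 ⊢
    exact ⟨e1, e2⟩
  refine ⟨I ⊓ J, hfin, ?_⟩
  have e1 := hI1.refine (inf_le_left : I ⊓ J ≤ I)
  have e2 := hJ1.refine (inf_le_right : I ⊓ J ≤ J)
  unfold SmallAt at e1 e2 ⊢
  rw [Set.image_union]
  have e3 : (Set.ncard ((Ideal.Quotient.mk (I ⊓ J)) '' E₁ ∪ (Ideal.Quotient.mk (I ⊓ J)) '' E₂) : ℝ) ≤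
      (Set.ncard ((Ideal.Quotient.mk (I ⊓ J)) '' E₁) : ℝ) +
        Set.ncard ((Ideal.Quotient.mk (I ⊓ J)) '' E₂) := by
    exact_mod_cast Set.ncard_union_le _ _
  linarith

theorem small_biUnion {R : Type} [CommRing R] {X : Type} (s : Finset X) (E : X → Set R)
    (h : ∀ x ∈ s, ∀ ε : ℝ, 0 < ε → ∃ I : Ideal R, Finite (R ⧸ I) ∧ SmallAt (E x) I ε) :
    ∀ ε : ℝ, 0 < ε → ∃ I : Ideal R, Finite (R ⧸ I) ∧ SmallAt (⋃ x ∈ s, E x) I ε := by
  classical
  induction s using Finset.induction_on with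
  | empty =>
    intro ε hε
    refine ⟨⊤, inferInstance, ?_⟩
    unfold SmallAt
    simp only [Finset.notMem_empty, Set.iUnion_of_empty, Set.iUnion_empty, Set.image_empty,
      Set.ncard_empty, Nat.cast_zero]
    positivity
  | insert a s ha ih =>
    rw [Finset.set_biUnion_insert]
    exact small_union (h a (Finset.mem_insert_self a s))
      (ih fun x hx => h x (Finset.mem_insert_of_mem hx))

end Pool.Agent.K6.H56.AE
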