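import Pool.Agent.K6.H56.AE8
import Pool.Agent.K6.H56.AE9
import Pool.Agent.Results.MP_e66f84_ag.SuperellipticTwists

/-!
# The section conjecture for superelliptic curves: almost all twists, over all finite extensions

Let `k` be any field finitely generated over `ℚ`, the fraction field of a domain `R` of characteristic
zero that is finitely generated as a ring, and let `f ∈ k[x]` be separable of degree at least 3.  We
consider the curves `a yⁿ = f(x)` over ALL finite extensions `L` of `k` at once.

For an element `σ` of the absolute Galois group of `k` and a prime number `ℓ` that divides the degree of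
`f` let `⟨ℓ, σ⟩` be the set of the natural numbers that are sums of copies of `ℓ` and of the lengths of
the cycles of `σ` on the roots of `f` (a numerical semigroup).

**Theorem.**  For all `a ∈ R` outside ONE set of density zero, which depends only on `f`: for all `σ`, all
prime divisors `ℓ` of the degree of `f` and ALL finite extensions `L` of `k` whose degree is not in
`⟨ℓ, σ⟩`, the section conjecture is true over `L` for the curves `a yⁿ = f(x)` with `ℓ | n`: they have no
point over `L`, and the fundamental groups of their open subcurves over `L` and of all smooth curves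
over `L` that dominate them have no sections over the absolute Galois group of `L`.  For `n = ℓ` even the
geometrically pro-`ℓ` fundamental group of the curve over `L` has no section.

In other words: if one of these curves has a section over `L`, then `[L : k]` is a sum of copies of `ℓ`
and of cycle lengths of `σ`, for every `σ`.

Examples.
1. Let some `σ` permute the roots of `f` in cycles whose lengths are divisible by `ℓ`, for instance `f`
   irreducible of degree `ℓ`, or `f` of degree `m` divisible by `ℓ` with the Galois group `S_m`.  Then for
   almost all `a` there are points or sections over `L` only if `ℓ` divides `[L : k]`.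
2. `L = k`: if some `σ` has no fixed point, then `1` is not in `⟨ℓ, σ⟩`, and we obtain the starting result
   `SuperellipticTwists`, from which the definitions are taken.
3. Let `f` be of degree 12 with a `σ` of the cycle type `(7, 5)`, and `ℓ = 3`.  Then there are no sections
   over the extensions of `k` of the degrees 1, 2 and 4.  If there is also a `σ'` of the cycle type
   `(6, 6)`, then there are none over the extensions of degree prime to 3.

For each single `L` there is such a result for `L` in the place of `k` by base change only if the `a` are
taken in a ring with the fraction field `L` and with an exceptional set depending on `L`.  Here `a` is in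
`k`, which is a thin subset of `L`, and one exceptional set works for the infinitely many `L`, of
unbounded degrees.

The exceptional set has density zero in a strong sense: for every `ε > 0` there is an ideal `I` of `R` of
finite index such that the exceptional `a` lie in at most `ε #(R/I)` residue classes modulo `I`.

Proof.  As in `NormCurvesInFamilies` (the same helper files) one specialises to a number field such that
the Galois element keeps its cycles, and obtains for almost all `a` a discrete valuation of `k` with a
finite residue field, of large enough characteristic, at which `a` is a uniformiser and `f` has a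
separable reduction with irreducible factors whose degrees are among the multiples of the cycle lengths
of `σ`.  Let `L/k` be finite.  By the fundamental identity `[L : k] = ∑ e_i f_i` for the extensions of the
valuation to `L`, if `[L : k]` is not in `⟨ℓ, σ⟩` there is an `i` such that neither `ℓ` divides `e_i` nor
does `f_i` belong to the multiples of the cycle lengths, since otherwise `e_i f_i` would be in `⟨ℓ, σ⟩` for
all `i`.  So the reduction of `f` has no root in the residue field of this valuation of `L`, and the
valuation of `a` is prime to `ℓ`.  There the local obstruction of the starting files applies, which comes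
from the cyclic covers of the curve given by the roots of `f`.
-/

set_option autoImplicit false

open Polynomial

namespace Pool.Agent.Results.MP_e66f84_ag.AllExtensions

open Pool.Agent.Results.MP_e66f84_ag.SuperellipticTwists

/-- The natural numbers `n` such that `σⁿ` fixes a root of `f`: the multiples of the lengths of the
cycles of `σ` on the roots of `f`. -/
def Periods {k : Type} [Field k] (f : k[X]) (σ : AlgebraicClosure k ≃ₐ[k] AlgebraicClosure k) :
    Set ℕ :=
  {n | ∃ θ : AlgebraicClosure k, aeval θ f = 0 ∧ (σ ^ n) θ = θ}

/-- `⟨ℓ, σ⟩`: the sums of copies of `ℓ` and of the lengths of the cycles of `σ` on the roots of `f`. -/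
def Semigroup {k : Type} [Field k] (f : k[X]) (σ : AlgebraicClosure k ≃ₐ[k] AlgebraicClosure k)
    (ℓ : ℕ) : AddSubmonoid ℕ :=
  AddSubmonoid.closure (insert ℓ (Periods f σ))

/-- The elements `a` of `R` which do not have the following property: for all `σ` in the absolute Galois
group of `k`, all prime divisors `ℓ` of the degree of `f` and all finite extensions `L` of `k` whose
degree is not in `⟨ℓ, σ⟩`, the curves `a yⁿ = f(x)` over `L` with `ℓ | n` have neither points nor
sections, and the geometrically pro-`ℓ` fundamental group of the curve `a y^ℓ = f(x)` over `L` has no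
section. -/
def Exceptional (R : Type) [CommRing R] {k : Type} [Field k] [Algebra R k] (f : k[X]) : Set R :=
  {a | ¬ ∀ (σ : AlgebraicClosure k ≃ₐ[k] AlgebraicClosure k) (ℓ : ℕ), ℓ.Prime →
    ℓ ∣ f.natDegree → ∀ (L : Type) [Field L] [Algebra k L] [FiniteDimensional k L],
    Module.finrank k L ∉ Semigroup f σ ℓ →
      (∀ n : ℕ, ℓ ∣ n →
        NoPoint n (algebraMap k L (algebraMap R k a)) (f.map (algebraMap k L)) ∧
        NoSection n (algebraMap k L (algebraMap R k a)) (f.map (algebraMap k L))) ∧
      NoProEllSection ℓ (algebraMap k L (algebraMap R k a)) (f.map (algebraMap k L))}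

section proof

open Pool.Agent.K6.H56.AE

/-- the assertion for one set of periods -/
def Good (R : Type) [CommRing R] {k : Type} [Field k] [Algebra R k] (f : k[X]) (P : Set ℕ) (a : R) :
    Prop :=
  ∀ ℓ : ℕ, ℓ.Prime → ℓ ∣ f.natDegree → ∀ (L : Type) [Field L] [Algebra k L] [FiniteDimensional k L],
    Module.finrank k L ∉ AddSubmonoid.closure (insert ℓ P) →
    Pool.Agent.Y157.PS.FineP ℓ (algebraMap k L (algebraMap R k a)) (f.map (algebraMap k L))

/-- there are only finitely many sets of periods -/
lemma finite_periods {k : Type} [Field k] (f : k[X]) (hf : f ≠ 0) :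
    (Set.range fun σ : AlgebraicClosure k ≃ₐ[k] AlgebraicClosure k => Periods f σ).Finite := by
  classical
  let X := {θ : AlgebraicClosure k // θ ∈ f.rootSet (AlgebraicClosure k)}
  have hX : Finite X := (f.rootSet_finite (AlgebraicClosure k)).to_subtype
  have hmem : ∀ θ : AlgebraicClosure k, θ ∈ f.rootSet (AlgebraicClosure k) ↔ aeval θ f = 0 := by
    intro θ
    rw [mem_rootSet]
    exact ⟨fun h => h.2, fun h => ⟨hf, h⟩⟩
  let r : (AlgebraicClosure k ≃ₐ[k] AlgebraicClosure k) → X → X := fun σ x =>
    ⟨σ x.1, by
      rw [hmem]
      have h1 := aeval_algHom_apply (σ : AlgebraicClosure k →ₐ[k] AlgebraicClosure k) x.1 f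
      rw [(hmem _).1 x.2, map_zero] at h1
      exact h1⟩
  have hr : ∀ σ (n : ℕ) (x : X), ((r σ)^[n] x).1 = (σ ^ n) x.1 := by
    intro σ n
    induction n with
    | zero => intro x; rfl
    | succ n ih =>
      intro x
      rw [Function.iterate_succ_apply', pow_succ']
      change σ ((r σ)^[n] x).1 = σ ((σ ^ n) x.1)
      rw [ih]
  refine (Set.finite_range fun h : X → X => {n : ℕ | ∃ x : X, h^[n] x = x}).subset ?_
  rintro _ ⟨σ, rfl⟩
  refine ⟨r σ, ?_⟩
  ext n
  constructor
  · rintro ⟨x, hx⟩
    refine ⟨x.1, (hmem _).1 x.2, ?_⟩
    rw [← hr, hx]
  · rintro ⟨θ, hθ, hn⟩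
    refine ⟨⟨θ, (hmem θ).2 hθ⟩, Subtype.ext ?_⟩
    rw [hr]
    exact hn

lemma small_good (R : Type) [CommRing R] [IsDomain R] [CharZero R] [Algebra.FiniteType ℤ R]
    (k : Type) [Field k] [Algebra R k] [IsFractionRing R k] (f : k[X]) (hf : f.Separable)
    (h3 : 3 ≤ f.natDegree) (σ : AlgebraicClosure k ≃ₐ[k] AlgebraicClosure k) (ε : ℝ) (hε : 0 < ε) :
    ∃ I : Ideal R, Finite (R ⧸ I) ∧ SmallAt {a : R | ¬ Good R f (Periods f σ) a} I ε := by
  have hcz : CharZero k := charZero_of_injective_algebraMap (IsFractionRing.injective R k)
  have hFUN := Pool.Agent.Y674.PS.funct Pool.Agent.Y157.PS.a_inrt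
  have htop : IntermediateField.adjoin k {(0 : k)} = (⊤ : IntermediateField k k) := by
    rw [eq_top_iff]
    intro x _
    exact IntermediateField.algebraMap_mem (IntermediateField.adjoin k {(0 : k)}) x
  have hF : ∀ t : k, (f.map (C : k →+* k[X])).map (evalRingHom t) = f := by
    intro t
    rw [Polynomial.map_map]
    have h1 : (evalRingHom t).comp (C : k →+* k[X]) = RingHom.id k := by
      ext x
      simp
    rw [h1, Polynomial.map_id]
  have hF' : (f.map (C : k →+* k[X])).map (aeval (R := k) (0 : k)).toRingHom = f := by
    rw [Polynomial.map_map]
    have h1 : ((aeval (R := k) (0 : k)).toRingHom).comp (C : k →+* k[X]) = RingHom.id k := by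
      ext x
      simp
    rw [h1, Polynomial.map_id]
  have hdegC : (f.map (C : k →+* k[X])).natDegree = f.natDegree :=
    natDegree_map_eq_of_injective C_injective _
  obtain ⟨I, hI, hle⟩ := density_gp_alg (R := R) k (0 : k) htop X X_ne_zero (f.map C)
    (by rw [hdegC]; omega) f.natDegree (by omega) (by rw [hF', hdegC]) (by rwa [hF'])
    (fun n => n ∈ Periods f σ) σ (by
      intro θ hθ n hn
      rw [hF'] at hθ
      exact ⟨θ, hθ, hn⟩) ε hε
  have he : rootMultiplicity (0 : k) ((X : k[X]).map (algebraMap k k)) = 1 := by
    rw [Polynomial.map_X]
    have h1 : (X : k[X]) = X - C 0 := by rw [C_0, sub_zero]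
    rw [h1]
    exact rootMultiplicity_X_sub_C_self
  refine ⟨I, hI, le_trans ?_ hle⟩
  refine Nat.cast_le.2 (Set.ncard_le_ncard (Set.image_mono ?_) (Set.toFinite _))
  intro t ht hgood
  apply ht
  obtain ⟨-, -, -, d, hd, hgp⟩ := hgood
  rw [he, hF, eval_X] at hgp
  intro ℓ hℓ hℓd L _ _ _ hL
  exact hgp.fineP hFUN hd L ℓ hℓ hℓd hℓd h3 (fun h => hℓ.one_lt.ne' (Nat.dvd_one.1 h)) hL

end proof

/-- Let `R` be a domain of characteristic zero that is finitely generated as a ring, with fraction
field `k`; so `k` is any field finitely generated over `ℚ`.  Let `f` be a separable polynomial over `k` of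
degree at least 3.  Then for all `a ∈ R` outside a set of density zero: for all `σ` in the absolute Galois
group of `k`, all prime divisors `ℓ` of the degree of `f` and all finite extensions `L` of `k` whose degree
is not a sum of copies of `ℓ` and of lengths of cycles of `σ` on the roots of `f`, the smooth projective
curves with the affine equations `a yⁿ = f(x)`, where `ℓ | n`, have no point over `L`, and the fundamental
groups of their open subcurves over `L` and of all smooth curves over `L` that dominate them have no
sections; and the geometrically pro-`ℓ` fundamental group of the curve `a y^ℓ = f(x)` over `L` has no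
section. -/
theorem result (R : Type) [CommRing R] [IsDomain R] [CharZero R] [Algebra.FiniteType ℤ R]
    (k : Type) [Field k] [Algebra R k] [IsFractionRing R k] (f : k[X]) (hf : f.Separable)
    (h3 : 3 ≤ f.natDegree) : DensityZero (Exceptional R f) := by
  classical
  have hf0 : f ≠ 0 := by
    rintro rfl
    rw [natDegree_zero] at h3
    omega
  have hfin := finite_periods f hf0
  have key := Pool.Agent.K6.H56.AE.small_biUnion hfin.toFinset
    (fun P => {a : R | ¬ Good R f P a}) (by
      intro P hP ε hε
      obtain ⟨σ, rfl⟩ := hfin.mem_toFinset.1 hP
      exact small_good R k f hf h3 σ ε hε)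
  intro ε hε
  obtain ⟨I, hI, hle⟩ := key ε hε
  refine ⟨I, hI, le_trans ?_ hle⟩
  refine Nat.cast_le.2 (Set.ncard_le_ncard (Set.image_mono ?_) (Set.toFinite _))
  intro a ha
  by_contra hgood
  apply ha
  intro σ ℓ hℓ hℓd L _ _ _ hL
  have hG : Good R f (Periods f σ) a := by
    by_contra h
    apply hgood
    refine Set.mem_iUnion₂.2 ⟨Periods f σ, hfin.mem_toFinset.2 ⟨σ, rfl⟩, h⟩
  have hfine := hG ℓ hℓ hℓd L hL
  have hcz : CharZero k := charZero_of_injective_algebraMap (IsFractionRing.injective R k)
  have hdeg : (f.map (algebraMap k L)).natDegree = f.natDegree :=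
    natDegree_map_eq_of_injective (RingHom.injective _) _
  refine ⟨fun n hn => of_fine ℓ _ _ hfine n hn (by rwa [hdeg]), ?_⟩
  intro F Ω _ _ _ _ _ _ _ x y hx hxy hF N hN
  have hcl : IsAlgClosed Ω := IsAlgClosure.isAlgClosed F
  have halg : Algebra.IsAlgebraic F Ω := IsAlgClosure.isAlgebraic
  rw [proEll_eq] at hN
  exact ⟨fun s => hfine.1 F Ω x y hx hxy hF N hN s.toHom s.cont s.compat⟩

end Pool.Agent.Results.MP_e66f84_ag.AllExtensions
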