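import Pool.Agent.TH377.NC.Gal

/-!
# The Kummer argument for conjugate functions: sections and rational points
-/

set_option autoImplicit false
set_option maxHeartbeats 400000
set_option linter.all false

namespace Pool.Agent.K6.H56.CF

open Pool.Agent.W620.SC Pool.Agent.W623.SecC Pool.Agent.TH120.Sec Polynomial IntermediateField
open Pool.Agent.TH377.LocG Pool.Agent.TH377.NC

universe u v w

/-- no section over `F_U` -/
theorem galG {k : Type u} {F : Type v} {Ω : Type w} [Field k] [Field F] [Field Ω]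
    [Algebra k F] [Algebra F Ω] [Algebra k Ω] [IsScalarTower k F Ω] [CharZero k] [IsAlgClosed Ω]
    [Algebra.IsAlgebraic F Ω]
    (U : Set (ValuationSubring F)) (hU : ∀ O ∈ U, ∀ c : k, algebraMap k F c ∈ O)
    (G : GSection k F Ω U) (V : ValuationSubring (algebraicClosure k Ω))
    (S : IntermediateField k (algebraicClosure k Ω)) (ϖ : k) (ϖ0 : ϖ ≠ 0)
    (ϖn : algebraMap k (algebraicClosure k Ω) ϖ ∈ V.nonunits)
    (tame : ∀ c ∈ S, c ≠ 0 → ∃ j : ℤ, IsU V (c / algebraMap k (algebraicClosure k Ω) ϖ ^ j))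
    (ℓ : ℕ) (hℓ0 : 0 < ℓ)
    {X : Type*} [Fintype X] (θ : X → algebraicClosure k Ω) (e : X → ℕ) {Y : Type*} (cl : X → Y)
    (htr : ∀ x x', cl x = cl x' → ∃ φ π, GoodAut θ e cl S V φ π ∧ π x = x')
    (hcard : ∀ x, Nat.gcd 2 ℓ * ℓ ∣ Nat.card {x' // cl x' = cl x})
    {J : Type*} [Fintype J]
    (α : X → J → algebraicClosure k Ω) (hαS : ∀ i j, α i j ∈ S)
    (hαG : ∀ φ π, GoodAut θ e cl S V φ π → ∀ i j, φ (α i j) = α (π i) j)
    (x : J → F)
    (hnv : ∀ i i', i ≠ i' → ∑ j, (α i j : Ω) * algebraMap F Ω (x j) = 0 →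
      ∑ j, (α i' j : Ω) * algebraMap F Ω (x j) = 0 → False)
    (y : F)
    (c : algebraicClosure k Ω) (hcS : c ∈ S) (m : ℤ)
    (hm : ¬ (ℓ : ℤ) ∣ m) (hc : IsU V (c / algebraMap k (algebraicClosure k Ω) ϖ ^ m))
    (hxy : (c : Ω) * algebraMap F Ω y ^ ℓ = ∏ i, ∑ j, (α i j : Ω) * algebraMap F Ω (x j))
    (hrat : ∀ W : ValuationSubring Ω, W.comap (algebraMap F Ω) ∈ U →
      (∀ z : algebraicClosure k Ω, (z : Ω) ∈ W) → ∀ i i',
      ∑ j, (α i j : Ω) * algebraMap F Ω (x j) ≠ 0 →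
      ∑ j, (α i' j : Ω) * algebraMap F Ω (x j) ≠ 0 →
      ∃ t : F, t ≠ 0 ∧
        (∑ j, (α i j : Ω) * algebraMap F Ω (x j)) / (∑ j, (α i' j : Ω) * algebraMap F Ω (x j)) /
          algebraMap F Ω t ^ ℓ ∈ W ∧
        algebraMap F Ω t ^ ℓ / ((∑ j, (α i j : Ω) * algebraMap F Ω (x j)) /
          (∑ j, (α i' j : Ω) * algebraMap F Ω (x j))) ∈ W) :
    False := by
  have hℓ : ℓ ≠ 1 := by
    rintro rfl
    exact hm (by simp)
  have hac : IsAlgClosure k (algebraicClosure k Ω) := inferInstance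
  have hA : IsAlgClosed (algebraicClosure k Ω) := hac.1
  have hWk : ∀ W : ValuationSubring Ω, W.comap (algebraMap F Ω) ∈ U →
      ∀ c : k, algebraMap k Ω c ∈ W := by
    intro W hW c
    rw [IsScalarTower.algebraMap_apply k F Ω]
    exact hU _ hW c
  have hWA : ∀ W : ValuationSubring Ω, W.comap (algebraMap F Ω) ∈ U →
      ∀ c : algebraicClosure k Ω, algebraMap (algebraicClosure k Ω) Ω c ∈ W := by
    intro W hW c
    exact const_mem (hWk W hW) c.2
  -- the functions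
  set D := mkT U hU G V S ϖ ϖ0 ϖn tame 1 (fun _ => Iff.rfl) (fun _ => Iff.rfl) with hD
  set lam : X → unramified F Ω U := fun i =>
    ∑ l, D.ι (α i l) * algebraMap F (unramified F Ω U) (x l) with hlam
  have hval : ∀ i, ((lam i : unramified F Ω U) : Ω) =
      ∑ l, (α i l : Ω) * algebraMap F Ω (x l) := by
    intro i
    change algebraMap (unramified F Ω U) Ω (lam i) = _
    rw [hlam, map_sum]
    exact Finset.sum_congr rfl fun l _ => map_mul (algebraMap (unramified F Ω U) Ω) _ _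
  have hfix : ∀ (σ) (z : F), D.s σ (algebraMap F (unramified F Ω U) z) =
      algebraMap F (unramified F Ω U) z := fun σ z => (G.toHom σ).commutes z
  have hGood : ∀ φ π, GoodAut θ e cl S V φ π → ∀ i, D.s φ (lam i) = lam (π i) := by
    intro φ π hφ i
    rw [hlam, map_sum]
    refine Finset.sum_congr rfl fun l _ => ?_
    rw [map_mul, hfix, D.hι, hαG φ π hφ]
  have hmem : ∀ i, lam i ∈ D.RS := fun i => sum_mem fun l _ =>
    mul_mem (D.ι_mem (hαS i l)) (fun σ _ => hfix σ _)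
  have hne0 : ∀ i, lam i ≠ 0 := by
    intro i hi
    obtain ⟨i', hi', hcl⟩ := exists_other cl ℓ hℓ hcard i
    obtain ⟨φ, π, hφ, hπ⟩ := htr i i' hcl.symm
    have h1 := hGood φ π hφ i
    rw [hi, map_zero, hπ] at h1
    have h2 := hval i
    have h3 := hval i'
    rw [hi] at h2
    rw [← h1] at h3
    exact hnv i' i hi' h3.symm h2.symm
  refine absL D ℓ hℓ0 θ e cl ⟨ϖ, rfl⟩ htr hcard lam hne0 hmem hGood
    (algebraMap F (unramified F Ω U) y)
    (fun σ => hfix σ _) c hcS m hm hc ?_ ?_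
  · apply (algebraMap (unramified F Ω U) Ω).injective
    rw [map_mul, map_pow, map_prod]
    have hval' : ∀ i, algebraMap (unramified F Ω U) Ω (lam i) =
      ∑ l, (α i l : Ω) * algebraMap F Ω (x l) := hval
    simp only [hval']
    exact hxy
  · intro i i'
    refine exists_root_unramified (k := k) U hU hℓ0 _ ?_
    intro _ W hW
    have hv : ((lam i / lam i' : unramified F Ω U) : Ω) =
        (∑ l, (α i l : Ω) * algebraMap F Ω (x l)) / (∑ l, (α i' l : Ω) * algebraMap F Ω (x l)) := by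
      rw [← hval, ← hval]
      exact map_div₀ (algebraMap (unramified F Ω U) Ω) _ _
    rw [hv]
    have hne' : ∀ i, ∑ l, (α i l : Ω) * algebraMap F Ω (x l) ≠ 0 := by
      intro i h
      rw [← hval] at h
      exact hne0 i (Subtype.ext h)
    obtain ⟨t, ht0, h3, h4⟩ := hrat W hW (hWA W hW) i i' (hne' i) (hne' i')
    exact ⟨algebraMap F Ω t, IntermediateField.algebraMap_mem _ _,
      (_root_.map_ne_zero _).2 ht0, h3, h4⟩

/-- no rational point -/
theorem galGpt {k : Type u} {A : Type w} [Field k] [Field A] [Algebra k A] [CharZero k]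
    [IsAlgClosed A] [Algebra.IsAlgebraic k A] (V : ValuationSubring A)
    (S : IntermediateField k A) (ϖ : k) (ϖ0 : ϖ ≠ 0)
    (ϖn : algebraMap k A ϖ ∈ V.nonunits)
    (tame : ∀ c ∈ S, c ≠ 0 → ∃ j : ℤ, IsU V (c / algebraMap k A ϖ ^ j))
    (ℓ : ℕ) (hℓ0 : 0 < ℓ)
    {X : Type*} [Fintype X] (θ : X → A) (e : X → ℕ) {Y : Type*} (cl : X → Y)
    (htr : ∀ x x', cl x = cl x' → ∃ φ π, GoodAut θ e cl S V φ π ∧ π x = x')
    (hcard : ∀ x, Nat.gcd 2 ℓ * ℓ ∣ Nat.card {x' // cl x' = cl x})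
    {J : Type*} [Fintype J]
    (α : X → J → A) (hαS : ∀ i j, α i j ∈ S)
    (hαG : ∀ φ π, GoodAut θ e cl S V φ π → ∀ i j, φ (α i j) = α (π i) j)
    (x : J → k)
    (hnv : ∀ i i', i ≠ i' → ∑ j, α i j * algebraMap k A (x j) = 0 →
      ∑ j, α i' j * algebraMap k A (x j) = 0 → False)
    (y : k)
    (c : A) (hcS : c ∈ S) (m : ℤ)
    (hm : ¬ (ℓ : ℤ) ∣ m) (hc : IsU V (c / algebraMap k A ϖ ^ m))
    (hxy : c * algebraMap k A y ^ ℓ = ∏ i, ∑ j, α i j * algebraMap k A (x j)) :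
    False := by
  have hℓ : ℓ ≠ 1 := by
    rintro rfl
    exact hm (by simp)
  set D := idT V S ϖ ϖ0 ϖn tame 1 (fun _ => Iff.rfl) (fun _ => Iff.rfl) with hD
  set lam : X → A := fun i => ∑ l, α i l * algebraMap k A (x l) with hlam
  have hfix : ∀ (σ) (z : k), D.s σ (algebraMap k A z) = algebraMap k A z :=
    fun σ z => σ.commutes z
  have hGood : ∀ φ π, GoodAut θ e cl S V φ π → ∀ i, D.s φ (lam i) = lam (π i) := by
    intro φ π hφ i
    rw [hlam, map_sum]
    refine Finset.sum_congr rfl fun l _ => ?_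
    rw [map_mul, hfix]
    congr 1
    exact hαG φ π hφ i l
  have hmem : ∀ i, lam i ∈ D.RS := fun i => sum_mem fun l _ =>
    mul_mem (D.ι_mem (hαS i l)) (fun σ _ => hfix σ _)
  have hne0 : ∀ i, lam i ≠ 0 := by
    intro i hi
    obtain ⟨i', hi', hcl⟩ := exists_other cl ℓ hℓ hcard i
    obtain ⟨φ, π, hφ, hπ⟩ := htr i i' hcl.symm
    have h1 := hGood φ π hφ i
    rw [hi, map_zero, hπ] at h1
    exact hnv i' i hi' h1.symm hi
  refine absL D ℓ hℓ0 θ e cl ⟨ϖ, rfl⟩ htr hcard lam hne0 hmem hGood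
    (algebraMap k A y)
    (fun σ => hfix σ _) c hcS m hm hc ?_ ?_
  · exact hxy
  · intro i i'
    exact IsAlgClosed.exists_pow_nat_eq _ hℓ0

end Pool.Agent.K6.H56.CF
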