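import Pool.Agent.TH377.LocG.Abs

/-!
# Conjugate polynomials at the places of a superelliptic curve
-/

set_option autoImplicit false
set_option maxHeartbeats 400000
set_option linter.all false

namespace Pool.Agent.K6.H56.CF

open Pool.Agent.W620.SC Pool.Agent.W623.SecC Pool.Agent.TH120.Sec Polynomial

lemma eval_mem {Ω A : Type*} [Field Ω] [Field A] (j : A →+* Ω) (W : ValuationSubring Ω)
    (hW : ∀ c, j c ∈ W) (H : A[X]) (x : Ω) (hx : x ∈ W) : (H.map j).eval x ∈ W := by
  rw [eval_map, eval₂_eq_sum_range]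
  exact sum_mem fun i _ => mul_mem (hW _) (pow_mem hx i)

/-- outside the valuation ring a polynomial is a power of `x` up to a unit -/
lemma eval_out {Ω A : Type*} [Field Ω] [Field A] (j : A →+* Ω) (W : ValuationSubring Ω)
    (hW : ∀ c, j c ∈ W) (H : A[X]) (hH : H ≠ 0) (x : Ω) (hx : x ∉ W) :
    IsU W ((H.map j).eval x / x ^ H.natDegree) := by
  have hx0 : x ≠ 0 := by
    rintro rfl
    exact hx W.zero_mem
  have hxi : x⁻¹ ∈ W := (W.mem_or_inv_mem x).resolve_left hx
  have hxn : x⁻¹ ∈ W.nonunits := by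
    by_contra h
    have h1 := isU_of_not_nonunit hxi h
    exact hx (by have := h1.2.2; rwa [inv_inv] at this)
  have hlc : IsU W (j H.leadingCoeff) := by
    have h0 : j H.leadingCoeff ≠ 0 := (_root_.map_ne_zero j).2 (leadingCoeff_ne_zero.2 hH)
    exact ⟨h0, hW _, by rw [← map_inv₀]; exact hW _⟩
  -- the reverse polynomial
  have h1 : (H.map j).eval x / x ^ H.natDegree = j H.leadingCoeff +
      x⁻¹ * ∑ i ∈ Finset.range H.natDegree, j (H.coeff i) * x⁻¹ ^ (H.natDegree - 1 - i) := by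
    rw [eval_map, eval₂_eq_sum_range, Finset.sum_range_succ, add_div, add_comm]
    congr 1
    · rw [mul_div_assoc, div_self (pow_ne_zero _ hx0), mul_one]
      rfl
    · rw [Finset.sum_div, Finset.mul_sum]
      refine Finset.sum_congr rfl fun i hi => ?_
      have hi' := Finset.mem_range.1 hi
      rw [mul_left_comm, ← pow_succ', mul_div_assoc]
      congr 1
      rw [inv_pow, div_eq_iff (pow_ne_zero _ hx0), ← div_eq_inv_mul, eq_div_iff (pow_ne_zero _ hx0),
        ← pow_add]
      congr 1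
      omega
  rw [h1]
  have h2 : x⁻¹ * ∑ i ∈ Finset.range H.natDegree, j (H.coeff i) * x⁻¹ ^ (H.natDegree - 1 - i) ∈
      W.nonunits := by
    rw [mul_comm]
    exact nonunit_mul (sum_mem fun i _ => mul_mem (hW _) (pow_mem hxi _)) hxn
  refine isU_of_not_nonunit (add_mem hlc.2.1 (W.nonunits_subset h2)) ?_
  intro h3
  refine hlc.not_nonunit ?_
  obtain ⟨h4, h5⟩ := (W.mem_nonunits_iff_exists_mem_maximalIdeal).1 h3
  obtain ⟨h6, h7⟩ := (W.mem_nonunits_iff_exists_mem_maximalIdeal).1 h2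
  refine (W.mem_nonunits_iff_exists_mem_maximalIdeal).2 ⟨hlc.2.1, ?_⟩
  have h8 := Ideal.sub_mem _ h5 h7
  convert h8 using 1
  apply Subtype.ext
  change j H.leadingCoeff = j H.leadingCoeff + _ - _
  ring

/-- ratios of the conjugate polynomials are `ℓ`-th powers up to units at all places -/
lemma ratio_poly {Ω A : Type*} [Field Ω] [Field A] (j : A →+* Ω)
    (W : ValuationSubring Ω) (hW : ∀ c, j c ∈ W) {X : Type*} [Fintype X]
    (H : X → A[X]) (hH : ∀ i, H i ≠ 0) (hdeg : ∀ i i', (H i).natDegree = (H i').natDegree)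
    (hcop : ∀ i i', i ≠ i' → IsCoprime (H i) (H i')) (x y c : Ω) (hc : IsU W c) (ℓ : ℕ)
    (hℓ : 0 < ℓ) (hrel : c * y ^ ℓ = ∏ i, ((H i).map j).eval x) (i i' : X)
    (hi0 : ((H i).map j).eval x ≠ 0) (hi'0 : ((H i').map j).eval x ≠ 0) :
    ∃ a : ℤ, (a = 0 ∨ y ≠ 0) ∧
      IsU W (((H i).map j).eval x / ((H i').map j).eval x / (y ^ a) ^ ℓ) := by
  classical
  set Λ : X → Ω := fun i => ((H i).map j).eval x with hΛ
  change ∃ a : ℤ, (a = 0 ∨ y ≠ 0) ∧ IsU W (Λ i / Λ i' / (y ^ a) ^ ℓ)
  by_cases hii : i = i'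
  · subst hii
    refine ⟨0, Or.inl rfl, ?_⟩
    rw [div_self hi0, zpow_zero, one_pow, div_one]
    exact isU_one
  by_cases hx : x ∈ W
  · have hΛW : ∀ i, Λ i ∈ W := fun i => eval_mem j W hW (H i) x hx
    have hother : ∀ l, Λ l ∈ W.nonunits → ∀ l', l' ≠ l → IsU W (Λ l') := by
      intro l hl l' hl'
      by_contra h
      have h1 : Λ l' ∈ W.nonunits := by
        by_contra h2
        exact h (isU_of_not_nonunit (hΛW l') h2)
      obtain ⟨u, v, huv⟩ := hcop l' l hl'
      have h2 : (u.map j).eval x * Λ l' + (v.map j).eval x * Λ l = 1 := by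
        have h3 := congrArg (fun p => (p.map j).eval x) huv
        simpa using h3
      have h3 := nonunit_mul (eval_mem j W hW u x hx) h1
      have h4 := nonunit_mul (eval_mem j W hW v x hx) hl
      obtain ⟨h5, h6⟩ := (W.mem_nonunits_iff_exists_mem_maximalIdeal).1 h3
      obtain ⟨h7, h8⟩ := (W.mem_nonunits_iff_exists_mem_maximalIdeal).1 h4
      have h9 := Ideal.add_mem _ h6 h8
      refine (isU_one (V := W)).not_nonunit ?_
      refine (W.mem_nonunits_iff_exists_mem_maximalIdeal).2 ⟨W.one_mem, ?_⟩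
      convert h9 using 1
      apply Subtype.ext
      exact h2.symm
    have hkey : ∀ l, Λ l ≠ 0 → Λ l ∈ W.nonunits → y ≠ 0 ∧ IsU W (Λ l / y ^ ℓ) := by
      intro l hl0 hl
      have hP : IsU W (∏ l' ∈ Finset.univ.erase l, Λ l') :=
        IsU.prod _ _ fun l' hl' => hother l hl l' (Finset.ne_of_mem_erase hl')
      have h1 : c * y ^ ℓ = Λ l * ∏ l' ∈ Finset.univ.erase l, Λ l' := by
        rw [hrel, Finset.mul_prod_erase Finset.univ Λ (Finset.mem_univ l)]
      have hy0 : y ≠ 0 := by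
        intro h
        rw [h, zero_pow (by positivity), mul_zero] at h1
        exact mul_ne_zero hl0 hP.1 h1.symm
      refine ⟨hy0, ?_⟩
      have h2 : Λ l / y ^ ℓ = c / ∏ l' ∈ Finset.univ.erase l, Λ l' := by
        rw [div_eq_div_iff (pow_ne_zero _ hy0) hP.1]
        exact h1.symm
      rw [h2]
      exact hc.div hP
    by_cases hni : Λ i ∈ W.nonunits
    · obtain ⟨hy0, hab⟩ := hkey i hi0 hni
      refine ⟨1, Or.inr hy0, ?_⟩
      rw [zpow_one, div_right_comm]
      exact hab.div (hother i hni i' (Ne.symm hii))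
    · by_cases hni' : Λ i' ∈ W.nonunits
      · obtain ⟨hy0, hab⟩ := hkey i' hi'0 hni'
        refine ⟨-1, Or.inr hy0, ?_⟩
        have h1 : Λ i / Λ i' / (y ^ (-1 : ℤ)) ^ ℓ = Λ i / (Λ i' / y ^ ℓ) := by
          rw [zpow_neg, zpow_one, inv_pow, div_inv_eq_mul, div_mul_eq_mul_div,
            div_div_eq_mul_div]
        rw [h1]
        exact (hother i' hni' i hii).div hab
      · refine ⟨0, Or.inl rfl, ?_⟩
        rw [zpow_zero, one_pow, div_one]
        exact (isU_of_not_nonunit (hΛW i) hni).div (isU_of_not_nonunit (hΛW i') hni')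
  · refine ⟨0, Or.inl rfl, ?_⟩
    rw [zpow_zero, one_pow, div_one]
    have h1 := eval_out j W hW (H i) (hH i) x hx
    have h2 := eval_out j W hW (H i') (hH i') x hx
    have hx0 : x ≠ 0 := by
      rintro rfl
      exact hx W.zero_mem
    have h3 := h1.div h2
    rw [hdeg i i', div_div_div_cancel_right₀ (pow_ne_zero _ hx0)] at h3
    exact h3

end Pool.Agent.K6.H56.CF
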