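import Pool.Agent.TH377.LocG.Main
import Pool.Agent.TH377.NC.Local
import Pool.Agent.K6.H56.CF1

/-!
# The local theorem for conjugate functions
-/

set_option autoImplicit false
set_option maxHeartbeats 400000
set_option linter.all false

namespace Pool.Agent.K6.H56.CF

open Pool.Agent.W620.SC Pool.Agent.W623.SecC Pool.Agent.TH120.Sec Polynomial IntermediateField
open Pool.Agent.TH377.LocG Pool.Agent.TH377.Loc Pool.Agent.TH377.NC

universe u v w

section

variable {A k : Type u} [CommRing A] [IsDomain A]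
    [IsDiscreteValuationRing A] [Field k] [Algebra A k]
    [IsFractionRing A k] [CharZero k]
    (ℓ : ℕ) (hℓ : 0 < ℓ) (f : A[X]) (hf : f.Monic)
    (hs : (f.map (IsLocalRing.residue A)).Separable)
    (hσ : FactorDiv (Nat.gcd 2 ℓ * ℓ) (f.map (IsLocalRing.residue A)))
    (ϖ : A) (hϖ : Irreducible ϖ) (a : k) (t : A) (ht : IsUnit t) (m : ℤ) (hm : ¬ (ℓ : ℤ) ∣ m)
    (ha : a = algebraMap A k t * algebraMap A k ϖ ^ m)

include hf hs hσ hϖ ht ha hℓ hm

/-- **The local theorem**, sections. -/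
theorem local_sectionG {F : Type v} {Ω : Type w} [Field F] [Field Ω] [Algebra k F] [Algebra F Ω]
    [Algebra k Ω] [IsScalarTower k F Ω] [IsAlgClosed Ω] [Algebra.IsAlgebraic F Ω]
    (U : Set (ValuationSubring F)) (hU : ∀ O ∈ U, ∀ c : k, algebraMap k F c ∈ O)
    {J : Type*} [Fintype J] (P : J → k[X]) (x : J → F) (y : F) (Λ : Ω → Ω)
    (hΛ : ∀ θ, Λ θ = ∑ j, aeval θ (P j) * algebraMap F Ω (x j))
    (hnv : ∀ θ θ' : Ω, aeval θ (f.map (algebraMap A k)) = 0 →
      aeval θ' (f.map (algebraMap A k)) = 0 → θ ≠ θ' → Λ θ = 0 → Λ θ' = 0 → False)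
    (hrat : ∀ W : ValuationSubring Ω, W.comap (algebraMap F Ω) ∈ U →
      (∀ z : algebraicClosure k Ω, (z : Ω) ∈ W) → ∀ θ θ' : Ω,
      aeval θ (f.map (algebraMap A k)) = 0 → aeval θ' (f.map (algebraMap A k)) = 0 →
      Λ θ ≠ 0 → Λ θ' ≠ 0 →
      ∃ t : F, t ≠ 0 ∧ Λ θ / Λ θ' / algebraMap F Ω t ^ ℓ ∈ W ∧
        algebraMap F Ω t ^ ℓ / (Λ θ / Λ θ') ∈ W)
    (hxy : algebraMap k Ω a * algebraMap F Ω y ^ ℓ =
      (((f.map (algebraMap A k)).map (algebraMap k Ω)).roots.map Λ).prod) :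
    IsEmpty (GSection k F Ω U) := by
  classical
  refine ⟨fun G => ?_⟩
  have hac : IsAlgClosure k (algebraicClosure k Ω) := inferInstance
  have hkb : IsAlgClosed (algebraicClosure k Ω) := hac.1
  let _ : Algebra A (algebraicClosure k Ω) :=
    ((algebraMap k (algebraicClosure k Ω)).comp (algebraMap A k)).toAlgebra
  have hst : IsScalarTower A k (algebraicClosure k Ω) :=
    IsScalarTower.of_algebraMap_eq (fun _ => rfl)
  have hcz : CharZero Ω := charZero_of_injective_algebraMap (algebraMap k Ω).injective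
  obtain ⟨V, S, X, _, θ, e', cl, hϖ0, hpn, htame, hθS, hθinj, hθroot, htr, hcard, hcu, hroots⟩ :=
    lin_data (kb := algebraicClosure k Ω) ℓ f hf hs hσ ϖ hϖ a t ht m ha
  have hr := hroots (algebraMap (algebraicClosure k Ω) Ω)
  rw [← IsScalarTower.algebraMap_eq k (algebraicClosure k Ω) Ω] at hr
  have hval : ∀ i, ∑ j, ((aeval (θ i) (P j) : algebraicClosure k Ω) : Ω) * algebraMap F Ω (x j) =
      Λ (θ i : Ω) := by
    intro i
    rw [hΛ]
    refine Finset.sum_congr rfl fun j _ => ?_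
    congr 1
    exact (aeval_algebraMap_apply Ω (θ i) (P j)).symm
  have hroot : ∀ i, aeval ((θ i : algebraicClosure k Ω) : Ω) (f.map (algebraMap A k)) = 0 := by
    intro i
    have h1 := aeval_algebraMap_apply Ω (θ i) (f.map (algebraMap A k))
    rw [hθroot i, map_zero] at h1
    exact h1
  have hinj : ∀ i i', i ≠ i' → ((θ i : algebraicClosure k Ω) : Ω) ≠ θ i' := fun i i' hii h =>
    hii (hθinj (Subtype.ext h))
  refine galG U hU G V S (algebraMap A k ϖ) hϖ0 hpn htame ℓ hℓ θ e' cl htr hcard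
    (fun i j => aeval (θ i) (P j)) ?_ ?_ x ?_ y
    (algebraMap k (algebraicClosure k Ω) a) (S.algebraMap_mem _) m hm hcu ?_ ?_
  · intro i j
    have h1 : aeval ((⟨θ i, hθS i⟩ : S) : algebraicClosure k Ω) (P j) =
        ((aeval (⟨θ i, hθS i⟩ : S) (P j) : S) : algebraicClosure k Ω) :=
      IntermediateField.aeval_coe S (⟨θ i, hθS i⟩ : S) (P j)
    change aeval ((⟨θ i, hθS i⟩ : S) : algebraicClosure k Ω) (P j) ∈ S
    rw [h1]
    exact Subtype.mem _
  · intro φ π hφ i j
    have h1 := aeval_algHom_apply (φ : algebraicClosure k Ω →ₐ[k] algebraicClosure k Ω) (θ i) (P j)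
    have h2 : (φ : algebraicClosure k Ω →ₐ[k] algebraicClosure k Ω) (θ i) = θ (π i) := hφ.2.2.1 i
    rw [h2] at h1
    exact h1.symm
  · intro i i' hii h1 h2
    rw [hval] at h1 h2
    exact hnv _ _ (hroot i) (hroot i') (hinj i i' hii) h1 h2
  · simp only [hval]
    change algebraMap k Ω a * _ = _
    rw [hxy, hr, Multiset.map_map]
    rfl
  · intro W hW hWA i i' h1 h2
    rw [hval] at h1 h2 ⊢
    rw [hval]
    exact hrat W hW hWA _ _ (hroot i) (hroot i') h1 h2

/-- **The local theorem**, points. -/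
theorem local_pointG {kb : Type w} [Field kb] [Algebra k kb]
    [IsAlgClosed kb] [Algebra.IsAlgebraic k kb]
    {J : Type*} [Fintype J] (P : J → k[X]) (x : J → k) (y : k) (Λ : kb → kb)
    (hΛ : ∀ θ, Λ θ = ∑ j, aeval θ (P j) * algebraMap k kb (x j))
    (hnv : ∀ θ θ' : kb, aeval θ (f.map (algebraMap A k)) = 0 →
      aeval θ' (f.map (algebraMap A k)) = 0 → θ ≠ θ' → Λ θ = 0 → Λ θ' = 0 → False)
    (hxy : algebraMap k kb a * algebraMap k kb y ^ ℓ =
      (((f.map (algebraMap A k)).map (algebraMap k kb)).roots.map Λ).prod) : False := by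
  classical
  let _ : Algebra A kb := ((algebraMap k kb).comp (algebraMap A k)).toAlgebra
  have hst : IsScalarTower A k kb := IsScalarTower.of_algebraMap_eq (fun _ => rfl)
  have hcz : CharZero kb := charZero_of_injective_algebraMap (algebraMap k kb).injective
  obtain ⟨V, S, X, _, θ, e', cl, hϖ0, hpn, htame, hθS, hθinj, hθroot, htr, hcard, hcu, hroots⟩ :=
    lin_data (kb := kb) ℓ f hf hs hσ ϖ hϖ a t ht m ha
  have hr := hroots (RingHom.id kb)
  rw [RingHom.id_comp] at hr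
  have hval : ∀ i, ∑ j, aeval (θ i) (P j) * algebraMap k kb (x j) = Λ (θ i) := by
    intro i
    rw [hΛ]
  refine galGpt V S (algebraMap A k ϖ) hϖ0 hpn htame ℓ hℓ θ e' cl htr hcard
    (fun i j => aeval (θ i) (P j)) ?_ ?_ x ?_ y
    (algebraMap k kb a) (S.algebraMap_mem _) m hm hcu ?_
  · intro i j
    have h1 : aeval ((⟨θ i, hθS i⟩ : S) : kb) (P j) =
        ((aeval (⟨θ i, hθS i⟩ : S) (P j) : S) : kb) :=
      IntermediateField.aeval_coe S (⟨θ i, hθS i⟩ : S) (P j)
    change aeval ((⟨θ i, hθS i⟩ : S) : kb) (P j) ∈ S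
    rw [h1]
    exact Subtype.mem _
  · intro φ π hφ i j
    have h1 := aeval_algHom_apply (φ : kb →ₐ[k] kb) (θ i) (P j)
    have h2 : (φ : kb →ₐ[k] kb) (θ i) = θ (π i) := hφ.2.2.1 i
    rw [h2] at h1
    exact h1.symm
  · intro i i' hii h1 h2
    rw [hval] at h1 h2
    exact hnv _ _ (hθroot i) (hθroot i') (fun h => hii (hθinj h)) h1 h2
  · simp only [hval]
    rw [hxy, hr, Multiset.map_map]
    rfl

end

end Pool.Agent.K6.H56.CF
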