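import Pool.Agent.TH377.NC.Dvr
import Pool.Agent.K6.H56.CF2
import Pool.Agent.K6.H56.CF3

/-!
# Superelliptic curves given by norms, over discretely valued fields
-/

set_option autoImplicit false
set_option maxHeartbeats 400000
set_option linter.all false

namespace Pool.Agent.K6.H56.CF

open Polynomial IsDedekindDomain Pool.Agent.TH377.LocG Pool.Agent.TH120.Sec
  Pool.Agent.W620.SC Pool.Agent.TH377.NC Pool.Agent.W623.SecC

universe u v w y z

/-- the polynomial `G(θ, x)` for `G ∈ L[T][x]` -/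
noncomputable def fib {L : Type*} [Field L] {B : Type*} [Field B] [Algebra L B] (G : L[X][X])
    (θ : B) : B[X] :=
  G.map (aeval (R := L) θ).toRingHom

section fib

variable {L : Type u} [Field L] {B : Type v} [Field B] [Algebra L B]

lemma fib_coeff (G : L[X][X]) (θ : B) (i : ℕ) : (fib G θ).coeff i = aeval θ (G.coeff i) := by
  unfold fib
  rw [coeff_map]
  rfl

lemma fib_eval (G : L[X][X]) (θ z : B) :
    (fib G θ).eval z = ∑ j : Fin (G.natDegree + 1), aeval θ (G.coeff j) * z ^ (j : ℕ) := by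
  have h1 : (fib G θ).natDegree < G.natDegree + 1 := Nat.lt_succ_of_le natDegree_map_le
  rw [eval_eq_sum_range' h1, Finset.sum_range]
  refine Finset.sum_congr rfl fun j _ => ?_
  rw [fib_coeff]

lemma fib_map {C : Type w} [Field C] [Algebra L C] (ι : B →ₐ[L] C) (G : L[X][X]) (θ : B) :
    (fib G θ).map (ι : B →+* C) = fib G (ι θ) := by
  ext i
  rw [coeff_map, fib_coeff, fib_coeff]
  exact (aeval_algHom_apply ι θ _).symm

lemma fib_degree (G : L[X][X]) (f : L[X]) (hlc : IsCoprime G.leadingCoeff f) (θ : B)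
    (hθ : aeval θ f = 0) : (fib G θ).natDegree = G.natDegree ∧ fib G θ ≠ 0 := by
  have h1 : aeval θ G.leadingCoeff ≠ 0 := by
    intro h
    obtain ⟨u, v, huv⟩ := hlc
    have h2 := congrArg (aeval θ) huv
    rw [map_add, map_mul, map_mul, h, hθ, mul_zero, mul_zero, add_zero, map_one] at h2
    exact zero_ne_one h2
  have h2 : (fib G θ).coeff G.natDegree ≠ 0 := by
    rw [fib_coeff]
    exact h1
  refine ⟨le_antisymm natDegree_map_le (le_natDegree_of_ne_zero h2), ?_⟩
  intro h
  rw [h, coeff_zero] at h2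
  exact h2 rfl

/-- roots in an algebraically closed field come from the algebraic closure -/
lemma aroots_lift {C : Type w} [Field C] [Algebra L C] (ι : AlgebraicClosure L →ₐ[L] C)
    (f : L[X]) : f.aroots C = (f.aroots (AlgebraicClosure L)).map ι := by
  have hsp : (f.map (algebraMap L (AlgebraicClosure L))).Splits := IsAlgClosed.splits _
  have h2 : f.map (algebraMap L C) =
      (f.map (algebraMap L (AlgebraicClosure L))).map (ι : AlgebraicClosure L →+* C) := by
    rw [Polynomial.map_map, AlgHom.comp_algebraMap]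
  unfold aroots
  rw [h2, hsp.roots_map]
  rfl

lemma root_lift {C : Type w} [Field C] [Algebra L C] (ι : AlgebraicClosure L →ₐ[L] C)
    (f : L[X]) (hf : f ≠ 0) (θ : C) (hθ : aeval θ f = 0) :
    ∃ r : AlgebraicClosure L, aeval r f = 0 ∧ ι r = θ := by
  have h1 : θ ∈ f.aroots C := by
    rw [mem_aroots]
    exact ⟨hf, hθ⟩
  rw [aroots_lift ι, Multiset.mem_map] at h1
  obtain ⟨r, hr, hrt⟩ := h1
  exact ⟨r, (mem_aroots.1 hr).2, hrt⟩

end fib

section

variable {R : Type z} {K : Type u} [CommRing R] [IsDomain R] [IsDiscreteValuationRing R] [Field K]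
  [Algebra R K] [IsFractionRing R K] [CharZero K] {L : Type y} [Field L] [Algebra K L]
  [FiniteDimensional K L]
  (D : ℕ) (hD : D ≠ 0) (g : R[X]) (hg : g.Monic)
  (hs : (g.map (IsLocalRing.residue R)).Separable)
  (hσ : FactorDiv (Nat.gcd 2 D * D) (g.map (IsLocalRing.residue R)))
  (ϖ0 t0 : R) (hϖ0 : Irreducible ϖ0) (ht0 : IsUnit t0) (m : ℤ)
  (hm : ¬ (D : ℤ) ∣ m * Module.finrank K L) (a : K)
  (ha : a = algebraMap R K t0 * algebraMap R K ϖ0 ^ m)

include hD hg hs hσ hϖ0 ht0 hm ha

/-- no points and no sections -/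
theorem poly_both (n : ℕ) (hDn : D ∣ n) (fL : L[X])
    (hfL : fL = (g.map (algebraMap R K)).map (algebraMap K L)) (hsepL : fL.Separable) (G : L[X][X])
    (hlc : IsCoprime G.leadingCoeff fL)
    (hcop : ∀ θ θ' : AlgebraicClosure L, aeval θ fL = 0 → aeval θ' fL = 0 → θ ≠ θ' →
      IsCoprime (fib G θ) (fib G θ')) :
    (∀ x y : L, ((fL.aroots (AlgebraicClosure L)).map fun θ =>
        (fib G θ).eval (algebraMap L (AlgebraicClosure L) x)).prod ≠
      algebraMap L (AlgebraicClosure L) (algebraMap K L a * y ^ n)) ∧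
    ∀ (F : Type v) (Ω : Type w) [Field F] [Field Ω] [Algebra L F] [Algebra F Ω] [Algebra L Ω]
      [IsScalarTower L F Ω] [IsAlgClosure F Ω]
      (x y : F) (U : Set (ValuationSubring F)),
      ((fL.aroots Ω).map fun θ => (fib G θ).eval (algebraMap F Ω x)).prod =
        algebraMap L Ω (algebraMap K L a) * algebraMap F Ω y ^ n →
      (∀ O ∈ U, ∀ c : L, algebraMap L F c ∈ O) → IsEmpty (GSection L F Ω U) := by
  classical
  let _ : Algebra R L := ((algebraMap K L).comp (algebraMap R K)).toAlgebra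
  have hstR : IsScalarTower R K L := IsScalarTower.of_algebraMap_eq (fun _ => rfl)
  obtain ⟨ℓ, hℓ0, hℓD, B, _, _, _, _, hfr, f, hf, hfK, hfs, hfd, ϖ, t, m', hϖ, ht, hm', hat⟩ :=
    dvr_data (k := K) (L := L) g hg hs D hD hσ ϖ0 t0 hϖ0 ht0 m hm
  have hczL : CharZero L := charZero_of_injective_algebraMap (algebraMap K L).injective
  obtain ⟨n', rfl⟩ := hℓD.trans hDn
  have hfBL : f.map (algebraMap B L) = fL := by
    rw [hfK, hfL, Polynomial.map_map, ← IsScalarTower.algebraMap_eq R K L]
  have hfL0 : fL ≠ 0 := by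
    rw [← hfBL]
    exact (hf.map _).ne_zero
  have haL : algebraMap K L a = algebraMap B L t * algebraMap B L ϖ ^ m' := by
    rw [← hat, ha, map_mul, map_zpow₀]
    rfl
  have ha0 : algebraMap K L a ≠ 0 := by
    rw [_root_.map_ne_zero, ha]
    have e1 : algebraMap R K t0 ≠ 0 := by
      rw [Ne, map_eq_zero_iff _ (IsFractionRing.injective R K)]
      exact ht0.ne_zero
    have e2 : algebraMap R K ϖ0 ≠ 0 := by
      rw [Ne, map_eq_zero_iff _ (IsFractionRing.injective R K)]
      exact hϖ0.ne_zero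
    exact mul_ne_zero e1 (zpow_ne_zero _ e2)
  refine ⟨?_, ?_⟩
  · intro x y hon
    have hΛ : ∀ θ : AlgebraicClosure L, (fib G θ).eval (algebraMap L (AlgebraicClosure L) x) =
        ∑ j : Fin (G.natDegree + 1), aeval θ (G.coeff j) *
          algebraMap L (AlgebraicClosure L) (x ^ (j : ℕ)) := by
      intro θ
      rw [fib_eval]
      simp only [map_pow]
    refine local_pointG (A := B) (k := L) (kb := AlgebraicClosure L) ℓ hℓ0 f hf hfs hfd ϖ hϖ
      (algebraMap K L a) t ht m' hm' haL
      (J := Fin (G.natDegree + 1)) (fun j => G.coeff j) (fun j => x ^ (j : ℕ))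
      (y ^ n') (fun θ => (fib G θ).eval (algebraMap L (AlgebraicClosure L) x)) hΛ ?_ ?_
    · intro θ θ' hθ hθ' hne h1 h2
      rw [hfBL] at hθ hθ'
      obtain ⟨u, v, huv⟩ := hcop θ θ' hθ hθ' hne
      have h3 := congrArg (fun p => p.eval (algebraMap L (AlgebraicClosure L) x)) huv
      simp only [eval_add, eval_mul, h1, h2, mul_zero, add_zero, eval_one] at h3
      exact zero_ne_one h3
    · rw [hfBL]
      change _ = ((fL.aroots (AlgebraicClosure L)).map _).prod
      rw [hon, map_mul, map_pow, map_pow, ← pow_mul, mul_comm n' ℓ]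
  · intro F Ω _ _ _ _ _ _ _ x y U hon hU
    have hcl : IsAlgClosed Ω := IsAlgClosure.isAlgClosed F
    have halg : Algebra.IsAlgebraic F Ω := IsAlgClosure.isAlgebraic
    let ι : AlgebraicClosure L →ₐ[L] Ω := IsAlgClosed.lift
    have hcop' : ∀ θ θ' : Ω, aeval θ fL = 0 → aeval θ' fL = 0 → θ ≠ θ' →
        IsCoprime (fib G θ) (fib G θ') := by
      intro θ θ' hθ hθ' hne
      obtain ⟨r, hr, rfl⟩ := root_lift ι fL hfL0 θ hθ
      obtain ⟨r', hr', rfl⟩ := root_lift ι fL hfL0 θ' hθ'
      have h1 := (hcop r r' hr hr' (fun h => hne (by rw [h]))).map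
        (mapRingHom (ι : AlgebraicClosure L →+* Ω))
      rw [coe_mapRingHom, fib_map, fib_map] at h1
      exact h1
    have hΛ : ∀ θ : Ω, (fib G θ).eval (algebraMap F Ω x) =
        ∑ j : Fin (G.natDegree + 1), aeval θ (G.coeff j) *
          algebraMap F Ω (x ^ (j : ℕ)) := by
      intro θ
      rw [fib_eval]
      simp only [map_pow]
    refine local_sectionG (A := B) (k := L) ℓ hℓ0 f hf hfs hfd ϖ hϖ
      (algebraMap K L a) t ht m' hm' haL U hU
      (J := Fin (G.natDegree + 1)) (fun j => G.coeff j) (fun j => x ^ (j : ℕ))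
      (y ^ n') (fun θ => (fib G θ).eval (algebraMap F Ω x)) hΛ ?_ ?_ ?_
    · intro θ θ' hθ hθ' hne h1 h2
      rw [hfBL] at hθ hθ'
      obtain ⟨u, v, huv⟩ := hcop' θ θ' hθ hθ' hne
      have h3 := congrArg (fun p => p.eval (algebraMap F Ω x)) huv
      simp only [eval_add, eval_mul, h1, h2, mul_zero, add_zero, eval_one] at h3
      exact zero_ne_one h3
    · intro W hW hWL θ θ' hθ hθ' h1 h2
      rw [hfBL] at hθ hθ'
      have hιW : ∀ c : AlgebraicClosure L, (ι : AlgebraicClosure L →+* Ω) c ∈ W := by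
        intro c
        have h3 : IsAlgebraic L (ι c) := (Algebra.IsAlgebraic.isAlgebraic c).algHom ι
        exact hWL ⟨ι c, mem_algebraicClosure_iff.2 h3⟩
      have haW : ∀ b : L, b ≠ 0 → IsU W (algebraMap L Ω b) := by
        intro b hb
        have h3 : ∀ b : L, algebraMap L Ω b ∈ W := by
          intro b
          have := hιW (algebraMap L _ b)
          have h5 : (ι : AlgebraicClosure L →+* Ω) (algebraMap L (AlgebraicClosure L) b) =
            algebraMap L Ω b := ι.commutes b
          rwa [h5] at this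
        exact ⟨(_root_.map_ne_zero _).2 hb, h3 b, by rw [← map_inv₀]; exact h3 _⟩
      -- the index set of the roots in the algebraic closure
      let X := {r : AlgebraicClosure L // r ∈ (fL.aroots (AlgebraicClosure L)).toFinset}
      have hprod : ∀ Φ : Ω → Ω, ((fL.aroots Ω).map Φ).prod = ∏ r : X, Φ (ι r.1) := by
        intro Φ
        rw [aroots_lift ι, Multiset.map_map]
        have hnd : (fL.aroots (AlgebraicClosure L)).Nodup := nodup_roots (.map hsepL)
        rw [Finset.prod_coe_sort (fL.aroots (AlgebraicClosure L)).toFinset (fun r => Φ (ι r)),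
          Finset.prod_eq_multiset_prod, Multiset.toFinset_val, Multiset.dedup_eq_self.2 hnd]
        rfl
      have hmemX : ∀ r : X, aeval r.1 fL = 0 := fun r =>
        (mem_aroots.1 (Multiset.mem_toFinset.1 r.2)).2
      obtain ⟨r, hr, rfl⟩ := root_lift ι fL hfL0 θ hθ
      obtain ⟨r', hr', rfl⟩ := root_lift ι fL hfL0 θ' hθ'
      have hrX : r ∈ (fL.aroots (AlgebraicClosure L)).toFinset :=
        Multiset.mem_toFinset.2 (mem_aroots.2 ⟨hfL0, hr⟩)
      have hrX' : r' ∈ (fL.aroots (AlgebraicClosure L)).toFinset :=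
        Multiset.mem_toFinset.2 (mem_aroots.2 ⟨hfL0, hr'⟩)
      have hrel : algebraMap L Ω (algebraMap K L a) * (algebraMap F Ω (y ^ n')) ^ ℓ =
          ∏ r : X, ((fib G r.1).map (ι : AlgebraicClosure L →+* Ω)).eval (algebraMap F Ω x) := by
        rw [map_pow, ← pow_mul, mul_comm n' ℓ, ← hon, hprod]
        refine Finset.prod_congr rfl fun r _ => ?_
        rw [fib_map]
      change (_ ≠ 0) at h1 h2
      rw [← fib_map] at h1 h2
      obtain ⟨b, hb, hu⟩ := ratio_poly (ι : AlgebraicClosure L →+* Ω) W hιW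
        (fun r : X => fib G r.1)
        (fun r => (fib_degree G fL hlc r.1 (hmemX r)).2) (fun r r' => by
          rw [(fib_degree G fL hlc r.1 (hmemX r)).1, (fib_degree G fL hlc r'.1 (hmemX r')).1])
        (fun r r' h => hcop r.1 r'.1 (hmemX r) (hmemX r') (fun h' => h (Subtype.ext h')))
        (algebraMap F Ω x) (algebraMap F Ω (y ^ n'))
        (algebraMap L Ω (algebraMap K L a)) (haW _ ha0) ℓ hℓ0 hrel ⟨r, hrX⟩ ⟨r', hrX'⟩ h1 h2
      rw [fib_map, fib_map] at hu
      refine ⟨(y ^ n') ^ b, ?_, ?_, ?_⟩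
      · rcases hb with rfl | hb
        · rw [zpow_zero]
          exact one_ne_zero
        · refine zpow_ne_zero _ ?_
          intro h
          exact hb (by rw [h, map_zero])
      · rw [map_zpow₀]
        exact hu.2.1
      · rw [map_zpow₀]
        have := hu.2.2
        rwa [inv_div] at this
    · rw [hfBL]
      change _ = ((fL.aroots Ω).map _).prod
      rw [hon, map_pow, ← pow_mul, mul_comm n' ℓ]

end

end Pool.Agent.K6.H56.CF
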