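import Pool.Agent.Helper952.Croft.Glue2

/-! Positive densities on the whole plane with a fixed tail, and their Radon transforms.
The notions `pt`, `Rad` come from the starting library of MP_f884a2_an. -/

open MeasureTheory Real Set Filter Topology

namespace Pool.Agent.K6.H56.Cr
open Croft

/-- the weight -/
noncomputable def wt (z : ℂ) : ℝ := ((1 + ‖z‖ ^ 2) ^ 2)⁻¹

theorem wt_pos (z : ℂ) : 0 < wt z := by unfold wt; positivity

theorem wt_le_one (z : ℂ) : wt z ≤ 1 := by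
  unfold wt
  apply inv_le_one_of_one_le₀
  nlinarith [sq_nonneg ‖z‖]

theorem wt_contDiff : ContDiff ℝ 1 wt := by
  unfold wt
  apply ContDiff.inv
  · exact (contDiff_const.add (contDiff_norm_sq ℝ)).pow 2
  · intro z; positivity

theorem pt_re (θ p σ : ℝ) : (pt θ p σ).re = cos θ * p - sin θ * σ := by
  unfold pt
  rw [Complex.exp_mul_I]
  simp [Complex.cos_ofReal_re, Complex.sin_ofReal_re, Complex.cos_ofReal_im, Complex.sin_ofReal_im]

theorem pt_im (θ p σ : ℝ) : (pt θ p σ).im = sin θ * p + cos θ * σ := by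
  unfold pt
  rw [Complex.exp_mul_I]
  simp [Complex.cos_ofReal_re, Complex.sin_ofReal_re, Complex.cos_ofReal_im, Complex.sin_ofReal_im]
  ring

theorem wt_pt (θ p σ : ℝ) : wt (pt θ p σ) = ((1 + p ^ 2 + σ ^ 2) ^ 2)⁻¹ := by
  unfold wt
  rw [norm_pt_sq]; ring_nf

theorem wt_pt_le (θ p σ : ℝ) : wt (pt θ p σ) ≤ (1 + σ ^ 2)⁻¹ := by
  rw [wt_pt]
  apply inv_anti₀ (by positivity)
  nlinarith [sq_nonneg p, sq_nonneg σ, mul_nonneg (sq_nonneg p) (sq_nonneg σ), sq_nonneg (p ^ 2),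
    sq_nonneg (σ ^ 2)]

/-- continuous functions dominated by the weight -/
structure Dom (g : ℂ → ℝ) : Prop where
  cont : Continuous g
  bound : ∃ C : ℝ, 0 ≤ C ∧ ∀ z, |g z| ≤ C * wt z

theorem ptc (θ p : ℝ) : Continuous (fun σ => pt θ p σ) := pt_continuous θ p

theorem Dom.int {g : ℂ → ℝ} (hg : Dom g) (l : ℝ × ℝ) : Integrable (fun σ => g (pt l.1 l.2 σ)) := by
  obtain ⟨C, hC, hb⟩ := hg.bound
  refine Integrable.mono' (integrable_inv_one_add_sq.const_mul C)
    (hg.cont.comp (ptc l.1 l.2)).aestronglyMeasurable (Filter.Eventually.of_forall fun σ => ?_)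
  rw [Real.norm_eq_abs]
  exact (hb _).trans (mul_le_mul_of_nonneg_left (wt_pt_le _ _ _) hC)

theorem Dom.add {f g : ℂ → ℝ} (hf : Dom f) (hg : Dom g) : Dom (fun z => f z + g z) := by
  obtain ⟨C, hC, hb⟩ := hf.bound
  obtain ⟨D, hD, hd⟩ := hg.bound
  refine ⟨hf.cont.add hg.cont, C + D, by positivity, fun z => ?_⟩
  rw [add_mul]
  exact (abs_add_le _ _).trans (add_le_add (hb z) (hd z))

theorem Dom.const_mul {f : ℂ → ℝ} (hf : Dom f) (c : ℝ) : Dom (fun z => c * f z) := by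
  obtain ⟨C, hC, hb⟩ := hf.bound
  refine ⟨hf.cont.const_mul c, |c| * C, by positivity, fun z => ?_⟩
  rw [abs_mul, mul_assoc]
  exact mul_le_mul_of_nonneg_left (hb z) (abs_nonneg _)

theorem Dom.neg {f : ℂ → ℝ} (hf : Dom f) : Dom (fun z => - f z) := by
  have := hf.const_mul (-1)
  simpa using this

theorem Dom.sub {f g : ℂ → ℝ} (hf : Dom f) (hg : Dom g) : Dom (fun z => f z - g z) := by
  have := hf.add hg.neg
  simpa [sub_eq_add_neg] using this

theorem Dom.abs {f : ℂ → ℝ} (hf : Dom f) : Dom (fun z => |f z|) := by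
  obtain ⟨C, hC, hb⟩ := hf.bound
  exact ⟨hf.cont.abs, C, hC, fun z => by rw [abs_abs]; exact hb z⟩

theorem Dom.mul_bdd {f g : ℂ → ℝ} (hf : Dom f) (hg : Continuous g) (hb : ∀ z, |g z| ≤ 1) :
    Dom (fun z => f z * g z) := by
  obtain ⟨C, hC, hf'⟩ := hf.bound
  refine ⟨hf.cont.mul hg, C, hC, fun z => ?_⟩
  rw [abs_mul]
  calc |f z| * |g z| ≤ |f z| * 1 := mul_le_mul_of_nonneg_left (hb z) (abs_nonneg _)
    _ = |f z| := mul_one _
    _ ≤ _ := hf' z

theorem wt_dom : Dom wt :=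
  ⟨wt_contDiff.continuous, 1, zero_le_one, fun z => by rw [one_mul, abs_of_pos (wt_pos z)]⟩

/-- continuous functions of bounded support are dominated -/
theorem dom_of_support {g : ℂ → ℝ} (hg : Continuous g) (R : ℝ) (h0 : ∀ z, R ≤ ‖z‖ → g z = 0)
    (M : ℝ) (hM : ∀ z, |g z| ≤ M) : Dom g := by
  have hM0 : 0 ≤ M := (abs_nonneg _).trans (hM 0)
  refine ⟨hg, M * (1 + R ^ 2) ^ 2, by positivity, fun z => ?_⟩
  by_cases hz : R ≤ ‖z‖
  · rw [h0 z hz, abs_zero]
    have := wt_pos z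
    positivity
  · push Not at hz
    have hR : 0 ≤ R := (norm_nonneg z).trans hz.le
    have h1 : 1 ≤ (1 + R ^ 2) ^ 2 * wt z := by
      unfold wt
      rw [← div_eq_mul_inv, one_le_div (by positivity)]
      have : ‖z‖ ^ 2 ≤ R ^ 2 := pow_le_pow_left₀ (norm_nonneg _) hz.le 2
      gcongr
    calc |g z| ≤ M * 1 := by rw [mul_one]; exact hM z
      _ ≤ M * ((1 + R ^ 2) ^ 2 * wt z) := mul_le_mul_of_nonneg_left h1 hM0
      _ = _ := by ring

theorem radAdd {f g : ℂ → ℝ} (hf : Dom f) (hg : Dom g) (l : ℝ × ℝ) :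
    Rad (fun z => f z + g z) l = Rad f l + Rad g l :=
  integral_add (hf.int l) (hg.int l)

theorem radSub {f g : ℂ → ℝ} (hf : Dom f) (hg : Dom g) (l : ℝ × ℝ) :
    Rad (fun z => f z - g z) l = Rad f l - Rad g l :=
  integral_sub (hf.int l) (hg.int l)

theorem radMono {f g : ℂ → ℝ} (hf : Dom f) (hg : Dom g) (h : ∀ z, f z ≤ g z) (l : ℝ × ℝ) :
    Rad f l ≤ Rad g l :=
  integral_mono (hf.int l) (hg.int l) fun _ => h _

theorem radNonneg {f : ℂ → ℝ} (h : ∀ z, 0 ≤ f z) (l : ℝ × ℝ) : 0 ≤ Rad f l :=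
  integral_nonneg fun _ => h _

theorem radAbs {f : ℂ → ℝ} (l : ℝ × ℝ) : |Rad f l| ≤ Rad (fun z => |f z|) l := by
  unfold Rad
  have := norm_integral_le_integral_norm (μ := volume) (fun σ => f (pt l.1 l.2 σ))
  simpa [Real.norm_eq_abs] using this

theorem rad_wt_le (l : ℝ × ℝ) : Rad wt l ≤ π := by
  unfold Rad
  rw [← integral_univ_inv_one_add_sq]
  exact integral_mono (wt_dom.int l) integrable_inv_one_add_sq fun σ => wt_pt_le _ _ _

theorem Dom.rad_bdd {g : ℂ → ℝ} (hg : Dom g) : ∃ B : ℝ, 0 < B ∧ ∀ l, Rad (fun z => |g z|) l ≤ B := by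
  obtain ⟨C, hC, hb⟩ := hg.bound
  refine ⟨C * π + 1, by positivity, fun l => ?_⟩
  calc Rad (fun z => |g z|) l ≤ Rad (fun z => C * wt z) l := radMono hg.abs (wt_dom.const_mul C) hb l
    _ = C * Rad wt l := Rad_const_mul C wt l
    _ ≤ C * π := mul_le_mul_of_nonneg_left (rad_wt_le l) hC
    _ ≤ _ := by linarith

/-! ### the Radon transform of the weight -/

/-- the constant `∫ (1 + u²)⁻²` -/
noncomputable def K0 : ℝ := ∫ u : ℝ, ((1 + u ^ 2) ^ 2)⁻¹

theorem rad_wt (l : ℝ × ℝ) : Rad wt l = K0 * (√(1 + l.2 ^ 2) ^ 3)⁻¹ := by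
  set a := √(1 + l.2 ^ 2) with ha
  have ha0 : 0 < a := Real.sqrt_pos.2 (by positivity)
  have ha2 : a ^ 2 = 1 + l.2 ^ 2 := Real.sq_sqrt (by positivity)
  have h1 : ∀ σ : ℝ, wt (pt l.1 l.2 σ) = (a ^ 4)⁻¹ * ((1 + (σ / a) ^ 2) ^ 2)⁻¹ := by
    intro σ
    rw [wt_pt, ← ha2]
    rw [← mul_inv]
    congr 1
    field_simp
  have h2 := Measure.integral_comp_div (fun u : ℝ => ((1 + u ^ 2) ^ 2)⁻¹) a
  unfold Rad
  simp_rw [h1]
  rw [integral_const_mul, h2, smul_eq_mul, abs_of_pos ha0, K0]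
  field_simp

theorem rad_wt_contDiff : ContDiff ℝ 1 (Rad wt) := by
  have : Rad wt = fun l : ℝ × ℝ => K0 * (√(1 + l.2 ^ 2) ^ 3)⁻¹ := by funext l; exact rad_wt l
  rw [this]
  refine contDiff_const.mul (ContDiff.inv (ContDiff.pow (ContDiff.sqrt ?_ ?_) 3) ?_)
  · exact contDiff_const.add (contDiff_snd.pow 2)
  · intro x; positivity
  · intro x
    have : 0 < √(1 + x.2 ^ 2) := Real.sqrt_pos.2 (by positivity)
    positivity

theorem le_norm_pt (θ p σ : ℝ) : |σ| ≤ ‖pt θ p σ‖ := by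
  apply abs_le_of_sq_le_sq _ (norm_nonneg _)
  rw [norm_pt_sq]; nlinarith [sq_nonneg p]

theorem le_norm_pt' (θ p σ : ℝ) : |p| ≤ ‖pt θ p σ‖ := by
  apply abs_le_of_sq_le_sq _ (norm_nonneg _)
  rw [norm_pt_sq]; nlinarith [sq_nonneg σ]

theorem rad_contDiff_of_support (f : ℂ → ℝ) (hc : ContDiff ℝ 1 f) (R : ℝ)
    (hf : ∀ z, R ≤ ‖z‖ → f z = 0) : ContDiff ℝ 1 (Rad f) := by
  have : Rad f = fun l : ℝ × ℝ => ∫ σ in (-|R|)..|R|, f (pt l.1 l.2 σ) := by
    funext l
    rw [intervalIntegral.integral_of_le (by linarith [abs_nonneg R]), Rad]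
    symm
    apply setIntegral_eq_integral_of_forall_compl_eq_zero
    intro σ hσ
    apply hf
    refine le_trans ?_ (le_norm_pt _ _ _)
    simp only [mem_Ioc, not_and_or, not_lt, not_le] at hσ
    have hR := le_abs_self R
    rcases hσ with h | h
    · rw [abs_of_nonpos (by linarith [abs_nonneg R])]; linarith
    · rw [abs_of_nonneg (by linarith [abs_nonneg R])]; linarith
  rw [this]
  exact contDiff_param (fun q : (ℝ × ℝ) × ℝ => f (pt q.1.1 q.1.2 q.2)) (hc.comp pt_contDiff) _ _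

/-! ### the class of densities -/

structure Cls (h : ℂ → ℝ) : Prop where
  c1 : ContDiff ℝ 1 h
  pos : ∀ z, 0 < h z
  lt_one : ∀ z, h z < 1
  tail : ∃ R c : ℝ, 0 < R ∧ 0 < c ∧ c ≤ 1 ∧ ∀ z, R ≤ ‖z‖ → h z = c * wt z

theorem Cls.dom {h : ℂ → ℝ} (hh : Cls h) : Dom h := by
  obtain ⟨R, c, hR, hc, hc1, ht⟩ := hh.tail
  refine ⟨hh.c1.continuous, (1 + R ^ 2) ^ 2, by positivity, fun z => ?_⟩
  rw [abs_of_pos (hh.pos z)]
  by_cases hz : R ≤ ‖z‖
  · rw [ht z hz]
    have h1 : 1 ≤ (1 + R ^ 2) ^ 2 := by nlinarith [sq_nonneg R]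
    have := wt_pos z
    exact mul_le_mul_of_nonneg_right (hc1.trans h1) this.le
  · push Not at hz
    have h1 : 1 ≤ (1 + R ^ 2) ^ 2 * wt z := by
      unfold wt
      rw [← div_eq_mul_inv, one_le_div (by positivity)]
      have : ‖z‖ ^ 2 ≤ R ^ 2 := pow_le_pow_left₀ (norm_nonneg _) hz.le 2
      gcongr
    exact (hh.lt_one z).le.trans h1

theorem Cls.rad_c1 {h : ℂ → ℝ} (hh : Cls h) : ContDiff ℝ 1 (Rad h) := by
  obtain ⟨R, c, hR, hc, hc1, ht⟩ := hh.tail
  set g : ℂ → ℝ := fun z => h z - c * wt z with hg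
  have g1 : ContDiff ℝ 1 g := hh.c1.sub (contDiff_const.mul wt_contDiff)
  have gd : Dom g := hh.dom.sub (wt_dom.const_mul c)
  have : Rad h = fun l => c * Rad wt l + Rad g l := by
    funext l
    rw [← Rad_const_mul, ← radAdd (wt_dom.const_mul c) gd]
    congr 1
    funext z
    simp only [hg]; ring
  rw [this]
  exact (contDiff_const.mul rad_wt_contDiff).add
    (rad_contDiff_of_support g g1 R fun z hz => by simp only [hg]; rw [ht z hz, sub_self])

theorem Cls.rad_pos {h : ℂ → ℝ} (hh : Cls h) (l : ℝ × ℝ) : 0 < Rad h l := by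
  unfold Rad
  rw [integral_pos_iff_support_of_nonneg (fun σ => (hh.pos _).le) (hh.dom.int l)]
  have : Function.support (fun σ => h (pt l.1 l.2 σ)) = univ := by
    ext σ
    simp [(hh.pos (pt l.1 l.2 σ)).ne']
  rw [this]
  simp

theorem cls_start : Cls (fun z => 1 / 2 * wt z) :=
  ⟨contDiff_const.mul wt_contDiff, fun z => by have := wt_pos z; positivity,
    fun z => by have := wt_le_one z; linarith, 1, 1 / 2, one_pos, by norm_num, by norm_num, fun z _ => rfl⟩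

/-! ### translations -/

/-- the line `l + a` -/
noncomputable def sh (a : ℂ) (l : ℝ × ℝ) : ℝ × ℝ := (l.1, l.2 + (a.re * cos l.1 + a.im * sin l.1))

/-- the shift of the parameter -/
noncomputable def ft (a : ℂ) (θ : ℝ) : ℝ := a.im * cos θ - a.re * sin θ

theorem pt_sh (a : ℂ) (l : ℝ × ℝ) (σ : ℝ) :
    pt (sh a l).1 (sh a l).2 (σ + ft a l.1) = pt l.1 l.2 σ + a := by
  have h := Real.sin_sq_add_cos_sq l.1
  apply Complex.ext
  · rw [pt_re, Complex.add_re, pt_re]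
    simp only [sh, ft]
    linear_combination a.re * h
  · rw [pt_im, Complex.add_im, pt_im]
    simp only [sh, ft]
    linear_combination a.im * h

theorem sh_contDiff (a : ℂ) : ContDiff ℝ 1 (sh a) := by
  unfold sh
  exact contDiff_fst.prodMk (contDiff_snd.add
    ((contDiff_const.mul (Real.contDiff_cos.comp contDiff_fst)).add
      (contDiff_const.mul (Real.contDiff_sin.comp contDiff_fst))))

theorem sh_surj (a : ℂ) (L : ℝ × ℝ) : ∃ l, sh a l = L ∧ l.1 = L.1 :=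
  ⟨(L.1, L.2 - (a.re * cos L.1 + a.im * sin L.1)), by simp [sh], rfl⟩

theorem rad_sh (h : ℂ → ℝ) (a : ℂ) (l : ℝ × ℝ) : Rad (fun z => h (z + a)) l = Rad h (sh a l) := by
  unfold Rad
  simp_rw [← pt_sh a l]
  exact integral_add_right_eq_self (fun σ => h (pt (sh a l).1 (sh a l).2 σ)) (ft a l.1)

theorem vol_sh (U : Set ℂ) (a : ℂ) (l : ℝ × ℝ) :
    volume {σ : ℝ | pt (sh a l).1 (sh a l).2 σ ∈ U} = volume {σ : ℝ | pt l.1 l.2 σ + a ∈ U} := by
  have : {σ : ℝ | pt l.1 l.2 σ + a ∈ U} =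
      (fun σ => σ + ft a l.1) ⁻¹' {σ : ℝ | pt (sh a l).1 (sh a l).2 σ ∈ U} := by
    ext σ
    simp only [mem_ofPred_eq, mem_preimage, pt_sh]
  rw [this, measure_preimage_add_right]

/-- room around the values on a disc -/
theorem Cls.room {h : ℂ → ℝ} (hh : Cls h) (a : ℂ) : ∃ v : ℝ, 0 < v ∧ v ≤ 1 / 2 ∧
    ∀ z, ‖z‖ ≤ 2 → v ≤ h (z + a) ∧ h (z + a) ≤ 1 - v := by
  have hc : IsCompact (Metric.closedBall (0 : ℂ) 2) := isCompact_closedBall _ _
  have hne : (Metric.closedBall (0 : ℂ) 2).Nonempty := ⟨0, by simp⟩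
  have hcont : Continuous fun z => h (z + a) := hh.c1.continuous.comp (by fun_prop)
  obtain ⟨x, hx, hmin⟩ := hc.exists_isMinOn hne hcont.continuousOn
  obtain ⟨y, hy, hmax⟩ := hc.exists_isMaxOn hne hcont.continuousOn
  refine ⟨min (1 / 2) (min (h (x + a)) (1 - h (y + a))), ?_, min_le_left _ _, fun z hz => ?_⟩
  · have := hh.pos (x + a)
    have := hh.lt_one (y + a)
    apply lt_min (by norm_num)
    apply lt_min (by assumption)
    linarith
  · have hz' : z ∈ Metric.closedBall (0 : ℂ) 2 := by simpa using hz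
    have h1 : h (x + a) ≤ h (z + a) := hmin hz'
    have h2 : h (z + a) ≤ h (y + a) := hmax hz'
    have h3 : min (1 / 2) (min (h (x + a)) (1 - h (y + a))) ≤ h (x + a) :=
      (min_le_right _ _).trans (min_le_left _ _)
    have h4 : min (1 / 2) (min (h (x + a)) (1 - h (y + a))) ≤ 1 - h (y + a) :=
      (min_le_right _ _).trans (min_le_right _ _)
    constructor <;> linarith

/-- lower bound of the transform on the lines that meet the unit disc around `a` -/
theorem Cls.rad_lower {h : ℂ → ℝ} (hh : Cls h) (a : ℂ) (v : ℝ)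
    (hr : ∀ z, ‖z‖ ≤ 2 → v ≤ h (z + a)) (l : ℝ × ℝ) (hl : |l.2| ≤ 1) :
    2 * v ≤ Rad h (sh a l) := by
  rw [← rad_sh]
  unfold Rad
  have hi : Integrable fun σ => h (pt l.1 l.2 σ + a) := by
    have := (hh.dom.int (sh a l)).comp_add_right (ft a l.1)
    refine this.congr (Filter.Eventually.of_forall fun σ => ?_)
    simp only
    rw [pt_sh]
  have h2 : 2 * v = ∫ σ in Icc (-1 : ℝ) 1, v := by
    rw [setIntegral_const]
    simp [measureReal_def]
    norm_num
  rw [h2]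
  calc ∫ σ in Icc (-1 : ℝ) 1, v ≤ ∫ σ in Icc (-1 : ℝ) 1, h (pt l.1 l.2 σ + a) := by
        apply setIntegral_mono_on (integrableOn_const (by simp)) hi.integrableOn measurableSet_Icc
        intro σ hσ
        apply hr
        have h3 := norm_pt_sq l.1 l.2 σ
        have h4 : l.2 ^ 2 ≤ 1 := by rw [← sq_abs]; nlinarith [abs_nonneg l.2]
        have h5 : σ ^ 2 ≤ 1 := by nlinarith [hσ.1, hσ.2]
        nlinarith [norm_nonneg (pt l.1 l.2 σ)]
    _ ≤ ∫ σ, h (pt l.1 l.2 σ + a) :=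
        setIntegral_le_integral hi (Filter.Eventually.of_forall fun σ => (hh.pos _).le)

end Pool.Agent.K6.H56.Cr
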