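import Pool.Agent.K6.H56.Cr1

/-! The kill step for positive densities on the whole plane: adapted from the concrete kill lemma of
the starting library (`Croft.kill2_of_abstract`), from the same abstract lemma. -/

open MeasureTheory Real Set Filter Topology

namespace Pool.Agent.K6.H56.Cr
open Croft

theorem kill_aux (KA : KillAbstract2) : ∃ e : ℝ, 0 < e ∧ e ≤ 1 ∧ ∃ c0 : ℝ, 0 < c0 ∧
    ∀ (θ0 : ℝ) (a : ℂ) (h : ℂ → ℝ), Cls h →
    ∀ t > 0, ∀ ε > 0, ∃ h' : ℂ → ℝ, Cls h' ∧ (∀ l, Rad (fun z => |h' z - h z|) l ≤ ε) ∧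
      (∀ l, |Rad h' l - Rad h l| ≤ ε * Rad h l) ∧
      ∃ U : Set ℂ, MeasurableSet U ∧ U ⊆ Metric.ball a 1 ∧ ∃ δ > 0,
        (∀ l : ℝ × ℝ, |l.1 - θ0| ≤ e → |l.2| ≤ e → |Rad h' (sh a l) - t| ≤ δ →
          ENNReal.ofReal c0 ≤ volume {σ : ℝ | pt (sh a l).1 (sh a l).2 σ ∈ U}) ∧
        (∀ l : ℝ × ℝ, ε ≤ |Rad h l - t| →
          volume {σ : ℝ | pt l.1 l.2 σ ∈ U} ≤ ENNReal.ofReal ε) := by
  obtain ⟨d, y, r, e, hd0, hy0, hr0, hr1, he0, he, hd1, hyc, hy1, hpe, hcA, hcB, -, hdisc⟩ :=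
    cell_geometry 0 (by simp)
  have hx : |(0:ℝ) - d| ≤ 1 := by
    rw [zero_sub, abs_neg, abs_of_pos hd0]; linarith
  refine ⟨e, he0, by rw [he]; linarith, 3 * y / 8, by positivity, ?_⟩
  intro θ0 a h hh t ht ε hε
  set cR := ctr θ0 (0 - d) y with hcR
  set cL := ctr θ0 (0 - d) (-y) with hcL
  set A : ℝ → ℝ := fun θ => (0 - d) * cos (θ - θ0) + y * sin (θ - θ0) with hA
  set B : ℝ → ℝ := fun θ => (0 - d) * cos (θ - θ0) + (-y) * sin (θ - θ0) with hB
  have qdA : ∀ l : ℝ × ℝ, qd cR l = l.2 - A l.1 := fun l => by rw [qd, hcR, re_rot]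
  have qdB : ∀ l : ℝ × ℝ, qd cL l = l.2 - B l.1 := fun l => by rw [qd, hcL, re_rot]
  set O : Set (ℝ × ℝ) := {l | |l.1 - θ0| < 3 * e ∧ |l.2 - 0| < 3 * e} with hO
  have hOo : IsOpen O := by
    have i1 : IsOpen {l : ℝ × ℝ | |l.1 - θ0| < 3 * e} := isOpen_lt (by fun_prop) continuous_const
    have i2 : IsOpen {l : ℝ × ℝ | |l.2 - 0| < 3 * e} := isOpen_lt (by fun_prop) continuous_const
    exact i1.inter i2
  have hq := cell_sites θ0 0 d y e hd0 hd1 he hy0 hy1 hx
  have hCO : Icc (θ0 - e - e) (θ0 + e + e) ×ˢ Icc (0 - e - e) (0 + e + e) ⊆ O := by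
    intro l hl
    obtain ⟨⟨h1, h2⟩, h3, h4⟩ := hl
    constructor <;> rw [abs_lt] <;> constructor <;> linarith
  -- room
  obtain ⟨v, hv0, hv2, hv⟩ := hh.room a
  obtain ⟨Bd, hBd0, hBd⟩ := hh.dom.rad_bdd
  have hRB : ∀ l, Rad h l ≤ Bd := fun l => (le_abs_self _).trans ((radAbs l).trans (hBd l))
  set hr : ℂ → ℝ := fun z => h (z + a) with hhr
  set F : ℝ × ℝ → ℝ := Rad hr with hF
  have hFsh : ∀ l, F l = Rad h (sh a l) := fun l => rad_sh h a l
  have hFc : ContDiff ℝ 1 F := by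
    have : F = fun l => Rad h (sh a l) := by funext l; exact hFsh l
    rw [this]
    exact hh.rad_c1.comp (sh_contDiff a)
  set μ : ℝ := min (v / 2) (min (ε / 8) (ε * v / 8)) with hμ
  have hμ0 : 0 < μ := by positivity
  have hμ1 : μ ≤ v / 2 := min_le_left _ _
  have hμ2 : μ ≤ ε / 8 := (min_le_right _ _).trans (min_le_left _ _)
  have hμ3 : μ ≤ ε * v / 8 := (min_le_right _ _).trans (min_le_right _ _)
  -- the interval of levels
  set τ : ℝ := min (ε / 8) (min (t * (ε / 16)) (t * (ε / (16 * Bd)))) with hτ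
  have hτ0 : 0 < τ := by positivity
  have hτ2 : τ ≤ ε / 8 := min_le_left _ _
  have hτ1 : τ ≤ t * (ε / 16) := (min_le_right _ _).trans (min_le_left _ _)
  have hτ3 : τ ≤ t * (ε / (16 * Bd)) := (min_le_right _ _).trans (min_le_right _ _)
  have hAc : ContDiff ℝ 2 A := by rw [hA]; fun_prop
  have hBc : ContDiff ℝ 2 B := by rw [hB]; fun_prop
  have hdA : ∀ θ, deriv A θ = - (0 - d) * sin (θ - θ0) + y * cos (θ - θ0) :=
    fun θ => deriv_AB θ0 (0 - d) y θ
  have hdB : ∀ θ, deriv B θ = - (0 - d) * sin (θ - θ0) + (-y) * cos (θ - θ0) :=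
    fun θ => deriv_AB θ0 (0 - d) (-y) θ
  have hcosl : ∀ θ ∈ Icc (θ0 - e - e) (θ0 + e + e), 3 / 4 ≤ cos (θ - θ0) ∧ |sin (θ - θ0)| ≤ 2 * e := by
    intro θ hθ
    have h2 : |θ - θ0| ≤ 2 * e := by rw [abs_le]; constructor <;> linarith [hθ.1, hθ.2]
    constructor
    · have h3 := Real.one_sub_sq_div_two_le_cos (x := θ - θ0)
      have h4 : (θ - θ0) ^ 2 ≤ (2 * e) ^ 2 := by
        rw [← sq_abs]; exact pow_le_pow_left₀ (abs_nonneg _) h2 2
      nlinarith
    · exact Real.abs_sin_le_abs.trans h2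
  have hsub : ∀ y', |y'| = y → ∀ θ ∈ Icc (θ0 - e - e) (θ0 + e + e),
      |- (0 - d) * sin (θ - θ0) + y' * cos (θ - θ0)| ≤ y + 2 * e := by
    intro y' hy' θ hθ
    have h2 := (hcosl θ hθ).2
    have h3 := abs_cos_le_one (θ - θ0)
    calc |- (0 - d) * sin (θ - θ0) + y' * cos (θ - θ0)|
        ≤ |- (0 - d) * sin (θ - θ0)| + |y' * cos (θ - θ0)| := abs_add_le _ _
      _ = |0 - d| * |sin (θ - θ0)| + y * |cos (θ - θ0)| := by rw [abs_mul, abs_mul, abs_neg, hy']
      _ ≤ 1 * (2 * e) + y * 1 := by gcongr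
      _ = y + 2 * e := by ring
  obtain ⟨φ, hφ, δ, hδ, Q, hQm, hserve, S, hSv, hstar⟩ := KA (θ0 - e) (θ0 + e) (0 - e) (0 + e) e
    (by linarith) (by linarith) he0 (by linarith) (by linarith) (by linarith) (by linarith)
    O hOo hCO A B hAc hBc (3 * y / 2) (by positivity)
    (by
      intro θ hθ
      rw [hdA, hdB]
      have := (hcosl θ hθ).1
      nlinarith)
    (by intro θ hθ; rw [hdA]; exact (hsub y (abs_of_pos hy0) θ hθ).trans (by linarith))
    (by intro θ hθ; rw [hdB]; exact (hsub (-y) (by rw [abs_neg, abs_of_pos hy0]) θ hθ).trans (by linarith))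
    (Pert r) (fun μ₁ μ₂ φ₁ φ₂ a b => Pert.add hr1.le a b) (fun μ hμ => Pert.zero hμ)
    (fun μ φ a => a.contDiff hr1.le) (fun μ φ a => a.abs_le hr1.le)
    (by
      intro K μ hμ
      obtain ⟨k0, hk0, hk⟩ := wave cR d r hd0 (hcA θ0) K μ hμ
      refine ⟨k0, hk0, fun k hkk => ?_⟩
      obtain ⟨φ, h2, h3⟩ := hk k hkk
      refine ⟨φ, h2, fun l hl => ?_⟩
      rw [h3 l (by rw [qdA]; exact hq y (abs_of_pos hy0) l hl), qdA])
    (by
      intro K μ hμ
      obtain ⟨k0, hk0, hk⟩ := wave cL d r hd0 (hcB θ0) K μ hμ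
      refine ⟨k0, hk0, fun k hkk => ?_⟩
      obtain ⟨φ, h2, h3⟩ := hk k hkk
      refine ⟨φ, h2, fun l hl => ?_⟩
      rw [h3 l (by rw [qdB]; exact hq (-y) (by rw [abs_neg, abs_of_pos hy0]) l hl), qdB])
    F hFc (min (ε / 2) (τ / 2)) μ (by positivity) hμ0
  -- the level
  obtain ⟨s, hs, hsS⟩ : ∃ s ∈ Ioo t (t + τ), s ∉ S := by
    by_contra hcon
    push Not at hcon
    have h2 : volume (Ioo t (t + τ)) ≤ volume S := measure_mono hcon
    rw [Real.volume_Ioo] at h2
    have h3 := h2.trans hSv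
    rw [ENNReal.ofReal_le_ofReal_iff (by positivity)] at h3
    have := min_le_right (ε / 2) (τ / 2)
    linarith
  have hs0 : 0 < s := ht.trans hs.1
  have hts : t / s ≤ 1 := by rw [div_le_one hs0]; exact hs.1.le
  have hts0 : 0 < t / s := by positivity
  have htsτ : 1 - t / s ≤ τ / t := by
    have e1 : 1 - t / s = (s - t) / s := by field_simp
    rw [e1]
    have h2 : s - t ≤ τ := by linarith [hs.2]
    have h3 : 0 ≤ s - t := by linarith [hs.1]
    exact div_le_div₀ hτ0.le h2 ht hs.1.le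
  have hts2 : 1 - t / s ≤ ε / 16 := by
    refine htsτ.trans ?_
    rw [div_le_iff₀ ht]; linarith
  have hts3 : (1 - t / s) * Bd ≤ ε / 16 := by
    have h2 : 1 - t / s ≤ ε / (16 * Bd) := by
      refine htsτ.trans ?_
      rw [div_le_iff₀ ht]; linarith
    calc (1 - t / s) * Bd ≤ ε / (16 * Bd) * Bd := mul_le_mul_of_nonneg_right h2 hBd0.le
      _ = ε / 16 := by field_simp
  have hts4 : 0 ≤ 1 - t / s := by linarith
  obtain ⟨f, hf1, hf2, hf3, hf4⟩ := hφ
  have hfs : ∀ z, 1 ≤ ‖z‖ → f z = 0 := fun z hz => hf3 z (hr1.le.trans hz)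
  -- the shifted perturbation
  set fa : ℂ → ℝ := fun z => f (z - a) with hfa
  have hfac : ContDiff ℝ 1 fa := hf1.comp (contDiff_id.sub contDiff_const)
  have hfaμ : ∀ z, |fa z| ≤ μ := fun z => hf2 _
  have hfas : ∀ z, ‖a‖ + 1 ≤ ‖z‖ → fa z = 0 := by
    intro z hz
    apply hfs
    have := norm_sub_norm_le z a
    linarith
  have hfad : Dom fa := dom_of_support hfac.continuous (‖a‖ + 1) hfas μ hfaμ
  have hfav : ∀ z, fa z ≠ 0 → v ≤ h z ∧ h z ≤ 1 - v := by
    intro z hz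
    have h1 : ‖z - a‖ ≤ 2 := by
      by_contra hcon
      push Not at hcon
      exact hz (hfs _ (by linarith))
    have := hv (z - a) h1
    rwa [sub_add_cancel] at this
  have hfah : ∀ z, |fa z| ≤ h z / 2 := by
    intro z
    by_cases hz : fa z = 0
    · rw [hz, abs_zero]; have := hh.pos z; positivity
    · have := (hfav z hz).1
      have := hfaμ z
      linarith
  have hfah2 : ∀ z, h z + fa z < 1 := by
    intro z
    by_cases hz : fa z = 0
    · rw [hz, add_zero]; exact hh.lt_one z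
    · have := (hfav z hz).2
      have := (abs_le.1 (hfaμ z)).2
      linarith
  have hfaR : ∀ l, Rad fa (sh a l) = φ l := by
    intro l
    rw [← rad_sh, ← hf4 l]
    congr 1
    funext z
    simp only [hfa, add_sub_cancel_right]
  have hφμ : ∀ l, |φ l| ≤ 2 * μ := by
    intro l
    rw [← hf4 l]
    exact Rad_abs_le f hfs μ hf2 l
  have hφrel : ∀ l, |φ l| ≤ ε / 8 * Rad h (sh a l) := by
    intro l
    by_cases hl : |l.2| ≤ 1
    · have h2 := hh.rad_lower a v (fun z hz => (hv z hz).1) l hl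
      have h3 := hφμ l
      have h4 : 2 * μ ≤ ε / 8 * (2 * v) := by linarith
      exact h3.trans (h4.trans (mul_le_mul_of_nonneg_left h2 (by positivity)))
    · push Not at hl
      have : φ l = 0 := by
        rw [← hf4 l]
        unfold Rad
        have : ∀ σ, f (pt l.1 l.2 σ) = 0 := fun σ => hfs _ (hl.le.trans (le_norm_pt' _ _ _))
        simp [this]
      rw [this, abs_zero]
      have := hh.rad_pos (sh a l)
      positivity
  have hfaAbs : ∀ l, Rad (fun z => |fa z|) l ≤ ε / 4 := by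
    intro l
    obtain ⟨l', hl', -⟩ := sh_surj a l
    rw [← hl', ← rad_sh]
    have h2 := Rad_abs_le (fun z => |f z|) (fun z hz => by simp only [hfs z hz, abs_zero]) μ
      (fun z => by rw [abs_abs]; exact hf2 z) l'
    have e1 : (fun z => |fa (z + a)|) = fun z => |f z| := by
      funext z; simp only [hfa, add_sub_cancel_right]
    rw [e1]
    have := le_abs_self (Rad (fun z => |f z|) l')
    linarith
  set h' : ℂ → ℝ := fun z => t / s * (h z + fa z) with hh'
  have hh'C : Cls h' := by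
    refine ⟨contDiff_const.mul (hh.c1.add hfac), fun z => ?_, fun z => ?_, ?_⟩
    · have h2 := hh.pos z
      have h3 := abs_le.1 (hfah z)
      have : 0 < h z + fa z := by linarith
      positivity
    · have h2 := hfah2 z
      have h3 := abs_le.1 (hfah z)
      have h4 := hh.pos z
      have h5 : 0 < h z + fa z := by linarith
      calc t / s * (h z + fa z) ≤ 1 * (h z + fa z) := mul_le_mul_of_nonneg_right hts h5.le
        _ < 1 := by rw [one_mul]; exact h2
    · obtain ⟨R, c, hR, hc, hc1, htl⟩ := hh.tail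
      refine ⟨R + (‖a‖ + 1), t / s * c, by positivity, by positivity, ?_, fun z hz => ?_⟩
      · calc t / s * c ≤ 1 * 1 := mul_le_mul hts hc1 hc.le zero_le_one
          _ = 1 := one_mul 1
      · simp only [hh']
        rw [hfas z (by linarith), htl z (by linarith [norm_nonneg a]), add_zero, mul_assoc]
  have hRad' : ∀ l, Rad h' l = t / s * (Rad h l + Rad fa l) := by
    intro l
    rw [hh', Rad_const_mul, radAdd hh.dom hfad]
  set U : Set ℂ := {z | z ∈ Metric.ball a 1 ∧ (z - a, s) ∈ Q} with hU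
  have hUm : MeasurableSet U :=
    measurableSet_ball.inter (hQm.preimage (by fun_prop : Measurable fun z : ℂ => (z - a, s)))
  refine ⟨h', hh'C, ?_, ?_, U, hUm, fun z hz => hz.1, δ * (t / s), by positivity, ?_, ?_⟩
  · intro l
    have h2 : Rad (fun z => |h' z - h z|) l ≤
        Rad (fun z => (1 - t / s) * (2 * h z) + |fa z|) l := by
      apply radMono (hh'C.dom.sub hh.dom).abs
        (((hh.dom.const_mul 2).const_mul (1 - t / s)).add hfad.abs)
      intro z
      have e1 : h' z - h z = -(1 - t / s) * (h z + fa z) + fa z := by simp only [hh']; ring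
      rw [e1]
      refine (abs_add_le _ _).trans (add_le_add_left ?_ _)
      rw [abs_mul, abs_neg, abs_of_nonneg hts4]
      apply mul_le_mul_of_nonneg_left _ hts4
      have h3 := abs_le.1 (hfah z)
      have h4 := hh.pos z
      rw [abs_le]
      constructor <;> linarith
    rw [radAdd ((hh.dom.const_mul 2).const_mul (1 - t / s)) hfad.abs, Rad_const_mul,
      Rad_const_mul] at h2
    have h3 := hfaAbs l
    have h4 : (1 - t / s) * (2 * Rad h l) ≤ ε / 8 := by
      have := mul_le_mul_of_nonneg_left (hRB l) hts4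
      linarith
    linarith
  · intro L
    obtain ⟨l, hl, -⟩ := sh_surj a L
    rw [← hl, hRad', hfaR]
    have h3 := (hh.rad_pos (sh a l)).le
    have h2 := hφrel l
    have h4 : t / s * (Rad h (sh a l) + φ l) - Rad h (sh a l) =
        -(1 - t / s) * Rad h (sh a l) + t / s * φ l := by ring
    rw [h4]
    calc |-(1 - t / s) * Rad h (sh a l) + t / s * φ l|
        ≤ |-(1 - t / s) * Rad h (sh a l)| + |t / s * φ l| := abs_add_le _ _
      _ = (1 - t / s) * Rad h (sh a l) + t / s * |φ l| := by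
          rw [abs_mul, abs_mul, abs_neg, abs_of_nonneg hts4, abs_of_pos hts0, abs_of_nonneg h3]
      _ ≤ ε / 16 * Rad h (sh a l) + 1 * (ε / 8 * Rad h (sh a l)) := by gcongr
      _ ≤ ε * Rad h (sh a l) := by nlinarith
  · intro l hθ hp' hlev
    have hθ' := abs_le.mp hθ
    have hp'' := abs_le.mp hp'
    have hmem : l ∈ Icc (θ0 - e) (θ0 + e) ×ˢ Icc (0 - e) (0 + e) :=
      ⟨⟨by linarith [hθ'.1], by linarith [hθ'.2]⟩, by linarith [hp''.1], by linarith [hp''.2]⟩
    have h2 : |F l + φ l - s| ≤ δ := by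
      rw [hRad', hfaR, ← hFsh] at hlev
      have e2 : t / s * (F l + φ l) - t = t / s * (F l + φ l - s) := by
        field_simp
      rw [e2, abs_mul, abs_of_pos hts0, mul_comm] at hlev
      exact le_of_mul_le_mul_right hlev hts0
    have h3 := hserve l hmem s h2
    rw [show 3 * y / 2 / 4 = 3 * y / 8 by ring] at h3
    rw [vol_sh]
    refine h3.trans (measure_mono ?_)
    rintro σ ⟨hσ, hQσ⟩
    refine ⟨?_, by rw [add_sub_cancel_right]; exact hQσ⟩
    have hθ2 : l.1 ∈ Icc (θ0 - e - e) (θ0 + e + e) := ⟨by linarith [hθ'.1], by linarith [hθ'.2]⟩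
    have hB' := abs_le.mp (hsub (-y) (by rw [abs_neg, abs_of_pos hy0]) l.1 hθ2)
    have hA' := abs_le.mp (hsub y (abs_of_pos hy0) l.1 hθ2)
    rw [hdA, hdB] at hσ
    have hσa : |σ| ≤ 7 * y / 4 + 2 * e := by
      rw [abs_le]; constructor <;> linarith [hσ.1, hσ.2, hA'.2, hB'.1]
    have h4 := hdisc l.2 σ (by rw [sub_zero]; exact hp') hσa
    rw [mem_ball_iff_norm, add_sub_cancel_right]
    have h5 := norm_pt_sq l.1 l.2 σ
    nlinarith [norm_nonneg (pt l.1 l.2 σ)]
  · intro L hL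
    obtain ⟨l, hl, -⟩ := sh_surj a L
    rw [← hl] at hL ⊢
    rw [vol_sh, ← hFsh] at *
    set V : Set ℂ := {z | z + a ∈ U} with hV
    have eV : {σ : ℝ | pt l.1 l.2 σ + a ∈ U} = {σ : ℝ | pt l.1 l.2 σ ∈ V} := rfl
    rw [eV]
    obtain ⟨l', h1', h2'⟩ := exists_same (θ0 - e - 5 / 3) (θ0 + e + 5 / 3)
      (by have := Real.pi_lt_d2; linarith) l
    rw [← h1'.2.2 V]
    rw [hF, ← h1'.2.1 hr, ← hF] at hL
    have h3 : min (ε / 2) (τ / 2) ≤ |F l' - s| := by
      refine (min_le_left _ _).trans ?_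
      have h5 : |s - t| ≤ ε / 8 := by
        rw [abs_of_pos (by linarith [hs.1])]; linarith [hs.2]
      have h6 : |F l' - t| ≤ |F l' - s| + |s - t| := by
        have e1 : F l' - t = (F l' - s) + (s - t) := by ring
        rw [e1]
        exact abs_add_le _ _
      linarith
    have h4 := hstar s hsS l' h2' h3
    refine (measure_mono ?_).trans (h4.trans (ENNReal.ofReal_le_ofReal ?_))
    · rintro σ ⟨hσ1, hσ2⟩
      rw [add_sub_cancel_right] at hσ2
      refine ⟨?_, hσ2⟩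
      rw [mem_ball_iff_norm, add_sub_cancel_right] at hσ1
      by_contra hcon
      exact absurd (one_le_norm_pt l'.1 l'.2 σ (not_le.mp hcon).le) (not_le.mpr hσ1)
    · refine (min_le_left _ _).trans (by linarith)

theorem kill : ∃ e : ℝ, 0 < e ∧ e ≤ 1 ∧ ∃ c0 : ℝ, 0 < c0 ∧
    ∀ (θ0 : ℝ) (a : ℂ) (h : ℂ → ℝ), Cls h →
    ∀ t > 0, ∀ ε > 0, ∃ h' : ℂ → ℝ, Cls h' ∧ (∀ l, Rad (fun z => |h' z - h z|) l ≤ ε) ∧
      (∀ l, |Rad h' l - Rad h l| ≤ ε * Rad h l) ∧
      ∃ U : Set ℂ, MeasurableSet U ∧ U ⊆ Metric.ball a 1 ∧ ∃ δ > 0,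
        (∀ l : ℝ × ℝ, |l.1 - θ0| ≤ e → |l.2| ≤ e → |Rad h' (sh a l) - t| ≤ δ →
          ENNReal.ofReal c0 ≤ volume {σ : ℝ | pt (sh a l).1 (sh a l).2 σ ∈ U}) ∧
        (∀ l : ℝ × ℝ, ε ≤ |Rad h l - t| →
          volume {σ : ℝ | pt l.1 l.2 σ ∈ U} ≤ ENNReal.ofReal ε) := kill_aux killAbstract2

end Pool.Agent.K6.H56.Cr
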