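import Pool.Agent.K6.H56.Cr2
import Pool.Agent.Helper991.Croft.AI2

/-! Making a positive density on the whole plane almost an indicator, uniformly on all lines. -/

open MeasureTheory Real Set Filter Topology

namespace Pool.Agent.K6.H56.Cr
open Croft

/-- rescaled function -/
noncomputable def sc (R : ℝ) (g : ℂ → ℝ) (z : ℂ) : ℝ := g (((R⁻¹ : ℝ) : ℂ) * z)

theorem pt_sc (R : ℝ) (l : ℝ × ℝ) (σ : ℝ) :
    ((R⁻¹ : ℝ) : ℂ) * pt l.1 l.2 σ = pt l.1 (l.2 / R) (σ / R) := by
  unfold pt
  push_cast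
  ring

theorem rad_sc (R : ℝ) (hR : 0 < R) (g : ℂ → ℝ) (l : ℝ × ℝ) :
    Rad (sc R g) l = R * Rad g (l.1, l.2 / R) := by
  have h2 := Measure.integral_comp_div (fun u : ℝ => g (pt l.1 (l.2 / R) u)) R
  unfold Rad sc
  simp_rw [pt_sc]
  rw [h2, smul_eq_mul, abs_of_pos hR]

theorem norm_sc (R : ℝ) (hR : 0 < R) (z : ℂ) : ‖((R⁻¹ : ℝ) : ℂ) * z‖ = ‖z‖ / R := by
  rw [norm_mul, Complex.norm_real, Real.norm_eq_abs, abs_of_pos (inv_pos.2 hR)]
  field_simp

theorem q_lip {x y : ℝ} (hx0 : 0 ≤ x) (hx1 : x ≤ 1) (hy0 : 0 ≤ y) (hy1 : y ≤ 1) :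
    x * (1 - x) ≤ y * (1 - y) + |x - y| := by
  have e6 : x * (1 - x) - y * (1 - y) = (x - y) * (1 - x - y) := by ring
  have e7 : (x - y) * (1 - x - y) ≤ |x - y| := by
    calc (x - y) * (1 - x - y) ≤ |(x - y) * (1 - x - y)| := le_abs_self _
      _ = |x - y| * |1 - x - y| := abs_mul _ _
      _ ≤ |x - y| * 1 := by
          apply mul_le_mul_of_nonneg_left _ (abs_nonneg _)
          rw [abs_le]; constructor <;> linarith
      _ = |x - y| := mul_one _
  linarith

theorem Cls.q_dom {h : ℂ → ℝ} (hh : Cls h) : Dom (fun z => h z * (1 - h z)) :=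
  hh.dom.mul_bdd (continuous_const.sub hh.c1.continuous) fun z => by
    have := hh.pos z
    have := hh.lt_one z
    rw [abs_le]; constructor <;> linarith

theorem almost (h : ℂ → ℝ) (hh : Cls h) (ε : ℝ) (hε : 0 < ε) : ∃ h' : ℂ → ℝ, Cls h' ∧
    (∀ l, |Rad h' l - Rad h l| ≤ ε * Rad h l) ∧
    (∀ l, Rad (fun z => |h' z - h z|) l ≤ 2 * Rad (fun z => h z * (1 - h z)) l + ε) ∧
    (∀ l, Rad (fun z => h' z * (1 - h' z)) l ≤ ε) := by
  obtain ⟨Rt, c, hRt, hc, hc1, htl⟩ := hh.tail
  -- the radius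
  obtain ⟨R, hR3, hRt2, hRε⟩ : ∃ R : ℝ, 3 ≤ R ∧ 2 * Rt ≤ R ∧ 200 / ε ≤ R :=
    ⟨max 3 (max (2 * Rt) (200 / ε)), le_max_left _ _, (le_max_left _ _).trans (le_max_right _ _),
      (le_max_right _ _).trans (le_max_right _ _)⟩
  have hR0 : 0 < R := by linarith
  have hRε' : 200 ≤ ε * R := by rwa [div_le_iff₀ hε, mul_comm] at hRε
  set η : ℝ := 32 / R ^ 4 with hη
  have hη0 : 0 < η := by positivity
  have hη1 : η < 1 := by
    rw [hη, div_lt_one (by positivity)]
    have : (3:ℝ) ^ 4 ≤ R ^ 4 := pow_le_pow_left₀ (by norm_num) hR3 4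
    linarith
  have hηR : η * (2 * R) ≤ ε / 4 := by
    have e1 : η * (2 * R) = 64 / R ^ 3 := by rw [hη]; field_simp; norm_num
    rw [e1, div_le_iff₀ (by positivity)]
    have : ε * R * 9 ≤ ε * R ^ 3 := by
      have h9 : 9 ≤ R ^ 2 := by nlinarith
      calc ε * R * 9 ≤ ε * R * R ^ 2 := mul_le_mul_of_nonneg_left h9 (by positivity)
        _ = ε * R ^ 3 := by ring
    linarith
  have hpR : 4 / R ^ 2 * π ≤ ε / 4 := by
    have h1 : 4 / R ^ 2 * π = 4 * π / R ^ 2 := by ring
    rw [h1, div_le_iff₀ (by positivity)]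
    have h2 := Real.pi_lt_d2
    have h3 : ε * R * 3 ≤ ε * R ^ 2 := by
      calc ε * R * 3 ≤ ε * R * R := mul_le_mul_of_nonneg_left hR3 (by positivity)
        _ = ε * R ^ 2 := by ring
    linarith
  have hpR2 : 16 / R ^ 4 * π ≤ ε / 4 := by
    refine le_trans ?_ hpR
    apply mul_le_mul_of_nonneg_right _ Real.pi_pos.le
    rw [div_le_div_iff₀ (by positivity) (by positivity)]
    have : 9 ≤ R ^ 2 := by nlinarith
    calc 16 * R ^ 2 ≤ 4 * 9 * R ^ 2 := by nlinarith [sq_nonneg R]
      _ ≤ 4 * R ^ 2 * R ^ 2 := by nlinarith [sq_nonneg R]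
      _ = 4 * R ^ 4 := by ring
  set ε₁ : ℝ := min ε (ε / (4 * R)) with hε₁
  have hε₁0 : 0 < ε₁ := by positivity
  have hε₁1 : ε₁ ≤ ε := min_le_left _ _
  have hε₁2 : R * ε₁ ≤ ε / 4 := by
    have : ε₁ ≤ ε / (4 * R) := min_le_right _ _
    calc R * ε₁ ≤ R * (ε / (4 * R)) := mul_le_mul_of_nonneg_left this hR0.le
      _ = ε / 4 := by field_simp
  -- the cutoff
  let χ : ContDiffBump (0 : ℂ) := ⟨1 / 2, 1, by norm_num, by norm_num⟩
  have hχc : ContDiff ℝ 1 χ := χ.contDiff
  have hχ0 : ∀ z, 0 ≤ χ z := fun z => χ.nonneg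
  have hχ1 : ∀ z, χ z ≤ 1 := fun z => χ.le_one
  have hχs : ∀ z, 1 ≤ ‖z‖ → χ z = 0 := fun z hz => by
    apply χ.zero_of_le_dist
    rw [dist_zero_right]; exact hz
  have hχr : ∀ z, ‖z‖ ≤ 1 / 2 → χ z = 1 := fun z hz => by
    apply χ.one_of_mem_closedBall
    rw [Metric.mem_closedBall, dist_zero_right]; exact hz
  have hχp : ∀ z, ‖z‖ < 1 → 0 < χ z := fun z hz => by
    apply χ.pos_of_mem_ball
    rw [Metric.mem_ball, dist_zero_right]; exact hz
  -- the scaled density
  set k : ℂ → ℝ := fun w => χ w * h ((R : ℂ) * w) with hk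
  have hRc : ContDiff ℝ 1 (fun w : ℂ => (R : ℂ) * w) := contDiff_const.mul contDiff_id
  have hkN : Nice k := by
    refine ⟨hχc.mul (hh.c1.comp hRc), fun z => mul_nonneg (hχ0 z) (hh.pos _).le, fun z => ?_, fun z hz => ?_⟩
    · calc χ z * h ((R : ℂ) * z) ≤ 1 * 1 := mul_le_mul (hχ1 z) (hh.lt_one _).le (hh.pos _).le zero_le_one
        _ = 1 := one_mul 1
    · simp [hk, hχs z hz]
  have hkpos : ∀ l : ℝ × ℝ, |l.2| < 1 → 0 < Rad k l := by
    intro l hl
    have hi : Integrable fun σ => k (pt l.1 l.2 σ) := AI.rad_integrable hkN.ai_supp1 l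
    unfold Rad
    have hcont : Continuous fun σ => k (pt l.1 l.2 σ) := hkN.c1.continuous.comp (ptc _ _)
    rw [integral_pos_iff_support_of_nonneg (fun σ => hkN.nonneg _) hi]
    apply IsOpen.measure_pos volume hcont.isOpen_support
    refine ⟨0, ?_⟩
    rw [Function.mem_support]
    have h1 : ‖pt l.1 l.2 0‖ < 1 := by
      have h2 := norm_pt_sq l.1 l.2 0
      have h3 : l.2 ^ 2 < 1 := by rw [← sq_abs]; nlinarith [abs_nonneg l.2]
      nlinarith [norm_nonneg (pt l.1 l.2 0)]
    have h2 := hχp _ h1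
    have h3 := hh.pos ((R : ℂ) * pt l.1 l.2 0)
    have : 0 < k (pt l.1 l.2 0) := mul_pos h2 h3
    exact this.ne'
  obtain ⟨k', hk'N, hk1, hk2, hk3⟩ := almost_indicator2 k hkN hkpos ε₁ hε₁0
  -- back to the plane
  have hRR : ∀ z : ℂ, (R : ℂ) * (((R⁻¹ : ℝ) : ℂ) * z) = z := by
    intro z
    have : (R : ℂ) ≠ 0 := by exact_mod_cast hR0.ne'
    push_cast
    field_simp
  set χR : ℂ → ℝ := sc R χ with hχR
  set g : ℂ → ℝ := sc R k' with hg
  set kR : ℂ → ℝ := sc R k with hkR
  have hkRe : ∀ z, kR z = χR z * h z := by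
    intro z
    simp only [hkR, hχR, sc, hk, hRR]
  have hsc : ContDiff ℝ 1 (fun w : ℂ => ((R⁻¹ : ℝ) : ℂ) * w) := contDiff_const.mul contDiff_id
  have hgc : ContDiff ℝ 1 g := hk'N.c1.comp hsc
  have hkRc : ContDiff ℝ 1 kR := hkN.c1.comp hsc
  have hχRc : ContDiff ℝ 1 χR := hχc.comp hsc
  have hbig : ∀ z : ℂ, R ≤ ‖z‖ → 1 ≤ ‖((R⁻¹ : ℝ) : ℂ) * z‖ := by
    intro z hz
    rw [norm_sc R hR0, one_le_div hR0]; exact hz
  have hg0 : ∀ z, 0 ≤ g z := fun z => hk'N.nonneg _
  have hg1 : ∀ z, g z ≤ 1 := fun z => hk'N.le_one _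
  have hkR0 : ∀ z, 0 ≤ kR z := fun z => hkN.nonneg _
  have hkR1 : ∀ z, kR z ≤ 1 := fun z => hkN.le_one _
  have hχR0 : ∀ z, 0 ≤ χR z := fun z => hχ0 _
  have hχR1 : ∀ z, χR z ≤ 1 := fun z => hχ1 _
  have hgs : ∀ z, R ≤ ‖z‖ → g z = 0 := fun z hz => hk'N.supp _ (hbig z hz)
  have hkRs : ∀ z, R ≤ ‖z‖ → kR z = 0 := fun z hz => hkN.supp _ (hbig z hz)
  have hχRs : ∀ z, R ≤ ‖z‖ → χR z = 0 := fun z hz => hχs _ (hbig z hz)
  have hχRr : ∀ z, ‖z‖ ≤ R / 2 → χR z = 1 := by
    intro z hz
    apply hχr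
    rw [norm_sc R hR0, div_le_iff₀ hR0]; linarith
  have hgd : Dom g := dom_of_support hgc.continuous R hgs 1 fun z => by
    rw [abs_of_nonneg (hg0 z)]; exact hg1 z
  have hkd : Dom kR := dom_of_support hkRc.continuous R hkRs 1 fun z => by
    rw [abs_of_nonneg (hkR0 z)]; exact hkR1 z
  -- the outer part
  set o : ℂ → ℝ := fun z => h z * (1 - χR z) with ho
  have hod : Dom o := hh.dom.mul_bdd (continuous_const.sub hχRc.continuous) fun z => by
    have := hχR0 z
    have := hχR1 z
    rw [abs_le]; constructor <;> linarith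
  have ho0 : ∀ z, 0 ≤ o z := fun z => mul_nonneg (hh.pos z).le (by have := hχR1 z; linarith)
  have hsum : ∀ z, kR z + o z = h z := by
    intro z
    rw [hkRe]; simp only [ho]; ring
  have hout : ∀ z, χR z ≠ 1 → h z ≤ wt z ∧ h z ≤ 16 / R ^ 4 ∧ wt z ≤ 4 / R ^ 2 * (1 + ‖z‖ ^ 2)⁻¹ := by
    intro z hz
    have h1 : R / 2 < ‖z‖ := by
      by_contra hcon
      push Not at hcon
      exact hz (hχRr z hcon)
    have h2 : h z ≤ wt z := by
      rw [htl z (by linarith)]
      have := wt_pos z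
      nlinarith
    have h3 : R ^ 2 / 4 ≤ ‖z‖ ^ 2 := by nlinarith
    have h4 : wt z ≤ 16 / R ^ 4 := by
      unfold wt
      rw [inv_le_comm₀ (by positivity) (by positivity), inv_div]
      have : (R ^ 2 / 4) ^ 2 ≤ (1 + ‖z‖ ^ 2) ^ 2 := pow_le_pow_left₀ (by positivity) (by linarith) 2
      calc R ^ 4 / 16 = (R ^ 2 / 4) ^ 2 := by ring
        _ ≤ _ := this
    have h5 : wt z ≤ 4 / R ^ 2 * (1 + ‖z‖ ^ 2)⁻¹ := by
      unfold wt
      rw [sq, mul_inv]
      apply mul_le_mul_of_nonneg_right _ (by positivity)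
      rw [inv_le_comm₀ (by positivity) (by positivity), inv_div]
      linarith
    exact ⟨h2, h2.trans h4, h5⟩
  set h' : ℂ → ℝ := fun z => (1 - η) * g z + η * kR z + o z with hh'
  have hdiff : ∀ z, h' z - h z = (1 - η) * (g z - kR z) := by
    intro z
    rw [← hsum z]; simp only [hh']; ring
  have hh'0 : ∀ z, 0 < h' z := by
    intro z
    have h1 := hkRe z
    have h2 := hh.pos z
    have h3 := hχR0 z
    have h4 := hχR1 z
    have h5 := hg0 z
    have e1 : h' z = (1 - η) * g z + h z * (1 - χR z * (1 - η)) := by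
      simp only [hh', ho, h1]; ring
    rw [e1]
    have h6 : 0 ≤ (1 - η) * g z := mul_nonneg (by linarith) h5
    have h7 : 0 < 1 - χR z * (1 - η) := by nlinarith
    have := mul_pos h2 h7
    linarith
  have hh'1 : ∀ z, h' z < 1 := by
    intro z
    have h1 := hkRe z
    have h2 := hh.pos z
    have h2' := hh.lt_one z
    have h3 := hχR0 z
    have h4 := hχR1 z
    have h5 := hg1 z
    have e1 : h' z = (1 - η) * g z + h z * (1 - χR z * (1 - η)) := by
      simp only [hh', ho, h1]; ring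
    rw [e1]
    have h6 : (1 - η) * g z ≤ 1 - η := by nlinarith
    by_cases hz : χR z = 1
    · rw [hz]
      have : h z * (1 - 1 * (1 - η)) = h z * η := by ring
      rw [this]
      nlinarith
    · have h7 := (hout z hz).2.1
      have h8 : h z * (1 - χR z * (1 - η)) ≤ h z := by
        have : 0 ≤ χR z * (1 - η) := mul_nonneg h3 (by linarith)
        nlinarith
      have h9 : 16 / R ^ 4 < η := by
        rw [hη]
        apply div_lt_div_of_pos_right _ (by positivity)
        norm_num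
      linarith
  have hh'C : Cls h' := by
    refine ⟨((contDiff_const.mul hgc).add (contDiff_const.mul hkRc)).add
      (hh.c1.mul (contDiff_const.sub hχRc)), hh'0, hh'1, R + Rt, c, by positivity, hc, hc1, fun z hz => ?_⟩
    simp only [hh', ho]
    rw [hgs z (by linarith), hkRs z (by linarith), hχRs z (by linarith), htl z (by linarith)]
    ring
  have hradsum : ∀ l, Rad h l = Rad kR l + Rad o l := by
    intro l
    rw [← radAdd hkd hod]
    congr 1
    funext z
    exact (hsum z).symm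
  have hrado : ∀ l, 0 ≤ Rad o l := fun l => radNonneg ho0 l
  refine ⟨h', hh'C, ?_, ?_, ?_⟩
  · intro l
    have e1 : Rad h' l - Rad h l = (1 - η) * (Rad g l - Rad kR l) := by
      rw [← radSub hh'C.dom hh.dom, ← radSub hgd hkd, ← Rad_const_mul]
      congr 1
      funext z
      exact hdiff z
    have h1 : |Rad g l - Rad kR l| ≤ ε * Rad kR l := by
      rw [hg, hkR, rad_sc R hR0, rad_sc R hR0, ← mul_sub, abs_mul, abs_of_pos hR0]
      have h2 := hk1 (l.1, l.2 / R)
      have h3 : 0 ≤ Rad k (l.1, l.2 / R) := radNonneg hkN.nonneg _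
      calc R * |Rad k' (l.1, l.2 / R) - Rad k (l.1, l.2 / R)|
          ≤ R * (ε₁ * Rad k (l.1, l.2 / R)) := mul_le_mul_of_nonneg_left h2 hR0.le
        _ ≤ R * (ε * Rad k (l.1, l.2 / R)) := by gcongr
        _ = _ := by ring
    rw [e1, abs_mul, abs_of_nonneg (by linarith : 0 ≤ 1 - η)]
    have h2 : 0 ≤ Rad kR l := radNonneg hkR0 l
    calc (1 - η) * |Rad g l - Rad kR l| ≤ 1 * (ε * Rad kR l) := by
          apply mul_le_mul (by linarith) h1 (abs_nonneg _) zero_le_one
      _ = ε * Rad kR l := one_mul _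
      _ ≤ ε * Rad h l := by
          apply mul_le_mul_of_nonneg_left _ hε.le
          rw [hradsum]
          linarith [hrado l]
  · intro l
    have h1 : Rad (fun z => |h' z - h z|) l ≤ Rad (fun z => |g z - kR z|) l := by
      apply radMono (hh'C.dom.sub hh.dom).abs (hgd.sub hkd).abs
      intro z
      rw [hdiff, abs_mul, abs_of_nonneg (by linarith : 0 ≤ 1 - η)]
      calc (1 - η) * |g z - kR z| ≤ 1 * |g z - kR z| :=
            mul_le_mul_of_nonneg_right (by linarith) (abs_nonneg _)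
        _ = _ := one_mul _
    have h2 : Rad (fun z => |g z - kR z|) l ≤ 2 * Rad (fun z => kR z * (1 - kR z)) l + R * ε₁ := by
      have e1 : (fun z => |g z - kR z|) = sc R (fun z => |k' z - k z|) := rfl
      have e2 : (fun z => kR z * (1 - kR z)) = sc R (fun z => k z * (1 - k z)) := rfl
      rw [e1, e2, rad_sc R hR0, rad_sc R hR0]
      have := mul_le_mul_of_nonneg_left (hk2 (l.1, l.2 / R)) hR0.le
      linarith
    have hqd : Dom (fun z => kR z * (1 - kR z)) :=
      hkd.mul_bdd (continuous_const.sub hkRc.continuous) fun z => by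
        have := hkR0 z
        have := hkR1 z
        rw [abs_le]; constructor <;> linarith
    have h3 : Rad (fun z => kR z * (1 - kR z)) l ≤
        Rad (fun z => h z * (1 - h z) + 16 / R ^ 4 * wt z) l := by
      apply radMono hqd (hh.q_dom.add (wt_dom.const_mul _))
      intro z
      have p1 := hh.pos z
      have p2 := hh.lt_one z
      have p3 := wt_pos z
      by_cases hz : χR z = 1
      · rw [hkRe, hz, one_mul]
        have : 0 ≤ 16 / R ^ 4 * wt z := by positivity
        linarith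
      · obtain ⟨q1, q2, -⟩ := hout z hz
        have q3 : kR z ≤ h z := by
          rw [hkRe]; nlinarith [hχR1 z]
        have q4 : h z * h z ≤ 16 / R ^ 4 * wt z := mul_le_mul q2 q1 p1.le (by positivity)
        nlinarith [hkR0 z, mul_nonneg (hkR0 z) (hkR0 z)]
    rw [radAdd hh.q_dom (wt_dom.const_mul _), Rad_const_mul] at h3
    have h4 : 16 / R ^ 4 * Rad wt l ≤ ε / 4 := by
      refine le_trans ?_ hpR2
      exact mul_le_mul_of_nonneg_left (rad_wt_le l) (by positivity)
    linarith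
  · intro l
    have h1 : Rad (fun z => h' z * (1 - h' z)) l ≤
        Rad (fun z => g z * (1 - g z) + (η * |kR z - g z| + o z)) l := by
      have hqg : Dom (fun z => g z * (1 - g z)) :=
        hgd.mul_bdd (continuous_const.sub hgc.continuous) fun z => by
          have := hg0 z
          have := hg1 z
          rw [abs_le]; constructor <;> linarith
      apply radMono hh'C.q_dom (hqg.add (((hkd.sub hgd).abs.const_mul η).add hod))
      intro z
      have h2 := q_lip (hh'0 z).le (hh'1 z).le (hg0 z) (hg1 z)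
      have h3 : |h' z - g z| ≤ η * |kR z - g z| + o z := by
        have e1 : h' z - g z = η * (kR z - g z) + o z := by simp only [hh']; ring
        rw [e1]
        refine (abs_add_le _ _).trans ?_
        rw [abs_mul, abs_of_pos hη0, abs_of_nonneg (ho0 z)]
      linarith
    have hqg : Dom (fun z => g z * (1 - g z)) :=
      hgd.mul_bdd (continuous_const.sub hgc.continuous) fun z => by
        have := hg0 z
        have := hg1 z
        rw [abs_le]; constructor <;> linarith
    rw [radAdd hqg (((hkd.sub hgd).abs.const_mul η).add hod),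
      radAdd ((hkd.sub hgd).abs.const_mul η) hod, Rad_const_mul] at h1
    have h2 : Rad (fun z => g z * (1 - g z)) l ≤ ε / 4 := by
      have e2 : (fun z => g z * (1 - g z)) = sc R (fun z => k' z * (1 - k' z)) := rfl
      rw [e2, rad_sc R hR0]
      exact (mul_le_mul_of_nonneg_left (hk3 (l.1, l.2 / R)) hR0.le).trans hε₁2
    have h3 : η * Rad (fun z => |kR z - g z|) l ≤ ε / 4 := by
      have h4 : Rad (fun z => |kR z - g z|) l ≤ 2 * R := by
        have e1 : (fun z => |kR z - g z|) = sc R (fun z => |k z - k' z|) := rfl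
        rw [e1, rad_sc R hR0]
        have h5 := Rad_abs_le (fun z => |k z - k' z|)
          (fun z hz => by simp only [hkN.supp z hz, hk'N.supp z hz, sub_zero, abs_zero]) 1
          (fun z => by
            rw [abs_abs, abs_le]
            have := hkN.nonneg z
            have := hkN.le_one z
            have := hk'N.nonneg z
            have := hk'N.le_one z
            constructor <;> linarith) (l.1, l.2 / R)
        have h6 := (le_abs_self _).trans h5
        have := mul_le_mul_of_nonneg_left h6 hR0.le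
        linarith
      exact (mul_le_mul_of_nonneg_left h4 hη0.le).trans hηR
    have h5 : Rad o l ≤ ε / 4 := by
      refine le_trans ?_ hpR
      unfold Rad
      have hi : Integrable fun σ : ℝ => 4 / R ^ 2 * (1 + σ ^ 2)⁻¹ :=
        integrable_inv_one_add_sq.const_mul _
      calc ∫ σ, o (pt l.1 l.2 σ) ≤ ∫ σ : ℝ, 4 / R ^ 2 * (1 + σ ^ 2)⁻¹ := by
            apply integral_mono (hod.int l) hi
            intro σ
            set z := pt l.1 l.2 σ with hz
            have hσz : (1 + ‖z‖ ^ 2)⁻¹ ≤ (1 + σ ^ 2)⁻¹ := by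
              apply inv_anti₀ (by positivity)
              have := norm_pt_sq l.1 l.2 σ
              rw [← hz] at this
              nlinarith [sq_nonneg l.2]
            have p1 : 0 ≤ 4 / R ^ 2 * (1 + σ ^ 2)⁻¹ := by positivity
            show o z ≤ 4 / R ^ 2 * (1 + σ ^ 2)⁻¹
            by_cases hz1 : χR z = 1
            · simp only [ho, hz1, sub_self, mul_zero]; exact p1
            · obtain ⟨q1, -, q3⟩ := hout z hz1
              have q4 : o z ≤ h z := by
                simp only [ho]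
                nlinarith [hh.pos z, hχR0 z]
              have q5 : 4 / R ^ 2 * (1 + ‖z‖ ^ 2)⁻¹ ≤ 4 / R ^ 2 * (1 + σ ^ 2)⁻¹ :=
                mul_le_mul_of_nonneg_left hσz (by positivity)
              linarith
        _ = 4 / R ^ 2 * π := by rw [integral_const_mul, integral_univ_inv_one_add_sq]
    linarith

end Pool.Agent.K6.H56.Cr
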