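import Pool.Agent.K6.H56.Cr3

/-! Negligible levels, areas, and one step of the construction. -/

open MeasureTheory Real Set Filter Topology

namespace Pool.Agent.K6.H56.Cr
open Croft

theorem exists_factor (h : ℂ → ℝ) (hh : Cls h) (t : ℝ) (ht : 0 < t) (η : ℝ) (hη : 0 < η) :
    ∃ c : ℝ, 0 < c ∧ c < 1 ∧ 1 - c ≤ η ∧ volume {p : ℝ | c * Rad h (0, p) = t} = 0 := by
  have hm : Measurable fun p : ℝ => Rad h (0, p) :=
    (hh.rad_c1.continuous.comp (by fun_prop : Continuous fun p : ℝ => ((0 : ℝ), p))).measurable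
  have hc := Measure.countable_meas_level_set_pos (μ := (volume : Measure ℝ)) hm
  have hs : ∃ s ∈ Ioo t (t + t * η), s ∉ {s : ℝ | 0 < volume {p : ℝ | Rad h (0, p) = s}} := by
    by_contra hcon
    push Not at hcon
    have h1 : volume (Ioo t (t + t * η)) ≤ volume {s : ℝ | 0 < volume {p : ℝ | Rad h (0, p) = s}} :=
      measure_mono hcon
    rw [hc.measure_zero, Real.volume_Ioo, nonpos_iff_eq_zero, ENNReal.ofReal_eq_zero] at h1
    have : 0 < t * η := by positivity
    linarith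
  obtain ⟨s, hs, hs2⟩ := hs
  have hs0 : 0 < s := ht.trans hs.1
  have h0 : volume {p : ℝ | Rad h (0, p) = s} = 0 := by
    by_contra hcon
    exact hs2 (pos_iff_ne_zero.2 hcon)
  refine ⟨t / s, by positivity, by rw [div_lt_one hs0]; exact hs.1, ?_, ?_⟩
  · rw [sub_le_iff_le_add, ← sub_le_iff_le_add', le_div_iff₀ hs0]
    by_cases h1 : η ≤ 1
    · have h2 : (1 - η) * s ≤ (1 - η) * (t + t * η) :=
        mul_le_mul_of_nonneg_left hs.2.le (by linarith)
      nlinarith [mul_pos (mul_pos ht hη) hη]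
    · push Not at h1
      nlinarith
  · rw [← h0]
    congr 1
    ext p
    simp only [mem_ofPred_eq]
    constructor
    · intro h1
      field_simp at h1
      linarith
    · intro h1
      rw [h1]; field_simp

theorem vol_eq (U : Set ℂ) (hU : MeasurableSet U) :
    volume U = ∫⁻ p : ℝ, volume {σ : ℝ | pt 0 p σ ∈ U} := by
  have hmp := (Complex.volume_preserving_equiv_real_prod).symm Complex.measurableEquivRealProd
  have h1 : volume (Complex.measurableEquivRealProd.symm ⁻¹' U) = volume U :=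
    hmp.measure_preimage hU.nullMeasurableSet
  rw [← h1, Measure.volume_eq_prod, Measure.prod_apply (Complex.measurableEquivRealProd.symm.measurable hU)]
  congr 1
  funext p
  congr 1
  ext σ
  have : pt 0 p σ = Complex.measurableEquivRealProd.symm (p, σ) := by
    unfold pt
    apply Complex.ext <;> simp [Complex.measurableEquivRealProd]
  simp only [mem_ofPred_eq, mem_preimage, this]

theorem pt_zero_re (p σ : ℝ) : (pt 0 p σ).re = p := by rw [pt_re]; simp

theorem pt_zero_im (p σ : ℝ) : (pt 0 p σ).im = σ := by rw [pt_im]; simp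

theorem area (h : ℂ → ℝ) (hh : Cls h) (t : ℝ) (hnull : volume {p : ℝ | Rad h (0, p) = t} = 0)
    (a : ℂ) (η : ℝ) (hη : 0 < η) : ∃ ε : ℝ, 0 < ε ∧ ε ≤ η ∧
    ∀ U : Set ℂ, MeasurableSet U → U ⊆ Metric.ball a 1 →
      (∀ l : ℝ × ℝ, ε ≤ |Rad h l - t| →
        volume {σ : ℝ | pt l.1 l.2 σ ∈ U} ≤ ENNReal.ofReal ε) → volume U ≤ ENNReal.ofReal η := by
  have hcont : Continuous fun p : ℝ => Rad h (0, p) :=
    hh.rad_c1.continuous.comp (by fun_prop : Continuous fun p : ℝ => ((0 : ℝ), p))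
  set I : Set ℝ := Icc (a.re - 1) (a.re + 1) with hI
  let G : ℕ → Set ℝ := fun n => I ∩ {p | |Rad h (0, p) - t| < 1 / ((n : ℝ) + 1)}
  have hGm : ∀ n, MeasurableSet (G n) := fun n =>
    measurableSet_Icc.inter (isOpen_lt (by fun_prop) continuous_const).measurableSet
  have hanti : Antitone G := by
    intro m n hmn p hp
    refine ⟨hp.1, ?_⟩
    have h2 := hp.2
    rw [mem_ofPred_eq] at h2 ⊢
    refine lt_of_lt_of_le h2 ?_
    have : (m : ℝ) ≤ n := by exact_mod_cast hmn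
    apply one_div_le_one_div_of_le (by positivity)
    linarith
  have hfin : volume (G 0) ≠ ⊤ := by
    refine ne_top_of_le_ne_top ?_ (measure_mono inter_subset_left)
    rw [hI, Real.volume_Icc]
    exact ENNReal.ofReal_ne_top
  have htend := tendsto_measure_iInter_atTop (μ := volume) (fun n => (hGm n).nullMeasurableSet)
    hanti ⟨0, hfin⟩
  have hz : volume (⋂ n, G n) = 0 := by
    apply measure_mono_null _ hnull
    intro p hp
    rw [mem_ofPred_eq]
    by_contra hcon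
    have h1 : 0 < |Rad h (0, p) - t| := abs_pos.2 (sub_ne_zero.2 hcon)
    obtain ⟨n, hn⟩ := exists_nat_one_div_lt h1
    have h2 := (mem_iInter.1 hp n).2
    rw [mem_ofPred_eq] at h2
    linarith
  rw [hz] at htend
  obtain ⟨n, hn1, hn2⟩ := ((htend.eventually_le_const
    (show (0 : ENNReal) < ENNReal.ofReal (η / 8) by simpa using hη)).and
    ((tendsto_one_div_add_atTop_nhds_zero_nat (𝕜 := ℝ)).eventually_le_const
      (show (0 : ℝ) < η / 8 by positivity))).exists
  refine ⟨1 / ((n : ℝ) + 1), by positivity, by linarith, ?_⟩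
  intro U hU hUb hst
  rw [vol_eq U hU]
  have hb : ∀ p : ℝ, volume {σ : ℝ | pt 0 p σ ∈ U} ≤
      I.indicator (fun _ => ENNReal.ofReal (η / 8)) p + (G n).indicator (fun _ => 2) p := by
    intro p
    by_cases hp : p ∈ I
    · by_cases hp2 : |Rad h (0, p) - t| < 1 / ((n : ℝ) + 1)
      · have hpG : p ∈ G n := ⟨hp, hp2⟩
        rw [indicator_of_mem hpG]
        refine le_trans ?_ le_add_self
        have hsub : {σ : ℝ | pt 0 p σ ∈ U} ⊆ Icc (a.im - 1) (a.im + 1) := by
          intro σ hσ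
          have h1 := hUb hσ
          rw [mem_ball_iff_norm] at h1
          have h2 := Complex.abs_im_le_norm (pt 0 p σ - a)
          rw [Complex.sub_im, pt_zero_im] at h2
          have h3 := abs_le.1 (h2.trans h1.le)
          constructor <;> linarith [h3.1, h3.2]
        refine (measure_mono hsub).trans ?_
        rw [Real.volume_Icc]
        rw [show a.im + 1 - (a.im - 1) = 2 by ring]
        simp
      · rw [indicator_of_mem hp]
        push Not at hp2
        refine le_trans ?_ le_self_add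
        exact (hst (0, p) hp2).trans (ENNReal.ofReal_le_ofReal hn2)
    · have : {σ : ℝ | pt 0 p σ ∈ U} = ∅ := by
        rw [eq_empty_iff_forall_notMem]
        intro σ hσ
        apply hp
        have h1 := hUb hσ
        rw [mem_ball_iff_norm] at h1
        have h2 := Complex.abs_re_le_norm (pt 0 p σ - a)
        rw [Complex.sub_re, pt_zero_re] at h2
        have h3 := abs_le.1 (h2.trans h1.le)
        constructor <;> linarith [h3.1, h3.2]
      rw [this, measure_empty]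
      exact zero_le
  refine (lintegral_mono hb).trans ?_
  rw [lintegral_add_left (measurable_const.indicator measurableSet_Icc),
    lintegral_indicator measurableSet_Icc, lintegral_indicator (hGm n), setLIntegral_const,
    setLIntegral_const, Real.volume_Icc, show a.re + 1 - (a.re - 1) = 2 by ring]
  calc ENNReal.ofReal (η / 8) * ENNReal.ofReal 2 + 2 * volume (G n)
      ≤ ENNReal.ofReal (η / 8) * ENNReal.ofReal 2 + ENNReal.ofReal 2 * ENNReal.ofReal (η / 8) := by
        gcongr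
        · simp
        · exact hn1
    _ = ENNReal.ofReal (η / 2) := by
        rw [← ENNReal.ofReal_mul (by positivity), ← ENNReal.ofReal_mul (by positivity),
          ← ENNReal.ofReal_add (by positivity) (by positivity)]
        congr 1; ring
    _ ≤ _ := ENNReal.ofReal_le_ofReal (by linarith)

/-- the kill step with constants `e`, `c0` -/
def KillP (e c0 : ℝ) : Prop :=
  ∀ (θ0 : ℝ) (a : ℂ) (h : ℂ → ℝ), Cls h →
    ∀ t > 0, ∀ ε > 0, ∃ h' : ℂ → ℝ, Cls h' ∧ (∀ l, Rad (fun z => |h' z - h z|) l ≤ ε) ∧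
      (∀ l, |Rad h' l - Rad h l| ≤ ε * Rad h l) ∧
      ∃ U : Set ℂ, MeasurableSet U ∧ U ⊆ Metric.ball a 1 ∧ ∃ δ > 0,
        (∀ l : ℝ × ℝ, |l.1 - θ0| ≤ e → |l.2| ≤ e → |Rad h' (sh a l) - t| ≤ δ →
          ENNReal.ofReal c0 ≤ volume {σ : ℝ | pt (sh a l).1 (sh a l).2 σ ∈ U}) ∧
        (∀ l : ℝ × ℝ, ε ≤ |Rad h l - t| →
          volume {σ : ℝ | pt l.1 l.2 σ ∈ U} ≤ ENNReal.ofReal ε)

theorem Cls.smul {h : ℂ → ℝ} (hh : Cls h) (c : ℝ) (hc : 0 < c) (hc1 : c ≤ 1) :
    Cls (fun z => c * h z) := by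
  obtain ⟨R, b, hR, hb, hb1, ht⟩ := hh.tail
  refine ⟨contDiff_const.mul hh.c1, fun z => mul_pos hc (hh.pos z), fun z => ?_,
    R, c * b, hR, by positivity, ?_, fun z hz => ?_⟩
  · have := hh.pos z
    have := hh.lt_one z
    nlinarith
  · calc c * b ≤ 1 * 1 := mul_le_mul hc1 hb1 hb.le zero_le_one
      _ = 1 := one_mul 1
  · rw [ht z hz, mul_assoc]

theorem step {e c0 : ℝ} (hk : KillP e c0) (θ0 : ℝ) (a : ℂ) (h : ℂ → ℝ) (hh : Cls h)
    (t : ℝ) (ht : 0 < t) (β ε : ℝ) (hβ : 0 < β) (hε : 0 < ε) :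
    ∃ h' : ℂ → ℝ, ∃ β' : ℝ, ∃ U : Set ℂ, Cls h' ∧ 0 < β' ∧ MeasurableSet U ∧ U ⊆ Metric.ball a 1 ∧
      β' ≤ β / 2 ∧
      (∀ l, |Rad h' l - Rad h l| ≤ β / 2) ∧ (∀ l, |Rad h' l - Rad h l| ≤ ε * Rad h l) ∧
      (∀ l, Rad (fun z => |h' z - h z|) l ≤ 2 * Rad (fun z => h z * (1 - h z)) l + ε) ∧
      (∀ l, Rad (fun z => h' z * (1 - h' z)) l ≤ ε) ∧
      (∀ l : ℝ × ℝ, |l.1 - θ0| ≤ e → |l.2| ≤ e → |Rad h' (sh a l) - t| ≤ β' →
        ENNReal.ofReal c0 ≤ volume {σ : ℝ | pt (sh a l).1 (sh a l).2 σ ∈ U}) ∧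
      (∀ l : ℝ × ℝ, ε ≤ |Rad h l - t| → volume {σ : ℝ | pt l.1 l.2 σ ∈ U} ≤ ENNReal.ofReal ε) ∧
      volume U ≤ ENNReal.ofReal ε := by
  obtain ⟨Bd, hBd0, hBd⟩ := hh.dom.rad_bdd
  have hRB : ∀ l, Rad h l ≤ Bd := fun l => (le_abs_self _).trans ((radAbs l).trans (hBd l))
  have hR0 : ∀ l, 0 < Rad h l := fun l => hh.rad_pos l
  set ε1 : ℝ := min (1 / 4) (min (β / (10 * Bd)) (min (ε / 8) (ε / (16 * Bd)))) with hε1
  have h0 : 0 < ε1 := by positivity
  have i1 : ε1 ≤ 1 / 4 := min_le_left _ _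
  have i2 : ε1 ≤ β / (10 * Bd) := (min_le_right _ _).trans (min_le_left _ _)
  have i3 : ε1 ≤ ε / 8 := (min_le_right _ _).trans ((min_le_right _ _).trans (min_le_left _ _))
  have i4 : ε1 ≤ ε / (16 * Bd) :=
    (min_le_right _ _).trans ((min_le_right _ _).trans (min_le_right _ _))
  have i2' : ε1 * Bd ≤ β / 10 := by
    calc ε1 * Bd ≤ β / (10 * Bd) * Bd := mul_le_mul_of_nonneg_right i2 hBd0.le
      _ = β / 10 := by field_simp
  have i4' : ε1 * Bd ≤ ε / 16 := by
    calc ε1 * Bd ≤ ε / (16 * Bd) * Bd := mul_le_mul_of_nonneg_right i4 hBd0.le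
      _ = ε / 16 := by field_simp
  obtain ⟨h1, n1, r1, d1, j1⟩ := almost h hh ε1 h0
  obtain ⟨c, hc0, hc1, hcη, hcn⟩ := exists_factor h1 n1 t ht ε1 h0
  set h2 : ℂ → ℝ := fun z => c * h1 z with hh2
  have n2 : Cls h2 := n1.smul c hc0 hc1.le
  have hR2 : ∀ l, Rad h2 l = c * Rad h1 l := fun l => Rad_const_mul c h1 l
  obtain ⟨ε3, h30, h31, harea⟩ := area h2 n2 t (by simp_rw [hR2]; exact hcn) a ε1 h0
  obtain ⟨h3, n3, q3, r3, U, hU, hUb, δ, hδ, s3, w3⟩ := hk θ0 a h2 n2 t ht ε3 h30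
  have b1 : ∀ l, Rad h1 l ≤ (5 / 4) * Rad h l := by
    intro l
    have a1 := (abs_le.1 (r1 l)).2
    have a2 := hR0 l
    nlinarith
  have b1' : ∀ l, 0 < Rad h1 l := fun l => n1.rad_pos l
  have e12 : ∀ l, |Rad h2 l - Rad h1 l| ≤ ε1 * (5 / 4 * Rad h l) := by
    intro l
    rw [hR2]
    have : c * Rad h1 l - Rad h1 l = -((1 - c) * Rad h1 l) := by ring
    rw [this, abs_neg, abs_of_nonneg (mul_nonneg (by linarith) (b1' l).le)]
    exact mul_le_mul hcη (b1 l) (b1' l).le h0.le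
  have e23 : ∀ l, |Rad h3 l - Rad h2 l| ≤ ε1 * (5 / 4 * Rad h l) := by
    intro l
    refine (r3 l).trans ?_
    have a1 : Rad h2 l ≤ 5 / 4 * Rad h l := by
      rw [hR2]
      calc c * Rad h1 l ≤ 1 * Rad h1 l := mul_le_mul_of_nonneg_right hc1.le (b1' l).le
        _ ≤ _ := by rw [one_mul]; exact b1 l
    exact mul_le_mul h31 a1 (n2.rad_pos l).le h0.le
  have rel2 : ∀ l, |Rad h2 l - Rad h l| ≤ 3 * ε1 * Rad h l := by
    intro l
    have a1 := r1 l
    have a2 := e12 l
    calc |Rad h2 l - Rad h l| = |(Rad h2 l - Rad h1 l) + (Rad h1 l - Rad h l)| := by congr 1; ring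
      _ ≤ |Rad h2 l - Rad h1 l| + |Rad h1 l - Rad h l| := abs_add_le _ _
      _ ≤ 3 * ε1 * Rad h l := by nlinarith [hR0 l, mul_pos h0 (hR0 l)]
  have rel : ∀ l, |Rad h3 l - Rad h l| ≤ 5 * ε1 * Rad h l := by
    intro l
    have a1 := rel2 l
    have a2 := e23 l
    calc |Rad h3 l - Rad h l| = |(Rad h3 l - Rad h2 l) + (Rad h2 l - Rad h l)| := by congr 1; ring
      _ ≤ |Rad h3 l - Rad h2 l| + |Rad h2 l - Rad h l| := abs_add_le _ _
      _ ≤ 5 * ε1 * Rad h l := by nlinarith [hR0 l, mul_pos h0 (hR0 l)]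
  have hBm : ∀ l, ε1 * Rad h l ≤ ε1 * Bd := fun l => mul_le_mul_of_nonneg_left (hRB l) h0.le
  -- distances in the mean
  have m12 : ∀ l, Rad (fun z => |h2 z - h1 z|) l ≤ ε / 8 := by
    intro l
    have a1 : (fun z => |h2 z - h1 z|) = fun z => (1 - c) * h1 z := by
      funext z
      have : h2 z - h1 z = -((1 - c) * h1 z) := by simp only [hh2]; ring
      rw [this, abs_neg, abs_of_nonneg (mul_nonneg (by linarith) (n1.pos z).le)]
    rw [a1, Rad_const_mul]
    have a2 : (1 - c) * Rad h1 l ≤ ε1 * (5 / 4 * Rad h l) :=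
      mul_le_mul hcη (b1 l) (b1' l).le h0.le
    have := hBm l
    linarith
  have m13 : ∀ l, Rad (fun z => |h3 z - h1 z|) l ≤ ε / 4 := by
    intro l
    have a1 : Rad (fun z => |h3 z - h1 z|) l ≤
        Rad (fun z => |h3 z - h2 z| + |h2 z - h1 z|) l :=
      radMono (n3.dom.sub n1.dom).abs ((n3.dom.sub n2.dom).abs.add (n2.dom.sub n1.dom).abs)
        (fun z => abs_sub_le _ _ _) l
    rw [radAdd (n3.dom.sub n2.dom).abs (n2.dom.sub n1.dom).abs] at a1
    have a2 := q3 l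
    have a3 := m12 l
    linarith
  refine ⟨h3, min δ (β / 2), U, n3, by positivity, hU, hUb, min_le_right _ _, ?_, ?_, ?_, ?_, ?_,
    ?_, ?_⟩
  · intro l
    have a1 := rel l
    have a2 := hBm l
    linarith
  · intro l
    refine (rel l).trans ?_
    apply mul_le_mul_of_nonneg_right _ (hR0 l).le
    linarith
  · intro l
    have a1 : Rad (fun z => |h3 z - h z|) l ≤ Rad (fun z => |h3 z - h1 z| + |h1 z - h z|) l :=
      radMono (n3.dom.sub hh.dom).abs ((n3.dom.sub n1.dom).abs.add (n1.dom.sub hh.dom).abs)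
        (fun z => abs_sub_le _ _ _) l
    rw [radAdd (n3.dom.sub n1.dom).abs (n1.dom.sub hh.dom).abs] at a1
    have a2 := m13 l
    have a3 := d1 l
    linarith
  · intro l
    have a1 : Rad (fun z => h3 z * (1 - h3 z)) l ≤
        Rad (fun z => h1 z * (1 - h1 z) + |h3 z - h1 z|) l :=
      radMono n3.q_dom (n1.q_dom.add (n3.dom.sub n1.dom).abs)
        (fun z => q_lip (n3.pos z).le (n3.lt_one z).le (n1.pos z).le (n1.lt_one z).le) l
    rw [radAdd n1.q_dom (n3.dom.sub n1.dom).abs] at a1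
    have a2 := m13 l
    have a3 := j1 l
    linarith
  · intro l hθ hp hr
    exact s3 l hθ hp (hr.trans (min_le_left _ _))
  · intro l hl
    have a1 := rel2 l
    have a2 := hBm l
    have a4 : |Rad h l - t| ≤ |Rad h2 l - t| + |Rad h2 l - Rad h l| := by
      have := abs_sub_le (Rad h l) (Rad h2 l) t
      rw [abs_sub_comm (Rad h l) (Rad h2 l)] at this
      linarith
    refine (w3 l ?_).trans (ENNReal.ofReal_le_ofReal (by linarith))
    linarith
  · exact (harea U hU hUb w3).trans (ENNReal.ofReal_le_ofReal (by linarith))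

end Pool.Agent.K6.H56.Cr
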