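import Pool.Agent.K6.H56.Cr4

/-! The sequence of densities and its limit. -/

open MeasureTheory Real Set Filter Topology

namespace Pool.Agent.K6.H56.Cr
open Croft

/-- a task: a centre, an angle and a level -/
structure Task where
  a : ℂ
  b : ℝ
  t : ℝ
  ht : 0 < t

/-- the data of the construction -/
structure Chain (e c0 : ℝ) (T : ℕ → Task) where
  h : ℕ → ℂ → ℝ
  β : ℕ → ℝ
  U : ℕ → Set ℂ
  cls : ∀ n, Cls (h n)
  βpos : ∀ n, 0 < β n
  hU : ∀ n, MeasurableSet (U n)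
  Ub : ∀ n, U n ⊆ Metric.ball (T n).a 1
  βle : ∀ n, β (n + 1) ≤ β n / 2
  rad : ∀ n l, |Rad (h (n + 1)) l - Rad (h n) l| ≤ β n / 2
  rel : ∀ n l, |Rad (h (n + 1)) l - Rad (h n) l| ≤ (1 / 4) ^ (n + 1) * Rad (h n) l
  dif : ∀ n l, Rad (fun z => |h (n + 1) z - h n z|) l ≤
    2 * Rad (fun z => h n z * (1 - h n z)) l + (1 / 4) ^ (n + 1)
  J : ∀ n l, Rad (fun z => h (n + 1) z * (1 - h (n + 1) z)) l ≤ (1 / 4) ^ (n + 1)
  serve : ∀ n, ∀ l : ℝ × ℝ, |l.1 - (T n).b| ≤ e → |l.2| ≤ e →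
    |Rad (h (n + 1)) (sh (T n).a l) - (T n).t| ≤ β (n + 1) →
        ENNReal.ofReal c0 ≤
          volume {σ : ℝ | pt (sh (T n).a l).1 (sh (T n).a l).2 σ ∈ U n}
  star : ∀ n (l : ℝ × ℝ), (1 / 4) ^ (n + 1) ≤ |Rad (h n) l - (T n).t| →
    volume {σ : ℝ | pt l.1 l.2 σ ∈ U n} ≤ ENNReal.ofReal ((1 / 4) ^ (n + 1))
  vol : ∀ n, volume (U n) ≤ ENNReal.ofReal ((1 / 4) ^ (n + 1))

theorem exists_chain {e c0 : ℝ} (hk : KillP e c0) (T : ℕ → Task) (h0 : ℂ → ℝ) (hh0 : Cls h0) :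
    ∃ c : Chain e c0 T, c.h 0 = h0 := by
  classical
  have key : ∀ (n : ℕ) (s : {q : (ℂ → ℝ) × ℝ // Cls q.1 ∧ 0 < q.2}),
      ∃ (s' : {q : (ℂ → ℝ) × ℝ // Cls q.1 ∧ 0 < q.2}),
      ∃ U : Set ℂ, MeasurableSet U ∧ U ⊆ Metric.ball (T n).a 1 ∧ s'.1.2 ≤ s.1.2 / 2 ∧
      (∀ l, |Rad s'.1.1 l - Rad s.1.1 l| ≤ s.1.2 / 2) ∧
      (∀ l, |Rad s'.1.1 l - Rad s.1.1 l| ≤ (1 / 4) ^ (n + 1) * Rad s.1.1 l) ∧
      (∀ l, Rad (fun z => |s'.1.1 z - s.1.1 z|) l ≤
        2 * Rad (fun z => s.1.1 z * (1 - s.1.1 z)) l + (1 / 4) ^ (n + 1)) ∧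
      (∀ l, Rad (fun z => s'.1.1 z * (1 - s'.1.1 z)) l ≤ (1 / 4) ^ (n + 1)) ∧
      (∀ l : ℝ × ℝ, |l.1 - (T n).b| ≤ e → |l.2| ≤ e →
        |Rad s'.1.1 (sh (T n).a l) - (T n).t| ≤ s'.1.2 →
        ENNReal.ofReal c0 ≤ volume {σ : ℝ | pt (sh (T n).a l).1 (sh (T n).a l).2 σ ∈ U}) ∧
      (∀ l : ℝ × ℝ, (1 / 4) ^ (n + 1) ≤ |Rad s.1.1 l - (T n).t| →
        volume {σ : ℝ | pt l.1 l.2 σ ∈ U} ≤ ENNReal.ofReal ((1 / 4) ^ (n + 1))) ∧
      volume U ≤ ENNReal.ofReal ((1 / 4) ^ (n + 1)) := by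
    rintro n ⟨⟨h, β⟩, hn, hβ⟩
    obtain ⟨h', β', U, a1, a3, a4, a5, a6, a7, a8, a9, a10, a11, a12, a13⟩ :=
      step hk (T n).b (T n).a h hn (T n).t (T n).ht β ((1 / 4) ^ (n + 1)) hβ (by positivity)
    exact ⟨⟨⟨h', β'⟩, a1, a3⟩, U, a4, a5, a6, a7, a8, a9, a10, a11, a12, a13⟩
  choose next U hnext using key
  let s : ℕ → {q : (ℂ → ℝ) × ℝ // Cls q.1 ∧ 0 < q.2} :=
    fun n => Nat.rec ⟨(h0, 1), hh0, zero_lt_one⟩ (fun n s => next n s) n
  have hs : ∀ n, s (n + 1) = next n (s n) := fun n => rfl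
  refine ⟨⟨fun n => (s n).1.1, fun n => (s n).1.2, fun n => U n (s n), fun n => (s n).2.1,
    fun n => (s n).2.2, ?_, ?_, ?_, ?_, ?_, ?_, ?_, ?_, ?_, ?_⟩, rfl⟩
  · intro n; exact (hnext n (s n)).1
  · intro n; exact (hnext n (s n)).2.1
  · intro n; rw [hs]; exact (hnext n (s n)).2.2.1
  · intro n l; rw [hs]; exact (hnext n (s n)).2.2.2.1 l
  · intro n l; rw [hs]; exact (hnext n (s n)).2.2.2.2.1 l
  · intro n l; rw [hs]; exact (hnext n (s n)).2.2.2.2.2.1 l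
  · intro n l; rw [hs]; exact (hnext n (s n)).2.2.2.2.2.2.1 l
  · intro n; rw [hs]; exact (hnext n (s n)).2.2.2.2.2.2.2.1
  · intro n; exact (hnext n (s n)).2.2.2.2.2.2.2.2.1
  · intro n; exact (hnext n (s n)).2.2.2.2.2.2.2.2.2

variable {e c0 : ℝ} {T : ℕ → Task} (c : Chain e c0 T)

theorem Chain.rad_le (k j : ℕ) (l : ℝ × ℝ) :
    |Rad (c.h (k + j)) l - Rad (c.h k) l| ≤ c.β k - c.β (k + j) := by
  induction j with
  | zero => simp
  | succ j ih =>
    have h1 := c.rad (k + j) l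
    have h2 := c.βle (k + j)
    rw [← add_assoc]
    calc _ = |(Rad (c.h (k + j + 1)) l - Rad (c.h (k + j)) l) + (Rad (c.h (k + j)) l - Rad (c.h k) l)| := by
          congr 1; ring
      _ ≤ |Rad (c.h (k + j + 1)) l - Rad (c.h (k + j)) l| + |Rad (c.h (k + j)) l - Rad (c.h k) l| :=
          abs_add_le _ _
      _ ≤ _ := by linarith

theorem Chain.rad_le' (k m : ℕ) (hkm : k ≤ m) (l : ℝ × ℝ) :
    |Rad (c.h m) l - Rad (c.h k) l| ≤ c.β k := by
  obtain ⟨j, rfl⟩ := Nat.exists_eq_add_of_le hkm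
  have := c.rad_le k j l
  have := c.βpos (k + j)
  linarith

theorem Chain.β_tendsto : Tendsto c.β atTop (𝓝 0) := by
  have h1 : ∀ n, c.β n ≤ c.β 0 * (1 / 2) ^ n := by
    intro n
    induction n with
    | zero => simp
    | succ n ih =>
      have := c.βle n
      rw [pow_succ]
      linarith
  refine squeeze_zero (fun n => (c.βpos n).le) h1 ?_
  have := (tendsto_pow_atTop_nhds_zero_of_lt_one (by norm_num : (0:ℝ) ≤ 1 / 2) (by norm_num)).const_mul (c.β 0)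
  simpa using this

theorem Chain.rel_bounds (n : ℕ) (l : ℝ × ℝ) :
    (1 / 2 + (1 / 2) ^ (n + 1)) * Rad (c.h 0) l ≤ Rad (c.h n) l ∧
      Rad (c.h n) l ≤ (2 - (1 / 2) ^ n) * Rad (c.h 0) l := by
  have h0 : 0 ≤ Rad (c.h 0) l := ((c.cls 0).rad_pos l).le
  induction n with
  | zero => constructor <;> norm_num
  | succ n ih =>
    obtain ⟨i1, i2⟩ := ih
    have a1 := abs_le.1 (c.rel n l)
    have hq : (0:ℝ) < (1 / 2) ^ (n + 1) := by positivity
    have hq1 : ((1:ℝ) / 2) ^ (n + 1) ≤ 1 / 2 := by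
      rw [pow_succ]
      have : ((1:ℝ) / 2) ^ n ≤ 1 := pow_le_one₀ (by norm_num) (by norm_num)
      linarith
    have e4 : ((1:ℝ) / 4) ^ (n + 1) = (1 / 2) ^ (n + 1) * (1 / 2) ^ (n + 1) := by
      rw [← mul_pow]; norm_num
    have e1 : ((1:ℝ) / 2) ^ (n + 1 + 1) = (1 / 2) ^ (n + 1) * (1 / 2) := pow_succ _ _
    have e2 : ((1:ℝ) / 2) ^ n = 2 * (1 / 2) ^ (n + 1) := by rw [pow_succ]; ring
    rw [e4] at a1
    rw [e1]
    rw [e2] at i2
    set q : ℝ := (1 / 2) ^ (n + 1) with hqd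
    constructor
    · have b1 : (1 - q * q) * Rad (c.h n) l ≤ Rad (c.h (n + 1)) l := by linarith [a1.1]
      have b2 : (1 - q * q) * ((1 / 2 + q) * Rad (c.h 0) l) ≤ (1 - q * q) * Rad (c.h n) l :=
        mul_le_mul_of_nonneg_left i1 (by nlinarith)
      have b3 : (1 / 2 + q * (1 / 2)) * Rad (c.h 0) l ≤ (1 - q * q) * ((1 / 2 + q) * Rad (c.h 0) l) := by
        rw [← mul_assoc]
        apply mul_le_mul_of_nonneg_right _ h0
        nlinarith
      linarith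
    · have b1 : Rad (c.h (n + 1)) l ≤ (1 + q * q) * Rad (c.h n) l := by linarith [a1.2]
      have b2 : (1 + q * q) * Rad (c.h n) l ≤ (1 + q * q) * ((2 - 2 * q) * Rad (c.h 0) l) :=
        mul_le_mul_of_nonneg_left i2 (by nlinarith)
      have b3 : (1 + q * q) * ((2 - 2 * q) * Rad (c.h 0) l) ≤ (2 - q) * Rad (c.h 0) l := by
        rw [← mul_assoc]
        apply mul_le_mul_of_nonneg_right _ h0
        nlinarith
      linarith

theorem Chain.rad_le2 (n : ℕ) (l : ℝ × ℝ) : Rad (c.h n) l ≤ 2 * Rad (c.h 0) l := by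
  have h1 := (c.rel_bounds n l).2
  have h2 : (0:ℝ) ≤ (1 / 2) ^ n * Rad (c.h 0) l := mul_nonneg (by positivity) ((c.cls 0).rad_pos l).le
  linarith

theorem Chain.rad_ge2 (n : ℕ) (l : ℝ × ℝ) : 1 / 2 * Rad (c.h 0) l ≤ Rad (c.h n) l := by
  have h1 := (c.rel_bounds n l).1
  have h2 : (0:ℝ) ≤ (1 / 2) ^ (n + 1) * Rad (c.h 0) l :=
    mul_nonneg (by positivity) ((c.cls 0).rad_pos l).le
  linarith

theorem ae_summable1 (f : ℕ → ℝ → ℝ) (hf : ∀ n, Integrable (f n)) (h0 : ∀ n z, 0 ≤ f n z) (a : ℕ → ℝ)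
    (ha : Summable a) (h : ∀ n, ∫ z, f n z ≤ a n) : ∀ᵐ z : ℝ, Summable (fun n => f n z) := by
  have ha0 : ∀ n, 0 ≤ a n := fun n => (integral_nonneg (h0 n)).trans (h n)
  have h1 : ∫⁻ z : ℝ, ∑' n, ENNReal.ofReal (f n z) ≠ ⊤ := by
    rw [lintegral_tsum (fun n => (hf n).aestronglyMeasurable.aemeasurable.ennreal_ofReal)]
    have h2 : ∀ n, ∫⁻ z : ℝ, ENNReal.ofReal (f n z) ≤ ENNReal.ofReal (a n) := by
      intro n
      rw [← ofReal_integral_eq_lintegral_ofReal (hf n) (Filter.Eventually.of_forall (h0 n))]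
      exact ENNReal.ofReal_le_ofReal (h n)
    refine ne_top_of_le_ne_top ?_ (ENNReal.tsum_le_tsum h2)
    rw [← ENNReal.ofReal_tsum_of_nonneg ha0 ha]
    exact ENNReal.ofReal_ne_top
  have hm : AEMeasurable (fun z : ℝ => ∑' n, ENNReal.ofReal (f n z)) volume :=
    AEMeasurable.ennreal_tsum (fun n => (hf n).aestronglyMeasurable.aemeasurable.ennreal_ofReal)
  have h3 := ae_lt_top' hm h1
  filter_upwards [h3] with z hz
  have h4 := ENNReal.summable_toReal hz.ne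
  refine h4.congr ?_
  intro n
  exact ENNReal.toReal_ofReal (h0 n z)

theorem Chain.dif3 (l : ℝ × ℝ) (n : ℕ) :
    ∫ σ : ℝ, |c.h (n + 2) (pt l.1 l.2 σ) - c.h (n + 1) (pt l.1 l.2 σ)| ≤ 3 * (1 / 4) ^ (n + 1) := by
  have a1 := c.dif (n + 1) l
  have a2 := c.J n l
  have a3 : ((1:ℝ) / 4) ^ (n + 1 + 1) = (1 / 4) ^ (n + 1) * (1 / 4) := pow_succ _ _
  have a4 : (0:ℝ) < (1 / 4) ^ (n + 1) := by positivity
  have a5 : ∫ σ : ℝ, |c.h (n + 2) (pt l.1 l.2 σ) - c.h (n + 1) (pt l.1 l.2 σ)| =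
    Rad (fun z => |c.h (n + 1 + 1) z - c.h (n + 1) z|) l := rfl
  rw [a5]
  linarith

theorem sum4 : Summable (fun n : ℕ => ((1:ℝ) / 4) ^ (n + 1)) :=
  (summable_nat_add_iff 1).2 (summable_geometric_of_lt_one (by norm_num) (by norm_num))

theorem Chain.line_sum (l : ℝ × ℝ) : ∀ᵐ σ : ℝ,
    Summable (fun n => |c.h (n + 2) (pt l.1 l.2 σ) - c.h (n + 1) (pt l.1 l.2 σ)|) :=
  ae_summable1 (fun n σ => |c.h (n + 2) (pt l.1 l.2 σ) - c.h (n + 1) (pt l.1 l.2 σ)|)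
    (fun n => ((c.cls (n + 2)).dom.sub (c.cls (n + 1)).dom).abs.int l)
    (fun n z => abs_nonneg _) _ (sum4.mul_left 3) (c.dif3 l)

/-- convergence almost everywhere on EVERY line -/
theorem Chain.line_conv (l : ℝ × ℝ) : ∀ᵐ σ : ℝ, Tendsto (fun n => c.h n (pt l.1 l.2 σ)) atTop (𝓝 0) ∨
    Tendsto (fun n => c.h n (pt l.1 l.2 σ)) atTop (𝓝 1) := by
  have b2 := ae_summable1 (fun n σ => c.h (n + 1) (pt l.1 l.2 σ) * (1 - c.h (n + 1) (pt l.1 l.2 σ)))
    (fun n => (c.cls (n + 1)).q_dom.int l)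
    (fun n z => mul_nonneg ((c.cls (n + 1)).pos _).le (by linarith [(c.cls (n + 1)).lt_one (pt l.1 l.2 z)]))
    _ sum4 (fun n => c.J n l)
  filter_upwards [c.line_sum l, b2] with σ z1 z2
  have k1 : CauchySeq (fun n => c.h (n + 1) (pt l.1 l.2 σ)) := by
    apply cauchySeq_of_summable_dist
    refine z1.congr ?_
    intro n
    rw [Real.dist_eq, abs_sub_comm]
  obtain ⟨L, hL⟩ := cauchySeq_tendsto_of_complete k1
  have k2 := z2.tendsto_atTop_zero
  have k3 : Tendsto (fun n => c.h (n + 1) (pt l.1 l.2 σ) * (1 - c.h (n + 1) (pt l.1 l.2 σ))) atTop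
      (𝓝 (L * (1 - L))) := hL.mul (hL.const_sub 1)
  have k4 := tendsto_nhds_unique k2 k3
  have hL' : Tendsto (fun n => c.h n (pt l.1 l.2 σ)) atTop (𝓝 L) := (tendsto_add_atTop_iff_nat 1).1 hL
  rcases mul_eq_zero.1 k4.symm with h | h
  · left; rw [h] at hL'; exact hL'
  · right
    have : L = 1 := by linarith
    rw [this] at hL'; exact hL'

/-- the limit set -/
def Chain.E0 : Set ℂ := {z | Tendsto (fun n => c.h n z) atTop (𝓝 1)}

theorem Chain.measE0 : MeasurableSet c.E0 :=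
  measurableSet_tendsto _ (fun n => (c.cls n).c1.continuous.measurable)

/-- the section of the limit set -/
def Chain.sec (l : ℝ × ℝ) : Set ℝ := {σ : ℝ | pt l.1 l.2 σ ∈ c.E0}

theorem Chain.meas_sec (l : ℝ × ℝ) : MeasurableSet (c.sec l) := (ptc l.1 l.2).measurable c.measE0

theorem Chain.sec_fin (l : ℝ × ℝ) : volume (c.sec l) ≤ ENNReal.ofReal (2 * Rad (c.h 0) l) := by
  have h1 : volume (c.sec l) = ∫⁻ σ, (c.sec l).indicator 1 σ := by
    rw [lintegral_indicator_one (c.meas_sec l)]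
  rw [h1]
  have h2 : ∀ σ : ℝ, (c.sec l).indicator (1 : ℝ → ENNReal) σ ≤
      liminf (fun n => ENNReal.ofReal (c.h n (pt l.1 l.2 σ))) atTop := by
    intro σ
    by_cases hσ : σ ∈ c.sec l
    · rw [indicator_of_mem hσ]
      have h3 : Tendsto (fun n => c.h n (pt l.1 l.2 σ)) atTop (𝓝 1) := hσ
      have h4 := ENNReal.tendsto_ofReal h3
      rw [h4.liminf_eq]
      simp
    · rw [indicator_of_notMem hσ]; exact zero_le
  refine (lintegral_mono h2).trans ?_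
  refine (lintegral_liminf_le fun n =>
    (((c.cls n).c1.continuous.comp (ptc l.1 l.2)).measurable.ennreal_ofReal)).trans ?_
  have h5 : ∀ n, ∫⁻ σ, ENNReal.ofReal (c.h n (pt l.1 l.2 σ)) ≤ ENNReal.ofReal (2 * Rad (c.h 0) l) := by
    intro n
    rw [← ofReal_integral_eq_lintegral_ofReal ((c.cls n).dom.int l)
      (Filter.Eventually.of_forall fun σ => ((c.cls n).pos _).le)]
    exact ENNReal.ofReal_le_ofReal (c.rad_le2 n l)
  calc liminf (fun n => ∫⁻ σ, ENNReal.ofReal (c.h n (pt l.1 l.2 σ))) atTop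
      ≤ liminf (fun _ : ℕ => ENNReal.ofReal (2 * Rad (c.h 0) l)) atTop :=
        liminf_le_liminf (Filter.Eventually.of_forall h5)
    _ = _ := liminf_const _

theorem Chain.rad_tendsto (l : ℝ × ℝ) :
    Tendsto (fun n => Rad (c.h n) l) atTop (𝓝 (volume (c.sec l)).toReal) := by
  have hfin : volume (c.sec l) ≠ ⊤ := ne_top_of_le_ne_top ENNReal.ofReal_ne_top (c.sec_fin l)
  set F : ℕ → ℝ → ℝ := fun n σ => c.h (n + 2) (pt l.1 l.2 σ) - c.h (n + 1) (pt l.1 l.2 σ) with hF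
  have hFi : ∀ n, Integrable (F n) := fun n => ((c.cls (n + 2)).dom.sub (c.cls (n + 1)).dom).int l
  have hsum : Summable fun n => ∫ σ, ‖F n σ‖ := by
    refine Summable.of_nonneg_of_le (fun n => integral_nonneg fun σ => norm_nonneg _)
      (fun n => ?_) (sum4.mul_left 3)
    have := c.dif3 l n
    simpa [hF, Real.norm_eq_abs] using this
  have h1 := hasSum_integral_of_summable_integral_norm hFi hsum
  have h2 := h1.tendsto_sum_nat
  have h3 : ∀ N, ∑ i ∈ Finset.range N, ∫ σ, F i σ = Rad (c.h (N + 1)) l - Rad (c.h 1) l := by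
    intro N
    have e1 : ∀ i, ∫ σ, F i σ = Rad (c.h (i + 1 + 1)) l - Rad (c.h (i + 1)) l := by
      intro i
      exact integral_sub ((c.cls (i + 2)).dom.int l) ((c.cls (i + 1)).dom.int l)
    simp_rw [e1]
    exact Finset.sum_range_sub (fun i => Rad (c.h (i + 1)) l) N
  simp_rw [h3] at h2
  set ind : ℝ → ℝ := (c.sec l).indicator (fun _ => (1 : ℝ)) with hind
  have hindi : Integrable ind := by
    rw [hind, integrable_indicator_iff (c.meas_sec l)]
    exact integrableOn_const hfin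
  have h4 : ∫ σ, ∑' i, F i σ = ∫ σ, (ind σ - c.h 1 (pt l.1 l.2 σ)) := by
    apply integral_congr_ae
    filter_upwards [c.line_sum l, c.line_conv l] with σ s1 s2
    have s3 : Summable fun i => F i σ := by
      apply Summable.of_norm
      simpa [hF, Real.norm_eq_abs] using s1
    have s4 := s3.hasSum.tendsto_sum_nat
    have s5 : ∀ N, ∑ i ∈ Finset.range N, F i σ = c.h (N + 1) (pt l.1 l.2 σ) - c.h 1 (pt l.1 l.2 σ) :=
      fun N => Finset.sum_range_sub (fun i => c.h (i + 1) (pt l.1 l.2 σ)) N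
    simp_rw [s5] at s4
    have s6 : Tendsto (fun n => c.h n (pt l.1 l.2 σ)) atTop (𝓝 (ind σ)) := by
      rcases s2 with h5 | h5
      · have h6 : σ ∉ c.sec l := by
          intro h7
          have := tendsto_nhds_unique h5 h7
          norm_num at this
        rw [hind, indicator_of_notMem h6]
        exact h5
      · rw [hind, indicator_of_mem (show σ ∈ c.sec l from h5)]
        exact h5
    have s7 := ((tendsto_add_atTop_iff_nat 1).2 s6).sub_const (c.h 1 (pt l.1 l.2 σ))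
    exact tendsto_nhds_unique s4 s7
  rw [h4, integral_sub hindi ((c.cls 1).dom.int l)] at h2
  have h5 : ∫ σ, ind σ = (volume (c.sec l)).toReal := by
    rw [hind, integral_indicator (c.meas_sec l)]
    simp [Measure.real]
  rw [h5] at h2
  have h6 := h2.add_const (Rad (c.h 1) l)
  have e7 : ∫ σ, c.h 1 (pt l.1 l.2 σ) = Rad (c.h 1) l := rfl
  rw [e7] at h6
  simp only [sub_add_cancel] at h6
  exact (tendsto_add_atTop_iff_nat 1).1 h6

theorem Chain.limit_close (l : ℝ × ℝ) (k : ℕ) :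
    |Rad (c.h k) l - (volume (c.sec l)).toReal| ≤ c.β k := by
  have h1 := (c.rad_tendsto l).sub_const (Rad (c.h k) l)
  have h2 := h1.abs
  rw [abs_sub_comm]
  apply le_of_tendsto h2
  filter_upwards [eventually_ge_atTop k] with m hm
  exact c.rad_le' k m hm l

theorem Chain.sec_pos (l : ℝ × ℝ) : 0 < (volume (c.sec l)).toReal := by
  have h0 := (c.cls 0).rad_pos l
  have : 1 / 2 * Rad (c.h 0) l ≤ (volume (c.sec l)).toReal :=
    ge_of_tendsto' (c.rad_tendsto l) fun n => c.rad_ge2 n l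
  linarith

theorem Chain.E0_pos : 0 < volume c.E0 := by
  rw [pos_iff_ne_zero]
  intro h0
  rw [vol_eq _ c.measE0] at h0
  have hm : Measurable fun p : ℝ => volume {σ : ℝ | pt 0 p σ ∈ c.E0} := by
    have h1 : MeasurableSet (Complex.measurableEquivRealProd.symm ⁻¹' c.E0) :=
      Complex.measurableEquivRealProd.symm.measurable c.measE0
    have h2 := measurable_measure_prodMk_left (ν := (volume : Measure ℝ)) h1
    convert h2 using 2 with p
    congr 1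
    ext σ
    have : pt 0 p σ = Complex.measurableEquivRealProd.symm (p, σ) := by
      unfold pt
      apply Complex.ext <;> simp [Complex.measurableEquivRealProd]
    simp only [mem_ofPred_eq, mem_preimage, this]
  rw [lintegral_eq_zero_iff hm] at h0
  have h1 : ∀ᵐ p : ℝ, False := by
    filter_upwards [h0] with p hp
    have h2 := c.sec_pos (0, p)
    have h3 : volume (c.sec (0, p)) = 0 := hp
    rw [h3] at h2
    simp at h2
  rw [ae_iff] at h1
  simp at h1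

theorem Chain.E0_fin (B : ℝ) (hB : ∀ p : ℝ, Rad (c.h 0) (0, p) ≤ B * (1 + p ^ 2)⁻¹) :
    volume c.E0 < ⊤ := by
  rw [vol_eq _ c.measE0]
  have h1 : ∀ p : ℝ, volume {σ : ℝ | pt 0 p σ ∈ c.E0} ≤ ENNReal.ofReal (2 * (B * (1 + p ^ 2)⁻¹)) := by
    intro p
    refine (c.sec_fin (0, p)).trans (ENNReal.ofReal_le_ofReal ?_)
    have := hB p
    linarith
  refine (lintegral_mono h1).trans_lt ?_
  have hi : Integrable fun p : ℝ => 2 * (B * (1 + p ^ 2)⁻¹) :=
    (integrable_inv_one_add_sq.const_mul B).const_mul 2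
  have h2 := hi.lintegral_lt_top
  exact h2

end Pool.Agent.K6.H56.Cr
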