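import Pool.Agent.K6.H56.Cr5

/-! The killing sets and the theorem in the plane `ℂ`. -/

open MeasureTheory Real Set Filter Topology

namespace Pool.Agent.K6.H56.Cr
open Croft

variable {e c0 : ℝ} {T : ℕ → Task} (c : Chain e c0 T)

open Classical in
/-- the sets of the tasks at level `s` -/
noncomputable def Chain.V (s : ℝ) (n : ℕ) : Set ℂ := if (T n).t = s then c.U n else ∅

theorem Chain.V_meas (s : ℝ) (n : ℕ) : MeasurableSet (c.V s n) := by
  unfold Chain.V
  split_ifs
  · exact c.hU n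
  · exact MeasurableSet.empty

theorem Chain.V_sub (s : ℝ) (n : ℕ) : c.V s n ⊆ c.U n := by
  unfold Chain.V
  split_ifs
  · exact Subset.rfl
  · exact empty_subset _

/-- the set which kills the level `s` -/
def Chain.M (s : ℝ) : Set ℂ := {z | ∀ n, ∃ m ≥ n, z ∈ c.V s m}

theorem Chain.M_eq (s : ℝ) : c.M s = limsup (c.V s) atTop := by
  ext z
  rw [limsup_eq_iInf_iSup_of_nat]
  simp only [iInf_eq_iInter, iSup_eq_iUnion, mem_iInter, mem_iUnion, exists_prop]
  rfl

theorem Chain.M_meas (s : ℝ) : MeasurableSet (c.M s) := by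
  rw [c.M_eq]
  exact MeasurableSet.measurableSet_limsup (c.V_meas s)

theorem Chain.M_null (s : ℝ) : volume (c.M s) = 0 := by
  rw [c.M_eq]
  apply measure_limsup_atTop_eq_zero
  have hle : ∀ n, volume (c.V s n) ≤ ENNReal.ofReal ((1 / 4) ^ (n + 1)) := fun n =>
    (measure_mono (c.V_sub s n)).trans (c.vol n)
  refine ne_top_of_le_ne_top ?_ (ENNReal.tsum_le_tsum hle)
  rw [← ENNReal.ofReal_tsum_of_nonneg (fun n => by positivity) sum4]
  exact ENNReal.ofReal_ne_top

/-- a line whose limit value is not `s` meets `M s` in a null set -/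
theorem Chain.null_line (l : ℝ × ℝ) (s : ℝ) (hs : (volume (c.sec l)).toReal ≠ s) :
    volume {σ : ℝ | pt l.1 l.2 σ ∈ c.M s} = 0 := by
  set R := (volume (c.sec l)).toReal with hR
  set d := |R - s| with hd
  have hd0 : 0 < d := abs_pos.2 (sub_ne_zero.2 hs)
  have h1 : ∀ᶠ n in atTop, (T n).t = s → (1 / 4 : ℝ) ^ (n + 1) ≤ |Rad (c.h n) l - (T n).t| := by
    have t1 : Tendsto (fun n : ℕ => (1 / 4 : ℝ) ^ (n + 1)) atTop (𝓝 0) :=
      (tendsto_add_atTop_iff_nat 1).2
        (tendsto_pow_atTop_nhds_zero_of_lt_one (by norm_num : (0:ℝ) ≤ 1 / 4) (by norm_num))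
    filter_upwards [t1.eventually_lt_const (show (0:ℝ) < d / 2 by positivity),
      c.β_tendsto.eventually_lt_const (show (0:ℝ) < d / 2 by positivity)] with n a1 a2 a0
    have a3 := c.limit_close l n
    rw [← hR] at a3
    have a5 := abs_sub_le R (Rad (c.h n) l) s
    rw [abs_sub_comm R (Rad (c.h n) l)] at a5
    rw [a0]
    linarith
  obtain ⟨n0, hn0⟩ := eventually_atTop.1 h1
  have hsub : {σ : ℝ | pt l.1 l.2 σ ∈ c.M s} ⊆
      limsup (fun n => {σ : ℝ | pt l.1 l.2 σ ∈ c.V s (n + n0)}) atTop := by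
    intro σ hσ
    have hσ' : ∀ n, ∃ m ≥ n, pt l.1 l.2 σ ∈ c.V s m := hσ
    rw [limsup_eq_iInf_iSup_of_nat]
    simp only [iInf_eq_iInter, iSup_eq_iUnion, mem_iInter, mem_iUnion, exists_prop]
    intro n
    obtain ⟨m, hm, hmU⟩ := hσ' (n + n0)
    refine ⟨m - n0, by omega, ?_⟩
    show pt l.1 l.2 σ ∈ c.V s (m - n0 + n0)
    have : m - n0 + n0 = m := by omega
    rw [this]
    exact hmU
  apply measure_mono_null hsub
  apply measure_limsup_atTop_eq_zero
  have hle : ∀ n, volume {σ : ℝ | pt l.1 l.2 σ ∈ c.V s (n + n0)} ≤ ENNReal.ofReal ((1 / 4) ^ n) := by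
    intro n
    by_cases ht : (T (n + n0)).t = s
    · have h2 : volume {σ : ℝ | pt l.1 l.2 σ ∈ c.V s (n + n0)} ≤
          volume {σ : ℝ | pt l.1 l.2 σ ∈ c.U (n + n0)} :=
        measure_mono fun σ hσ => c.V_sub s _ hσ
      refine h2.trans ((c.star (n + n0) l (hn0 _ (Nat.le_add_left _ _) ht)).trans
        (ENNReal.ofReal_le_ofReal ?_))
      exact pow_le_pow_of_le_one (by norm_num) (by norm_num) (by omega)
    · have h2 : {σ : ℝ | pt l.1 l.2 σ ∈ c.V s (n + n0)} = ∅ := by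
        unfold Chain.V
        rw [if_neg ht]
        rfl
      rw [h2, measure_empty]
      exact zero_le
  refine ne_top_of_le_ne_top ?_ (ENNReal.tsum_le_tsum hle)
  rw [← ENNReal.ofReal_tsum_of_nonneg (fun n => by positivity)
    (summable_geometric_of_lt_one (by norm_num) (by norm_num))]
  exact ENNReal.ofReal_ne_top

theorem norm_pt_sub (l : ℝ × ℝ) (σ τ : ℝ) : ‖pt l.1 l.2 σ - pt l.1 l.2 τ‖ = |σ - τ| := by
  have h1 : pt l.1 l.2 σ - pt l.1 l.2 τ = Complex.exp (l.1 * Complex.I) * (((σ - τ : ℝ) : ℂ) * Complex.I) := by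
    unfold pt
    push_cast
    ring
  rw [h1, norm_mul, Complex.norm_exp_ofReal_mul_I, one_mul, norm_mul, Complex.norm_I, mul_one,
    Complex.norm_real, Real.norm_eq_abs]

/-- the service of a line of level `s` in one window -/
theorem Chain.served (he : 0 < e) (he1 : e ≤ 1) (l : ℝ × ℝ) (s : ℝ)
    (hs : (volume (c.sec l)).toReal = s) (τ : ℝ)
    (a : ℂ) (b : ℝ) (ha : ‖a - pt l.1 l.2 τ‖ < e) (hb : |l.1 - b| ≤ e)
    (hinf : ∀ n, ∃ m ≥ n, (T m).a = a ∧ (T m).b = b ∧ (T m).t = s) :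
    ENNReal.ofReal c0 ≤ volume {σ : ℝ | |σ - τ| < 2 ∧ pt l.1 l.2 σ ∈ c.M s} := by
  have hpc := ptc l.1 l.2
  obtain ⟨l', hl', hl1⟩ := sh_surj a l
  have hl2 : |l'.2| ≤ e := by
    have h1 : l'.2 = - ((a - pt l.1 l.2 τ).re * cos l.1 + (a - pt l.1 l.2 τ).im * sin l.1) := by
      have h2 : l'.2 + (a.re * cos l'.1 + a.im * sin l'.1) = l.2 := congrArg Prod.snd hl'
      rw [hl1] at h2
      rw [Complex.sub_re, Complex.sub_im, pt_re, pt_im]
      have h3 := Real.sin_sq_add_cos_sq l.1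
      linear_combination h2 - l.2 * h3
    set w := a - pt l.1 l.2 τ with hw
    rw [h1, abs_neg]
    refine le_trans ?_ ha.le
    apply abs_le_of_sq_le_sq _ (norm_nonneg _)
    rw [Complex.sq_norm, Complex.normSq_apply]
    have h3 := Real.sin_sq_add_cos_sq l.1
    nlinarith [sq_nonneg (w.re * sin l.1 - w.im * cos l.1)]
  set A : ℕ → Set ℝ := fun n => {σ : ℝ | |σ - τ| < 2 ∧ pt l.1 l.2 σ ∈ c.V s n} with hA
  have hAm : ∀ n, MeasurableSet (A n) := by
    intro n
    have h1 : MeasurableSet {σ : ℝ | |σ - τ| < 2} :=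
      (isOpen_lt (by fun_prop) continuous_const).measurableSet
    exact h1.inter (hpc.measurable (c.V_meas s n))
  set B : ℕ → Set ℝ := fun n => ⋃ m ≥ n, A m with hB
  have hBm : ∀ n, MeasurableSet (B n) := fun n =>
    MeasurableSet.iUnion fun m => MeasurableSet.iUnion fun _ => hAm m
  have hBanti : Antitone B := by
    intro i j hij
    apply iUnion₂_subset
    intro m hm
    exact subset_iUnion₂_of_subset m (hij.trans hm) (Subset.refl _)
  have hBsub : B 0 ⊆ Icc (τ - 2) (τ + 2) := by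
    apply iUnion₂_subset
    intro m _ σ hσ
    have h1 := abs_lt.1 hσ.1
    constructor <;> linarith [h1.1, h1.2]
  have hfin : volume (B 0) ≠ ⊤ := ne_top_of_le_ne_top (by simp) (measure_mono hBsub)
  have htend := tendsto_measure_iInter_atTop (μ := volume) (fun n => (hBm n).nullMeasurableSet) hBanti ⟨0, hfin⟩
  have hge : ENNReal.ofReal c0 ≤ volume (⋂ n, B n) := by
    apply ge_of_tendsto' htend
    intro n
    obtain ⟨m, hm, g1, g2, g3⟩ := hinf n
    have h1 := c.limit_close l (m + 1)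
    rw [hs, ← g3, ← hl', ← g1] at h1
    have h2 := c.serve m l' (by rw [hl1, g2]; exact hb) hl2 h1
    rw [g1, hl'] at h2
    refine h2.trans (measure_mono ?_)
    refine subset_iUnion₂_of_subset m hm ?_
    intro σ hσ
    have h3 : pt l.1 l.2 σ ∈ Metric.ball a 1 := by rw [← g1]; exact c.Ub m hσ
    refine ⟨?_, ?_⟩
    · rw [← norm_pt_sub l σ τ]
      rw [mem_ball_iff_norm] at h3
      have h4 : pt l.1 l.2 σ - pt l.1 l.2 τ = (pt l.1 l.2 σ - a) + (a - pt l.1 l.2 τ) := by ring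
      rw [h4]
      refine lt_of_le_of_lt (norm_add_le _ _) ?_
      linarith
    · unfold Chain.V
      rw [if_pos g3]
      exact hσ
  refine hge.trans (measure_mono ?_)
  intro σ hσ
  have hσ2 : ∀ n, ∃ m ≥ n, |σ - τ| < 2 ∧ pt l.1 l.2 σ ∈ c.V s m := by
    intro n
    have := mem_iInter.1 hσ n
    simp only [hB, mem_iUnion] at this
    obtain ⟨m, hm, hm2⟩ := this
    exact ⟨m, hm, hm2⟩
  refine ⟨?_, ?_⟩
  · obtain ⟨m, _, h1, _⟩ := hσ2 0
    exact h1
  · intro n
    obtain ⟨m, hm, _, h2⟩ := hσ2 n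
    exact ⟨m, hm, h2⟩

/-- tasks for all centres, angles and levels -/
theorem exists_tasks (lev : ℕ → ℝ) (hlev : ∀ k, 0 < lev k) : ∃ T : ℕ → Task,
    ∀ i j k n : ℕ, ∃ m ≥ n, (T m).a = TopologicalSpace.denseSeq ℂ i ∧
      (T m).b = TopologicalSpace.denseSeq ℝ j ∧ (T m).t = lev k := by
  refine ⟨fun m => ⟨TopologicalSpace.denseSeq ℂ (Nat.unpair (Nat.unpair (Nat.unpair m).1).1).1,
    TopologicalSpace.denseSeq ℝ (Nat.unpair (Nat.unpair (Nat.unpair m).1).1).2,
    lev (Nat.unpair (Nat.unpair m).1).2, hlev _⟩, ?_⟩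
  intro i j k n
  refine ⟨Nat.pair (Nat.pair (Nat.pair i j) k) n, Nat.right_le_pair _ _, ?_⟩
  simp [Nat.unpair_pair]

theorem main_C (D : Set ℝ) (hD : D.Countable) : ∃ E : Set ℂ, MeasurableSet E ∧ 0 < volume E ∧
    volume E < ⊤ ∧ ∀ t ∈ D, 0 < t → ∀ l : ℝ × ℝ,
      volume {σ : ℝ | pt l.1 l.2 σ ∈ E} ≠ ENNReal.ofReal t := by
  obtain ⟨e, he, he1, c0, hc0, hk⟩ := kill
  have hk' : KillP e c0 := hk
  set D' : Set ℝ := insert 1 (D ∩ Ioi 0) with hD'
  have hDc : D'.Countable := (hD.mono inter_subset_left).insert 1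
  obtain ⟨lev, hlev⟩ := hDc.exists_eq_range ⟨1, mem_insert _ _⟩
  have hlevpos : ∀ k, 0 < lev k := by
    intro k
    have h1 : lev k ∈ D' := by rw [hlev]; exact mem_range_self k
    rcases h1 with h1 | h1
    · rw [h1]; exact one_pos
    · exact h1.2
  obtain ⟨T, hT⟩ := exists_tasks lev hlevpos
  obtain ⟨c, hc⟩ := exists_chain hk' T _ cls_start
  set M : Set ℂ := ⋃ k, c.M (lev k) with hM
  have hMm : MeasurableSet M := MeasurableSet.iUnion fun k => c.M_meas _
  have hM0 : volume M = 0 := by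
    rw [hM, measure_iUnion_null_iff]
    exact fun k => c.M_null _
  refine ⟨c.E0 ∪ M, c.measE0.union hMm, c.E0_pos.trans_le (measure_mono subset_union_left), ?_, ?_⟩
  · refine (measure_union_le _ _).trans_lt ?_
    rw [hM0, add_zero]
    apply c.E0_fin (1 / 2 * K0)
    intro p
    rw [hc, Rad_const_mul, rad_wt, mul_assoc]
    have hK : 0 ≤ K0 := integral_nonneg fun u => by positivity
    apply mul_le_mul_of_nonneg_left _ (by norm_num)
    apply mul_le_mul_of_nonneg_left _ hK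
    apply inv_anti₀ (by positivity)
    have h1 : (1:ℝ) ≤ √(1 + p ^ 2) := by
      rw [Real.one_le_sqrt]; nlinarith [sq_nonneg p]
    have h2 : √(1 + p ^ 2) ^ 2 = 1 + p ^ 2 := Real.sq_sqrt (by positivity)
    show 1 + p ^ 2 ≤ √(1 + p ^ 2) ^ 3
    calc 1 + p ^ 2 = √(1 + p ^ 2) ^ 2 * 1 := by rw [h2, mul_one]
      _ ≤ √(1 + p ^ 2) ^ 2 * √(1 + p ^ 2) := mul_le_mul_of_nonneg_left h1 (by positivity)
      _ = √(1 + p ^ 2) ^ 3 := by ring
  · intro t ht ht0 l heq
    have htD : t ∈ D' := mem_insert_of_mem _ ⟨ht, ht0⟩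
    set R := (volume (c.sec l)).toReal with hR
    have hfin : volume (c.sec l) ≠ ⊤ := ne_top_of_le_ne_top ENNReal.ofReal_ne_top (c.sec_fin l)
    have hRvol : volume (c.sec l) = ENNReal.ofReal R := (ENNReal.ofReal_toReal hfin).symm
    by_cases hA : ∃ k, R = lev k
    · obtain ⟨k, hk1⟩ := hA
      -- infinitely many disjoint windows
      have hw : ∀ n : ℕ, ENNReal.ofReal c0 ≤
          volume {σ : ℝ | |σ - 4 * n| < 2 ∧ pt l.1 l.2 σ ∈ c.M (lev k)} := by
        intro n
        have hdC := TopologicalSpace.denseRange_denseSeq ℂ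
        have hdR := TopologicalSpace.denseRange_denseSeq ℝ
        obtain ⟨i, hi⟩ := hdC.exists_dist_lt (pt l.1 l.2 (4 * n)) he
        obtain ⟨j, hj⟩ := hdR.exists_dist_lt l.1 he
        apply c.served he he1 l (lev k) hk1 (4 * n) (TopologicalSpace.denseSeq ℂ i)
          (TopologicalSpace.denseSeq ℝ j)
        · rw [dist_comm, dist_eq_norm] at hi
          exact hi
        · rw [Real.dist_eq] at hj
          exact hj.le
        · intro m
          exact hT i j k m
      have hdisj : Pairwise (Function.onFun Disjoint fun n : ℕ =>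
          {σ : ℝ | |σ - 4 * n| < 2 ∧ pt l.1 l.2 σ ∈ c.M (lev k)}) := by
        intro m n hmn
        rw [Function.onFun, Set.disjoint_left]
        rintro σ ⟨h1, -⟩ ⟨h2, -⟩
        rw [abs_lt] at h1 h2
        rcases lt_or_gt_of_ne hmn with h3 | h3
        · have : (m : ℝ) + 1 ≤ n := by exact_mod_cast h3
          linarith [h1.1, h1.2, h2.1, h2.2]
        · have : (n : ℝ) + 1 ≤ m := by exact_mod_cast h3
          linarith [h1.1, h1.2, h2.1, h2.2]
      have hmeas : ∀ n : ℕ, MeasurableSet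
          {σ : ℝ | |σ - 4 * n| < 2 ∧ pt l.1 l.2 σ ∈ c.M (lev k)} := by
        intro n
        have h1 : MeasurableSet {σ : ℝ | |σ - 4 * n| < 2} :=
          (isOpen_lt (by fun_prop) continuous_const).measurableSet
        exact h1.inter ((ptc l.1 l.2).measurable (c.M_meas _))
      have h1 : volume (⋃ n : ℕ, {σ : ℝ | |σ - 4 * n| < 2 ∧ pt l.1 l.2 σ ∈ c.M (lev k)}) = ⊤ := by
        rw [measure_iUnion hdisj hmeas]
        rw [eq_top_iff]
        calc (⊤ : ENNReal) = ∑' _ : ℕ, ENNReal.ofReal c0 :=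
              (ENNReal.tsum_const_eq_top_of_ne_zero (by simpa using hc0)).symm
          _ ≤ _ := ENNReal.tsum_le_tsum hw
      have h2 : volume {σ : ℝ | pt l.1 l.2 σ ∈ c.E0 ∪ M} = ⊤ := by
        rw [eq_top_iff, ← h1]
        apply measure_mono
        apply iUnion_subset
        rintro n σ ⟨-, h3⟩
        exact Or.inr (mem_iUnion.2 ⟨k, h3⟩)
      rw [h2] at heq
      exact ENNReal.ofReal_ne_top heq.symm
    · push Not at hA
      have hnull : volume {σ : ℝ | pt l.1 l.2 σ ∈ M} = 0 := by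
        have e1 : {σ : ℝ | pt l.1 l.2 σ ∈ M} = ⋃ k, {σ : ℝ | pt l.1 l.2 σ ∈ c.M (lev k)} := by
          ext σ
          simp [hM]
        rw [e1, measure_iUnion_null_iff]
        exact fun k => c.null_line l (lev k) (hA k)
      have h1 : volume {σ : ℝ | pt l.1 l.2 σ ∈ c.E0 ∪ M} = ENNReal.ofReal R := by
        rw [← hRvol]
        apply le_antisymm
        · calc volume {σ : ℝ | pt l.1 l.2 σ ∈ c.E0 ∪ M}
              ≤ volume (c.sec l) + volume {σ : ℝ | pt l.1 l.2 σ ∈ M} := measure_union_le _ _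
            _ = volume (c.sec l) := by rw [hnull, add_zero]
        · exact measure_mono fun σ hσ => Or.inl hσ
      have hRp : 0 < R := c.sec_pos l
      rw [h1, ENNReal.ofReal_eq_ofReal_iff hRp.le ht0.le] at heq
      rw [hlev] at htD
      obtain ⟨k, hk1⟩ := htD
      exact hA k (heq.trans hk1.symm)

end Pool.Agent.K6.H56.Cr
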