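import Pool.Agent.H703R3.MBBody

/-!
# Exit points and reflections for general tables
-/

set_option autoImplicit false
set_option linter.unusedSectionVars false

open Set Filter Topology
open scoped RealInnerProductSpace ContDiff

namespace Pool.Agent.K6.H56.MBI

open Pool.Agent.H703R3.MB

section General

variable {V : Type} [NormedAddCommGroup V] [InnerProductSpace ℝ V] [CompleteSpace V] {K : Set V}

/-- strictness of the supporting inequality at interior points -/
theorem inner_neg_of_interior {x ν q : V} (hν : IsOuterNormal K x ν) (hq : q ∈ interior K) :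
    ⟪ν, q - x⟫ < 0 := by
  have hc : Continuous fun s : ℝ => q + s • ν := by fun_prop
  have h2 : ∀ᶠ s : ℝ in 𝓝 0, q + s • ν ∈ interior K :=
    (hc.tendsto 0).eventually (isOpen_interior.mem_nhds (by simpa using hq))
  obtain ⟨δ, hδ, hs⟩ := Metric.eventually_nhds_iff.1 h2
  have h4 := hs (y := δ / 2) (by rw [Real.dist_eq, sub_zero, abs_of_pos (by linarith)]; linarith)
  have h5 := hν.2 _ (interior_subset h4)
  rw [show q + (δ / 2) • ν - x = (q - x) + (δ / 2) • ν by abel, inner_add_right,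
    real_inner_smul_right, real_inner_self_eq_norm_sq, hν.1] at h5
  linarith

/-- local facts at a boundary point -/
theorem boundary (hK : IsTable K) {x : V} (hx : x ∈ frontier K) :
    ∃ G : V, G ≠ 0 ∧ (∀ y ∈ K, ⟪G, y - x⟫ ≤ 0) ∧
      ∀ u : V, ⟪G, u⟫ < 0 → ∃ δ > 0, ∀ t : ℝ, 0 < t → t < δ → x + t • u ∈ interior K := by
  obtain ⟨F, hF, hg, hloc, -⟩ := hK.smooth x hx
  have hxK : x ∈ K := hK.isCompact.isClosed.frontier_subset hx
  have hd : HasGradientAt F (gradient F x) x :=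
    (hF.differentiable (by norm_num) x).hasGradientAt
  have hcont : Continuous F := hF.continuous
  have hx0 : F x = 0 := by
    refine le_antisymm (hloc.self_of_nhds.1 hxK) ?_
    by_contra hcon
    push Not at hcon
    have h1 : ∀ᶠ y in 𝓝 x, F y < 0 := (hcont.tendsto x).eventually (gt_mem_nhds hcon)
    have h2 : ∀ᶠ y in 𝓝 x, y ∈ K := by
      filter_upwards [h1, hloc] with y hy1 hy2
      exact hy2.2 hy1.le
    exact hx.2 (mem_interior_iff_mem_nhds.2 h2)
  have hdir : ∀ u : V, HasDerivAt (fun t : ℝ => F (x + t • u)) ⟪gradient F x, u⟫ 0 := by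
    intro u
    have h1 : HasDerivAt (fun t : ℝ => x + t • u) u 0 := by
      simpa using ((hasDerivAt_id (0 : ℝ)).smul_const u).const_add x
    have h2 : HasFDerivAt F ((InnerProductSpace.toDual ℝ V) (gradient F x)) (x + (0:ℝ) • u) := by
      simpa using hd.hasFDerivAt
    have h3 := h2.comp_hasDerivAt (0 : ℝ) h1
    rw [InnerProductSpace.toDual_apply_apply] at h3
    exact h3
  obtain ⟨U, hU, hUo, hxU⟩ := mem_nhds_iff.1 hloc
  have hin : ∀ u : V, ⟪gradient F x, u⟫ < 0 →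
      ∃ δ > 0, ∀ t : ℝ, 0 < t → t < δ → x + t • u ∈ interior K := by
    intro u hu
    have h1 := (hdir u).tendsto_slope_zero_right
    have h2 : ∀ᶠ t : ℝ in 𝓝[>] 0, t⁻¹ • (F (x + (0 + t) • u) - F (x + (0:ℝ) • u)) < 0 :=
      h1.eventually (gt_mem_nhds hu)
    have hc : Continuous fun s : ℝ => x + s • u := by fun_prop
    have h3 : ∀ᶠ t : ℝ in 𝓝[>] 0, x + t • u ∈ U :=
      ((hc.tendsto 0).eventually (hUo.mem_nhds (by simpa using hxU))).filter_mono
        nhdsWithin_le_nhds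
    have h4 : ∀ᶠ t : ℝ in 𝓝[>] 0, x + t • u ∈ interior K := by
      filter_upwards [h2, h3, self_mem_nhdsWithin] with t ht1 ht2 ht3
      have ht0 : (0:ℝ) < t := ht3
      have h5 : F (x + t • u) < 0 := by
        rw [zero_add, zero_smul, add_zero, hx0, sub_zero, smul_eq_mul] at ht1
        by_contra hcon
        push Not at hcon
        have : 0 ≤ t⁻¹ * F (x + t • u) := by positivity
        linarith
      rw [mem_interior]
      refine ⟨U ∩ {y | F y < 0}, fun y hy => (hU hy.1).2 hy.2.le,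
        hUo.inter (isOpen_lt hcont continuous_const), ht2, h5⟩
    rw [eventually_nhdsWithin_iff, Metric.eventually_nhds_iff] at h4
    obtain ⟨δ, hδ, h5⟩ := h4
    exact ⟨δ, hδ, fun t ht1 ht2 => h5 (by rw [Real.dist_eq, sub_zero, abs_of_pos ht1]; exact ht2) ht1⟩
  refine ⟨gradient F x, hg, ?_, hin⟩
  intro y hy
  by_contra hcon
  push Not at hcon
  have h1 := (hdir (y - x)).tendsto_slope_zero_right
  have h2 : ∀ᶠ t : ℝ in 𝓝[>] 0,
      0 < t⁻¹ • (F (x + (0 + t) • (y - x)) - F (x + (0:ℝ) • (y - x))) :=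
    h1.eventually (lt_mem_nhds hcon)
  have hc : Continuous fun s : ℝ => x + s • (y - x) := by fun_prop
  have h3 : ∀ᶠ t : ℝ in 𝓝[>] 0, x + t • (y - x) ∈ U :=
    ((hc.tendsto 0).eventually (hUo.mem_nhds (by simpa using hxU))).filter_mono
      nhdsWithin_le_nhds
  have h4 : ∀ᶠ t : ℝ in 𝓝[>] 0, t < 1 :=
    (gt_mem_nhds (by norm_num : (0:ℝ) < 1)).filter_mono nhdsWithin_le_nhds
  obtain ⟨t, ht1, ht2, ht3, ht4⟩ :=
    (h2.and (h3.and (h4.and self_mem_nhdsWithin))).exists
  have ht0 : (0:ℝ) < t := ht4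
  have hmem : x + t • (y - x) ∈ K := by
    have := hK.strictConvex.convex hxK hy (a := 1 - t) (b := t) (by linarith) ht0.le (by ring)
    rwa [show (1 - t) • x + t • y = x + t • (y - x) by
      rw [sub_smul, one_smul, smul_sub]; abel] at this
  have h5 : F (x + t • (y - x)) ≤ 0 := (hU ht2).1 hmem
  rw [zero_add, zero_smul, add_zero, hx0, sub_zero, smul_eq_mul] at ht1
  have : t⁻¹ * F (x + t • (y - x)) ≤ 0 :=
    mul_nonpos_of_nonneg_of_nonpos (by positivity) h5
  linarith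

theorem isOuterNormal_outerNormal (hK : IsTable K) {x : V} (hx : x ∈ frontier K) :
    IsOuterNormal K x (outerNormal K x) := by
  obtain ⟨G, hG, hG1, -⟩ := boundary hK hx
  have h0 : 0 < ‖G‖ := norm_pos_iff.2 hG
  refine Classical.epsilon_spec (p := IsOuterNormal K x) ⟨‖G‖⁻¹ • G, ?_, ?_⟩
  · rw [norm_smul, norm_inv, norm_norm, inv_mul_cancel₀ h0.ne']
  · intro y hy
    rw [real_inner_smul_left]
    exact mul_nonpos_of_nonneg_of_nonpos (by positivity) (hG1 y hy)

/-- directions pointing strictly inside enter the interior -/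
theorem enters (hK : IsTable K) {x ν u : V} (hx : x ∈ frontier K) (hν : IsOuterNormal K x ν)
    (hu : ⟪ν, u⟫ < 0) : ∃ t : ℝ, 0 < t ∧ x + t • u ∈ interior K := by
  obtain ⟨G, hG, hG1, hG2⟩ := boundary hK hx
  have hGu : ⟪G, u⟫ < 0 := by
    by_contra hcon
    push Not at hcon
    obtain ⟨η, hη, hη2⟩ : ∃ η : ℝ, 0 < η ∧ η * ⟪ν, G⟫ < -⟪ν, u⟫ := by
      refine ⟨-⟪ν, u⟫ / (2 * (|⟪ν, G⟫| + 1)), by
        apply div_pos <;> [linarith; positivity], ?_⟩
      have h1 : ⟪ν, G⟫ ≤ |⟪ν, G⟫| := le_abs_self _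
      have h2 : 0 < 2 * (|⟪ν, G⟫| + 1) := by positivity
      rw [div_mul_eq_mul_div, div_lt_iff₀ h2]
      have h3 : 0 < -⟪ν, u⟫ := by linarith
      nlinarith [abs_nonneg ⟪ν, G⟫]
    have h1 : ⟪G, -u - η • G⟫ < 0 := by
      rw [inner_sub_right, inner_neg_right, real_inner_smul_right, real_inner_self_eq_norm_sq]
      have : 0 < η * ‖G‖ ^ 2 := mul_pos hη (pow_pos (norm_pos_iff.2 hG) 2)
      linarith
    obtain ⟨δ, hδ, hin⟩ := hG2 _ h1
    have h2 := hν.2 _ (interior_subset (hin (δ / 2) (by linarith) (by linarith)))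
    rw [add_sub_cancel_left, real_inner_smul_right, inner_sub_right, inner_neg_right,
      real_inner_smul_right] at h2
    have h3 : 0 < -⟪ν, u⟫ - η * ⟪ν, G⟫ := by linarith
    have h4 : 0 < δ / 2 * (-⟪ν, u⟫ - η * ⟪ν, G⟫) := mul_pos (by linarith) h3
    linarith
  obtain ⟨δ, hδ, hin⟩ := hG2 _ hGu
  exact ⟨δ / 2, by linarith, hin _ (by linarith) (by linarith)⟩

/-- reflection -/
theorem reflect_norm {v ν : V} (hν : ‖ν‖ = 1) (hv : ‖v‖ = 1) : ‖v - (2 * ⟪v, ν⟫) • ν‖ = 1 := by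
  have h : ‖v - (2 * ⟪v, ν⟫) • ν‖ ^ 2 = 1 := by
    rw [norm_sub_sq_real, norm_smul, real_inner_smul_right, hν, hv, mul_one, Real.norm_eq_abs,
      sq_abs]
    ring
  have h2 : 0 ≤ ‖v - (2 * ⟪v, ν⟫) • ν‖ := norm_nonneg _
  nlinarith

theorem reflect_inner {v ν : V} (hν : ‖ν‖ = 1) : ⟪v - (2 * ⟪v, ν⟫) • ν, ν⟫ = - ⟪v, ν⟫ := by
  rw [inner_sub_left, real_inner_smul_left, real_inner_self_eq_norm_sq, hν]
  ring

end General

end Pool.Agent.K6.H56.MBI
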