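import Pool.Agent.K6.H56.MBI1

/-!
# The angular momentum in a coordinate plane and inner billiards
-/

set_option autoImplicit false
set_option linter.unusedSectionVars false

open Set Filter Topology
open scoped RealInnerProductSpace ContDiff

namespace Pool.Agent.K6.H56.MBI

open Pool.Agent.H703R3.MB

variable {n : ℕ} {Ω : Set (Euc n)}

/-- `x_i w_j - x_j w_i` -/
def wedge (i j : Fin n) (x w : Euc n) : ℝ := x i * w j - x j * w i

theorem wedge_add_smul (i j : Fin n) (x w : Euc n) (t : ℝ) :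
    wedge i j (x + t • w) w = wedge i j x w := by
  simp only [wedge, PiLp.add_apply, PiLp.smul_apply, smul_eq_mul]; ring

theorem wedge_sub_smul (i j : Fin n) (x w : Euc n) (t : ℝ) :
    wedge i j (x - t • w) w = wedge i j x w := by
  simp only [wedge, PiLp.sub_apply, PiLp.smul_apply, smul_eq_mul]; ring

theorem wedge_right (i j : Fin n) (x v ν : Euc n) (t : ℝ) :
    wedge i j x (v - t • ν) = wedge i j x v - t * wedge i j x ν := by
  simp only [wedge, PiLp.sub_apply, PiLp.smul_apply, smul_eq_mul]; ring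

theorem wedge_neg (i j : Fin n) (x v : Euc n) :
    wedge i j x (-v) = - wedge i j x v := by
  simp only [wedge, PiLp.neg_apply]; ring

theorem two_le_norm_sq {i j : Fin n} (hij : i ≠ j) (v : Euc n) : v i ^ 2 + v j ^ 2 ≤ ‖v‖ ^ 2 := by
  rw [EuclideanSpace.norm_sq_eq]
  have h1 : ∑ k ∈ ({i, j} : Finset (Fin n)), ‖v k‖ ^ 2 ≤ ∑ k, ‖v k‖ ^ 2 :=
    Finset.sum_le_sum_of_subset_of_nonneg (Finset.subset_univ _) fun _ _ _ => by positivity
  rw [Finset.sum_pair hij] at h1
  simpa [Real.norm_eq_abs, sq_abs] using h1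

theorem wedge_sq_le {i j : Fin n} (hij : i ≠ j) (x v : Euc n) (hv : ‖v‖ = 1) :
    wedge i j x v ^ 2 ≤ x i ^ 2 + x j ^ 2 := by
  have h1 := two_le_norm_sq hij v
  rw [hv] at h1
  have h2 : wedge i j x v ^ 2 ≤ (x i ^ 2 + x j ^ 2) * (v i ^ 2 + v j ^ 2) := by
    unfold wedge
    nlinarith [sq_nonneg (x i * v i + x j * v j)]
  have h3 : 0 ≤ x i ^ 2 + x j ^ 2 := by positivity
  nlinarith

/-- the exit point of an oriented line: it lies in the boundary, and the line crosses the boundary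
transversally there -/
theorem exit_spec (hK : IsTable Ω) {l : Euc n × Euc n} (hl : l ∈ lines Ω) :
    ∃ s : ℝ, exitPoint Ω l = l.1 + s • l.2 ∧ exitPoint Ω l ∈ frontier Ω ∧
      0 < ⟪outerNormal Ω (exitPoint Ω l), l.2⟫ := by
  obtain ⟨hv, -, t0, ht0⟩ := hl
  set T : Set ℝ := {t : ℝ | l.1 + t • l.2 ∈ Ω} with hT
  have ht0T : t0 ∈ T := (interior_subset ht0 : l.1 + t0 • l.2 ∈ Ω)
  have hne : T.Nonempty := ⟨t0, ht0T⟩
  have hcl : IsClosed T := hK.isCompact.isClosed.preimage (by fun_prop)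
  have hbd : BddAbove T := by
    obtain ⟨R, hR⟩ := hK.isCompact.isBounded.exists_norm_le
    refine ⟨R + ‖l.1‖, fun t ht => ?_⟩
    have h1 := hR _ ht
    have h2 : ‖t • l.2‖ ≤ ‖l.1 + t • l.2‖ + ‖l.1‖ := by
      have := norm_sub_le (l.1 + t • l.2) l.1
      rwa [add_sub_cancel_left] at this
    rw [norm_smul, hv, mul_one, Real.norm_eq_abs] at h2
    linarith [le_abs_self t]
  set s := sSup T with hs
  have hsT : s ∈ T := hcl.csSup_mem hne hbd
  have he : exitPoint Ω l = l.1 + s • l.2 := rfl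
  have hnotint : l.1 + s • l.2 ∉ interior Ω := by
    intro hcon
    have hc : Continuous fun t : ℝ => l.1 + t • l.2 := by fun_prop
    have h2 : ∀ᶠ t : ℝ in 𝓝 s, l.1 + t • l.2 ∈ interior Ω :=
      (hc.tendsto s).eventually (isOpen_interior.mem_nhds hcon)
    obtain ⟨δ, hδ, h3⟩ := Metric.eventually_nhds_iff.1 h2
    have h4 := h3 (y := s + δ / 2) (by
      rw [Real.dist_eq, add_sub_cancel_left, abs_of_pos (by linarith)]; linarith)
    have h5 : s + δ / 2 ≤ s := le_csSup hbd (interior_subset h4 : l.1 + (s + δ / 2) • l.2 ∈ Ω)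
    linarith
  have hfr : exitPoint Ω l ∈ frontier Ω := by
    rw [he]
    exact ⟨subset_closure hsT, hnotint⟩
  refine ⟨s, he, hfr, ?_⟩
  have hν := isOuterNormal_outerNormal hK hfr
  have h1 := inner_neg_of_interior hν ht0
  have hts : t0 ≤ s := le_csSup hbd ht0T
  rw [he] at h1 ⊢
  rw [show l.1 + t0 • l.2 - (l.1 + s • l.2) = (t0 - s) • l.2 by rw [sub_smul]; abel,
    real_inner_smul_right] at h1
  by_contra hcon
  push Not at hcon
  have : 0 ≤ (t0 - s) * ⟪outerNormal Ω (l.1 + s • l.2), l.2⟫ :=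
    mul_nonneg_of_nonpos_of_nonpos (by linarith) hcon
  linarith

/-- a boundary point of an oriented line at which the line crosses the boundary outwards is the exit
point -/
theorem exit_eq (hK : IsTable Ω) {l : Euc n × Euc n} {s : ℝ} (hs : l.1 + s • l.2 ∈ frontier Ω)
    (hpos : 0 < ⟪outerNormal Ω (l.1 + s • l.2), l.2⟫) : exitPoint Ω l = l.1 + s • l.2 := by
  have hν := isOuterNormal_outerNormal hK hs
  have hsK : l.1 + s • l.2 ∈ Ω := hK.isCompact.isClosed.frontier_subset hs
  have hgreat : IsGreatest {t : ℝ | l.1 + t • l.2 ∈ Ω} s := by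
    refine ⟨hsK, fun t ht => ?_⟩
    have h1 := hν.2 _ ht
    rw [show l.1 + t • l.2 - (l.1 + s • l.2) = (t - s) • l.2 by rw [sub_smul]; abel,
      real_inner_smul_right] at h1
    by_contra hcon
    push Not at hcon
    have : 0 < (t - s) * ⟪outerNormal Ω (l.1 + s • l.2), l.2⟫ := mul_pos (by linarith) hpos
    linarith
  unfold exitPoint
  rw [hgreat.csSup_eq]

/-- a line through a boundary point that points strictly inside -/
theorem lineThrough_mem (hK : IsTable Ω) {x w : Euc n} (hx : x ∈ frontier Ω) (hw : ‖w‖ = 1)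
    (hneg : ⟪outerNormal Ω x, w⟫ < 0) : lineThrough x w ∈ lines Ω := by
  obtain ⟨t, -, ht⟩ := enters hK hx (isOuterNormal_outerNormal hK hx) hneg
  refine ⟨hw, ?_, t + ⟪x, w⟫, ?_⟩
  · show ⟪x - ⟪x, w⟫ • w, w⟫ = 0
    rw [inner_sub_left, real_inner_smul_left, real_inner_self_eq_norm_sq, hw]
    ring
  · show x - ⟪x, w⟫ • w + (t + ⟪x, w⟫) • w ∈ interior Ω
    rw [add_smul, show x - ⟪x, w⟫ • w + (t • w + ⟪x, w⟫ • w) = x + t • w by abel]
    exact ht

/-- the billiard map sends the phase space to itself -/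
theorem billiardMap_mem (hK : IsTable Ω) {l : Euc n × Euc n} (hl : l ∈ lines Ω) :
    billiardMap Ω l ∈ lines Ω := by
  obtain ⟨s, he, hfr, hpos⟩ := exit_spec hK hl
  have hν := isOuterNormal_outerNormal hK hfr
  refine lineThrough_mem hK hfr (reflect_norm hν.1 hl.1) ?_
  rw [real_inner_comm, reflect_inner hν.1, real_inner_comm]
  linarith

/-- reversing the orientation of a line -/
def rev (l : Euc n × Euc n) : Euc n × Euc n := (l.1, -l.2)

theorem rev_mem {l : Euc n × Euc n} (hl : l ∈ lines Ω) : rev l ∈ lines Ω := by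
  obtain ⟨h1, h2, t, ht⟩ := hl
  refine ⟨by simpa [rev] using h1, by simpa [rev] using h2, -t, ?_⟩
  simpa [rev] using ht

/-- time reversal -/
theorem reversal (hK : IsTable Ω) {l' : Euc n × Euc n} (hl : l' ∈ lines Ω) :
    billiardMap Ω (rev (billiardMap Ω (rev l'))) = l' := by
  obtain ⟨p', v'⟩ := l'
  have hr : rev (p', v') ∈ lines Ω := rev_mem hl
  obtain ⟨s, he, hfr, hpos⟩ := exit_spec hK hr
  set y := exitPoint Ω (rev (p', v')) with hy
  set ν := outerNormal Ω y with hνd
  have hν : IsOuterNormal Ω y ν := isOuterNormal_outerNormal hK hfr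
  have hv' : ‖v'‖ = 1 := hl.1
  have hpv : ⟪p', v'⟫ = 0 := hl.2.1
  set u : Euc n := -v' with hu
  have hr2 : (rev (p', v')).2 = u := rfl
  have hr1 : (rev (p', v')).1 = p' := rfl
  rw [hr2] at hpos he
  rw [hr1] at he
  set w : Euc n := u - (2 * ⟪u, ν⟫) • ν with hw
  have hm : billiardMap Ω (rev (p', v')) = (y - ⟪y, w⟫ • w, w) := rfl
  have hwν : ⟪w, ν⟫ = -⟪u, ν⟫ := reflect_inner hν.1
  have hpos' : 0 < ⟪u, ν⟫ := by rw [real_inner_comm]; exact hpos
  set l : Euc n × Euc n := rev (billiardMap Ω (rev (p', v'))) with hl0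
  have hl1 : l.1 = y - ⟪y, w⟫ • w := by rw [hl0, hm]; rfl
  have hl2 : l.2 = -w := by rw [hl0, hm]; rfl
  have hpt : l.1 + (-⟪y, w⟫) • l.2 = y := by
    rw [hl1, hl2, smul_neg, neg_smul, neg_neg]; abel
  have hexit : exitPoint Ω l = y := by
    have := exit_eq hK (l := l) (s := -⟪y, w⟫) (by rw [hpt]; exact hfr) (by
      rw [hpt, hl2, inner_neg_right, ← hνd, real_inner_comm, hwν]; linarith)
    rw [this, hpt]
  have hback : l.2 - (2 * ⟪l.2, ν⟫) • ν = v' := by
    rw [hl2, inner_neg_left, hwν, hw, neg_neg, hu]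
    rw [neg_sub, sub_neg_eq_add]
    abel
  unfold billiardMap
  rw [hexit, ← hνd, hback]
  unfold lineThrough
  rw [he]
  have h1 : ⟪p' + s • u, v'⟫ = -s := by
    rw [inner_add_left, hpv, real_inner_smul_left, hu, inner_neg_left,
      real_inner_self_eq_norm_sq, hv']
    ring
  rw [h1, hu]
  congr 1
  rw [neg_smul, smul_neg]
  abel

/-- The level sets `S_c` of `(p, v) ↦ p_i v_j - p_j v_i`. -/
def level (Ω : Set (Euc n)) (i j : Fin n) (c : ℝ) : Set (Euc n × Euc n) :=
  {l | l ∈ lines Ω ∧ wedge i j l.1 l.2 = c}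

theorem level_map (hK : IsTable Ω) {i j : Fin n} (hij : i ≠ j) {c : ℝ}
    (hsym : ∀ x ∈ frontier Ω, c ^ 2 ≤ x i ^ 2 + x j ^ 2 → wedge i j x (outerNormal Ω x) = 0)
    {l : Euc n × Euc n} (hl : l ∈ level Ω i j c) : billiardMap Ω l ∈ level Ω i j c := by
  obtain ⟨h1, h2⟩ := hl
  obtain ⟨s, he, hfr, hpos⟩ := exit_spec hK h1
  refine ⟨billiardMap_mem hK h1, ?_⟩
  set e := exitPoint Ω l with hed
  have h3 : wedge i j e l.2 = c := by rw [he, wedge_add_smul, h2]
  have h4 : c ^ 2 ≤ e i ^ 2 + e j ^ 2 := by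
    rw [← h3]; exact wedge_sq_le hij e l.2 h1.1
  set w : Euc n := l.2 - (2 * ⟪l.2, outerNormal Ω e⟫) • outerNormal Ω e with hw
  show wedge i j (e - ⟪e, w⟫ • w) w = c
  rw [wedge_sub_smul, hw, wedge_right, hsym e hfr h4, h3]
  ring

/-- General criterion: the level sets of the angular momentum are invariant hypersurfaces. -/
theorem criterion (hK : IsTable Ω) {i j : Fin n} (hij : i ≠ j) {c : ℝ} (hc : c ≠ 0)
    (hne : (level Ω i j c).Nonempty)
    (hsym : ∀ x ∈ frontier Ω, c ^ 2 ≤ x i ^ 2 + x j ^ 2 → wedge i j x (outerNormal Ω x) = 0) :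
    IsInvariantHypersurface Ω (level Ω i j c) where
  nonempty := hne
  subset := fun l hl => hl.1
  closed := ⟨{l | wedge i j l.1 l.2 = c}, isClosed_eq (by unfold wedge; fun_prop)
    continuous_const, rfl⟩
  smooth := by
    intro l hl
    have hd : ContDiff ℝ ∞ fun l' : Euc n × Euc n => wedge i j l'.1 l'.2 - c := by
      unfold wedge; fun_prop
    refine ⟨fun l' => wedge i j l'.1 l'.2 - c, hd, ?_, (l.1, 0), ?_, ?_⟩
    · refine Eventually.of_forall fun l' hl' => ?_
      constructor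
      · intro h; show wedge i j l'.1 l'.2 - c = 0; rw [h.2]; ring
      · intro h; exact ⟨hl', by linarith⟩
    · refine ⟨by simp, ?_⟩
      have := hl.1.2.1
      simpa using this
    · have h1 : HasDerivAt (fun t : ℝ => l + t • ((l.1, 0) : Euc n × Euc n)) (l.1, 0) 0 := by
        simpa using ((hasDerivAt_id (0 : ℝ)).smul_const ((l.1, 0) : Euc n × Euc n)).const_add l
      have h2 := (hd.differentiable (by norm_num) (l + (0:ℝ) • ((l.1, 0) : Euc n × Euc n))
        ).hasFDerivAt
      have h3 := h2.comp_hasDerivAt (0 : ℝ) h1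
      have h4 : ((fun l' : Euc n × Euc n => wedge i j l'.1 l'.2 - c) ∘
          fun t : ℝ => l + t • ((l.1, 0) : Euc n × Euc n)) = fun t : ℝ => (1 + t) * c - c := by
        funext t
        have h5 : wedge i j l.1 l.2 = c := hl.2
        show wedge i j (l + t • ((l.1, 0) : Euc n × Euc n)).1 (l + t • ((l.1, 0) : Euc n × Euc n)).2
          - c = _
        rw [← h5]
        simp only [wedge, Prod.fst_add, Prod.smul_fst, Prod.snd_add, Prod.smul_snd, smul_zero,
          add_zero, PiLp.add_apply, PiLp.smul_apply, smul_eq_mul]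
        ring
      rw [h4, zero_smul, add_zero] at h3
      have h5 : HasDerivAt (fun t : ℝ => (1 + t) * c - c) c 0 := by
        have := (((hasDerivAt_id (0 : ℝ)).const_add 1).mul_const c).sub_const c
        simpa using this
      rw [h3.unique h5]
      exact hc
  invariant := by
    apply Subset.antisymm
    · rintro _ ⟨l, hl, rfl⟩
      exact level_map hK hij hsym hl
    · intro l' hl'
      have hr : rev l' ∈ level Ω i j (-c) := by
        refine ⟨rev_mem hl'.1, ?_⟩
        show wedge i j l'.1 (-l'.2) = -c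
        rw [wedge_neg, hl'.2]
      have h1 : billiardMap Ω (rev l') ∈ level Ω i j (-c) :=
        level_map hK hij (by intro x hx h; exact hsym x hx (by rwa [neg_sq] at h)) hr
      refine ⟨rev (billiardMap Ω (rev l')), ⟨rev_mem h1.1, ?_⟩, reversal hK hl'.1⟩
      show wedge i j (billiardMap Ω (rev l')).1 (-(billiardMap Ω (rev l')).2) = c
      rw [wedge_neg, h1.2, neg_neg]

end Pool.Agent.K6.H56.MBI
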