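import Pool.Agent.K6.H56.MBI2

/-!
# Bodies `f ≤ 1` for strongly convex smooth functions `f`
-/

set_option autoImplicit false
set_option linter.unusedSectionVars false

open Set Filter Topology
open scoped RealInnerProductSpace ContDiff

namespace Pool.Agent.K6.H56.MBI

open Pool.Agent.H703R3.MB

variable {V : Type} [NormedAddCommGroup V] [InnerProductSpace ℝ V] [CompleteSpace V]

/-- `f` is smooth and strongly convex with gradient `g`, `f 0 < 1` -/
structure Strong (f : V → ℝ) (g : V → V) : Prop where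
  cd : ContDiff ℝ ∞ f
  grad : ∀ x, HasGradientAt f (g x) x
  ge : ∀ x y : V, f x + ⟪g x, y - x⟫ + 1 / 2 * ‖y - x‖ ^ 2 ≤ f y
  lower : ∀ x : V, ‖x‖ ^ 2 ≤ f x
  zero : f 0 < 1

variable {f : V → ℝ} {g : V → V}

namespace Strong

theorem continuous (h : Strong f g) : Continuous f := h.cd.continuous

theorem strict (h : Strong f g) {x y : V} (hxy : x ≠ y) {a b : ℝ} (ha : 0 < a) (hb : 0 < b)
    (hab : a + b = 1) : f (a • x + b • y) < a * f x + b * f y := by
  set z := a • x + b • y with hz
  have h1 := h.ge z x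
  have h2 := h.ge z y
  have e1 : x - z = b • (x - y) := by
    rw [hz, show x - (a • x + b • y) = (1 - a) • x - b • y by rw [sub_smul, one_smul]; abel,
      show 1 - a = b by linarith, smul_sub]
  have e2 : y - z = (-a) • (x - y) := by
    rw [hz, show y - (a • x + b • y) = (1 - b) • y - a • x by rw [sub_smul, one_smul]; abel,
      show 1 - b = a by linarith, neg_smul, smul_sub]
    abel
  have hn : 0 < ‖x - y‖ := norm_pos_iff.2 (sub_ne_zero.2 hxy)
  have h3 : 0 < ‖x - z‖ ^ 2 := by
    rw [e1, norm_smul]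
    have : 0 < ‖b‖ := norm_pos_iff.2 hb.ne'
    positivity
  have h4 : 0 ≤ ‖y - z‖ ^ 2 := by positivity
  rw [e1, real_inner_smul_right] at h1
  rw [e2, real_inner_smul_right] at h2
  have h5 : a * (f z + b * ⟪g z, x - y⟫ + 1 / 2 * ‖b • (x - y)‖ ^ 2) ≤ a * f x :=
    mul_le_mul_of_nonneg_left h1 ha.le
  have h6 : b * (f z + -a * ⟪g z, x - y⟫ + 1 / 2 * ‖-a • (x - y)‖ ^ 2) ≤ b * f y :=
    mul_le_mul_of_nonneg_left h2 hb.le
  rw [← e1] at h5
  rw [← e2] at h6
  have h7 : 0 < a * (1 / 2 * ‖x - z‖ ^ 2) := by positivity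
  have h8 : 0 ≤ b * (1 / 2 * ‖y - z‖ ^ 2) := by positivity
  have h9 : (a + b) * f z = f z := by rw [hab, one_mul]
  nlinarith

theorem isClosed_body (h : Strong f g) : IsClosed (Body f) :=
  isClosed_le h.continuous continuous_const

theorem norm_le_of_mem (h : Strong f g) {x : V} (hx : x ∈ Body f) : ‖x‖ ≤ 1 := by
  have h1 := h.lower x
  have h2 : f x ≤ 1 := hx
  have h3 : 0 ≤ ‖x‖ := norm_nonneg x
  nlinarith

theorem inner_pos (h : Strong f g) {x : V} (hx : f x = 1) : 0 < ⟪g x, x⟫ := by
  have h1 := h.ge x 0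
  rw [hx, zero_sub, inner_neg_right, norm_neg] at h1
  have h2 := h.zero
  have h3 : 0 ≤ ‖x‖ ^ 2 := by positivity
  linarith

theorem g_ne_zero (h : Strong f g) {x : V} (hx : f x = 1) : g x ≠ 0 := by
  intro h0
  have := h.inner_pos hx
  rw [h0, inner_zero_left] at this
  exact lt_irrefl _ this

theorem interior_body (h : Strong f g) : interior (Body f) = {x | f x < 1} := by
  apply Subset.antisymm
  · intro x hx
    have hx1 : x ∈ Body f := interior_subset hx
    have hx1 : f x ≤ 1 := hx1
    refine lt_of_le_of_ne hx1 fun hx2 => ?_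
    have hc : Continuous fun s : ℝ => x + s • x := by fun_prop
    have h2 : ∀ᶠ s : ℝ in 𝓝 0, x + s • x ∈ interior (Body f) :=
      (hc.tendsto 0).eventually (isOpen_interior.mem_nhds (by simpa using hx))
    obtain ⟨δ, hδ, hs⟩ := Metric.eventually_nhds_iff.1 h2
    have h4 := hs (y := δ / 2) (by
      rw [Real.dist_eq, sub_zero, abs_of_pos (by linarith)]; linarith)
    have h5 : x + (δ / 2) • x ∈ Body f := interior_subset h4
    have h5 : f (x + (δ / 2) • x) ≤ 1 := h5
    have h6 := h.ge x (x + (δ / 2) • x)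
    rw [add_sub_cancel_left, real_inner_smul_right, hx2] at h6
    have h7 := h.inner_pos hx2
    have h8 : 0 < δ / 2 * ⟪g x, x⟫ := by positivity
    have h9 : 0 ≤ ‖(δ / 2) • x‖ ^ 2 := by positivity
    linarith
  · exact interior_maximal (fun x (hx : f x < 1) => hx.le)
      (isOpen_lt h.continuous continuous_const)

theorem frontier_body (h : Strong f g) : frontier (Body f) = {x | f x = 1} := by
  rw [h.isClosed_body.frontier_eq, h.interior_body]
  ext x
  constructor
  · rintro ⟨h1, h2⟩
    have h1 : f x ≤ 1 := h1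
    have h2 : ¬ f x < 1 := h2
    exact le_antisymm h1 (not_lt.1 h2)
  · intro h1
    have h1 : f x = 1 := h1
    exact ⟨h1.le, fun h2 : f x < 1 => absurd h1 h2.ne⟩

theorem deriv_line (h : Strong f g) (x v : V) (s : ℝ) :
    HasDerivAt (fun s : ℝ => f (x + s • v)) ⟪g (x + s • v), v⟫ s := by
  have h1 : HasDerivAt (fun t : ℝ => x + t • v) v s := by
    simpa using ((hasDerivAt_id s).smul_const v).const_add x
  have h3 := (h.grad (x + s • v)).hasFDerivAt.comp_hasDerivAt s h1
  rw [InnerProductSpace.toDual_apply_apply] at h3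
  exact h3

theorem second_deriv (h : Strong f g) (x v : V) (hv : v ≠ 0) :
    0 < deriv (deriv fun s : ℝ => f (x + s • v)) 0 := by
  have h1 : deriv (fun s : ℝ => f (x + s • v)) = fun s => ⟪g (x + s • v), v⟫ :=
    funext fun s => (h.deriv_line x v s).deriv
  have h2 : ContDiff ℝ ∞ fun s : ℝ => f (x + s • v) := h.cd.comp (by fun_prop)
  have h3 : Differentiable ℝ (deriv fun s : ℝ => f (x + s • v)) :=
    ((contDiff_infty_iff_deriv.1 h2).2).differentiable (by norm_num)
  have h4 := (h3 0).hasDerivAt.tendsto_slope_zero_right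
  have hvn : 0 < ‖v‖ ^ 2 := by have := norm_pos_iff.2 hv; positivity
  refine lt_of_lt_of_le hvn (ge_of_tendsto h4 ?_)
  filter_upwards [self_mem_nhdsWithin] with t ht
  have ht0 : (0:ℝ) < t := ht
  rw [h1, smul_eq_mul]
  simp only [zero_add, zero_smul, add_zero]
  have h5 := h.ge x (x + t • v)
  have h6 := h.ge (x + t • v) x
  rw [add_sub_cancel_left, real_inner_smul_right, norm_smul, mul_pow, Real.norm_eq_abs,
    sq_abs] at h5
  rw [show x - (x + t • v) = -(t • v) by abel, inner_neg_right, real_inner_smul_right, norm_neg,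
    norm_smul, mul_pow, Real.norm_eq_abs, sq_abs] at h6
  have h7 : t ^ 2 * ‖v‖ ^ 2 ≤ t * (⟪g (x + t • v), v⟫ - ⟪g x, v⟫) := by nlinarith
  have h8 : t * ‖v‖ ^ 2 ≤ ⟪g (x + t • v), v⟫ - ⟪g x, v⟫ := by
    have h9 : t * (t * ‖v‖ ^ 2) ≤ t * (⟪g (x + t • v), v⟫ - ⟪g x, v⟫) := by
      nlinarith
    exact le_of_mul_le_mul_left h9 ht0
  rw [inv_mul_eq_div, le_div_iff₀ ht0]
  linarith

theorem isTable [FiniteDimensional ℝ V] (h : Strong f g) : IsTable (Body f) where
  isCompact := Metric.isCompact_of_isClosed_isBounded h.isClosed_body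
    ((Metric.isBounded_closedBall (x := (0 : V)) (r := 1)).subset fun x hx => by
      rw [mem_closedBall_zero_iff]
      exact h.norm_le_of_mem hx)
  nonempty := ⟨0, by
    rw [h.interior_body]
    exact h.zero⟩
  strictConvex := by
    intro x hx y hy hxy a b ha hb hab
    rw [h.interior_body]
    have h1 := h.strict hxy ha hb hab
    have h2 : f x ≤ 1 := hx
    have h3 : f y ≤ 1 := hy
    show f _ < 1
    nlinarith
  smooth := by
    intro x hx
    rw [h.frontier_body] at hx
    have hg : gradient (fun y => f y - 1) x = g x := by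
      have h1 := (h.grad x).hasFDerivAt.sub_const (1 : ℝ)
      have h2 : HasGradientAt (fun y => f y - 1) (g x) x := h1
      exact h2.gradient
    refine ⟨fun y => f y - 1, h.cd.sub contDiff_const, ?_, ?_, ?_⟩
    · rw [hg]
      exact h.g_ne_zero hx
    · exact Eventually.of_forall fun y => by simp [Body]
    · intro v hv _
      have h3 := h.second_deriv x v hv
      have h4 : deriv (fun s : ℝ => f (x + s • v) - 1) = deriv fun s : ℝ => f (x + s • v) := by
        funext s
        exact deriv_sub_const (f := fun s : ℝ => f (x + s • v)) 1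
      rw [h4]
      exact h3

/-- directions orthogonal to the gradient are orthogonal to the outer normal -/
theorem normal_orth [FiniteDimensional ℝ V] (h : Strong f g) {x a : V} (hx : f x = 1)
    (ha : ⟪g x, a⟫ = 0) : ⟪outerNormal (Body f) x, a⟫ = 0 := by
  have hfr : x ∈ frontier (Body f) := by rw [h.frontier_body]; exact hx
  have hν := isOuterNormal_outerNormal h.isTable hfr
  have key : ∀ u : V, ⟪g x, u⟫ = 0 → ¬ ⟪outerNormal (Body f) x, u⟫ < 0 := by
    intro u hu hneg
    obtain ⟨t, ht, hin⟩ := enters h.isTable hfr hν hneg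
    rw [h.interior_body] at hin
    have h1 : f (x + t • u) < 1 := hin
    have h2 := h.ge x (x + t • u)
    rw [add_sub_cancel_left, real_inner_smul_right, hu, mul_zero, hx] at h2
    have h3 : 0 ≤ ‖t • u‖ ^ 2 := by positivity
    linarith
  have k1 := key a ha
  have k2 := key (-a) (by rw [inner_neg_right, ha, neg_zero])
  rw [inner_neg_right] at k2
  linarith [not_lt.1 k1, not_lt.1 k2]

end Strong

end Pool.Agent.K6.H56.MBI
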