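import Pool.Agent.K6.H56.MBI3

/-!
# The example: a round ball perturbed near a pole
-/

set_option autoImplicit false
set_option linter.unusedSectionVars false

open Set Filter Topology
open scoped RealInnerProductSpace ContDiff

namespace Pool.Agent.K6.H56.MBI

open Pool.Agent.H703R3.MB

theorem taylor {V : Type} [NormedAddCommGroup V] [InnerProductSpace ℝ V] {b : V → ℝ}
    (hb : ContDiff ℝ ∞ b) (hs : HasCompactSupport b) :
    ∃ C : ℝ, 0 ≤ C ∧ ∀ x y, |b y - b x - fderiv ℝ b x (y - x)| ≤ C * ‖y - x‖ ^ 2 := by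
  obtain ⟨C, hC⟩ := ContDiff.lipschitzWith_of_hasCompactSupport (hs.fderiv ℝ)
    (hb.fderiv_right (m := ∞) (by simp)) (by simp)
  refine ⟨C, C.2, fun x y => ?_⟩
  have h := Convex.norm_image_sub_le_of_norm_fderiv_le' (𝕜 := ℝ) (f := b) (C := C * ‖y - x‖)
    (s := segment ℝ x y) (x := x) (y := y) (φ := fderiv ℝ b x)
    (fun z _ => hb.differentiable (by norm_num) z)
    (fun z hz => by
      have h1 := hC.dist_le_mul z x
      rw [dist_eq_norm, dist_eq_norm] at h1
      refine h1.trans (mul_le_mul_of_nonneg_left ?_ C.2)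
      obtain ⟨s, t, hs, ht, hst, rfl⟩ := hz
      rw [show s • x + t • y - x = t • (y - x) by
        rw [show s = 1 - t by linarith, sub_smul, one_smul, smul_sub]; abel, norm_smul,
        Real.norm_eq_abs, abs_of_nonneg ht]
      have : t ≤ 1 := by linarith
      exact mul_le_of_le_one_left (norm_nonneg _) this)
    (convex_segment x y) (left_mem_segment ℝ x y) (right_mem_segment ℝ x y)
  rw [Real.norm_eq_abs] at h
  calc _ ≤ _ := h
    _ = _ := by ring

variable {n : ℕ}

/-- the quadratic form `∑ (m+1) x_m²` -/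
def qf (x : Euc n) : ℝ := ∑ m : Fin n, (((m : ℕ) : ℝ) + 1) * x m ^ 2

/-- its polar form `∑ (m+1) x_m y_m` -/
def bf (x y : Euc n) : ℝ := ∑ m : Fin n, (((m : ℕ) : ℝ) + 1) * (x m * y m)

theorem qf_nonneg (x : Euc n) : 0 ≤ qf x := Finset.sum_nonneg fun m _ => by positivity

theorem contDiff_qf : ContDiff ℝ ∞ (qf (n := n)) := by unfold qf; fun_prop

theorem qf_line (x w : Euc n) (t : ℝ) : qf (x + t • w) = qf x + 2 * t * bf x w + t ^ 2 * qf w := by
  simp only [qf, bf, Finset.mul_sum, ← Finset.sum_add_distrib]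
  refine Finset.sum_congr rfl fun m _ => ?_
  simp only [PiLp.add_apply, PiLp.smul_apply, smul_eq_mul]; ring

theorem fderiv_qf (x w : Euc n) : fderiv ℝ (qf (n := n)) x w = 2 * bf x w := by
  have h1 : HasDerivAt (fun t : ℝ => x + t • w) w 0 := by
    simpa using ((hasDerivAt_id (0:ℝ)).smul_const w).const_add x
  have h2 := (contDiff_qf.differentiable (by norm_num) (x + (0:ℝ) • w)).hasFDerivAt
  have h3 := h2.comp_hasDerivAt (0 : ℝ) h1
  rw [zero_smul, add_zero] at h3
  have h4 : (qf (n := n) ∘ fun t : ℝ => x + t • w) =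
      fun t : ℝ => qf x + 2 * t * bf x w + t ^ 2 * qf w := by
    funext t; exact qf_line x w t
  rw [h4] at h3
  have h5 : HasDerivAt (fun t : ℝ => qf x + 2 * t * bf x w + t ^ 2 * qf w) (2 * bf x w) 0 := by
    have a1 : HasDerivAt (fun t : ℝ => 2 * t * bf x w) (2 * bf x w) 0 := by
      have := ((hasDerivAt_id (0:ℝ)).const_mul 2).mul_const (bf x w)
      simpa using this
    have a2 : HasDerivAt (fun t : ℝ => t ^ 2 * qf w) 0 0 := by
      have := (hasDerivAt_pow 2 (0:ℝ)).mul_const (qf w)
      simpa using this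
    have := (a1.const_add (qf x)).fun_add a2
    rwa [add_zero] at this
  exact h3.unique h5

variable (k : Fin n)

/-- the pole -/
noncomputable def pole : Euc n := EuclideanSpace.single k 1

/-- the bump function -/
noncomputable def bump : ContDiffBump (pole k) := ⟨1 / 8, 1 / 4, by norm_num, by norm_num⟩

/-- the perturbation -/
noncomputable def pert (x : Euc n) : ℝ := bump k x * qf x

theorem contDiff_pert : ContDiff ℝ ∞ (pert k) := (bump k).contDiff.mul contDiff_qf

theorem compact_pert : HasCompactSupport (pert k) := (bump k).hasCompactSupport.mul_right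

theorem pert_nonneg (x : Euc n) : 0 ≤ pert k x := mul_nonneg (bump k).nonneg (qf_nonneg x)

theorem pert_zero_of {x : Euc n} (h : 1 / 4 < dist x (pole k)) : ∀ᶠ y in 𝓝 x, pert k y = 0 := by
  have h1 : ∀ᶠ y in 𝓝 x, 1 / 4 < dist y (pole k) :=
    ((continuous_id.dist continuous_const).tendsto x).eventually (lt_mem_nhds h)
  filter_upwards [h1] with y hy
  rw [pert, (bump k).zero_of_le_dist hy.le, zero_mul]

theorem pert_eq_of {x : Euc n} (h : dist x (pole k) < 1 / 8) : ∀ᶠ y in 𝓝 x, pert k y = qf y := by
  have h1 : ∀ᶠ y in 𝓝 x, dist y (pole k) < 1 / 8 :=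
    ((continuous_id.dist continuous_const).tendsto x).eventually (gt_mem_nhds h)
  filter_upwards [h1] with y hy
  rw [pert, (bump k).one_of_mem_closedBall (by rw [Metric.mem_closedBall]; exact hy.le), one_mul]

/-- the constant of the perturbation -/
noncomputable def CC : ℝ := (taylor (contDiff_pert k) (compact_pert k)).choose

theorem CC_nonneg : 0 ≤ CC k := (taylor (contDiff_pert k) (compact_pert k)).choose_spec.1

theorem CC_spec (x y : Euc n) :
    |pert k y - pert k x - fderiv ℝ (pert k) x (y - x)| ≤ CC k * ‖y - x‖ ^ 2 :=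
  (taylor (contDiff_pert k) (compact_pert k)).choose_spec.2 x y

/-- the size of the perturbation -/
noncomputable def eps : ℝ := 1 / (2 * CC k + 16 * n)

theorem n_pos (k : Fin n) : (0:ℝ) < n := by
  have := k.pos
  exact_mod_cast this

theorem eps_pos : 0 < eps k := by
  have h1 := CC_nonneg k
  have h2 := n_pos k
  unfold eps
  positivity

theorem eps_CC : eps k * CC k ≤ 1 / 2 := by
  have h1 := CC_nonneg k
  have h2 := n_pos k
  unfold eps
  rw [one_div, inv_mul_eq_div, div_le_iff₀ (by positivity)]
  linarith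

theorem eps_n : eps k * n ≤ 1 / 16 := by
  have h1 := CC_nonneg k
  have h2 := n_pos k
  unfold eps
  rw [one_div, inv_mul_eq_div, div_le_iff₀ (by positivity)]
  linarith

/-- the defining function of the body -/
noncomputable def ff (x : Euc n) : ℝ := ‖x‖ ^ 2 + eps k * pert k x

/-- its gradient -/
noncomputable def gg (x : Euc n) : Euc n := (2:ℝ) • x + eps k • gradient (pert k) x

theorem gg_inner (x w : Euc n) : ⟪gg k x, w⟫ = 2 * ⟪x, w⟫ + eps k * fderiv ℝ (pert k) x w := by
  have h1 : ⟪gradient (pert k) x, w⟫ = fderiv ℝ (pert k) x w := by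
    have := ((contDiff_pert k).differentiable (by norm_num) x).hasGradientAt.hasFDerivAt.fderiv
    rw [this, InnerProductSpace.toDual_apply_apply]
  rw [gg, inner_add_left, real_inner_smul_left, real_inner_smul_left, h1]

theorem strong : Strong (ff k) (gg k) where
  cd := by
    unfold ff
    exact (contDiff_norm_sq ℝ).add (contDiff_const.mul (contDiff_pert k))
  grad := by
    intro x
    have h1 := (hasStrictFDerivAt_norm_sq x).hasFDerivAt
    have h2 := ((contDiff_pert k).differentiable (by norm_num) x).hasFDerivAt.const_mul (eps k)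
    have h3 := h1.add h2
    have h4 : (InnerProductSpace.toDual ℝ (Euc n)) (gg k x) =
        2 • innerSL ℝ x + eps k • fderiv ℝ (pert k) x := by
      ext w
      rw [InnerProductSpace.toDual_apply_apply, gg_inner]
      simp
    show HasFDerivAt (ff k) _ x
    rw [h4]
    exact h3
  ge := by
    intro x y
    rw [gg_inner]
    have h1 := CC_spec k x y
    rw [abs_le] at h1
    have h2 := eps_CC k
    have h3 := eps_pos k
    have h4 : ‖y‖ ^ 2 = ‖x‖ ^ 2 + 2 * ⟪x, y - x⟫ + ‖y - x‖ ^ 2 := by
      have := norm_add_sq_real x (y - x)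
      rwa [add_sub_cancel] at this
    have h5 : eps k * (-(CC k * ‖y - x‖ ^ 2)) ≤
        eps k * (pert k y - pert k x - fderiv ℝ (pert k) x (y - x)) :=
      mul_le_mul_of_nonneg_left h1.1 h3.le
    have h6 : eps k * CC k * ‖y - x‖ ^ 2 ≤ 1 / 2 * ‖y - x‖ ^ 2 :=
      mul_le_mul_of_nonneg_right h2 (by positivity)
    unfold ff
    rw [h4]
    nlinarith
  lower := by
    intro x
    have := mul_nonneg (eps_pos k).le (pert_nonneg k x)
    unfold ff
    linarith
  zero := by
    have h1 : pert k 0 = 0 := by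
      unfold pert qf
      simp
    unfold ff
    rw [h1]
    simp

end Pool.Agent.K6.H56.MBI
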