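import Pool.Agent.K6.H56.MBI4

/-!
# The perturbed ball: not an ellipsoid, not a body of revolution, with invariant hypersurfaces
-/

set_option autoImplicit false
set_option linter.unusedSectionVars false

open Set Filter Topology
open scoped RealInnerProductSpace ContDiff

namespace Pool.Agent.K6.H56.MBI

open Pool.Agent.H703R3.MB

variable {n : ℕ}

/-- The rotation by the angle `θ` in the plane spanned by the orthonormal vectors `a, b`, about the
affine subspace of codimension two through `c` orthogonal to `a` and `b`. -/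
noncomputable def rot (a b c : Euc n) (θ : ℝ) (x : Euc n) : Euc n :=
  x + (Real.cos θ - 1) • (⟪x - c, a⟫ • a + ⟪x - c, b⟫ • b) +
    Real.sin θ • (⟪x - c, a⟫ • b - ⟪x - c, b⟫ • a)

/-- `K` is a body of revolution: it is invariant under all rotations about some affine subspace of
codimension two. -/
def IsBodyOfRevolution (K : Set (Euc n)) : Prop :=
  ∃ a b c : Euc n, ‖a‖ = 1 ∧ ‖b‖ = 1 ∧ ⟪a, b⟫ = 0 ∧ ∀ θ : ℝ, rot a b c θ '' K = K

variable (k : Fin n)

theorem dist_pole_ge {i j : Fin n} (hij : i ≠ j) (hik : i ≠ k) (hjk : j ≠ k) (x : Euc n) :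
    x i ^ 2 + x j ^ 2 ≤ dist x (pole k) ^ 2 := by
  rw [dist_eq_norm]
  have h := two_le_norm_sq hij (x - pole k)
  have h1 : (x - pole k) i = x i := by
    simp [pole, hik]
  have h2 : (x - pole k) j = x j := by
    simp [pole, hjk]
  rwa [h1, h2] at h

/-- the perturbation vanishes far from the axis -/
theorem pert_zero {i j : Fin n} (hij : i ≠ j) (hik : i ≠ k) (hjk : j ≠ k) {x : Euc n}
    (hx : 1 / 4 ≤ x i ^ 2 + x j ^ 2) : ∀ᶠ y in 𝓝 x, pert k y = 0 := by
  apply pert_zero_of
  have h1 := dist_pole_ge k hij hik hjk x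
  have h2 : 0 ≤ dist x (pole k) := dist_nonneg
  nlinarith

theorem gg_of_zero {x : Euc n} (h : ∀ᶠ y in 𝓝 x, pert k y = 0) (w : Euc n) :
    ⟪gg k x, w⟫ = 2 * ⟪x, w⟫ := by
  have h1 : pert k =ᶠ[𝓝 x] fun _ => 0 := h
  rw [gg_inner, h1.fderiv_eq]
  simp

/-- the rotation field -/
noncomputable def field (i j : Fin n) (x : Euc n) : Euc n :=
  EuclideanSpace.single j (x i) - EuclideanSpace.single i (x j)

theorem inner_field (i j : Fin n) (x w : Euc n) : ⟪w, field i j x⟫ = wedge i j x w := by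
  unfold field wedge
  rw [inner_sub_right, EuclideanSpace.inner_single_right, EuclideanSpace.inner_single_right]
  simp

theorem hsym {i j : Fin n} (hij : i ≠ j) (hik : i ≠ k) (hjk : j ≠ k) :
    ∀ x ∈ frontier (Body (ff k)), (1 / 2 : ℝ) ^ 2 ≤ x i ^ 2 + x j ^ 2 →
      wedge i j x (outerNormal (Body (ff k)) x) = 0 := by
  intro x hx hr
  rw [(strong k).frontier_body] at hx
  rw [← inner_field]
  refine (strong k).normal_orth hx ?_
  rw [gg_of_zero k (pert_zero k hij hik hjk (by linarith)), inner_field]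
  unfold wedge
  ring

theorem level_nonempty {i j : Fin n} (hij : i ≠ j) (hik : i ≠ k) (hjk : j ≠ k) :
    (level (Body (ff k)) i j (1 / 2)).Nonempty := by
  refine ⟨(EuclideanSpace.single i (1 / 2), EuclideanSpace.single j 1), ⟨?_, ?_, 0, ?_⟩, ?_⟩
  · simp
  · rw [EuclideanSpace.inner_single_right]
    simp [hij.symm]
  · rw [(strong k).interior_body]
    show ff k (_ + (0:ℝ) • _) < 1
    rw [zero_smul, add_zero]
    have h1 : pert k (EuclideanSpace.single i (1 / 2)) = 0 :=
      (pert_zero k hij hik hjk (x := EuclideanSpace.single i (1 / 2)) (by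
        simp [hij.symm]; norm_num)).self_of_nhds
    unfold ff
    rw [h1]
    simp
    norm_num
  · unfold wedge
    simp [hij, hij.symm]

theorem invariant {i j : Fin n} (hij : i ≠ j) (hik : i ≠ k) (hjk : j ≠ k) :
    IsInvariantHypersurface (Body (ff k)) (level (Body (ff k)) i j (1 / 2)) :=
  criterion (strong k).isTable hij (by norm_num) (level_nonempty k hij hik hjk)
    (hsym k hij hik hjk)

/-! ### Not an ellipsoid -/

theorem ff_pole : 1 < ff k (pole k) := by
  have h1 : pert k (pole k) = qf (pole k) := (pert_eq_of k (by simp)).self_of_nhds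
  have h2 : qf (pole k) = (k : ℕ) + 1 := by
    unfold qf pole
    rw [Finset.sum_eq_single k]
    · simp
    · intro m _ hm
      simp [hm]
    · simp
  have h3 : ‖pole k‖ = 1 := by simp [pole]
  unfold ff
  rw [h1, h2, h3]
  have := eps_pos k
  have h4 : 0 < eps k * ((k : ℕ) + 1) := by positivity
  linarith

theorem ff_unit {i j : Fin n} (hij : i ≠ j) (hik : i ≠ k) (hjk : j ≠ k) {a b : ℝ}
    (hab : a ^ 2 + b ^ 2 = 1) (ha : 1 / 4 ≤ a ^ 2) :
    ff k (a • EuclideanSpace.single i (1:ℝ) + b • pole k) = 1 := by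
  have h1 : pert k (a • EuclideanSpace.single i (1:ℝ) + b • pole k) = 0 :=
    (pert_zero k hij hik hjk (by
      simp [pole, hij.symm, hik, hjk]
      linarith)).self_of_nhds
  unfold ff
  rw [h1, norm_add_sq_real, norm_smul, norm_smul, real_inner_smul_left, real_inner_smul_right,
    mul_pow, mul_pow, Real.norm_eq_abs, Real.norm_eq_abs, sq_abs, sq_abs]
  have h2 : ⟪(EuclideanSpace.single i (1:ℝ) : Euc n), pole k⟫ = 0 := by
    rw [pole, EuclideanSpace.inner_single_right]
    simp [hik.symm]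
  rw [h2]
  simp [pole]
  linarith

theorem not_ellipsoid {i j : Fin n} (hij : i ≠ j) (hik : i ≠ k) (hjk : j ≠ k) :
    ¬ IsEllipsoid (Body (ff k)) := by
  rintro ⟨A, hA⟩
  set B := A.symm with hB
  have hBc : Continuous B := B.toAffineMap.continuous_of_finiteDimensional
  have hmem : ∀ x, x ∈ Body (ff k) ↔ ‖B x‖ ≤ 1 := by
    intro x
    rw [hA]
    constructor
    · rintro ⟨u, hu, rfl⟩
      rw [hB, AffineEquiv.symm_apply_apply]
      simpa using hu
    · intro h
      exact ⟨B x, by simpa using h, by rw [hB, AffineEquiv.apply_symm_apply]⟩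
  have hS := strong k
  have hone : ∀ x, ff k x = 1 → ‖B x‖ = 1 := by
    intro x hx
    have h1 : ‖B x‖ ≤ 1 := (hmem x).1 (show ff k x ≤ 1 from hx.le)
    refine le_antisymm h1 ?_
    by_contra hcon
    push Not at hcon
    have hc : Continuous fun s : ℝ => ‖B (x + s • x)‖ := by fun_prop
    have h2 : ∀ᶠ s : ℝ in 𝓝 0, ‖B (x + s • x)‖ < 1 := by
      exact (hc.tendsto 0).eventually (gt_mem_nhds (by simpa using hcon))
    obtain ⟨δ, hδ, hs⟩ := Metric.eventually_nhds_iff.1 h2
    have h4 := hs (y := δ / 2) (by rw [Real.dist_eq, sub_zero, abs_of_pos (by linarith)]; linarith)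
    have h5 : ff k (x + (δ / 2) • x) ≤ 1 := (hmem _).2 h4.le
    have h6 := hS.ge x (x + (δ / 2) • x)
    rw [add_sub_cancel_left, real_inner_smul_right] at h6
    have h7 := hS.inner_pos hx
    have h8 : 0 < δ / 2 * ⟪gg k x, x⟫ := by positivity
    have h9 : 0 ≤ ‖(δ / 2) • x‖ ^ 2 := by positivity
    linarith
  -- linear part
  set M := B.linear with hM
  set c := B 0 with hc
  have hBM : ∀ x, B x = M x + c := by
    intro x
    have := B.map_vadd 0 x
    simpa [vadd_eq_add] using this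
  set e : Euc n := EuclideanSpace.single i (1:ℝ) with he
  set p : Euc n := pole k with hp
  have hkey : ∀ a b : ℝ, a ^ 2 + b ^ 2 = 1 → 1 / 4 ≤ a ^ 2 →
      a ^ 2 * ‖M e‖ ^ 2 + 2 * a * b * ⟪M e, M p⟫ + b ^ 2 * ‖M p‖ ^ 2 +
        2 * (a * ⟪M e, c⟫ + b * ⟪M p, c⟫) + ‖c‖ ^ 2 = 1 := by
    intro a b hab ha
    have h1 := hone _ (ff_unit k hij hik hjk hab ha)
    rw [hBM, map_add, map_smul, map_smul] at h1
    have h2 : ‖a • M e + b • M p + c‖ ^ 2 = 1 := by rw [h1]; norm_num
    rw [norm_add_sq_real, norm_add_sq_real, inner_add_left, real_inner_smul_left,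
      real_inner_smul_left, real_inner_smul_left, real_inner_smul_right, norm_smul, norm_smul,
      mul_pow, mul_pow, Real.norm_eq_abs, Real.norm_eq_abs, sq_abs, sq_abs] at h2
    linarith
  have k1 := hkey 1 0 (by norm_num) (by norm_num)
  have k2 := hkey (-1) 0 (by norm_num) (by norm_num)
  have k3 := hkey (4 / 5) (3 / 5) (by norm_num) (by norm_num)
  have k4 := hkey (4 / 5) (-3 / 5) (by norm_num) (by norm_num)
  have k5 := hkey (-4 / 5) (3 / 5) (by norm_num) (by norm_num)
  have k6 := hkey (-4 / 5) (-3 / 5) (by norm_num) (by norm_num)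
  have h1 : ⟪M e, c⟫ = 0 := by linarith
  rw [h1] at k1 k2 k3 k4 k5 k6
  have h2 : ⟪M p, c⟫ = 0 := by linarith
  rw [h2] at k1 k2 k3 k4 k5 k6
  have h3 : ‖M p‖ ^ 2 + ‖c‖ ^ 2 = 1 := by linarith
  have h4 : ‖B p‖ ≤ 1 := by
    have h5 : ‖B p‖ ^ 2 = 1 := by
      rw [hBM, norm_add_sq_real, h2]
      linarith
    have h6 : 0 ≤ ‖B p‖ := norm_nonneg _
    nlinarith
  have h5 : ff k p ≤ 1 := (hmem p).2 h4
  have := ff_pole k
  linarith

end Pool.Agent.K6.H56.MBI
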