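import Pool.Agent.K6.H56.MBI5

/-!
# The perturbed ball is not a body of revolution
-/

set_option autoImplicit false
set_option linter.unusedSectionVars false

open Set Filter Topology
open scoped RealInnerProductSpace ContDiff

namespace Pool.Agent.K6.H56.MBI

open Pool.Agent.H703R3.MB

variable {n : ℕ} (k : Fin n)

theorem rot_zero (a b c x : Euc n) : rot a b c 0 x = x := by
  unfold rot; simp

theorem rot_norm {a b : Euc n} (ha : ‖a‖ = 1) (hb : ‖b‖ = 1) (hab : ⟪a, b⟫ = 0) (θ : ℝ)
    (x : Euc n) : ‖rot a b 0 θ x‖ ^ 2 = ‖x‖ ^ 2 := by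
  have hba : ⟪b, a⟫ = 0 := by rw [real_inner_comm]; exact hab
  have hcs := Real.sin_sq_add_cos_sq θ
  have haa : ⟪a, a⟫ = 1 := by rw [real_inner_self_eq_norm_sq, ha]; norm_num
  have hbb : ⟪b, b⟫ = 1 := by rw [real_inner_self_eq_norm_sq, hb]; norm_num
  rw [← real_inner_self_eq_norm_sq, ← real_inner_self_eq_norm_sq]
  unfold rot
  rw [sub_zero]
  simp only [inner_add_left, inner_add_right, inner_sub_left, inner_sub_right,
    real_inner_smul_left, real_inner_smul_right, haa, hbb, hab, hba,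
    real_inner_comm x a, real_inner_comm x b]
  have h1 : Real.sin θ ^ 2 = 1 - Real.cos θ ^ 2 := by linarith
  ring_nf
  rw [h1]
  ring

/-- the centre may be taken to be the origin -/
theorem centre {a b c : Euc n} (ha : ‖a‖ = 1) (hb : ‖b‖ = 1) (hab : ⟪a, b⟫ = 0)
    {i j : Fin n} (hij : i ≠ j) (hik : i ≠ k) (hjk : j ≠ k)
    (h : ∀ θ : ℝ, rot a b c θ '' (Body (ff k)) = Body (ff k)) : ⟪c, a⟫ = 0 ∧ ⟪c, b⟫ = 0 := by
  have hba : ⟪b, a⟫ = 0 := by rw [real_inner_comm]; exact hab
  have haa : ⟪a, a⟫ = 1 := by rw [real_inner_self_eq_norm_sq, ha]; norm_num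
  have hbb : ⟪b, b⟫ = 1 := by rw [real_inner_self_eq_norm_sq, hb]; norm_num
  set e : Euc n := EuclideanSpace.single i (1:ℝ) with he
  have hee : ‖e‖ = 1 := by rw [he]; simp
  have h1 : ff k e = 1 := by
    have := ff_unit k hij hik hjk (a := 1) (b := 0) (by norm_num) (by norm_num)
    simpa using this
  have h2 : ff k (-e) = 1 := by
    have := ff_unit k hij hik hjk (a := -1) (b := 0) (by norm_num) (by norm_num)
    simpa using this
  have m1 : rot a b c Real.pi e ∈ Body (ff k) := by
    rw [← h Real.pi]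
    exact mem_image_of_mem _ (show ff k e ≤ 1 from h1.le)
  have m2 : rot a b c Real.pi (-e) ∈ Body (ff k) := by
    rw [← h Real.pi]
    exact mem_image_of_mem _ (show ff k (-e) ≤ 1 from h2.le)
  have n1 := (strong k).norm_le_of_mem m1
  have n2 := (strong k).norm_le_of_mem m2
  set u := rot a b c Real.pi e with hu
  set w := rot a b c Real.pi (-e) with hw
  have hu' : u = e - (2:ℝ) • (⟪e - c, a⟫ • a + ⟪e - c, b⟫ • b) := by
    rw [hu]; unfold rot
    rw [Real.cos_pi, Real.sin_pi, zero_smul, add_zero]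
    rw [show (-1 - 1 : ℝ) = -2 by norm_num, neg_smul, ← sub_eq_add_neg]
  have hw' : w = -e - (2:ℝ) • (⟪-e - c, a⟫ • a + ⟪-e - c, b⟫ • b) := by
    rw [hw]; unfold rot
    rw [Real.cos_pi, Real.sin_pi, zero_smul, add_zero]
    rw [show (-1 - 1 : ℝ) = -2 by norm_num, neg_smul, ← sub_eq_add_neg]
  have hpar := parallelogram_law_with_norm ℝ u w
  have hdiff : ‖u - w‖ * ‖u - w‖ = 4 := by
    rw [← real_inner_self_eq_norm_mul_norm]
    have hd : u - w = (2:ℝ) • (e - (2:ℝ) • (⟪e, a⟫ • a + ⟪e, b⟫ • b)) := by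
      rw [hu', hw']
      simp only [inner_sub_left, inner_neg_left]
      module
    rw [hd]
    have hee' : ⟪e, e⟫ = 1 := by rw [real_inner_self_eq_norm_sq, hee]; norm_num
    simp only [inner_add_left, inner_add_right, inner_sub_left, inner_sub_right,
      real_inner_smul_left, real_inner_smul_right, haa, hbb, hab, hba, hee',
      real_inner_comm e a, real_inner_comm e b]
    ring
  have hsum : ‖u + w‖ * ‖u + w‖ ≤ 0 := by
    have hn1 := norm_nonneg u
    have hn2 := norm_nonneg w
    nlinarith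
  have hs0 : u + w = 0 := by
    have h3 : ‖u + w‖ = 0 := by
      have := norm_nonneg (u + w)
      nlinarith
    exact norm_eq_zero.1 h3
  have hs1 : u + w = (4:ℝ) • (⟪c, a⟫ • a + ⟪c, b⟫ • b) := by
    rw [hu', hw']
    simp only [inner_sub_left, inner_neg_left]
    module
  rw [hs1] at hs0
  have hs2 : ⟪c, a⟫ • a + ⟪c, b⟫ • b = 0 := by
    rcases smul_eq_zero.1 hs0 with h4 | h4
    · norm_num at h4
    · exact h4
  constructor
  · have := congrArg (fun z => ⟪z, a⟫) hs2
    simp only [inner_add_left, real_inner_smul_left, haa, hba, inner_zero_left] at this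
    linarith
  · have := congrArg (fun z => ⟪z, b⟫) hs2
    simp only [inner_add_left, real_inner_smul_left, hbb, hab, inner_zero_left] at this
    linarith

/-- the velocity of the rotation -/
noncomputable def vel (a b x : Euc n) : Euc n := ⟪x, a⟫ • b - ⟪x, b⟫ • a

theorem rot_deriv (a b x : Euc n) :
    HasDerivAt (fun θ : ℝ => rot a b 0 θ x) (vel a b x) 0 := by
  have h1 : HasDerivAt (fun θ : ℝ => Real.cos θ - 1) 0 0 := by
    have := (Real.hasDerivAt_cos 0).sub_const 1
    simpa using this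
  have h2 : HasDerivAt (fun θ : ℝ => Real.sin θ) 1 0 := by
    have := Real.hasDerivAt_sin 0
    simpa using this
  have h3 := (h1.smul_const (⟪x - 0, a⟫ • a + ⟪x - 0, b⟫ • b)).const_add x
  have h4 := h2.smul_const (⟪x - 0, a⟫ • b - ⟪x - 0, b⟫ • a)
  have h5 := h3.fun_add h4
  unfold rot vel
  rw [zero_smul, zero_add, one_smul, sub_zero] at h5
  rw [sub_zero]
  exact h5

/-- `⟪x, a⟫ Λ(x, b) - ⟪x, b⟫ Λ(x, a)` -/
noncomputable def hq (a b x : Euc n) : ℝ := bf x (vel a b x)

theorem bf_comb (x y z : Euc n) (s t : ℝ) :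
    bf x (s • y - t • z) = s * bf x y - t * bf x z := by
  simp only [bf, Finset.mul_sum, ← Finset.sum_sub_distrib]
  refine Finset.sum_congr rfl fun m _ => ?_
  simp only [PiLp.sub_apply, PiLp.smul_apply, smul_eq_mul]; ring

theorem hq_eq (a b x : Euc n) : hq a b x = ⟪x, a⟫ * bf x b - ⟪x, b⟫ * bf x a := by
  unfold hq vel
  rw [bf_comb]

theorem bf_add_left (x y z : Euc n) (s t : ℝ) :
    bf (s • x + t • y) z = s * bf x z + t * bf y z := by
  simp only [bf, Finset.mul_sum, ← Finset.sum_add_distrib]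
  refine Finset.sum_congr rfl fun m _ => ?_
  simp only [PiLp.add_apply, PiLp.smul_apply, smul_eq_mul]; ring

theorem hq_smul (a b x : Euc n) (s : ℝ) : hq a b (s • x) = s ^ 2 * hq a b x := by
  have h1 : ∀ z, bf (s • x) z = s * bf x z := fun z => by
    have := bf_add_left x x z s 0
    simpa using this
  rw [hq_eq, hq_eq, h1, h1, real_inner_smul_left, real_inner_smul_left]
  ring

/-- the first order condition at boundary points near the pole -/
theorem first_order {a b : Euc n} (ha : ‖a‖ = 1) (hb : ‖b‖ = 1) (hab : ⟪a, b⟫ = 0)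
    (h : ∀ θ : ℝ, rot a b 0 θ '' (Body (ff k)) = Body (ff k)) {x : Euc n}
    (hx : ff k x = 1) (hd : dist x (pole k) < 1 / 8) : hq a b x = 0 := by
  have hle : ∀ θ : ℝ, ff k (rot a b 0 θ x) ≤ 1 := by
    intro θ
    have : rot a b 0 θ x ∈ Body (ff k) := by
      rw [← h θ]
      exact mem_image_of_mem _ (show ff k x ≤ 1 from hx.le)
    exact this
  have hcont : ContinuousAt (fun θ : ℝ => rot a b 0 θ x) 0 := (rot_deriv a b x).continuousAt
  have hev : ∀ᶠ y in 𝓝 x, pert k y = qf y := pert_eq_of k hd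
  have hev2 : ∀ᶠ θ : ℝ in 𝓝 0, pert k (rot a b 0 θ x) = qf (rot a b 0 θ x) := by
    have h1 : Tendsto (fun θ : ℝ => rot a b 0 θ x) (𝓝 0) (𝓝 x) := by
      have := hcont.tendsto
      rwa [rot_zero] at this
    exact h1.eventually hev
  have hmax : IsLocalMax (fun θ : ℝ => qf (rot a b 0 θ x)) 0 := by
    filter_upwards [hev2] with θ hθ
    have h1 := hle θ
    have h2 : qf x = pert k x := hev.self_of_nhds.symm
    show qf (rot a b 0 θ x) ≤ qf (rot a b 0 0 x)
    rw [rot_zero, h2, ← hθ]
    unfold ff at h1 hx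
    rw [rot_norm ha hb hab] at h1
    have h3 : eps k * pert k (rot a b 0 θ x) ≤ eps k * pert k x := by linarith
    exact le_of_mul_le_mul_left h3 (eps_pos k)
  have hder : HasDerivAt (fun θ : ℝ => qf (rot a b 0 θ x)) (2 * hq a b x) 0 := by
    have h1 := (contDiff_qf.differentiable (by norm_num) (rot a b 0 0 x)).hasFDerivAt
    have h2 := h1.comp_hasDerivAt (0 : ℝ) (rot_deriv a b x)
    rw [rot_zero, fderiv_qf] at h2
    exact h2
  have := hmax.hasDerivAt_eq_zero hder
  linarith

/-- a boundary point on the axis near the pole -/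
theorem exists_base : ∃ s : ℝ, 0 < s ∧ ff k (s • pole k) = 1 ∧ dist (s • pole k) (pole k) < 1 / 8 := by
  have he := eps_pos k
  have hn := eps_n k
  have hk : ((k : ℕ) : ℝ) + 1 ≤ n := by exact_mod_cast k.isLt
  have hp1 : ‖pole k‖ = 1 := by simp [pole]
  have hqf : ∀ s : ℝ, qf (s • pole k) = s ^ 2 * ((k : ℕ) + 1) := by
    intro s
    unfold qf pole
    rw [Finset.sum_eq_single k]
    · simp; ring
    · intro m _ hm
      simp [hm]
    · simp
  set t : ℝ := eps k * ((k : ℕ) + 1) with ht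
  have ht0 : 0 < t := by positivity
  have ht1 : t ≤ 1 / 16 := (mul_le_mul_of_nonneg_left hk he.le).trans hn
  set s : ℝ := Real.sqrt (1 / (1 + t)) with hs
  have hs2 : s ^ 2 = 1 / (1 + t) := Real.sq_sqrt (by positivity)
  have hs0 : 0 < s := Real.sqrt_pos.2 (by positivity)
  have hs3 : s ^ 2 * (1 + t) = 1 := by rw [hs2]; field_simp
  have hs4 : s ≤ 1 := by nlinarith
  have hs5 : 7 / 8 < s := by nlinarith
  have hdist : dist (s • pole k) (pole k) < 1 / 8 := by
    rw [dist_eq_norm, show s • pole k - pole k = (s - 1) • pole k by rw [sub_smul, one_smul],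
      norm_smul, hp1, mul_one, Real.norm_eq_abs, abs_lt]
    constructor <;> linarith
  refine ⟨s, hs0, ?_, hdist⟩
  have h1 : pert k (s • pole k) = qf (s • pole k) := (pert_eq_of k hdist).self_of_nhds
  unfold ff
  rw [h1, hqf, norm_smul, hp1, mul_one, Real.norm_eq_abs, sq_abs]
  rw [ht] at hs3
  linarith

/-- the first order condition holds near the base point -/
theorem eventually_hq {a b : Euc n} (ha : ‖a‖ = 1) (hb : ‖b‖ = 1) (hab : ⟪a, b⟫ = 0)
    (h : ∀ θ : ℝ, rot a b 0 θ '' (Body (ff k)) = Body (ff k)) {x : Euc n}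
    (hx : ff k x = 1) (hd : dist x (pole k) < 1 / 8) : ∀ᶠ y in 𝓝 x, hq a b y = 0 := by
  have hS := strong k
  have hc : Continuous fun z : ℝ × Euc n => dist (z.1 • z.2) (pole k) := by fun_prop
  have h1 : ∀ᶠ z : ℝ × Euc n in 𝓝 ((1 : ℝ), x), dist (z.1 • z.2) (pole k) < 1 / 8 :=
    (hc.tendsto ((1 : ℝ), x)).eventually (gt_mem_nhds (by simpa using hd))
  rw [nhds_prod_eq] at h1
  obtain ⟨pa, hpa, pb, hpb, hab2⟩ := eventually_prod_iff.1 h1
  obtain ⟨δ, hδ, hδ2⟩ := Metric.eventually_nhds_iff.1 hpa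
  set η : ℝ := min (δ / 2) (1 / 2) with hη
  have hη0 : 0 < η := by positivity
  have hη1 : η ≤ 1 / 2 := min_le_right _ _
  have hη2 : η < δ := lt_of_le_of_lt (min_le_left _ _) (by linarith)
  have hx0 : x ≠ 0 := by
    rintro rfl
    have := hS.zero
    linarith
  have hup : 1 < ff k ((1 + η) • x) := by
    have h2 := hS.ge x ((1 + η) • x)
    rw [show (1 + η) • x - x = η • x by rw [add_smul, one_smul]; abel, real_inner_smul_right,
      hx] at h2
    have h3 := mul_pos hη0 (hS.inner_pos hx)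
    have h4 : 0 ≤ ‖η • x‖ ^ 2 := by positivity
    linarith
  have hdown : ff k ((1 - η) • x) < 1 := by
    have h2 := hS.strict (x := x) (y := 0) hx0 (a := 1 - η) (b := η) (by linarith) hη0 (by ring)
    rw [smul_zero, add_zero, hx] at h2
    have h3 := hS.zero
    nlinarith
  have hcf : Continuous (ff k) := hS.continuous
  have e1 : ∀ᶠ y in 𝓝 x, 1 < ff k ((1 + η) • y) :=
    ((hcf.comp (continuous_const_smul (1 + η))).tendsto x).eventually (lt_mem_nhds hup)
  have e2 : ∀ᶠ y in 𝓝 x, ff k ((1 - η) • y) < 1 :=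
    ((hcf.comp (continuous_const_smul (1 - η))).tendsto x).eventually (gt_mem_nhds hdown)
  filter_upwards [e1, e2, hpb] with y hy1 hy2 hy3
  have hcl : Continuous fun s : ℝ => ff k (s • y) := hcf.comp (by fun_prop)
  obtain ⟨s, hs, hs1⟩ := intermediate_value_Icc (show 1 - η ≤ 1 + η by linarith) hcl.continuousOn
    (show (1 : ℝ) ∈ Icc (ff k ((1 - η) • y)) (ff k ((1 + η) • y)) from ⟨hy2.le, hy1.le⟩)
  have hs1 : ff k (s • y) = 1 := hs1
  have hsd : dist (s • y) (pole k) < 1 / 8 := by
    refine hab2 (x := s) (hδ2 ?_) (y := y) hy3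
    rw [Real.dist_eq, abs_lt]
    constructor <;> linarith [hs.1, hs.2]
  have h5 := first_order k ha hb hab h hs1 hsd
  rw [hq_smul] at h5
  have h6 : 0 < s := by linarith [hs.1]
  rcases mul_eq_zero.1 h5 with h7 | h7
  · have : 0 < s ^ 2 := by positivity
    linarith
  · exact h7

theorem hq_line (a b x w : Euc n) (t : ℝ) :
    hq a b (x + t • w) + hq a b (x + (-t) • w) = 2 * hq a b x + 2 * t ^ 2 * hq a b w := by
  have h1 : ∀ (t : ℝ) (z : Euc n), bf (x + t • w) z = bf x z + t * bf w z := fun t z => by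
    have := bf_add_left x w z 1 t
    simpa using this
  simp only [hq_eq, h1, inner_add_left, real_inner_smul_left]
  ring

theorem hq_zero {a b : Euc n} (ha : ‖a‖ = 1) (hb : ‖b‖ = 1) (hab : ⟪a, b⟫ = 0)
    (h : ∀ θ : ℝ, rot a b 0 θ '' (Body (ff k)) = Body (ff k)) (w : Euc n) : hq a b w = 0 := by
  obtain ⟨s, -, hs1, hs2⟩ := exists_base k
  have hev := eventually_hq k ha hb hab h hs1 hs2
  set x := s • pole k with hx
  have hc : Continuous fun t : ℝ => x + t • w := by fun_prop
  have hc2 : Continuous fun t : ℝ => x + (-t) • w := by fun_prop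
  have e1 : ∀ᶠ t : ℝ in 𝓝 0, hq a b (x + t • w) = 0 := by
    exact (hc.tendsto 0).eventually (p := fun y => hq a b y = 0) (by simpa using hev)
  have e2 : ∀ᶠ t : ℝ in 𝓝 0, hq a b (x + (-t) • w) = 0 := by
    exact (hc2.tendsto 0).eventually (p := fun y => hq a b y = 0) (by simpa using hev)
  obtain ⟨δ, hδ, h3⟩ := Metric.eventually_nhds_iff.1 (e1.and e2)
  obtain ⟨h4, h5⟩ := h3 (y := δ / 2) (by
    rw [Real.dist_eq, sub_zero, abs_of_pos (by linarith)]; linarith)
  have h6 := hq_line a b x w (δ / 2)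
  rw [h4, h5, hev.self_of_nhds] at h6
  have h7 : 0 < (δ / 2) ^ 2 := by positivity
  have h8 : (δ / 2) ^ 2 * hq a b w = 0 := by linarith
  rcases mul_eq_zero.1 h8 with h9 | h9
  · linarith
  · exact h9

theorem not_revolution {i j : Fin n} (hij : i ≠ j) (hik : i ≠ k) (hjk : j ≠ k) :
    ¬ IsBodyOfRevolution (Body (ff k)) := by
  rintro ⟨a, b, c, ha, hb, hab, h⟩
  obtain ⟨hca, hcb⟩ := centre k ha hb hab hij hik hjk h
  have h0 : ∀ θ : ℝ, rot a b 0 θ '' (Body (ff k)) = Body (ff k) := by
    intro θ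
    have h1 : rot a b 0 θ = rot a b c θ := by
      funext x
      unfold rot
      simp only [inner_sub_left, hca, hcb, inner_zero_left]
    rw [h1]
    exact h θ
  have hz := hq_zero k ha hb hab h0
  -- coefficients
  have hcoef : ∀ m l : Fin n, a m * b l = a l * b m := by
    intro m l
    by_cases hml : m = l
    · rw [hml]
    have h1 := hz (EuclideanSpace.single m (1:ℝ) + EuclideanSpace.single l (1:ℝ))
    have hbf : ∀ (r : Fin n) (z : Euc n), bf (EuclideanSpace.single r (1:ℝ)) z =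
        ((r : ℕ) + 1) * z r := by
      intro r z
      unfold bf
      rw [Finset.sum_eq_single r]
      · simp
      · intro m' _ hm'
        simp [hm']
      · simp
    have hbf2 : ∀ z : Euc n, bf (EuclideanSpace.single m (1:ℝ) + EuclideanSpace.single l (1:ℝ)) z
        = ((m : ℕ) + 1) * z m + ((l : ℕ) + 1) * z l := by
      intro z
      have := bf_add_left (EuclideanSpace.single m (1:ℝ)) (EuclideanSpace.single l (1:ℝ)) z 1 1
      rw [one_smul, one_smul, one_mul, one_mul, hbf, hbf] at this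
      exact this
    have hin : ∀ z : Euc n, ⟪(EuclideanSpace.single m (1:ℝ) : Euc n) +
        EuclideanSpace.single l (1:ℝ), z⟫ = z m + z l := by
      intro z
      rw [inner_add_left, EuclideanSpace.inner_single_left, EuclideanSpace.inner_single_left]
      simp
    rw [hq_eq, hbf2, hbf2, hin, hin] at h1
    have h2 : (((l : ℕ) : ℝ) - ((m : ℕ) : ℝ)) * (a m * b l - a l * b m) = 0 := by linarith
    rcases mul_eq_zero.1 h2 with h3 | h3
    · exfalso
      apply hml
      have : ((l : ℕ) : ℝ) = ((m : ℕ) : ℝ) := by linarith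
      exact (Fin.ext (by exact_mod_cast this)).symm
    · linarith
  have hsum : ∀ l : Fin n, b l = 0 := by
    intro l
    have h1 : ∑ m, a m * (a m * b l) = ∑ m, a m * (a l * b m) :=
      Finset.sum_congr rfl fun m _ => by rw [hcoef]
    have h2 : ∑ m, a m * (a m * b l) = ‖a‖ ^ 2 * b l := by
      rw [EuclideanSpace.norm_sq_eq, Finset.sum_mul]
      refine Finset.sum_congr rfl fun m _ => ?_
      rw [Real.norm_eq_abs, sq_abs]; ring
    have h3 : ∑ m, a m * (a l * b m) = a l * ⟪a, b⟫ := by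
      rw [PiLp.inner_apply, Finset.mul_sum]
      refine Finset.sum_congr rfl fun m _ => ?_
      simp
      ring
    rw [h2, h3, ha, hab] at h1
    linarith
  have hb0 : b = 0 := by
    ext l
    rw [hsum l]
    simp
  rw [hb0, norm_zero] at hb
  exact zero_ne_one hb

end Pool.Agent.K6.H56.MBI
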