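import Mathlib
import Pool.Agent.R143.MonoPath

set_option autoImplicit false

/-!
# Dense point sets that need many monotone paths: counting long edges of a monotone path
-/

namespace Pool.Agent.K6.H56.MonoLower

open Finset

/-- the ratio of consecutive displacements -/
def KK (M : ℕ) : ℝ := 100 * (M : ℝ) ^ 2

/-- the rank of a point of the grid -/
def rk (M : ℕ) (p : ℕ × ℕ) : ℕ := p.1 + M * p.2

/-- the size of the displacement of a point of the grid -/
noncomputable def rho (M : ℕ) (p : ℕ × ℕ) : ℝ := KK M ^ rk M p / KK M ^ (M ^ 2)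

/-- the height of a displaced grid point in direction `(u0, u1)` -/
noncomputable def ht (M : ℕ) (u0 u1 : ℝ) (p : ℕ × ℕ) : ℝ :=
  ((p.1 : ℝ) + rho M p) * u0 + ((p.2 : ℝ) + M * rho M p) * u1

theorem KK_ge {M : ℕ} (hM : 1 ≤ M) : (100 : ℝ) ≤ KK M := by
  have : (1 : ℝ) ≤ M := by exact_mod_cast hM
  unfold KK
  nlinarith

theorem KK_pos {M : ℕ} (hM : 1 ≤ M) : 0 < KK M := by linarith [KK_ge hM]

theorem rho_pos {M : ℕ} (hM : 1 ≤ M) (p : ℕ × ℕ) : 0 < rho M p := by
  have := KK_pos hM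
  unfold rho
  positivity

theorem rho_step {M : ℕ} (hM : 1 ≤ M) {p q : ℕ × ℕ} (h : rk M p < rk M q) :
    KK M * rho M p ≤ rho M q := by
  have h0 := KK_pos hM
  have h1 : KK M * KK M ^ rk M p ≤ KK M ^ rk M q := by
    rw [← pow_succ']
    exact pow_le_pow_right₀ (by linarith [KK_ge hM]) h
  unfold rho
  rw [← mul_div_assoc]
  exact div_le_div_of_nonneg_right h1 (by positivity)

theorem rho_le {M : ℕ} (hM : 1 ≤ M) {p : ℕ × ℕ} (h1 : p.1 < M) (h2 : p.2 < M) :
    rho M p ≤ 1 / KK M := by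
  have h0 := KK_pos hM
  have h3 : rk M p + 1 ≤ M ^ 2 := by
    unfold rk
    nlinarith
  have h4 : KK M ^ (rk M p + 1) ≤ KK M ^ (M ^ 2) :=
    pow_le_pow_right₀ (by linarith [KK_ge hM]) h3
  unfold rho
  rw [div_le_div_iff₀ (by positivity) h0]
  rw [pow_succ] at h4
  linarith

/-- the points `p` and `q` are on a common line of direction `(a, b)` -/
def SameLine (a b : ℕ) (p q : ℕ × ℕ) : Prop :=
  (a : ℤ) * q.2 - b * q.1 = (a : ℤ) * p.2 - b * p.1

theorem SameLine.symm {a b : ℕ} {p q : ℕ × ℕ} (h : SameLine a b p q) : SameLine a b q p := by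
  unfold SameLine at *; exact Eq.symm h

theorem SameLine.rk_lt {a b : ℕ} {p q : ℕ × ℕ} (ha : 1 ≤ a) (h : SameLine a b p q) (M : ℕ)
    (hx : p.1 < q.1) : rk M p < rk M q := by
  unfold SameLine at h
  have h1 : (p.2 : ℤ) ≤ q.2 := by
    have ha' : (1 : ℤ) ≤ a := by exact_mod_cast ha
    have hx' : (p.1 : ℤ) < q.1 := by exact_mod_cast hx
    have hb' : (0 : ℤ) ≤ b := by positivity
    by_contra hcon
    push Not at hcon
    have : (a : ℤ) * q.2 < a * p.2 := by nlinarith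
    nlinarith
  have h2 : p.2 ≤ q.2 := by exact_mod_cast h1
  unfold rk
  have := Nat.mul_le_mul_left M h2
  omega

theorem SameLine.eq_of_fst {a b : ℕ} {p q : ℕ × ℕ} (ha : 1 ≤ a) (h : SameLine a b p q)
    (hx : p.1 = q.1) : p = q := by
  unfold SameLine at h
  rw [hx] at h
  have h1 : (a : ℤ) * q.2 = a * p.2 := by linarith
  have ha' : (a : ℤ) ≠ 0 := by exact_mod_cast (by omega : a ≠ 0)
  have h2 : (q.2 : ℤ) = p.2 := mul_left_cancel₀ ha' h1
  have h3 : q.2 = p.2 := by exact_mod_cast h2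
  exact Prod.ext hx h3.symm

theorem SameLine.ht_sub {a b : ℕ} {p q : ℕ × ℕ} (ha : 1 ≤ a) (h : SameLine a b p q) (M : ℕ)
    (u0 u1 : ℝ) : ht M u0 u1 q - ht M u0 u1 p =
      ((q.1 : ℝ) - p.1) * (u0 + (b : ℝ) / a * u1) + (rho M q - rho M p) * (u0 + M * u1) := by
  unfold SameLine at h
  have h1 : (a : ℝ) * q.2 - b * q.1 = (a : ℝ) * p.2 - b * p.1 := by exact_mod_cast h
  have ha' : (a : ℝ) ≠ 0 := by exact_mod_cast (by omega : a ≠ 0)
  have h2 : (q.2 : ℝ) - p.2 = (b : ℝ) / a * (q.1 - p.1) := by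
    field_simp
    linarith
  unfold ht
  linear_combination u1 * h2

section line

variable {M : ℕ} {a b : ℕ} {p q : ℕ × ℕ} {u0 u1 : ℝ}

/-- the displacement is small compared to the slope along the line -/
def Low (M a b : ℕ) (u0 u1 : ℝ) (p : ℕ × ℕ) : Prop :=
  4 * (rho M p * |u0 + M * u1|) < |u0 + (b : ℝ) / a * u1|

/-- the displacement is large compared to the slope along the line -/
def High (M a b : ℕ) (u0 u1 : ℝ) (p : ℕ × ℕ) : Prop :=
  4 * M * |u0 + (b : ℝ) / a * u1| < rho M p * |u0 + M * u1|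

theorem KK_16 (hM : 1 ≤ M) : 16 * (M : ℝ) < KK M := by
  have : (1 : ℝ) ≤ M := by exact_mod_cast hM
  unfold KK
  nlinarith

theorem low_low (hM : 1 ≤ M) (ha : 1 ≤ a) (h : SameLine a b p q) (hx : p.1 < q.1)
    (hp : Low M a b u0 u1 p) (hq : Low M a b u0 u1 q) :
    (0 < u0 + (b : ℝ) / a * u1 → ht M u0 u1 p < ht M u0 u1 q) ∧
    (u0 + (b : ℝ) / a * u1 < 0 → ht M u0 u1 q < ht M u0 u1 p) := by
  have h1 := h.ht_sub ha M u0 u1
  have hx' : (p.1 : ℝ) + 1 ≤ q.1 := by exact_mod_cast hx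
  unfold Low at hp hq
  set τ := u0 + (b : ℝ) / a * u1
  set ν := u0 + M * u1
  have hpp := rho_pos hM p
  have hqp := rho_pos hM q
  have h2 : |(rho M q - rho M p) * ν| < |τ| := by
    rw [abs_mul]
    have h3 : |rho M q - rho M p| ≤ rho M q + rho M p := by
      rw [abs_le]; constructor <;> linarith
    have h4 := abs_nonneg ν
    nlinarith [mul_le_mul_of_nonneg_right h3 h4, abs_nonneg τ]
  obtain ⟨h5, h6⟩ := abs_lt.mp h2
  constructor
  · intro ht
    rw [abs_of_pos ht] at h5 h6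
    nlinarith
  · intro ht
    rw [abs_of_neg ht] at h5 h6
    nlinarith

theorem high_high (hM : 1 ≤ M) (ha : 1 ≤ a) (h : SameLine a b p q) (hx : p.1 < q.1)
    (hqM : q.1 < M) (hq : High M a b u0 u1 q) :
    (0 < u0 + M * u1 → ht M u0 u1 p < ht M u0 u1 q) ∧
    (u0 + M * u1 < 0 → ht M u0 u1 q < ht M u0 u1 p) := by
  have h1 := h.ht_sub ha M u0 u1
  have hx' : (p.1 : ℝ) < q.1 := by exact_mod_cast hx
  have hx2 : (q.1 : ℝ) - p.1 ≤ M := by
    have : (q.1 : ℝ) < M := by exact_mod_cast hqM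
    have : (0 : ℝ) ≤ p.1 := by positivity
    linarith
  unfold High at hq
  set τ := u0 + (b : ℝ) / a * u1
  set ν := u0 + M * u1
  have hpp := rho_pos hM p
  have hqp := rho_pos hM q
  have hst := rho_step hM (h.rk_lt ha M hx)
  have hK := KK_ge hM
  have h2 : rho M p ≤ rho M q / 100 := by nlinarith
  have h3 : |((q.1 : ℝ) - p.1) * τ| ≤ M * |τ| := by
    rw [abs_mul, abs_of_pos (by linarith : (0 : ℝ) < (q.1 : ℝ) - p.1)]
    exact mul_le_mul_of_nonneg_right hx2 (abs_nonneg τ)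
  obtain ⟨h5, h6⟩ := abs_le.mp h3
  have hMp : (0 : ℝ) ≤ M * |τ| := by positivity
  constructor
  · intro hn
    rw [abs_of_pos hn] at hq
    nlinarith
  · intro hn
    rw [abs_of_neg hn] at hq
    nlinarith

theorem low_high (hM : 1 ≤ M) (ha : 1 ≤ a) (h : SameLine a b p q) (hpM : p.1 < M)
    (hqM : q.1 < M) (hp : Low M a b u0 u1 p) (hq : High M a b u0 u1 q) :
    (0 < u0 + M * u1 → ht M u0 u1 p < ht M u0 u1 q) ∧
    (u0 + M * u1 < 0 → ht M u0 u1 q < ht M u0 u1 p) := by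
  have h1 := h.ht_sub ha M u0 u1
  have hM1 : (1 : ℝ) ≤ M := by exact_mod_cast hM
  have hx2 : |(q.1 : ℝ) - p.1| ≤ M := by
    have : (q.1 : ℝ) < M := by exact_mod_cast hqM
    have : (0 : ℝ) ≤ p.1 := by positivity
    have : (p.1 : ℝ) < M := by exact_mod_cast hpM
    have : (0 : ℝ) ≤ q.1 := by positivity
    rw [abs_le]; constructor <;> linarith
  unfold High at hq
  unfold Low at hp
  set τ := u0 + (b : ℝ) / a * u1
  set ν := u0 + M * u1
  have hpp := rho_pos hM p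
  have hqp := rho_pos hM q
  have h3 : |((q.1 : ℝ) - p.1) * τ| ≤ M * |τ| := by
    rw [abs_mul]
    exact mul_le_mul_of_nonneg_right hx2 (abs_nonneg τ)
  obtain ⟨h5, h6⟩ := abs_le.mp h3
  have ht0 := abs_nonneg τ
  have hMt : |τ| ≤ M * |τ| := by nlinarith
  constructor
  · intro hn
    rw [abs_of_pos hn] at hq hp
    nlinarith
  · intro hn
    rw [abs_of_neg hn] at hq hp
    nlinarith

theorem mid_mid (hM : 1 ≤ M) (ha : 1 ≤ a) (h : SameLine a b p q) (hx : p.1 < q.1)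
    (hp : ¬ Low M a b u0 u1 p) (hq : ¬ High M a b u0 u1 q) :
    ht M u0 u1 p = ht M u0 u1 q := by
  have h1 := h.ht_sub ha M u0 u1
  unfold High at hq
  unfold Low at hp
  push Not at hp hq
  set τ := u0 + (b : ℝ) / a * u1
  set ν := u0 + M * u1
  have hpp := rho_pos hM p
  have hqp := rho_pos hM q
  have hM1 : (1 : ℝ) ≤ M := by exact_mod_cast hM
  have hst := rho_step hM (h.rk_lt ha M hx)
  have hK := KK_16 hM
  have hν := abs_nonneg ν
  have h2 : KK M * (rho M p * |ν|) ≤ 16 * M * (rho M p * |ν|) := by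
    have h3 : KK M * (rho M p * |ν|) ≤ rho M q * |ν| := by
      rw [← mul_assoc]; exact mul_le_mul_of_nonneg_right hst hν
    have h4 : 4 * (M : ℝ) * |τ| ≤ 4 * M * (4 * (rho M p * |ν|)) :=
      mul_le_mul_of_nonneg_left hp (by positivity)
    linarith
  have h5 : rho M p * |ν| = 0 := by
    by_contra hne
    have h6 : 0 < rho M p * |ν| := lt_of_le_of_ne (by positivity) (Ne.symm hne)
    nlinarith
  have h7 : |ν| = 0 := by
    rcases mul_eq_zero.mp h5 with h8 | h8
    · linarith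
    · exact h8
  have h8 : |τ| = 0 := by
    rw [h5] at hp
    have := abs_nonneg τ
    linarith
  rw [abs_eq_zero] at h7 h8
  rw [h7, h8] at h1
  linarith

end line

/-- `q` is obtained from `p` by a long step in direction `(a, b)` -/
def Long (M a b : ℕ) (p q : ℕ × ℕ) : Prop :=
  ∃ k : ℕ, M ≤ 4 * (k * a) ∧ q.1 = p.1 + k * a ∧ q.2 = p.2 + k * b

theorem Long.sameLine {M a b : ℕ} {p q : ℕ × ℕ} (h : Long M a b p q) : SameLine a b p q := by
  obtain ⟨k, -, h1, h2⟩ := h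
  unfold SameLine
  rw [h1, h2]
  push_cast
  ring

/-- the long edges of direction `(a, b)` of a path -/
def LE (M a b : ℕ) (P : ℕ → ℕ × ℕ) (i : ℕ) : Prop :=
  Long M a b (P i) (P (i + 1)) ∨ Long M a b (P (i + 1)) (P i)

theorem LE.sameLine {M a b : ℕ} {P : ℕ → ℕ × ℕ} {i : ℕ} (h : LE M a b P i) :
    SameLine a b (P i) (P (i + 1)) := by
  rcases h with h | h
  · exact h.sameLine
  · exact h.sameLine.symm

open Classical in
/-- the indices of the long edges of direction `(a, b)` of a path -/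
noncomputable def edgeSet (M a b : ℕ) (P : ℕ → ℕ × ℕ) (t : ℕ) : Finset ℕ :=
  (range t).filter (fun i => i + 1 < t ∧ LE M a b P i)

theorem mono_of_succ {g : ℕ → ℝ} {t : ℕ} (h : ∀ i, i + 1 < t → g i < g (i + 1)) :
    ∀ i j, i < j → j < t → g i < g j := by
  intro i j hij
  induction j with
  | zero => omega
  | succ j ih =>
    intro hj
    rcases Nat.lt_succ_iff_lt_or_eq.mp hij with h1 | h1
    · exact (ih h1 (by omega)).trans (h j hj)
    · rw [h1]; exact h j hj

theorem mono_of_succ_le {g : ℕ → ℝ} {t : ℕ} (h : ∀ i, i + 1 < t → g i < g (i + 1)) :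
    ∀ i j, i ≤ j → j < t → g i ≤ g j := by
  intro i j hij hj
  rcases hij.eq_or_lt with h1 | h1
  · rw [h1]
  · exact (mono_of_succ h i j h1 hj).le


open Classical in
/-- the type of a long edge -/
noncomputable def code (M a b : ℕ) (u0 u1 : ℝ) (P : ℕ → ℕ × ℕ) (i : ℕ) : ℕ :=
  if Low M a b u0 u1 (P i) ∧ Low M a b u0 u1 (P (i + 1)) then
    4 * min (P i).1 (P (i + 1)).1 / M
  else if High M a b u0 u1 (P i) ∧ High M a b u0 u1 (P (i + 1)) then
    4 + 4 * min (P i).1 (P (i + 1)).1 / M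
  else if ¬ Low M a b u0 u1 (P i) ∧ ¬ High M a b u0 u1 (P i) then 8
  else if ¬ Low M a b u0 u1 (P (i + 1)) ∧ ¬ High M a b u0 u1 (P (i + 1)) then 9
  else 10

/-- what is needed to know about a path of the grid that is monotone in direction `(u0, u1)` -/
structure Path (M : ℕ) (u0 u1 : ℝ) (P : ℕ → ℕ × ℕ) (t : ℕ) : Prop where
  mem : ∀ i, i < t → (P i).1 < M ∧ (P i).2 < M
  mono : ∀ i, i + 1 < t → ht M u0 u1 (P i) < ht M u0 u1 (P (i + 1))

theorem low_not_high {M a b : ℕ} {u0 u1 : ℝ} (hM : 1 ≤ M) {p : ℕ × ℕ}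
    (h1 : Low M a b u0 u1 p) (h2 : High M a b u0 u1 p) : False := by
  unfold Low at h1
  unfold High at h2
  have hM1 : (1 : ℝ) ≤ M := by exact_mod_cast hM
  have := abs_nonneg (u0 + (b : ℝ) / a * u1)
  nlinarith [mul_nonneg (rho_pos hM p).le (abs_nonneg (u0 + M * u1))]

theorem quarter {M x y : ℕ} (hM : 1 ≤ M) (h : 4 * x + M ≤ 4 * y) : 4 * x / M < 4 * y / M := by
  have h1 : 4 * x / M + 1 = (4 * x + M) / M := by
    rw [Nat.add_div_right _ hM]
  have h2 := Nat.div_le_div_right (c := M) h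
  omega

theorem LE.dist {M a b : ℕ} {P : ℕ → ℕ × ℕ} {i : ℕ} (h : LE M a b P i) :
    4 * (P i).1 + M ≤ 4 * (P (i + 1)).1 ∨ 4 * (P (i + 1)).1 + M ≤ 4 * (P i).1 := by
  rcases h with ⟨k, h1, h2, -⟩ | ⟨k, h1, h2, -⟩
  · left; omega
  · right; omega

/-- two long edges on the same line, both of whose ends are ordered by the first coordinate -/
theorem quarter_ne {M a b : ℕ} (hM : 1 ≤ M) {P : ℕ → ℕ × ℕ} {i j : ℕ}
    (hi : LE M a b P i) (hj : LE M a b P j)
    (h : ((P i).1 ≤ (P (i + 1)).1 ∧ (P (i + 1)).1 ≤ (P j).1 ∧ (P j).1 ≤ (P (j + 1)).1) ∨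
      ((P (j + 1)).1 ≤ (P j).1 ∧ (P j).1 ≤ (P (i + 1)).1 ∧ (P (i + 1)).1 ≤ (P i).1)) :
    4 * min (P i).1 (P (i + 1)).1 / M ≠ 4 * min (P j).1 (P (j + 1)).1 / M := by
  have h1 := hi.dist
  have h2 := hj.dist
  rcases h with ⟨h3, h4, h5⟩ | ⟨h3, h4, h5⟩
  · rw [min_eq_left h3, min_eq_left h5]
    exact (quarter hM (by omega)).ne
  · rw [min_eq_right h5, min_eq_right h3]
    exact (quarter hM (by omega)).ne'

section inj

variable {M a b t : ℕ} {u0 u1 : ℝ} {P : ℕ → ℕ × ℕ}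

/-- comparing first coordinates from heights, both points low -/
theorem fst_of_low (hM : 1 ≤ M) (ha : 1 ≤ a) {p q : ℕ × ℕ} (h : SameLine a b p q)
    (hp : Low M a b u0 u1 p) (hq : Low M a b u0 u1 q) (hlt : ht M u0 u1 p ≤ ht M u0 u1 q) :
    (0 < u0 + (b : ℝ) / a * u1 → p.1 ≤ q.1) ∧ (u0 + (b : ℝ) / a * u1 < 0 → q.1 ≤ p.1) := by
  constructor
  · intro hτ
    by_contra hcon
    push Not at hcon
    have := (low_low hM ha h.symm hcon hq hp).1 hτ
    linarith
  · intro hτ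
    by_contra hcon
    push Not at hcon
    have := (low_low hM ha h hcon hp hq).2 hτ
    linarith

theorem fst_of_high (hM : 1 ≤ M) (ha : 1 ≤ a) {p q : ℕ × ℕ} (h : SameLine a b p q)
    (hpM : p.1 < M) (hqM : q.1 < M)
    (hp : High M a b u0 u1 p) (hq : High M a b u0 u1 q) (hlt : ht M u0 u1 p ≤ ht M u0 u1 q) :
    (0 < u0 + M * u1 → p.1 ≤ q.1) ∧ (u0 + M * u1 < 0 → q.1 ≤ p.1) := by
  constructor
  · intro hτ
    by_contra hcon
    push Not at hcon
    have := (high_high hM ha h.symm hcon hpM hp).1 hτ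
    linarith
  · intro hτ
    by_contra hcon
    push Not at hcon
    have := (high_high hM ha h hcon hqM hq).2 hτ
    linarith

theorem mid_unique (hM : 1 ≤ M) (ha : 1 ≤ a) {p q : ℕ × ℕ} (h : SameLine a b p q)
    (hp : ¬ Low M a b u0 u1 p ∧ ¬ High M a b u0 u1 p)
    (hq : ¬ Low M a b u0 u1 q ∧ ¬ High M a b u0 u1 q) : ht M u0 u1 p = ht M u0 u1 q := by
  rcases lt_trichotomy p.1 q.1 with h1 | h1 | h1
  · exact mid_mid hM ha h h1 hp.1 hq.2
  · rw [h.eq_of_fst ha h1]
  · exact (mid_mid hM ha h.symm h1 hq.1 hp.2).symm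

theorem code_spec (i : ℕ) :
    (code M a b u0 u1 P i = 4 * min (P i).1 (P (i + 1)).1 / M ∧
      Low M a b u0 u1 (P i) ∧ Low M a b u0 u1 (P (i + 1))) ∨
    (code M a b u0 u1 P i = 4 + 4 * min (P i).1 (P (i + 1)).1 / M ∧
      High M a b u0 u1 (P i) ∧ High M a b u0 u1 (P (i + 1))) ∨
    (code M a b u0 u1 P i = 8 ∧ ¬ Low M a b u0 u1 (P i) ∧ ¬ High M a b u0 u1 (P i)) ∨
    (code M a b u0 u1 P i = 9 ∧ ¬ Low M a b u0 u1 (P (i + 1)) ∧
      ¬ High M a b u0 u1 (P (i + 1))) ∨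
    (code M a b u0 u1 P i = 10 ∧ ((Low M a b u0 u1 (P i) ∧ High M a b u0 u1 (P (i + 1))) ∨
      (High M a b u0 u1 (P i) ∧ Low M a b u0 u1 (P (i + 1))))) := by
  unfold code
  split_ifs with h1 h2 h3 h4
  · left; exact ⟨rfl, h1⟩
  · right; left; exact ⟨rfl, h2⟩
  · right; right; left; exact ⟨rfl, h3⟩
  · right; right; right; left; exact ⟨rfl, h4⟩
  · right; right; right; right
    refine ⟨rfl, ?_⟩
    by_cases l1 : Low M a b u0 u1 (P i)
    · by_cases g2 : High M a b u0 u1 (P (i + 1))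
      · exact Or.inl ⟨l1, g2⟩
      · exact absurd ⟨fun l2 => h1 ⟨l1, l2⟩, g2⟩ h4
    · have g1 : High M a b u0 u1 (P i) := by
        by_contra g1
        exact h3 ⟨l1, g1⟩
      by_cases l2 : Low M a b u0 u1 (P (i + 1))
      · exact Or.inr ⟨g1, l2⟩
      · exact absurd ⟨l2, fun g2 => h2 ⟨g1, g2⟩⟩ h4

theorem tau_ne_zero_of_low (hM : 1 ≤ M) {p : ℕ × ℕ} (h : Low M a b u0 u1 p) :
    u0 + (b : ℝ) / a * u1 ≠ 0 := by
  intro h0
  unfold Low at h
  rw [h0, abs_zero] at h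
  have := mul_nonneg (rho_pos hM p).le (abs_nonneg (u0 + M * u1))
  linarith

theorem nu_ne_zero_of_high {p : ℕ × ℕ} (h : High M a b u0 u1 p) : u0 + M * u1 ≠ 0 := by
  intro h0
  unfold High at h
  rw [h0, abs_zero, mul_zero] at h
  have : 0 ≤ 4 * (M : ℝ) * |u0 + (b : ℝ) / a * u1| := by positivity
  linarith

theorem code_ne (hM : 1 ≤ M) (ha : 1 ≤ a) (hP : Path M u0 u1 P t) {i j : ℕ} (hij : i < j)
    (hj : j + 1 < t) (hi' : LE M a b P i) (hj' : LE M a b P j)
    (hs : SameLine a b (P i) (P j)) : code M a b u0 u1 P i ≠ code M a b u0 u1 P j := by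
  have hm := mono_of_succ_le (g := fun i => ht M u0 u1 (P i)) hP.mono
  have hml := mono_of_succ (g := fun i => ht M u0 u1 (P i)) hP.mono
  have e1 : ht M u0 u1 (P i) < ht M u0 u1 (P (i + 1)) := hml i (i + 1) (by omega) (by omega)
  have e2 : ht M u0 u1 (P (i + 1)) ≤ ht M u0 u1 (P j) := hm (i + 1) j (by omega) (by omega)
  have e3 : ht M u0 u1 (P j) < ht M u0 u1 (P (j + 1)) := hml j (j + 1) (by omega) (by omega)
  clear hm hml
  have s1 : SameLine a b (P i) (P (i + 1)) := hi'.sameLine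
  have s3 : SameLine a b (P j) (P (j + 1)) := hj'.sameLine
  have s2 : SameLine a b (P (i + 1)) (P j) := by
    unfold SameLine at *; linarith
  have s4 : SameLine a b (P (i + 1)) (P (j + 1)) := by
    unfold SameLine at *; linarith
  have m0 := (hP.mem i (by omega)).1
  have m1 := (hP.mem (i + 1) (by omega)).1
  have m2 := (hP.mem j (by omega)).1
  have m3 := (hP.mem (j + 1) (by omega)).1
  have qi : 4 * min (P i).1 (P (i + 1)).1 / M < 4 := by
    rw [Nat.div_lt_iff_lt_mul hM]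
    have := min_le_left (P i).1 (P (i + 1)).1
    omega
  have qj : 4 * min (P j).1 (P (j + 1)).1 / M < 4 := by
    rw [Nat.div_lt_iff_lt_mul hM]
    have := min_le_left (P j).1 (P (j + 1)).1
    omega
  have hne := quarter_ne hM hi' hj'
  have hi2 := code_spec (M := M) (a := a) (b := b) (u0 := u0) (u1 := u1) (P := P) i
  have hj2 := code_spec (M := M) (a := a) (b := b) (u0 := u0) (u1 := u1) (P := P) j
  intro hcon
  rw [hcon] at hi2
  generalize code M a b u0 u1 P j = cj at hi2 hj2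
  generalize 4 * min (P i).1 (P (i + 1)).1 / M = Qi at hi2 hne qi
  generalize 4 * min (P j).1 (P (j + 1)).1 / M = Qj at hj2 hne qj
  clear hcon
  rcases hi2 with ⟨ci, c1, c2⟩ | ⟨ci, c1, c2⟩ | ⟨ci, c1, c2⟩ | ⟨ci, c1, c2⟩ | ⟨ci, c1⟩
  · rcases hj2 with ⟨dj, d1, d2⟩ | ⟨dj, -⟩ | ⟨dj, -⟩ | ⟨dj, -⟩ | ⟨dj, -⟩
    · apply hne _ (ci.symm.trans dj)
      have f1 := fst_of_low hM ha s1 c1 c2 e1.le
      have f2 := fst_of_low hM ha s2 c2 d1 e2
      have f3 := fst_of_low hM ha s3 d1 d2 e3.le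
      rcases lt_or_gt_of_ne (tau_ne_zero_of_low hM c1) with h0 | h0
      · right
        exact ⟨f3.2 h0, f2.2 h0, f1.2 h0⟩
      · left
        exact ⟨f1.1 h0, f2.1 h0, f3.1 h0⟩
    all_goals (clear hne; omega)
  · rcases hj2 with ⟨dj, -⟩ | ⟨dj, d1, d2⟩ | ⟨dj, -⟩ | ⟨dj, -⟩ | ⟨dj, -⟩
    rotate_left
    · apply hne _ (Nat.add_left_cancel (ci.symm.trans dj))
      have f1 := fst_of_high hM ha s1 m0 m1 c1 c2 e1.le
      have f2 := fst_of_high hM ha s2 m1 m2 c2 d1 e2
      have f3 := fst_of_high hM ha s3 m2 m3 d1 d2 e3.le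
      rcases lt_or_gt_of_ne (nu_ne_zero_of_high c1) with h0 | h0
      · right
        exact ⟨f3.2 h0, f2.2 h0, f1.2 h0⟩
      · left
        exact ⟨f1.1 h0, f2.1 h0, f3.1 h0⟩
    all_goals (clear hne; omega)
  · rcases hj2 with ⟨dj, -⟩ | ⟨dj, -⟩ | ⟨dj, d1, d2⟩ | ⟨dj, -⟩ | ⟨dj, -⟩
    · clear hne; omega
    · clear hne; omega
    · have := mid_unique hM ha hs ⟨c1, c2⟩ ⟨d1, d2⟩
      linarith
    · clear hne; omega
    · clear hne; omega
  · rcases hj2 with ⟨dj, -⟩ | ⟨dj, -⟩ | ⟨dj, -⟩ | ⟨dj, d1, d2⟩ | ⟨dj, -⟩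
    · clear hne; omega
    · clear hne; omega
    · clear hne; omega
    · have := mid_unique hM ha s4 ⟨c1, c2⟩ ⟨d1, d2⟩
      linarith
    · clear hne; omega
  · rcases hj2 with ⟨dj, -⟩ | ⟨dj, -⟩ | ⟨dj, -⟩ | ⟨dj, -⟩ | ⟨dj, d1⟩
    · clear hne; omega
    · clear hne; omega
    · clear hne; omega
    · clear hne; omega
    · have hν : u0 + M * u1 ≠ 0 := by
        rcases c1 with ⟨-, hh⟩ | ⟨hh, -⟩ <;> exact nu_ne_zero_of_high hh
      rcases lt_or_gt_of_ne hν with h0 | h0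
      · -- highs come first
        have hi1 : Low M a b u0 u1 (P (i + 1)) := by
          rcases c1 with ⟨h1, h2⟩ | ⟨h1, h2⟩
          · have := (low_high hM ha s1 m0 m1 h1 h2).2 h0
            linarith
          · exact h2
        have hj1 : High M a b u0 u1 (P j) := by
          rcases d1 with ⟨h1, h2⟩ | ⟨h1, h2⟩
          · have := (low_high hM ha s3 m2 m3 h1 h2).2 h0
            linarith
          · exact h1
        have := (low_high hM ha s2 m1 m2 hi1 hj1).2 h0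
        linarith
      · have hi1 : High M a b u0 u1 (P (i + 1)) := by
          rcases c1 with ⟨h1, h2⟩ | ⟨h1, h2⟩
          · exact h2
          · have := (low_high hM ha s1.symm m1 m0 h2 h1).1 h0
            linarith
        have hj1 : Low M a b u0 u1 (P j) := by
          rcases d1 with ⟨h1, h2⟩ | ⟨h1, h2⟩
          · exact h1
          · have := (low_high hM ha s3.symm m3 m2 h2 h1).1 h0
            linarith
        have := (low_high hM ha s2.symm m2 m1 hj1 hi1).1 h0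
        linarith

theorem code_lt (hM : 1 ≤ M) (hP : Path M u0 u1 P t) {i : ℕ} (hi : i + 1 < t) :
    code M a b u0 u1 P i < 11 := by
  have m0 := (hP.mem i (by omega)).1
  have qi : 4 * min (P i).1 (P (i + 1)).1 / M < 4 := by
    rw [Nat.div_lt_iff_lt_mul hM]
    have := min_le_left (P i).1 (P (i + 1)).1
    omega
  unfold code
  split_ifs <;> omega

/-- a monotone path has at most `22 a M` long edges of direction `(a, b)` -/
theorem card_edgeSet_le (hM : 1 ≤ M) (ha : 1 ≤ a) (hb : b ≤ a) (hP : Path M u0 u1 P t) :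
    (edgeSet M a b P t).card ≤ 22 * a * M := by
  classical
  have h1 : (edgeSet M a b P t).card ≤
      ((Finset.Ico (-((b : ℤ) * M)) ((a : ℤ) * M)) ×ˢ (range 11)).card := by
    apply Finset.card_le_card_of_injOn
      (fun i => ((a : ℤ) * (P i).2 - b * (P i).1, code M a b u0 u1 P i))
    · intro i hi
      rw [Finset.mem_coe, edgeSet, Finset.mem_filter, mem_range] at hi
      obtain ⟨-, hi1, hi2⟩ := hi
      obtain ⟨m1, m2⟩ := hP.mem i (by omega)
      have m1' : ((P i).1 : ℤ) < M := by exact_mod_cast m1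
      have m2' : ((P i).2 : ℤ) < M := by exact_mod_cast m2
      have ha' : (1 : ℤ) ≤ a := by exact_mod_cast ha
      have hb' : (0 : ℤ) ≤ b := by positivity
      have z1 : (0 : ℤ) ≤ (P i).1 := by positivity
      have z2 : (0 : ℤ) ≤ (P i).2 := by positivity
      rw [Finset.mem_coe, Finset.mem_product, Finset.mem_Ico, mem_range]
      refine ⟨⟨?_, ?_⟩, code_lt hM hP hi1⟩
      · show -((b : ℤ) * M) ≤ (a : ℤ) * (P i).2 - b * (P i).1
        nlinarith
      · show (a : ℤ) * (P i).2 - b * (P i).1 < (a : ℤ) * M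
        nlinarith
    · intro i hi j hj hij
      rw [Finset.mem_coe, edgeSet, Finset.mem_filter, mem_range] at hi hj
      obtain ⟨-, hi1, hi2⟩ := hi
      obtain ⟨-, hj1, hj2⟩ := hj
      have hl : (a : ℤ) * (P i).2 - b * (P i).1 = (a : ℤ) * (P j).2 - b * (P j).1 :=
        (Prod.ext_iff.mp hij).1
      have hc : code M a b u0 u1 P i = code M a b u0 u1 P j := (Prod.ext_iff.mp hij).2
      rcases lt_trichotomy i j with h | h | h
      · exact absurd hc (code_ne hM ha hP h hj1 hi2 hj2 hl.symm)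
      · exact h
      · exact absurd hc.symm (code_ne hM ha hP h hi1 hj2 hi2 hl)
  refine h1.trans ?_
  rw [Finset.card_product, card_range, Int.card_Ico]
  have h2 : ((a : ℤ) * M - -((b : ℤ) * M)).toNat = a * M + b * M := by
    have : (a : ℤ) * M - -((b : ℤ) * M) = ((a * M + b * M : ℕ) : ℤ) := by push_cast; ring
    rw [this, Int.toNat_natCast]
  rw [h2]
  nlinarith [Nat.mul_le_mul_right M hb]

end inj

end Pool.Agent.K6.H56.MonoLower
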