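import Mathlib
import Pool.Agent.K6.H56.MonoLower

set_option autoImplicit false

/-!
# Dense point sets that need many monotone paths: a monotone path serves one grid direction
-/

namespace Pool.Agent.K6.H56.MonoLower

open Finset

section steps

variable {M a b t S : ℕ} {u0 u1 U : ℝ} {P : ℕ → ℕ × ℕ}

theorem rho_diff (hM : 1 ≤ M) {p q : ℕ × ℕ} (hp : p.1 < M ∧ p.2 < M) (hq : q.1 < M ∧ q.2 < M) :
    |rho M q - rho M p| ≤ 1 / KK M := by
  have h1 := rho_le hM hp.1 hp.2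
  have h2 := rho_le hM hq.1 hq.2
  have h3 := rho_pos hM p
  have h4 := rho_pos hM q
  rw [abs_le]; constructor <;> linarith

theorem step_ge (hM : 1 ≤ M) (ha : 1 ≤ a) (hS : S ≤ M) (h0 : |u0| ≤ U) (h1 : |u1| ≤ U)
    (hU : U < 3 * S * |a * u0 + b * u1|) (hP : Path M u0 u1 P t) {i : ℕ} (hi : i + 1 < t)
    (hL : LE M a b P i) :
    M * |a * u0 + b * u1| / (8 * a) ≤ ht M u0 u1 (P (i + 1)) - ht M u0 u1 (P i) := by
  have hsub := hL.sameLine.ht_sub ha M u0 u1
  have hpos : 0 < ht M u0 u1 (P (i + 1)) - ht M u0 u1 (P i) := by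
    have := hP.mono i hi
    linarith
  have hM1 : (1 : ℝ) ≤ M := by exact_mod_cast hM
  have ha1 : (1 : ℝ) ≤ a := by exact_mod_cast ha
  have hS1 : (S : ℝ) ≤ M := by exact_mod_cast hS
  have hS0 : (0 : ℝ) ≤ S := by positivity
  set τ : ℝ := a * u0 + b * u1 with hτ
  have hτ' : u0 + (b : ℝ) / a * u1 = τ / a := by
    rw [hτ]; field_simp
  have hU0 : 0 ≤ U := (abs_nonneg u0).trans h0
  have hτ0 : 0 < |τ| := by
    by_contra hcon
    have : |τ| = 0 := le_antisymm (not_lt.mp hcon) (abs_nonneg τ)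
    rw [this] at hU
    linarith
  have hρ := rho_diff hM (hP.mem i (by omega)) (hP.mem (i + 1) hi)
  have hν : |u0 + M * u1| ≤ (1 + M) * U := by
    calc |u0 + M * u1| ≤ |u0| + |M * u1| := abs_add_le _ _
      _ = |u0| + M * |u1| := by rw [abs_mul, abs_of_nonneg (by positivity : (0 : ℝ) ≤ M)]
      _ ≤ _ := by nlinarith
  have hδ : |(rho M (P (i + 1)) - rho M (P i)) * (u0 + M * u1)| ≤ |τ| / 2 := by
    rw [abs_mul]
    have hK : KK M = 100 * (M : ℝ) ^ 2 := rfl
    have hK0 := KK_pos hM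
    calc |rho M (P (i + 1)) - rho M (P i)| * |u0 + M * u1|
        ≤ 1 / KK M * ((1 + M) * U) := mul_le_mul hρ hν (abs_nonneg _) (by positivity)
      _ ≤ 1 / KK M * ((1 + M) * (3 * S * |τ|)) := by
          apply mul_le_mul_of_nonneg_left _ (by positivity)
          apply mul_le_mul_of_nonneg_left hU.le (by positivity)
      _ ≤ 1 / KK M * ((2 * M) * (3 * M * |τ|)) := by
          apply mul_le_mul_of_nonneg_left _ (by positivity)
          apply mul_le_mul (by linarith) _ (by positivity) (by positivity)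
          apply mul_le_mul_of_nonneg_right _ (abs_nonneg τ)
          linarith
      _ = 6 / 100 * |τ| := by
          rw [hK]
          field_simp
          ring
      _ ≤ _ := by linarith
  obtain ⟨hδ1, hδ2⟩ := abs_le.mp hδ
  have key : ∀ k : ℕ, M ≤ 4 * (k * a) → ∀ s : ℝ, (s = 1 ∨ s = -1) →
      ht M u0 u1 (P (i + 1)) - ht M u0 u1 (P i) =
        s * k * τ + (rho M (P (i + 1)) - rho M (P i)) * (u0 + M * u1) →
      M * |τ| / (8 * a) ≤ ht M u0 u1 (P (i + 1)) - ht M u0 u1 (P i) := by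
    intro k hk s hs he
    have hk1 : 1 ≤ k := by
      rcases Nat.eq_zero_or_pos k with h | h
      · subst h; omega
      · exact h
    have hk1' : (1 : ℝ) ≤ k := by exact_mod_cast hk1
    have hk' : (M : ℝ) ≤ 4 * (k * a) := by exact_mod_cast hk
    have hsτ : s * τ = |τ| := by
      have habs : |s * τ| = |τ| := by
        rw [abs_mul]
        rcases hs with rfl | rfl <;> simp
      rcases le_or_gt 0 (s * τ) with h | h
      · rw [← habs, abs_of_nonneg h]
      · exfalso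
        rw [abs_of_neg h] at habs
        have : s * k * τ = k * (s * τ) := by ring
        rw [he, this] at hpos
        nlinarith
    have h2 : s * k * τ = k * |τ| := by rw [← hsτ]; ring
    have h3 : (k : ℝ) * |τ| / 2 ≤ ht M u0 u1 (P (i + 1)) - ht M u0 u1 (P i) := by
      rw [he, h2]
      nlinarith
    refine le_trans ?_ h3
    rw [div_le_div_iff₀ (by positivity) (by norm_num)]
    nlinarith
  rcases hL with ⟨k, hk, hx, hy⟩ | ⟨k, hk, hx, hy⟩
  · apply key k hk 1 (Or.inl rfl)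
    rw [hsub, hτ', hx]
    push_cast
    field_simp
    ring
  · apply key k hk (-1) (Or.inr rfl)
    rw [hsub, hτ', hx]
    push_cast
    field_simp
    ring

theorem ht_range (hM : 1 ≤ M) (h0 : |u0| ≤ U) (h1 : |u1| ≤ U) {p q : ℕ × ℕ}
    (hp : p.1 < M ∧ p.2 < M) (hq : q.1 < M ∧ q.2 < M) :
    ht M u0 u1 q - ht M u0 u1 p ≤ 2 * M * U := by
  have hM1 : (1 : ℝ) ≤ M := by exact_mod_cast hM
  have hρ := rho_diff hM hp hq
  have hK : KK M = 100 * (M : ℝ) ^ 2 := rfl
  have hU0 : 0 ≤ U := (abs_nonneg u0).trans h0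
  have e : ht M u0 u1 q - ht M u0 u1 p = (((q.1 : ℝ) - p.1) + (rho M q - rho M p)) * u0 +
      (((q.2 : ℝ) - p.2) + M * (rho M q - rho M p)) * u1 := by
    unfold ht; ring
  have x1 : |(q.1 : ℝ) - p.1| ≤ M - 1 := by
    have a1 : (q.1 : ℝ) + 1 ≤ M := by exact_mod_cast hq.1
    have a2 : (p.1 : ℝ) + 1 ≤ M := by exact_mod_cast hp.1
    have a3 : (0 : ℝ) ≤ q.1 := by positivity
    have a4 : (0 : ℝ) ≤ p.1 := by positivity
    rw [abs_le]; constructor <;> linarith
  have x2 : |(q.2 : ℝ) - p.2| ≤ M - 1 := by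
    have a1 : (q.2 : ℝ) + 1 ≤ M := by exact_mod_cast hq.2
    have a2 : (p.2 : ℝ) + 1 ≤ M := by exact_mod_cast hp.2
    have a3 : (0 : ℝ) ≤ q.2 := by positivity
    have a4 : (0 : ℝ) ≤ p.2 := by positivity
    rw [abs_le]; constructor <;> linarith
  have hr1 : 1 / KK M ≤ 1 := by
    rw [div_le_one (KK_pos hM)]
    linarith [KK_ge hM]
  have hr2 : M * (1 / KK M) ≤ 1 := by
    rw [hK, mul_one_div, div_le_one (by positivity)]
    nlinarith
  have y1 : |((q.1 : ℝ) - p.1) + (rho M q - rho M p)| ≤ M :=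
    (abs_add_le _ _).trans (by linarith)
  have y2 : |((q.2 : ℝ) - p.2) + M * (rho M q - rho M p)| ≤ M := by
    refine (abs_add_le _ _).trans ?_
    rw [abs_mul, abs_of_nonneg (by positivity : (0 : ℝ) ≤ M)]
    nlinarith [mul_le_mul_of_nonneg_left hρ (by positivity : (0 : ℝ) ≤ M)]
  rw [e]
  have z1 := (le_abs_self _).trans_eq (abs_mul (((q.1 : ℝ) - p.1) + (rho M q - rho M p)) u0)
  have z2 := (le_abs_self _).trans_eq (abs_mul (((q.2 : ℝ) - p.2) + M * (rho M q - rho M p)) u1)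
  have w1 := mul_le_mul y1 h0 (abs_nonneg _) (by positivity : (0 : ℝ) ≤ M)
  have w2 := mul_le_mul y2 h1 (abs_nonneg _) (by positivity : (0 : ℝ) ≤ M)
  linarith

/-- a monotone path whose direction is far from the normal of `(a, b)` has few long edges of
direction `(a, b)` -/
theorem card_edgeSet_le' (hM : 1 ≤ M) (ha : 1 ≤ a) (haS : a ≤ S) (hS : S ≤ M)
    (h0 : |u0| ≤ U) (h1 : |u1| ≤ U) (hU : U < 3 * S * |a * u0 + b * u1|)
    (hP : Path M u0 u1 P t) : (edgeSet M a b P t).card ≤ 48 * S ^ 2 := by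
  classical
  have hM1 : (1 : ℝ) ≤ M := by exact_mod_cast hM
  have ha1 : (1 : ℝ) ≤ a := by exact_mod_cast ha
  have haS1 : (a : ℝ) ≤ S := by exact_mod_cast haS
  set τ : ℝ := a * u0 + b * u1 with hτ
  have hU0 : 0 ≤ U := (abs_nonneg u0).trans h0
  have hτ0 : 0 < |τ| := by
    by_contra hcon
    have : |τ| = 0 := le_antisymm (not_lt.mp hcon) (abs_nonneg τ)
    rw [this] at hU
    linarith
  have hsum : ((edgeSet M a b P t).card : ℝ) * (M * |τ| / (8 * a)) ≤ 2 * M * U := by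
    rw [← nsmul_eq_mul]
    refine (Finset.card_nsmul_le_sum (edgeSet M a b P t)
      (fun i => ht M u0 u1 (P (i + 1)) - ht M u0 u1 (P i)) _ ?_).trans ?_
    · intro i hi
      rw [edgeSet, mem_filter] at hi
      exact step_ge hM ha hS h0 h1 hU hP hi.2.1 hi.2.2
    · rcases Nat.eq_zero_or_pos t with rfl | ht0
      · simp only [edgeSet, range_zero, filter_empty, sum_empty]
        positivity
      · have hsub : edgeSet M a b P t ⊆ range (t - 1) := by
          intro i hi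
          rw [edgeSet, mem_filter] at hi
          rw [mem_range]
          omega
        refine (Finset.sum_le_sum_of_subset_of_nonneg hsub ?_).trans ?_
        · intro i hi _
          rw [mem_range] at hi
          have := hP.mono i (by omega)
          linarith
        · rw [Finset.sum_range_sub (fun i => ht M u0 u1 (P i)) (t - 1)]
          exact ht_range hM h0 h1 (hP.mem 0 ht0) (hP.mem (t - 1) (by omega))
  have h3 : ((edgeSet M a b P t).card : ℝ) * (M * |τ| / (8 * a)) < 2 * M * (3 * S * |τ|) := by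
    refine hsum.trans_lt ?_
    apply mul_lt_mul_of_pos_left hU (by positivity)
  have h4 : ((edgeSet M a b P t).card : ℝ) < 48 * S ^ 2 := by
    have e1 : ((edgeSet M a b P t).card : ℝ) * (M * |τ| / (8 * a)) =
      (((edgeSet M a b P t).card : ℝ) / (8 * a)) * (M * |τ|) := by ring
    have e2 : 2 * (M : ℝ) * (3 * S * |τ|) = (6 * S) * (M * |τ|) := by ring
    rw [e1, e2] at h3
    have h5 := lt_of_mul_lt_mul_right h3 (by positivity)
    rw [div_lt_iff₀ (by positivity)] at h5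
    nlinarith
  have h6 : (edgeSet M a b P t).card < 48 * S ^ 2 := by exact_mod_cast h4
  exact h6.le

end steps

/-- the primitive directions `(a, b)` with `0 ≤ b < a ≤ S` (and `(1, 0)`) -/
def dirs (S : ℕ) : Finset (Σ _ : ℕ, ℕ) :=
  (Icc 1 S).sigma (fun a => (range a).filter (fun b => a.Coprime b))

theorem mem_dirs {S : ℕ} {d : Σ _ : ℕ, ℕ} :
    d ∈ dirs S ↔ 1 ≤ d.1 ∧ d.1 ≤ S ∧ d.2 < d.1 ∧ d.1.Coprime d.2 := by
  unfold dirs
  rw [mem_sigma, mem_Icc, mem_filter, mem_range]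
  tauto

theorem card_dirs_le (S : ℕ) : (dirs S).card ≤ S ^ 2 := by
  unfold dirs
  rw [card_sigma]
  calc ∑ a ∈ Icc 1 S, ((range a).filter (fun b => a.Coprime b)).card
      ≤ ∑ a ∈ Icc 1 S, S := by
        apply sum_le_sum
        intro a ha
        rw [mem_Icc] at ha
        refine (card_filter_le _ _).trans ?_
        rw [card_range]
        exact ha.2
    _ = S ^ 2 := by
        rw [sum_const, Nat.card_Icc, smul_eq_mul]
        simp [pow_two]

/-- two different primitive directions are not parallel -/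
theorem dirs_cross {S : ℕ} {d e : Σ _ : ℕ, ℕ} (hd : d ∈ dirs S) (he : e ∈ dirs S)
    (h : d.1 * e.2 = e.1 * d.2) : d = e := by
  rw [mem_dirs] at hd he
  obtain ⟨a, b⟩ := d
  obtain ⟨a', b'⟩ := e
  simp only at hd he h
  obtain ⟨h1, -, -, h2⟩ := hd
  obtain ⟨h3, -, -, h4⟩ := he
  have h5 : a ∣ a' := by
    have : a ∣ a' * b := ⟨b', h.symm⟩
    exact h2.dvd_of_dvd_mul_right this
  have h6 : a' ∣ a := by
    have : a' ∣ a * b' := ⟨b, h⟩
    exact h4.dvd_of_dvd_mul_right this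
  have h7 : a = a' := Nat.dvd_antisymm h5 h6
  subst h7
  have h8 : b' = b := Nat.eq_of_mul_eq_mul_left h1 h
  subst h8
  rfl

/-- a direction is nearly normal to at most one primitive direction -/
theorem near_unique {S : ℕ} {u0 u1 U : ℝ} (hU0 : 0 < U) (hU : |u0| = U ∨ |u1| = U)
    {d e : Σ _ : ℕ, ℕ} (hd : d ∈ dirs S) (he : e ∈ dirs S)
    (h1 : 3 * S * |d.1 * u0 + d.2 * u1| ≤ U) (h2 : 3 * S * |e.1 * u0 + e.2 * u1| ≤ U) :
    d = e := by
  by_contra hne
  have hcr : d.1 * e.2 ≠ e.1 * d.2 := fun h => hne (dirs_cross hd he h)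
  have hcr' : (d.1 : ℤ) * e.2 - e.1 * d.2 ≠ 0 := by
    intro h
    apply hcr
    have : (d.1 : ℤ) * e.2 = e.1 * d.2 := by linarith
    exact_mod_cast this
  have hcr2 : (1 : ℝ) ≤ |(d.1 : ℝ) * e.2 - e.1 * d.2| := by
    have := Int.one_le_abs hcr'
    exact_mod_cast this
  obtain ⟨d1, d2, d3, -⟩ := mem_dirs.mp hd
  obtain ⟨e1, e2, e3, -⟩ := mem_dirs.mp he
  have d1' : (1 : ℝ) ≤ d.1 := by exact_mod_cast d1
  have d2' : (d.1 : ℝ) ≤ S := by exact_mod_cast d2
  have d3' : (d.2 : ℝ) ≤ S := by exact_mod_cast (d3.le.trans d2)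
  have e1' : (1 : ℝ) ≤ e.1 := by exact_mod_cast e1
  have e2' : (e.1 : ℝ) ≤ S := by exact_mod_cast e2
  have e3' : (e.2 : ℝ) ≤ S := by exact_mod_cast (e3.le.trans e2)
  have hS : (0 : ℝ) < S := by linarith
  set A := |(d.1 : ℝ) * u0 + d.2 * u1|
  set B := |(e.1 : ℝ) * u0 + e.2 * u1|
  have hA : 0 ≤ A := abs_nonneg _
  have hB : 0 ≤ B := abs_nonneg _
  have hSA : (S : ℝ) * A ≤ U / 3 := by linarith
  have hSB : (S : ℝ) * B ≤ U / 3 := by linarith
  have z2 : (0 : ℝ) ≤ d.2 := by positivity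
  have z4 : (0 : ℝ) ≤ e.2 := by positivity
  rcases hU with hU | hU
  · have k1 : ((d.1 : ℝ) * e.2 - e.1 * d.2) * u0 =
        e.2 * (d.1 * u0 + d.2 * u1) - d.2 * (e.1 * u0 + e.2 * u1) := by ring
    have k2 : |(d.1 : ℝ) * e.2 - e.1 * d.2| * |u0| ≤ e.2 * A + d.2 * B := by
      rw [← abs_mul, k1]
      refine (abs_sub _ _).trans ?_
      rw [abs_mul, abs_mul, abs_of_nonneg z2, abs_of_nonneg z4]
    rw [hU] at k2
    nlinarith
  · have k1 : ((d.1 : ℝ) * e.2 - e.1 * d.2) * u1 =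
        d.1 * (e.1 * u0 + e.2 * u1) - e.1 * (d.1 * u0 + d.2 * u1) := by ring
    have k2 : |(d.1 : ℝ) * e.2 - e.1 * d.2| * |u1| ≤ d.1 * B + e.1 * A := by
      rw [← abs_mul, k1]
      refine (abs_sub _ _).trans ?_
      rw [abs_mul, abs_mul, abs_of_nonneg (by linarith : (0 : ℝ) ≤ d.1),
        abs_of_nonneg (by linarith : (0 : ℝ) ≤ e.1)]
    rw [hU] at k2
    nlinarith

/-- the weighted number of long edges of a monotone path -/
theorem weight_le {M t S : ℕ} {u0 u1 : ℝ} {P : ℕ → ℕ × ℕ} (hM : 1 ≤ M) (hS : S ≤ M)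
    (hSM : 24 * S ^ 4 ≤ M) (hu : u0 ≠ 0 ∨ u1 ≠ 0) (hP : Path M u0 u1 P t) :
    ∑ d ∈ dirs S, ((edgeSet M d.1 d.2 P t).card : ℝ) / d.1 ≤ 24 * M := by
  classical
  set U := max |u0| |u1| with hU
  have hU0 : 0 < U := by
    rcases hu with h | h
    · exact lt_max_of_lt_left (abs_pos.mpr h)
    · exact lt_max_of_lt_right (abs_pos.mpr h)
  have hU1 : |u0| = U ∨ |u1| = U := by
    rcases max_choice |u0| |u1| with h | h
    · left; rw [hU, h]
    · right; rw [hU, h]
  have b0 : |u0| ≤ U := le_max_left _ _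
  have b1 : |u1| ≤ U := le_max_right _ _
  have hfar : ∀ d ∈ dirs S, U < 3 * S * |d.1 * u0 + d.2 * u1| →
      ((edgeSet M d.1 d.2 P t).card : ℝ) / d.1 ≤ 48 * S ^ 2 := by
    intro d hd hlt
    obtain ⟨d1, d2, d3, -⟩ := mem_dirs.mp hd
    have h1 := card_edgeSet_le' hM d1 d2 hS b0 b1 hlt hP
    have h2 : ((edgeSet M d.1 d.2 P t).card : ℝ) ≤ 48 * S ^ 2 := by exact_mod_cast h1
    have d1' : (1 : ℝ) ≤ d.1 := by exact_mod_cast d1
    exact (div_le_self (Nat.cast_nonneg _) d1').trans h2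
  have hnear : ∀ d ∈ dirs S, ((edgeSet M d.1 d.2 P t).card : ℝ) / d.1 ≤ 22 * M := by
    intro d hd
    obtain ⟨d1, d2, d3, -⟩ := mem_dirs.mp hd
    have h1 := card_edgeSet_le hM d1 d3.le hP
    have h2 : ((edgeSet M d.1 d.2 P t).card : ℝ) ≤ 22 * d.1 * M := by exact_mod_cast h1
    have d1' : (0 : ℝ) < d.1 := by exact_mod_cast d1
    rw [div_le_iff₀ d1']
    linarith
  have hcount : ((dirs S).card : ℝ) * (48 * S ^ 2) ≤ 2 * M := by
    have h1 : ((dirs S).card : ℝ) ≤ S ^ 2 := by exact_mod_cast card_dirs_le S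
    have h2 : (24 : ℝ) * S ^ 4 ≤ M := by exact_mod_cast hSM
    nlinarith [mul_le_mul_of_nonneg_right h1 (by positivity : (0 : ℝ) ≤ 48 * S ^ 2)]
  by_cases hex : ∃ d ∈ dirs S, 3 * S * |d.1 * u0 + d.2 * u1| ≤ U
  · obtain ⟨d, hd, hd1⟩ := hex
    rw [← Finset.add_sum_erase _ _ hd]
    have h1 : ∑ e ∈ (dirs S).erase d, ((edgeSet M e.1 e.2 P t).card : ℝ) / e.1 ≤
        ((dirs S).erase d).card • (48 * (S : ℝ) ^ 2) := by
      apply Finset.sum_le_card_nsmul
      intro e he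
      rw [mem_erase] at he
      apply hfar e he.2
      by_contra hcon
      push Not at hcon
      exact he.1 (near_unique hU0 hU1 he.2 hd hcon hd1)
    have h2 : (((dirs S).erase d).card : ℝ) ≤ (dirs S).card := by
      exact_mod_cast card_le_card (erase_subset _ _)
    rw [nsmul_eq_mul] at h1
    have h3 := hnear d hd
    have h4 := mul_le_mul_of_nonneg_right h2 (by positivity : (0 : ℝ) ≤ 48 * (S : ℝ) ^ 2)
    linarith
  · push Not at hex
    have h1 : ∑ e ∈ dirs S, ((edgeSet M e.1 e.2 P t).card : ℝ) / e.1 ≤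
        (dirs S).card • (48 * (S : ℝ) ^ 2) := by
      apply Finset.sum_le_card_nsmul
      intro e he
      exact hfar e he (hex e he)
    rw [nsmul_eq_mul] at h1
    have : (0 : ℝ) ≤ M := by positivity
    linarith

end Pool.Agent.K6.H56.MonoLower
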