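import Mathlib
import Pool.Agent.K6.H56.MonoLower2

set_option autoImplicit false

/-!
# Dense point sets that need many monotone paths: the lower bound for covers
-/

namespace Pool.Agent.K6.H56.MonoLower

open Finset Pool.Agent.R143.MonoPath

theorem sum_inv_sq_le (S : ℕ) : ∑ g ∈ Icc 1 S, (1 : ℝ) / g ^ 2 ≤ 2 := by
  have key : ∀ n : ℕ, 1 ≤ n → ∑ g ∈ Icc 1 n, (1 : ℝ) / g ^ 2 ≤ 2 - 1 / n := by
    intro n hn
    induction n, hn using Nat.le_induction with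
    | base => norm_num
    | succ n hn ih =>
      rw [Finset.sum_Icc_succ_top (by omega)]
      have h0 : (1 : ℝ) ≤ (n : ℝ) := by exact_mod_cast hn
      have h1 : (1 : ℝ) / ((n + 1 : ℕ) : ℝ) ^ 2 ≤ 1 / (n : ℝ) - 1 / ((n + 1 : ℕ) : ℝ) := by
        push_cast
        rw [div_sub_div _ _ (by positivity) (by positivity), div_le_div_iff₀ (by positivity)
          (by positivity)]
        nlinarith
      linarith
  rcases Nat.eq_zero_or_pos S with rfl | h
  · norm_num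
  · have h1 := key S h
    have h2 : (0 : ℝ) ≤ 1 / S := by positivity
    linarith

theorem sum_totient (S : ℕ) :
    Real.log (S + 1) ≤ 2 * ∑ a ∈ Icc 1 S, (Nat.totient a : ℝ) / a ^ 2 := by
  have h1 : Real.log (S + 1) ≤ ∑ n ∈ Icc 1 S, (1 : ℝ) / n := by
    have h := log_add_one_le_harmonic S
    have h2 : ((harmonic S : ℚ) : ℝ) = ∑ n ∈ Icc 1 S, (1 : ℝ) / n := by
      rw [harmonic_eq_sum_Icc]
      push_cast
      simp
    rw [← h2]
    exact_mod_cast h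
  have h2 : ∑ n ∈ Icc 1 S, (1 : ℝ) / n =
      ∑ z ∈ (Icc 1 S).sigma (fun n => n.divisors), (Nat.totient z.2 : ℝ) / (z.1 : ℝ) ^ 2 := by
    rw [Finset.sum_sigma]
    apply Finset.sum_congr rfl
    intro n hn
    rw [mem_Icc] at hn
    have h3 : ∑ e ∈ n.divisors, (Nat.totient e : ℝ) = n := by
      exact_mod_cast Nat.sum_totient n
    have hn0 : (n : ℝ) ≠ 0 := by
      have : n ≠ 0 := by omega
      exact_mod_cast this
    show (1 : ℝ) / n = ∑ e ∈ n.divisors, (Nat.totient e : ℝ) / (n : ℝ) ^ 2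
    rw [← Finset.sum_div, h3]
    field_simp
  have h3 : ∑ z ∈ (Icc 1 S).sigma (fun n => n.divisors), (Nat.totient z.2 : ℝ) / (z.1 : ℝ) ^ 2 ≤
      ∑ w ∈ (Icc 1 S) ×ˢ (Icc 1 S), ((Nat.totient w.1 : ℝ) / w.1 ^ 2) * (1 / (w.2 : ℝ) ^ 2) := by
    have hmem : ∀ z ∈ (Icc 1 S).sigma (fun n => n.divisors), 1 ≤ z.1 ∧ z.1 ≤ S ∧ z.2 ∣ z.1 ∧
        1 ≤ z.2 ∧ z.2 ≤ S ∧ 1 ≤ z.1 / z.2 ∧ z.1 / z.2 ≤ S ∧ z.2 * (z.1 / z.2) = z.1 := by
      intro z hz
      rw [mem_sigma, mem_Icc, Nat.mem_divisors] at hz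
      obtain ⟨⟨h1, h2⟩, h3, h4⟩ := hz
      have h5 : z.2 ≤ z.1 := Nat.le_of_dvd (by omega) h3
      have h6 : 1 ≤ z.2 := Nat.pos_of_dvd_of_pos h3 (by omega)
      have h7 : 1 ≤ z.1 / z.2 := Nat.div_pos h5 h6
      have h8 : z.1 / z.2 ≤ S := (Nat.div_le_self _ _).trans h2
      exact ⟨h1, h2, h3, h6, h5.trans h2, h7, h8, Nat.mul_div_cancel' h3⟩
    have himg : ∑ z ∈ (Icc 1 S).sigma (fun n => n.divisors),
        (Nat.totient z.2 : ℝ) / (z.1 : ℝ) ^ 2 =
        ∑ w ∈ ((Icc 1 S).sigma (fun n => n.divisors)).image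
          (fun z => ((z.2, z.1 / z.2) : ℕ × ℕ)),
          ((Nat.totient w.1 : ℝ) / w.1 ^ 2) * (1 / (w.2 : ℝ) ^ 2) := by
      rw [Finset.sum_image]
      · apply Finset.sum_congr rfl
        intro z hz
        obtain ⟨-, -, -, h4, -, h6, -, h8⟩ := hmem z hz
        have h4' : (z.2 : ℝ) ≠ 0 := by
          have : z.2 ≠ 0 := by omega
          exact_mod_cast this
        have h6' : ((z.1 / z.2 : ℕ) : ℝ) ≠ 0 := by
          have : z.1 / z.2 ≠ 0 := by omega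
          exact_mod_cast this
        have h9 : (z.1 : ℝ) = z.2 * ((z.1 / z.2 : ℕ) : ℝ) := by exact_mod_cast h8.symm
        show (Nat.totient z.2 : ℝ) / (z.1 : ℝ) ^ 2 =
          ((Nat.totient z.2 : ℝ) / (z.2 : ℝ) ^ 2) * (1 / ((z.1 / z.2 : ℕ) : ℝ) ^ 2)
        rw [h9]
        field_simp
      · intro z hz w hw hzw
        obtain ⟨-, -, -, -, -, -, -, h8⟩ := hmem z hz
        obtain ⟨-, -, -, -, -, -, -, k8⟩ := hmem w hw
        obtain ⟨e1, e2⟩ := Prod.ext_iff.mp hzw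
        simp only at e1 e2
        have k9 : z.1 = w.1 := by rw [← k8, ← e2, ← e1, h8]
        exact Sigma.ext k9 (heq_of_eq e1)
    rw [himg]
    apply Finset.sum_le_sum_of_subset_of_nonneg
    · intro w hw
      rw [mem_image] at hw
      obtain ⟨z, hz, rfl⟩ := hw
      obtain ⟨-, -, -, h4, h5, h6, h7, -⟩ := hmem z hz
      rw [mem_product, mem_Icc, mem_Icc]
      exact ⟨⟨h4, h5⟩, ⟨h6, h7⟩⟩
    · intro w _ _
      positivity
  rw [Finset.sum_product] at h3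
  have h4 : ∑ x ∈ Icc 1 S, ∑ y ∈ Icc 1 S, ((Nat.totient x : ℝ) / x ^ 2) * (1 / (y : ℝ) ^ 2) =
      (∑ x ∈ Icc 1 S, (Nat.totient x : ℝ) / x ^ 2) * ∑ y ∈ Icc 1 S, 1 / (y : ℝ) ^ 2 := by
    rw [Finset.sum_mul_sum]
  have h5 := sum_inv_sq_le S
  have h6 : (0 : ℝ) ≤ ∑ x ∈ Icc 1 S, (Nat.totient x : ℝ) / x ^ 2 :=
    Finset.sum_nonneg fun x _ => by positivity
  calc Real.log (S + 1) ≤ _ := h1
    _ = _ := h2
    _ ≤ _ := h3
    _ = _ := h4
    _ ≤ (∑ x ∈ Icc 1 S, (Nat.totient x : ℝ) / x ^ 2) * 2 :=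
        mul_le_mul_of_nonneg_left h5 h6
    _ = _ := mul_comm _ _

theorem sum_dirs (S : ℕ) : ∑ d ∈ dirs S, (1 : ℝ) / (d.1 : ℝ) ^ 2 =
    ∑ a ∈ Icc 1 S, (Nat.totient a : ℝ) / a ^ 2 := by
  unfold dirs
  rw [Finset.sum_sigma]
  apply Finset.sum_congr rfl
  intro a _
  show ∑ b ∈ (range a).filter (fun b => a.Coprime b), (1 : ℝ) / (a : ℝ) ^ 2 = _
  rw [Finset.sum_const, nsmul_eq_mul]
  have : ((range a).filter (fun b => a.Coprime b)).card = Nat.totient a := rfl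
  rw [this]
  ring

/-- the displaced grid -/
noncomputable def pt (M : ℕ) (p : ℕ × ℕ) : Plane :=
  !₂[(p.1 : ℝ) + rho M p, (p.2 : ℝ) + M * rho M p]

@[simp] theorem pt_zero (M : ℕ) (p : ℕ × ℕ) : (pt M p) 0 = (p.1 : ℝ) + rho M p := by simp [pt]
@[simp] theorem pt_one (M : ℕ) (p : ℕ × ℕ) : (pt M p) 1 = (p.2 : ℝ) + M * rho M p := by simp [pt]

theorem inner_pt (M : ℕ) (p : ℕ × ℕ) (u : Plane) : inner ℝ (pt M p) u = ht M (u 0) (u 1) p := by
  rw [inner_eq, pt_zero, pt_one]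
  rfl

/-- the pairs that are counted in direction `(a, b)` -/
def pairs (M a : ℕ) : Finset ((ℕ × ℕ) × ℕ) :=
  ((range (M / 4)) ×ˢ (range (M / 4))) ×ˢ (Ioc (M / (4 * a)) (2 * (M / (4 * a))))

theorem pairs_spec {M a b : ℕ} (hM : 4 ≤ M) (ha : 1 ≤ a) (hb : b ≤ a) {z : (ℕ × ℕ) × ℕ}
    (hz : z ∈ pairs M a) : M ≤ 4 * (z.2 * a) ∧ z.1.1 < M - 1 ∧ z.1.2 < M - 1 ∧
      z.1.1 + z.2 * a < M - 1 ∧ z.1.2 + z.2 * b < M - 1 ∧ 1 ≤ z.2 := by
  unfold pairs at hz
  rw [mem_product, mem_product, mem_range, mem_range, mem_Ioc] at hz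
  obtain ⟨⟨h1, h2⟩, h3, h4⟩ := hz
  have e1 : M < 4 * a * (M / (4 * a) + 1) := Nat.lt_mul_div_succ M (by omega)
  have e2 : 4 * a * (M / (4 * a)) ≤ M := Nat.mul_div_le M (4 * a)
  set q := M / (4 * a)
  have e3 : 4 * a * (q + 1) ≤ 4 * a * z.2 := Nat.mul_le_mul_left _ h3
  have e4 : 4 * a * z.2 ≤ 4 * a * (2 * q) := Nat.mul_le_mul_left _ h4
  have e5 : z.2 * b ≤ z.2 * a := Nat.mul_le_mul_left _ hb
  have e6 : 4 * a * z.2 = 4 * (z.2 * a) := by ring
  have e7 : 4 * a * (2 * q) = 2 * (4 * a * q) := by ring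
  have e8 : 4 * (M / 4) ≤ M := Nat.mul_div_le M 4
  refine ⟨by omega, by omega, by omega, by omega, by omega, by omega⟩

theorem card_pairs {M a : ℕ} (hM : 4 ≤ M) (ha : 1 ≤ a) (h : 4 * a ≤ M) :
    (M : ℝ) ^ 3 / (512 * a) ≤ (pairs M a).card := by
  have h1 : (pairs M a).card = (M / 4) * (M / 4) * (M / (4 * a)) := by
    unfold pairs
    rw [card_product, card_product, card_range, Nat.card_Ioc]
    congr 1
    omega
  have h2 : (M : ℝ) / 8 ≤ (M / 4 : ℕ) := by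
    have : M ≤ 8 * (M / 4) := by omega
    have : (M : ℝ) ≤ 8 * (M / 4 : ℕ) := by exact_mod_cast this
    linarith
  have ha0 : (0 : ℝ) < a := by exact_mod_cast ha
  have h3 : (M : ℝ) / (8 * a) ≤ (M / (4 * a) : ℕ) := by
    have e1 : M < 4 * a * (M / (4 * a) + 1) := Nat.lt_mul_div_succ M (by omega)
    have e2 : 1 ≤ M / (4 * a) := Nat.div_pos h (by omega)
    have e3 : M ≤ 8 * a * (M / (4 * a)) := by nlinarith
    have e4 : (M : ℝ) ≤ 8 * a * (M / (4 * a) : ℕ) := by exact_mod_cast e3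
    rw [div_le_iff₀ (by positivity)]
    linarith
  rw [h1]
  push_cast [Nat.cast_mul]
  have h4 : (M : ℝ) ^ 3 / (512 * a) = (M : ℝ) / 8 * (M / 8) * (M / (8 * a)) := by
    field_simp
    norm_num
  rw [h4]
  have e2 : (0 : ℝ) ≤ M := by positivity
  apply mul_le_mul _ h3 (by positivity) (by positivity)
  exact mul_le_mul h2 h2 (by positivity) (by positivity)

/-- the lower bound for the number of monotone paths of a cover of a displaced grid -/
theorem cover_ge {M S k : ℕ} (hM : 4 ≤ M) (hSM : 24 * S ^ 4 ≤ M) {G : Finset (ℕ × ℕ)}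
    (hG1 : G ⊆ range M ×ˢ range M) (hG2 : range (M - 1) ×ˢ range (M - 1) ⊆ G)
    (hinj : Set.InjOn (pt M) G) (hc : HasCover (G.image (pt M)) k) :
    (M : ℝ) ^ 2 / 12288 * ∑ d ∈ dirs S, (1 : ℝ) / (d.1 : ℝ) ^ 2 ≤ k := by
  classical
  obtain ⟨t, v, hv, hcov⟩ := hc
  have hM1 : 1 ≤ M := by omega
  have hS : S ≤ M := by
    have : S ≤ S ^ 4 := Nat.le_self_pow (by norm_num) S
    omega
  let inv : Plane → ℕ × ℕ := Function.invFunOn (pt M) (G : Set (ℕ × ℕ))
  have inv1 : ∀ p ∈ G, inv (pt M p) = p := by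
    intro p hp
    exact hinj.leftInvOn_invFunOn (by exact_mod_cast hp)
  have inv2 : ∀ x ∈ G.image (pt M), inv x ∈ G ∧ pt M (inv x) = x := by
    intro x hx
    obtain ⟨p, hp, rfl⟩ := mem_image.mp hx
    rw [inv1 p hp]
    exact ⟨hp, rfl⟩
  let P : Fin k → ℕ → ℕ × ℕ := fun s i => if h : i < t s then inv (v s ⟨i, h⟩) else (0, 0)
  have hPdef : ∀ s i (h : i < t s), P s i = inv (v s ⟨i, h⟩) := by
    intro s i h
    show (if h : i < t s then inv (v s ⟨i, h⟩) else (0, 0)) = _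
    rw [dif_pos h]
  have hpath : ∀ s, ∃ u0 u1 : ℝ, (u0 ≠ 0 ∨ u1 ≠ 0) ∧ Path M u0 u1 (P s) (t s) := by
    intro s
    obtain ⟨h1, u, hu, h2⟩ := hv s
    refine ⟨u 0, u 1, ?_, ⟨?_, ?_⟩⟩
    · by_contra hcon
      push Not at hcon
      apply hu
      ext i
      fin_cases i
      · exact hcon.1
      · exact hcon.2
    · intro i hi
      rw [hPdef s i hi]
      have := hG1 (inv2 _ (h1 ⟨i, hi⟩)).1
      rw [mem_product, mem_range, mem_range] at this
      exact this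
    · intro i hi
      rw [hPdef s i (by omega), hPdef s (i + 1) hi, ← inner_pt, ← inner_pt,
        (inv2 _ (h1 ⟨i, by omega⟩)).2, (inv2 _ (h1 ⟨i + 1, hi⟩)).2]
      have := h2 ⟨i, by omega⟩ ⟨i + 1, hi⟩ rfl
      rw [inner_sub_left] at this
      linarith
  -- every counted pair is an edge
  have hcount : ∀ d ∈ dirs S, (pairs M d.1).card ≤
      ∑ s : Fin k, (edgeSet M d.1 d.2 (P s) (t s)).card := by
    intro d hd
    obtain ⟨d1, d2, d3, -⟩ := mem_dirs.mp hd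
    rw [← Finset.card_sigma]
    apply Finset.card_le_card_of_surjOn (fun z : Σ _ : Fin k, ℕ =>
      if (P z.1 z.2).1 ≤ (P z.1 (z.2 + 1)).1 then
        (P z.1 z.2, ((P z.1 (z.2 + 1)).1 - (P z.1 z.2).1) / d.1)
      else (P z.1 (z.2 + 1), ((P z.1 z.2).1 - (P z.1 (z.2 + 1)).1) / d.1))
    intro z hz
    rw [mem_coe] at hz
    obtain ⟨h1, h2, h3, h4, h5, h6⟩ := pairs_spec hM d1 d3.le hz
    obtain ⟨p, m⟩ := z
    simp only at h1 h2 h3 h4 h5 h6
    set p' : ℕ × ℕ := (p.1 + m * d.1, p.2 + m * d.2) with hp'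
    have hpG : p ∈ G := hG2 (by rw [mem_product, mem_range, mem_range]; exact ⟨h2, h3⟩)
    have hpG' : p' ∈ G := hG2 (by rw [mem_product, mem_range, mem_range]; exact ⟨h4, h5⟩)
    have hmd : 0 < m * d.1 := Nat.mul_pos (by omega) (by omega)
    have hne : p ≠ p' := by
      intro h
      have := (Prod.ext_iff.mp h).1
      simp only [hp'] at this
      omega
    have hne' : pt M p ≠ pt M p' := fun h => hne (hinj hpG hpG' h)
    have hlong : Long M d.1 d.2 p p' := ⟨m, h1, rfl, rfl⟩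
    have hdiv : (p'.1 - p.1) / d.1 = m := by
      simp only [hp']
      rw [Nat.add_sub_cancel_left]
      exact Nat.mul_div_cancel _ (by omega)
    obtain ⟨s, i, j, hij, h7⟩ := hcov _ (mem_image_of_mem _ hpG) _ (mem_image_of_mem _ hpG') hne'
    have hi1 : (i : ℕ) + 1 < t s := by rw [← hij]; exact j.2
    have hj : j = ⟨(i : ℕ) + 1, hi1⟩ := Fin.ext hij
    rcases h7 with ⟨e1, e2⟩ | ⟨e1, e2⟩
    · have f1 : P s i = p := by
        rw [hPdef s i (by omega)]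
        have : (⟨(i : ℕ), by omega⟩ : Fin (t s)) = i := Fin.ext rfl
        rw [this, e1, inv1 p hpG]
      have f2 : P s (i + 1) = p' := by
        rw [hPdef s (i + 1) hi1, ← hj, e2, inv1 p' hpG']
      refine ⟨⟨s, i⟩, ?_, ?_⟩
      · rw [mem_coe, mem_sigma]
        refine ⟨mem_univ _, ?_⟩
        rw [edgeSet, mem_filter, mem_range]
        refine ⟨by show (i : ℕ) < t s; omega, hi1, Or.inl ?_⟩
        show Long M d.1 d.2 (P s i) (P s (i + 1))
        rw [f1, f2]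
        exact hlong
      · simp only
        rw [f1, f2, if_pos (by simp only [hp']; omega), hdiv]
    · have f1 : P s i = p' := by
        rw [hPdef s i (by omega)]
        have : (⟨(i : ℕ), by omega⟩ : Fin (t s)) = i := Fin.ext rfl
        rw [this, e1, inv1 p' hpG']
      have f2 : P s (i + 1) = p := by
        rw [hPdef s (i + 1) hi1, ← hj, e2, inv1 p hpG]
      refine ⟨⟨s, i⟩, ?_, ?_⟩
      · rw [mem_coe, mem_sigma]
        refine ⟨mem_univ _, ?_⟩
        rw [edgeSet, mem_filter, mem_range]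
        refine ⟨by show (i : ℕ) < t s; omega, hi1, Or.inr ?_⟩
        show Long M d.1 d.2 (P s (i + 1)) (P s i)
        rw [f1, f2]
        exact hlong
      · simp only
        rw [f1, f2, if_neg (by simp only [hp']; omega), hdiv]
  -- double counting
  have h1 : ∑ d ∈ dirs S, ((pairs M d.1).card : ℝ) / d.1 ≤ k * (24 * M) := by
    calc ∑ d ∈ dirs S, ((pairs M d.1).card : ℝ) / d.1
        ≤ ∑ d ∈ dirs S, ∑ s : Fin k, ((edgeSet M d.1 d.2 (P s) (t s)).card : ℝ) / d.1 := by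
          apply Finset.sum_le_sum
          intro d hd
          rw [← Finset.sum_div]
          apply div_le_div_of_nonneg_right _ (by positivity)
          exact_mod_cast hcount d hd
      _ = ∑ s : Fin k, ∑ d ∈ dirs S, ((edgeSet M d.1 d.2 (P s) (t s)).card : ℝ) / d.1 :=
          Finset.sum_comm
      _ ≤ ∑ s : Fin k, 24 * (M : ℝ) := by
          apply Finset.sum_le_sum
          intro s _
          obtain ⟨u0, u1, hu, hp⟩ := hpath s
          exact weight_le hM1 hS hSM hu hp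
      _ = k * (24 * M) := by simp
  have h2 : ∑ d ∈ dirs S, (M : ℝ) ^ 3 / 512 * (1 / (d.1 : ℝ) ^ 2) ≤
      ∑ d ∈ dirs S, ((pairs M d.1).card : ℝ) / d.1 := by
    apply Finset.sum_le_sum
    intro d hd
    obtain ⟨d1, d2, d3, -⟩ := mem_dirs.mp hd
    have d1' : (0 : ℝ) < d.1 := by exact_mod_cast d1
    have h4 : 4 * d.1 ≤ M := by
      have : S ≤ S ^ 4 := Nat.le_self_pow (by norm_num) S
      omega
    have h5 := card_pairs hM d1 h4
    rw [le_div_iff₀ d1']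
    refine le_trans (le_of_eq ?_) h5
    field_simp
  rw [← Finset.mul_sum] at h2
  have hM0 : (0 : ℝ) < M := by
    have : 0 < M := by omega
    exact_mod_cast this
  have h3 := h2.trans h1
  set Z := ∑ d ∈ dirs S, (1 : ℝ) / (d.1 : ℝ) ^ 2
  have h4 : (M : ℝ) * ((M : ℝ) ^ 2 / 12288 * Z) ≤ M * k := by nlinarith
  exact le_of_mul_le_mul_left h4 hM0

end Pool.Agent.K6.H56.MonoLower
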