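import Mathlib
import Pool.Agent.K6.H56.MonoLower3

set_option autoImplicit false

/-!
# Dense point sets that need many monotone paths: the point sets
-/

namespace Pool.Agent.K6.H56.MonoLower

open Finset Pool.Agent.R143.MonoPath

theorem rk_inj {M : ℕ} {p q : ℕ × ℕ} (hp : p.1 < M) (hq : q.1 < M) (h : rk M p = rk M q) :
    p = q := by
  unfold rk at h
  have h1 : (p.1 + M * p.2) % M = p.1 := by
    rw [Nat.add_mul_mod_self_left, Nat.mod_eq_of_lt hp]
  have h2 : (q.1 + M * q.2) % M = q.1 := by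
    rw [Nat.add_mul_mod_self_left, Nat.mod_eq_of_lt hq]
  have h3 : p.1 = q.1 := by rw [← h1, ← h2, h]
  have h4 : M * p.2 = M * q.2 := by omega
  have h5 : p.2 = q.2 := Nat.eq_of_mul_eq_mul_left (by omega) h4
  exact Prod.ext h3 h5

/-- twice the signed area of a triangle -/
def det3 (x y z : Plane) : ℝ := (y 0 - x 0) * (z 1 - x 1) - (y 1 - x 1) * (z 0 - x 0)

theorem det3_of_collinear {x y z : Plane} (h : Collinear ℝ ({x, y, z} : Set Plane)) :
    det3 x y z = 0 := by
  rw [collinear_iff_of_mem (p₀ := x) (by simp)] at h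
  obtain ⟨v, hv⟩ := h
  obtain ⟨r, hr⟩ := hv y (by simp)
  obtain ⟨s, hs⟩ := hv z (by simp)
  unfold det3
  rw [hr, hs]
  simp
  ring

theorem det3_swap (x y z : Plane) : det3 x y z = - det3 y x z := by
  unfold det3; ring

theorem det3_swap' (x y z : Plane) : det3 x y z = - det3 x z y := by
  unfold det3; ring

theorem det3_ne_of_lt {M : ℕ} (hM : 1 ≤ M) {p q r : ℕ × ℕ} (hp : p.1 < M ∧ p.2 < M)
    (hq : q.1 < M ∧ q.2 < M) (hr : r.1 < M ∧ r.2 < M) (h1 : rk M p < rk M q)
    (h2 : rk M q < rk M r) : det3 (pt M p) (pt M q) (pt M r) ≠ 0 := by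
  have hM1 : (1 : ℝ) ≤ M := by exact_mod_cast hM
  have hK : KK M = 100 * (M : ℝ) ^ 2 := rfl
  have hK0 := KK_pos hM
  have hK1 := KK_ge hM
  have s1 := rho_step hM h1
  have s2 := rho_step hM h2
  have p1 := rho_pos hM p
  have p2 := rho_pos hM q
  have p3 := rho_pos hM r
  have l3 := rho_le hM hr.1 hr.2
  -- the integers
  set D : ℤ := ((q.1 : ℤ) - p.1) * ((r.2 : ℤ) - p.2) - ((q.2 : ℤ) - p.2) * ((r.1 : ℤ) - p.1)
    with hD
  set w1 : ℤ := M * ((q.1 : ℤ) - p.1) - ((q.2 : ℤ) - p.2) with hw1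
  set w2 : ℤ := M * ((r.1 : ℤ) - p.1) - ((r.2 : ℤ) - p.2) with hw2
  have hdet : det3 (pt M p) (pt M q) (pt M r) =
      D + (rho M r - rho M p) * w1 - (rho M q - rho M p) * w2 := by
    unfold det3
    rw [pt_zero, pt_zero, pt_zero, pt_one, pt_one, pt_one, hD, hw1, hw2]
    push_cast
    ring
  have bq1 : (q.1 : ℤ) + 1 ≤ M := by exact_mod_cast hq.1
  have bq2 : (q.2 : ℤ) + 1 ≤ M := by exact_mod_cast hq.2
  have bp1 : (p.1 : ℤ) + 1 ≤ M := by exact_mod_cast hp.1
  have bp2 : (p.2 : ℤ) + 1 ≤ M := by exact_mod_cast hp.2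
  have br1 : (r.1 : ℤ) + 1 ≤ M := by exact_mod_cast hr.1
  have br2 : (r.2 : ℤ) + 1 ≤ M := by exact_mod_cast hr.2
  have zq1 : (0 : ℤ) ≤ q.1 := by positivity
  have zq2 : (0 : ℤ) ≤ q.2 := by positivity
  have zp1 : (0 : ℤ) ≤ p.1 := by positivity
  have zp2 : (0 : ℤ) ≤ p.2 := by positivity
  have zr1 : (0 : ℤ) ≤ r.1 := by positivity
  have zr2 : (0 : ℤ) ≤ r.2 := by positivity
  have hMz : (1 : ℤ) ≤ M := by exact_mod_cast hM
  have w1ne : w1 ≠ 0 := by
    intro h0
    have hpq : p ≠ q := by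
      rintro rfl
      exact lt_irrefl _ h1
    apply hpq
    have e : (M : ℤ) * ((q.1 : ℤ) - p.1) = (q.2 : ℤ) - p.2 := by linarith
    have e1 : (q.1 : ℤ) - p.1 = 0 := by
      by_contra hne
      rcases lt_or_gt_of_ne hne with h | h
      · have : (M : ℤ) * ((q.1 : ℤ) - p.1) ≤ M * (-1) :=
          mul_le_mul_of_nonneg_left (by omega) (by omega)
        omega
      · have : (M : ℤ) * 1 ≤ M * ((q.1 : ℤ) - p.1) :=
          mul_le_mul_of_nonneg_left (by omega) (by omega)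
        omega
    rw [e1, mul_zero] at e
    exact Prod.ext (by omega) (by omega)
  have w1b : |w1| ≤ (M : ℤ) ^ 2 := by
    rw [abs_le]
    constructor <;> nlinarith
  have w2b : |w2| ≤ (M : ℤ) ^ 2 := by
    rw [abs_le]
    constructor <;> nlinarith
  have w1b' : |(w1 : ℝ)| ≤ (M : ℝ) ^ 2 := by exact_mod_cast w1b
  have w2b' : |(w2 : ℝ)| ≤ (M : ℝ) ^ 2 := by exact_mod_cast w2b
  have w1one : (1 : ℝ) ≤ |(w1 : ℝ)| := by exact_mod_cast Int.one_le_abs w1ne
  have hpq' : rho M p ≤ rho M q / 100 := by nlinarith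
  have d1 : 0 ≤ rho M q - rho M p := by linarith
  have d1' : rho M q - rho M p ≤ rho M q := by linarith
  have hqr : rho M q * (M : ℝ) ^ 2 ≤ rho M r / 100 := by
    rw [hK] at s2
    linarith
  have hqr' : rho M q ≤ rho M r / 100 := by nlinarith
  have t2 : |(rho M q - rho M p) * (w2 : ℝ)| ≤ rho M r / 100 := by
    rw [abs_mul, abs_of_nonneg d1]
    exact (mul_le_mul d1' w2b' (abs_nonneg _) p2.le).trans hqr
  have d2 : 0 ≤ rho M r - rho M p := by linarith
  have hr100 : rho M r * (M : ℝ) ^ 2 ≤ 1 / 100 := by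
    calc rho M r * (M : ℝ) ^ 2 ≤ 1 / KK M * (M : ℝ) ^ 2 :=
          mul_le_mul_of_nonneg_right l3 (by positivity)
      _ = 1 / 100 := by rw [hK]; field_simp
  have t1 : |(rho M r - rho M p) * (w1 : ℝ)| ≤ 1 / 100 := by
    rw [abs_mul, abs_of_nonneg d2]
    exact (mul_le_mul (by linarith) w1b' (abs_nonneg _) p3.le).trans hr100
  have t1' : rho M r / 2 ≤ |(rho M r - rho M p) * (w1 : ℝ)| := by
    rw [abs_mul, abs_of_nonneg d2]
    nlinarith
  rw [hdet]
  intro h0
  by_cases hD0 : D = 0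
  · rw [hD0] at h0
    have e : (rho M r - rho M p) * (w1 : ℝ) = (rho M q - rho M p) * (w2 : ℝ) := by
      push_cast at h0
      linarith
    rw [e] at t1'
    linarith
  · have hD1 : (1 : ℝ) ≤ |(D : ℝ)| := by exact_mod_cast Int.one_le_abs hD0
    have e : (D : ℝ) = (rho M q - rho M p) * (w2 : ℝ) - (rho M r - rho M p) * (w1 : ℝ) := by
      linarith
    rw [e] at hD1
    have := abs_sub ((rho M q - rho M p) * (w2 : ℝ)) ((rho M r - rho M p) * (w1 : ℝ))
    have hr1 : rho M r ≤ 1 := by nlinarith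
    linarith

theorem det3_ne {M : ℕ} (hM : 1 ≤ M) {p q r : ℕ × ℕ} (hp : p.1 < M ∧ p.2 < M)
    (hq : q.1 < M ∧ q.2 < M) (hr : r.1 < M ∧ r.2 < M) (h1 : p ≠ q) (h2 : q ≠ r) (h3 : p ≠ r) :
    det3 (pt M p) (pt M q) (pt M r) ≠ 0 := by
  have k1 : rk M p ≠ rk M q := fun h => h1 (rk_inj hp.1 hq.1 h)
  have k2 : rk M q ≠ rk M r := fun h => h2 (rk_inj hq.1 hr.1 h)
  have k3 : rk M p ≠ rk M r := fun h => h3 (rk_inj hp.1 hr.1 h)
  rcases lt_or_gt_of_ne k1 with a1 | a1
  · rcases lt_or_gt_of_ne k2 with a2 | a2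
    · exact det3_ne_of_lt hM hp hq hr a1 a2
    · rcases lt_or_gt_of_ne k3 with a3 | a3
      · rw [det3_swap', neg_ne_zero]
        exact det3_ne_of_lt hM hp hr hq a3 a2
      · rw [det3_swap', neg_ne_zero, det3_swap, neg_ne_zero]
        exact det3_ne_of_lt hM hr hp hq a3 a1
  · rcases lt_or_gt_of_ne k3 with a3 | a3
    · rw [det3_swap, neg_ne_zero]
      exact det3_ne_of_lt hM hq hp hr a1 a3
    · rcases lt_or_gt_of_ne k2 with a2 | a2
      · rw [det3_swap, neg_ne_zero, det3_swap', neg_ne_zero]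
        exact det3_ne_of_lt hM hq hr hp a2 a3
      · rw [det3_swap, neg_ne_zero, det3_swap', neg_ne_zero, det3_swap, neg_ne_zero]
        exact det3_ne_of_lt hM hr hq hp a2 a1

theorem dist_le_add (x y : Plane) : dist x y ≤ |x 0 - y 0| + |x 1 - y 1| := by
  rw [EuclideanSpace.dist_eq, Fin.sum_univ_two, Real.dist_eq, Real.dist_eq]
  rw [Real.sqrt_le_left (by positivity)]
  nlinarith [abs_nonneg (x 0 - y 0), abs_nonneg (x 1 - y 1),
    mul_nonneg (abs_nonneg (x 0 - y 0)) (abs_nonneg (x 1 - y 1))]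

theorem abs_le_dist (x y : Plane) : |x 0 - y 0| ≤ dist x y ∧ |x 1 - y 1| ≤ dist x y := by
  rw [EuclideanSpace.dist_eq, Fin.sum_univ_two, Real.dist_eq, Real.dist_eq]
  constructor
  · apply Real.le_sqrt_of_sq_le
    have := sq_nonneg |x 1 - y 1|
    linarith
  · apply Real.le_sqrt_of_sq_le
    have := sq_nonneg |x 0 - y 0|
    linarith

theorem dist_pt_le {M : ℕ} (hM : 1 ≤ M) {p q : ℕ × ℕ} (hp : p.1 < M ∧ p.2 < M)
    (hq : q.1 < M ∧ q.2 < M) : dist (pt M p) (pt M q) ≤ 2 * M := by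
  have hM1 : (1 : ℝ) ≤ M := by exact_mod_cast hM
  have hρ := rho_diff hM hq hp
  have hK : KK M = 100 * (M : ℝ) ^ 2 := rfl
  have hK0 := KK_pos hM
  refine (dist_le_add _ _).trans ?_
  rw [pt_zero, pt_zero, pt_one, pt_one]
  have x1 : |(p.1 : ℝ) - q.1| ≤ M - 1 := by
    have a1 : (q.1 : ℝ) + 1 ≤ M := by exact_mod_cast hq.1
    have a2 : (p.1 : ℝ) + 1 ≤ M := by exact_mod_cast hp.1
    have a3 : (0 : ℝ) ≤ q.1 := by positivity
    have a4 : (0 : ℝ) ≤ p.1 := by positivity
    rw [abs_le]; constructor <;> linarith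
  have x2 : |(p.2 : ℝ) - q.2| ≤ M - 1 := by
    have a1 : (q.2 : ℝ) + 1 ≤ M := by exact_mod_cast hq.2
    have a2 : (p.2 : ℝ) + 1 ≤ M := by exact_mod_cast hp.2
    have a3 : (0 : ℝ) ≤ q.2 := by positivity
    have a4 : (0 : ℝ) ≤ p.2 := by positivity
    rw [abs_le]; constructor <;> linarith
  have hr1 : 1 / KK M ≤ 1 := by
    rw [div_le_one hK0]
    linarith [KK_ge hM]
  have hr2 : M * (1 / KK M) ≤ 1 := by
    rw [hK, mul_one_div, div_le_one (by positivity)]
    nlinarith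
  have y1 : |((p.1 : ℝ) + rho M p) - (q.1 + rho M q)| ≤ M := by
    have e : ((p.1 : ℝ) + rho M p) - (q.1 + rho M q) = (p.1 - q.1) + (rho M p - rho M q) := by
      ring
    rw [e]
    exact (abs_add_le _ _).trans (by linarith)
  have y2 : |((p.2 : ℝ) + M * rho M p) - (q.2 + M * rho M q)| ≤ M := by
    have e : ((p.2 : ℝ) + M * rho M p) - (q.2 + M * rho M q) =
      (p.2 - q.2) + M * (rho M p - rho M q) := by ring
    rw [e]
    refine (abs_add_le _ _).trans ?_
    rw [abs_mul, abs_of_nonneg (by positivity : (0 : ℝ) ≤ M)]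
    nlinarith [mul_le_mul_of_nonneg_left hρ (by positivity : (0 : ℝ) ≤ M)]
  linarith

theorem dist_pt_ge {M : ℕ} (hM : 1 ≤ M) {p q : ℕ × ℕ} (hp : p.1 < M ∧ p.2 < M)
    (hq : q.1 < M ∧ q.2 < M) (hne : p ≠ q) : 1 / 2 ≤ dist (pt M p) (pt M q) := by
  have hM1 : (1 : ℝ) ≤ M := by exact_mod_cast hM
  have hρ := rho_diff hM hq hp
  have hK : KK M = 100 * (M : ℝ) ^ 2 := rfl
  have hK0 := KK_pos hM
  obtain ⟨k1, k2⟩ := abs_le_dist (pt M p) (pt M q)
  rw [pt_zero, pt_zero] at k1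
  rw [pt_one, pt_one] at k2
  have hr1 : 1 / KK M ≤ 1 / 100 := by
    apply div_le_div_of_nonneg_left (by norm_num) (by norm_num) (KK_ge hM)
  have hr2 : M * (1 / KK M) ≤ 1 / 100 := by
    rw [hK, mul_one_div, div_le_iff₀ (by positivity)]
    nlinarith
  by_cases h : p.1 = q.1
  · have h2 : p.2 ≠ q.2 := fun h' => hne (Prod.ext h h')
    have h3 : (1 : ℝ) ≤ |(p.2 : ℝ) - q.2| := by
      have : (p.2 : ℤ) - q.2 ≠ 0 := by omega
      exact_mod_cast Int.one_le_abs this
    refine le_trans ?_ k2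
    have e : ((p.2 : ℝ) + M * rho M p) - (q.2 + M * rho M q) =
      (p.2 - q.2) - M * (rho M q - rho M p) := by ring
    rw [e]
    have h4 := abs_sub_abs_le_abs_sub ((p.2 : ℝ) - q.2) (M * (rho M q - rho M p))
    have h5 : |M * (rho M q - rho M p)| ≤ 1 / 100 := by
      rw [abs_mul, abs_of_nonneg (by positivity : (0 : ℝ) ≤ M), abs_sub_comm]
      exact (mul_le_mul_of_nonneg_left hρ (by positivity)).trans hr2
    linarith
  · have h3 : (1 : ℝ) ≤ |(p.1 : ℝ) - q.1| := by
      have : (p.1 : ℤ) - q.1 ≠ 0 := by omega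
      exact_mod_cast Int.one_le_abs this
    refine le_trans ?_ k1
    have e : ((p.1 : ℝ) + rho M p) - (q.1 + rho M q) =
      (p.1 - q.1) - (rho M q - rho M p) := by ring
    rw [e]
    have h4 := abs_sub_abs_le_abs_sub ((p.1 : ℝ) - q.1) (rho M q - rho M p)
    have h5 : |rho M q - rho M p| ≤ 1 / 100 := by
      rw [abs_sub_comm]
      exact hρ.trans hr1
    linarith

theorem pt_injOn {M : ℕ} (hM : 1 ≤ M) {G : Finset (ℕ × ℕ)} (hG : G ⊆ range M ×ˢ range M) :
    Set.InjOn (pt M) G := by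
  intro p hp q hq h
  by_contra hne
  have hp' := hG hp
  have hq' := hG hq
  rw [mem_product, mem_range, mem_range] at hp' hq'
  have := dist_pt_ge hM hp' hq' hne
  rw [h, dist_self] at this
  norm_num at this

/-- for every `n ≥ 1` there is an `8`-dense `n`-point set in general position with
`mc ≥ n log n / 400000` (for large `n`) -/
theorem exists_set (n : ℕ) (hn : 1 ≤ n) : ∃ A : Finset Plane, A.card = n ∧ GeneralPosition A ∧
    IsDense 8 A ∧ (331776 ≤ n → (n : ℝ) * Real.log n / 400000 ≤ mc A) := by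
  classical
  set M := Nat.sqrt n + 1 with hMdef
  have hM : 1 ≤ M := by omega
  have hlow : (M - 1) * (M - 1) ≤ n := by
    rw [hMdef, Nat.add_sub_cancel]
    exact Nat.sqrt_le n
  have hhigh : n < M * M := Nat.lt_succ_sqrt n
  obtain ⟨G, hG2, hG1, hGn⟩ := Finset.exists_subsuperset_card_eq
    (s := range (M - 1) ×ˢ range (M - 1)) (t := range M ×ˢ range M) (n := n)
    (by
      intro z hz
      rw [mem_product, mem_range, mem_range] at *
      omega)
    (by rw [card_product, card_range]; exact hlow)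
    (by rw [card_product, card_range]; exact hhigh.le)
  have hinj := pt_injOn hM hG1
  have hcard : (G.image (pt M)).card = n := by
    rw [card_image_of_injOn hinj, hGn]
  have hmem : ∀ p ∈ G, p.1 < M ∧ p.2 < M := by
    intro p hp
    have := hG1 hp
    rwa [mem_product, mem_range, mem_range] at this
  refine ⟨G.image (pt M), hcard, ?_, ?_, ?_⟩
  · intro a ha b hb c hc hab hbc hac hcol
    obtain ⟨p, hp, rfl⟩ := mem_image.mp ha
    obtain ⟨q, hq, rfl⟩ := mem_image.mp hb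
    obtain ⟨r, hr, rfl⟩ := mem_image.mp hc
    exact det3_ne hM (hmem p hp) (hmem q hq) (hmem r hr) (fun h => hab (by rw [h]))
      (fun h => hbc (by rw [h])) (fun h => hac (by rw [h])) (det3_of_collinear hcol)
  · intro a ha b hb c hc d hd hcd
    rw [hcard]
    obtain ⟨p, hp, rfl⟩ := mem_image.mp ha
    obtain ⟨q, hq, rfl⟩ := mem_image.mp hb
    obtain ⟨r, hr, rfl⟩ := mem_image.mp hc
    obtain ⟨s, hs, rfl⟩ := mem_image.mp hd
    have h1 := dist_pt_le hM (hmem p hp) (hmem q hq)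
    have h2 := dist_pt_ge hM (hmem r hr) (hmem s hs) (fun h => hcd (by rw [h]))
    have h3 : (M : ℝ) ≤ 2 * √(n : ℝ) := by
      have e1 : ((M - 1 : ℕ) : ℝ) ≤ √(n : ℝ) := by
        apply Real.le_sqrt_of_sq_le
        have : (((M - 1) * (M - 1) : ℕ) : ℝ) ≤ n := by exact_mod_cast hlow
        rw [pow_two]
        push_cast at this ⊢
        exact this
      have e2 : (M : ℝ) = ((M - 1 : ℕ) : ℝ) + 1 := by
        have : M = (M - 1) + 1 := by omega
        exact_mod_cast this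
      have e3 : (1 : ℝ) ≤ √(n : ℝ) := by
        rw [Real.one_le_sqrt]
        exact_mod_cast hn
      linarith
    have h4 : (0 : ℝ) ≤ √(n : ℝ) := Real.sqrt_nonneg _
    nlinarith
  · intro hbig
    set S := Nat.sqrt (Nat.sqrt (M / 24)) with hS
    have hMbig : 576 ≤ Nat.sqrt n := by
      rw [Nat.le_sqrt]
      omega
    have hS4 : 24 * S ^ 4 ≤ M := by
      have e1 : S * S ≤ Nat.sqrt (M / 24) := Nat.sqrt_le _
      have e2 : Nat.sqrt (M / 24) * Nat.sqrt (M / 24) ≤ M / 24 := Nat.sqrt_le _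
      have e3 : S ^ 4 ≤ M / 24 := by
        calc S ^ 4 = (S * S) * (S * S) := by ring
          _ ≤ Nat.sqrt (M / 24) * Nat.sqrt (M / 24) := Nat.mul_le_mul e1 e1
          _ ≤ _ := e2
      have e4 := Nat.mul_div_le M 24
      omega
    have hS5 : M < 24 * (S + 1) ^ 4 := by
      have e1 : Nat.sqrt (M / 24) < (S + 1) * (S + 1) := Nat.lt_succ_sqrt _
      have e2 : M / 24 < (Nat.sqrt (M / 24) + 1) * (Nat.sqrt (M / 24) + 1) :=
        Nat.lt_succ_sqrt _
      have e3 : M / 24 < (S + 1) ^ 4 := by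
        calc M / 24 < (Nat.sqrt (M / 24) + 1) * (Nat.sqrt (M / 24) + 1) := e2
          _ ≤ ((S + 1) * (S + 1)) * ((S + 1) * (S + 1)) := Nat.mul_le_mul e1 e1
          _ = _ := by ring
      omega
    have hcov := cover_ge (S := S) (by omega) hS4 hG1 hG2 hinj (hasCover_mc _)
    rw [sum_dirs] at hcov
    have hlog := sum_totient S
    have hn0 : (0 : ℝ) < n := by exact_mod_cast hn
    have hMn : (n : ℝ) ≤ (M : ℝ) ^ 2 := by
      rw [pow_two]
      exact_mod_cast hhigh.le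
    have hl1 : Real.log n ≤ 16 * Real.log (S + 1) := by
      have e1 : (n : ℝ) ≤ 576 * ((S : ℝ) + 1) ^ 8 := by
        have e2 : (M : ℝ) ≤ 24 * ((S : ℝ) + 1) ^ 4 := by exact_mod_cast hS5.le
        calc (n : ℝ) ≤ (M : ℝ) ^ 2 := hMn
          _ ≤ (24 * ((S : ℝ) + 1) ^ 4) ^ 2 := by
              apply pow_le_pow_left₀ (by positivity) e2
          _ = _ := by ring
      have hS0 : (0 : ℝ) < (S : ℝ) + 1 := by positivity
      have e3 : Real.log n ≤ Real.log 576 + 8 * Real.log (S + 1) := by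
        calc Real.log n ≤ Real.log (576 * ((S : ℝ) + 1) ^ 8) := Real.log_le_log hn0 e1
          _ = _ := by
              rw [Real.log_mul (by norm_num) (by positivity), Real.log_pow]
              norm_num
      have e4 : 2 * Real.log 576 ≤ Real.log n := by
        have : Real.log ((576 : ℝ) ^ 2) ≤ Real.log n := by
          apply Real.log_le_log (by norm_num)
          have : ((331776 : ℕ) : ℝ) ≤ n := by exact_mod_cast hbig
          norm_num at this ⊢
          linarith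
        rw [Real.log_pow] at this
        exact_mod_cast this
      linarith
    have hl0 : 0 ≤ Real.log (S + 1) := Real.log_nonneg (by
      have : (0 : ℝ) ≤ S := by positivity
      linarith)
    calc (n : ℝ) * Real.log n / 400000
        ≤ (M : ℝ) ^ 2 * (16 * Real.log (S + 1)) / 400000 := by
          apply div_le_div_of_nonneg_right _ (by norm_num)
          apply mul_le_mul hMn hl1 (Real.log_nonneg (by exact_mod_cast hn)) (by positivity)
      _ ≤ (M : ℝ) ^ 2 / 12288 * (Real.log (S + 1) / 2) := by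
          have : 0 ≤ (M : ℝ) ^ 2 * Real.log (S + 1) := by positivity
          linarith
      _ ≤ (M : ℝ) ^ 2 / 12288 * ∑ a ∈ Icc 1 S, (Nat.totient a : ℝ) / a ^ 2 := by
          apply mul_le_mul_of_nonneg_left _ (by positivity)
          linarith
      _ ≤ _ := hcov

end Pool.Agent.K6.H56.MonoLower
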