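import Pool.Agent.K6.H56.TF1
import Pool.Agent.Y141.PS.FG

/-! Integers modulo the squares of primes of degree one. -/

set_option autoImplicit false

namespace Pool.Agent.K6.H56.TF

open Polynomial NumberField IsDedekindDomain
open Pool.Agent.W858.SG

variable {L : Type} [Field L] [NumberField L]

theorem int_mem (v : HeightOneSpectrum (𝓞 L)) (hp : (Ideal.absNorm v.asIdeal).Prime) (n : ℤ) :
    (n : 𝓞 L) ∈ v.asIdeal ↔ ((Ideal.absNorm v.asIdeal : ℕ) : ℤ) ∣ n := by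
  constructor
  · intro h
    by_contra hn
    have hcop : IsCoprime ((Ideal.absNorm v.asIdeal : ℕ) : ℤ) n :=
      (Int.isCoprime_iff_gcd_eq_one.2 (by
        have := (Nat.Prime.coprime_iff_not_dvd hp).2 (fun h => hn (Int.natCast_dvd.2 h))
        simpa [Int.gcd] using this))
    obtain ⟨a, b, hab⟩ := hcop
    have h1 : (1 : 𝓞 L) ∈ v.asIdeal := by
      have h2 : (1 : 𝓞 L) = (a : 𝓞 L) * ((Ideal.absNorm v.asIdeal : ℕ) : 𝓞 L) + (b : 𝓞 L) * (n : 𝓞 L) := by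
        exact_mod_cast hab.symm
      rw [h2]
      exact Ideal.add_mem _ (Ideal.mul_mem_left _ _ (Ideal.absNorm_mem _)) (Ideal.mul_mem_left _ _ h)
    exact v.isPrime.ne_top ((Ideal.eq_top_iff_one _).2 h1)
  · rintro ⟨c, rfl⟩
    push_cast
    exact Ideal.mul_mem_right _ _ (Ideal.absNorm_mem _)

theorem int_mem_sq (v : HeightOneSpectrum (𝓞 L)) (hp : (Ideal.absNorm v.asIdeal).Prime)
    (hv : ((Ideal.absNorm v.asIdeal : ℕ) : 𝓞 L) ∉ v.asIdeal ^ 2) (n : ℤ) :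
    (n : 𝓞 L) ∈ v.asIdeal ^ 2 ↔ (((Ideal.absNorm v.asIdeal) ^ 2 : ℕ) : ℤ) ∣ n := by
  constructor
  · intro h
    obtain ⟨c, rfl⟩ := (int_mem v hp n).1 (Ideal.pow_le_self two_ne_zero h)
    have hc : (c : 𝓞 L) ∈ v.asIdeal := by
      by_contra hc
      apply hv
      push_cast at h
      have hmax := v.isMaximal
      have h3 := Ideal.IsMaximal.exists_inv hmax hc
      obtain ⟨y, i, hi, hy⟩ := h3
      -- `p = p (y c + i)`
      have h4 : ((Ideal.absNorm v.asIdeal : ℕ) : 𝓞 L) =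
          y * (((Ideal.absNorm v.asIdeal : ℕ) : 𝓞 L) * c) + ((Ideal.absNorm v.asIdeal : ℕ) : 𝓞 L) * i := by
        linear_combination (-((Ideal.absNorm v.asIdeal : ℕ) : 𝓞 L)) * hy
      rw [h4]
      refine Ideal.add_mem _ (Ideal.mul_mem_left _ _ h) ?_
      rw [pow_two]
      exact Ideal.mul_mem_mul (Ideal.absNorm_mem _) hi
    obtain ⟨d, rfl⟩ := (int_mem v hp c).1 hc
    refine ⟨d, ?_⟩
    push_cast
    ring
  · rintro ⟨c, rfl⟩
    push_cast
    refine Ideal.mul_mem_right _ _ ?_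
    exact Ideal.pow_mem_pow (Ideal.absNorm_mem _) 2

theorem exists_int_sub_mem (T : Finset (HeightOneSpectrum (𝓞 L)))
    (hT : ∀ v ∈ T, (Ideal.absNorm v.asIdeal).Prime ∧
      ((Ideal.absNorm v.asIdeal : ℕ) : 𝓞 L) ∉ v.asIdeal ^ 2)
    (hinj : ∀ v ∈ T, ∀ w ∈ T, Ideal.absNorm v.asIdeal = Ideal.absNorm w.asIdeal → v = w) (y : 𝓞 L) :
    ∃ n : ℤ, y - n ∈ ∏ v ∈ T, v.asIdeal ^ 2 := by
  classical
  set J := ∏ v ∈ T, v.asIdeal ^ 2 with hJ
  set q : ℕ := ∏ v ∈ T, (Ideal.absNorm v.asIdeal) ^ 2 with hq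
  have hJ0 : J ≠ ⊥ := Finset.prod_ne_zero_iff.2 fun v _ => pow_ne_zero _ v.ne_bot
  have hfinJ : Finite (𝓞 L ⧸ J) := Ideal.finiteQuotientOfFreeOfNeBot _ hJ0
  have hcard : Nat.card (𝓞 L ⧸ J) = q := by
    have h1 : Ideal.absNorm J = q := by
      rw [hJ, map_prod]
      exact Finset.prod_congr rfl fun v _ => map_pow _ _ _
    rw [← h1, Ideal.absNorm_apply, Submodule.cardQuot_apply]
  have hmem : ∀ n : ℤ, (n : 𝓞 L) ∈ J → (q : ℤ) ∣ n := by
    intro n hn
    rw [hJ, mem_prod_iff] at hn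
    rw [hq]
    push_cast
    refine Finset.prod_dvd_of_coprime ?_ ?_
    · intro v hv w hw hvw
      apply IsCoprime.pow
      rw [Int.isCoprime_iff_gcd_eq_one]
      have h1 := (Nat.coprime_primes (hT v hv).1 (hT w hw).1).2 (fun h => hvw (hinj v hv w hw h))
      simpa [Int.gcd] using h1
    · intro v hv
      have h1 := (int_mem_sq v (hT v hv).1 (hT v hv).2 n).1 (hn v hv)
      exact_mod_cast h1
  let f : Fin q → 𝓞 L ⧸ J := fun n => Ideal.Quotient.mk J ((n : ℕ) : 𝓞 L)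
  have hf : Function.Injective f := by
    intro n n' h
    have h1 := Ideal.Quotient.eq.1 h
    have h2 : (q : ℤ) ∣ (n : ℕ) - (n' : ℕ) := hmem _ (by exact_mod_cast h1)
    have h3 : ((n : ℕ) : ℤ) = ((n' : ℕ) : ℤ) := by
      have h4 := Int.eq_zero_of_abs_lt_dvd h2 (by
        have h5 := n.2
        have h6 := n'.2
        rw [abs_lt]
        constructor <;> omega)
      omega
    exact Fin.ext (by exact_mod_cast h3)
  have : Fintype (𝓞 L ⧸ J) := Fintype.ofFinite _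
  have hbij := (Fintype.bijective_iff_injective_and_card f).2 ⟨hf, by
    rw [Fintype.card_fin, ← Nat.card_eq_fintype_card, hcard]⟩
  obtain ⟨n, hn⟩ := hbij.2 (Ideal.Quotient.mk J y)
  refine ⟨(n : ℕ), ?_⟩
  rw [← Ideal.Quotient.eq]
  rw [← hn]
  simp [f]

end Pool.Agent.K6.H56.TF
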