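import Pool.Agent.K6.H56.TF5

/-! Density of the fibres without sections in a one-parameter family: the ring of definition. -/

set_option autoImplicit false
set_option linter.all false

namespace Pool.Agent.K6.H56.TF

open Polynomial
open Pool.Agent.Y157.PS (S_FUN FineP fineP)

/-- a finitely generated subring with the given fraction field that contains `τ` -/
theorem exists_ring {R k : Type} [CommRing R] [IsDomain R] [CharZero R] [Algebra.FiniteType ℤ R]
    [Field k] [Algebra R k] [IsFractionRing R k] (k₁ : Type) [Field k₁] [Algebra k k₁] (τ : k₁)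
    (hτ : IntermediateField.adjoin k {τ} = ⊤) :
    ∃ R₁ : Subalgebra ℤ k₁, Algebra.FiniteType ℤ R₁ ∧ IsFractionRing R₁ k₁ ∧ τ ∈ R₁ ∧
      ∀ r : R, algebraMap k k₁ (algebraMap R k r) ∈ R₁ := by
  classical
  obtain ⟨G, hG⟩ := (inferInstance : Algebra.FiniteType ℤ R).out
  let φ : R →ₐ[ℤ] k₁ := ((algebraMap k k₁).comp (algebraMap R k)).toIntAlgHom
  have hφ : ∀ r, φ r = algebraMap k k₁ (algebraMap R k r) := fun _ => rfl
  let S : Set k₁ := insert τ (φ '' (G : Set R))
  have hS : S.Finite := (G.finite_toSet.image _).insert _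
  have hmem : ∀ r : R, φ r ∈ Algebra.adjoin ℤ S := by
    intro r
    have h1 : φ r ∈ (⊤ : Subalgebra ℤ R).map φ := ⟨r, Algebra.mem_top, rfl⟩
    rw [← hG, AlgHom.map_adjoin] at h1
    exact Algebra.adjoin_mono (Set.subset_insert _ _) h1
  have hτm : τ ∈ Algebra.adjoin ℤ S := Algebra.subset_adjoin (Set.mem_insert _ _)
  refine ⟨Algebra.adjoin ℤ S, Algebra.FiniteType.adjoin_of_finite hS, ?_, hτm, hmem⟩
  set R₁ := Algebra.adjoin ℤ S with hR₁
  refine IsFractionRing.of_field R₁ k₁ fun z => ?_
  let C : Subfield k₁ := Subfield.closure (R₁ : Set k₁)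
  have hkC : ∀ a : k, algebraMap k k₁ a ∈ C := by
    intro a
    obtain ⟨r, s, -, rfl⟩ := IsFractionRing.div_surjective (A := R) a
    rw [map_div₀]
    exact C.div_mem (Subfield.subset_closure (hmem r)) (Subfield.subset_closure (hmem s))
  have hz : z ∈ C.toIntermediateField hkC := by
    have h1 : IntermediateField.adjoin k {τ} ≤ C.toIntermediateField hkC := by
      rw [IntermediateField.adjoin_simple_le_iff]
      exact Subfield.subset_closure hτm
    rw [hτ] at h1
    exact h1 IntermediateField.mem_top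
  have hz' : z ∈ C := hz
  obtain ⟨x, hx, y, hy, hxy⟩ := Subfield.mem_closure_iff.1 hz'
  have hcl : Subring.closure (R₁ : Set k₁) = R₁.toSubring := Subring.closure_eq R₁.toSubring
  rw [hcl] at hx hy
  exact ⟨⟨x, hx⟩, ⟨y, hy⟩, hxy.symm⟩

/-- common denominators -/
theorem exists_den {R k : Type} [CommRing R] [IsDomain R] [Field k] [Algebra R k]
    [IsFractionRing R k] (A : k[X]) (F : k[X][X]) :
    ∃ (d : R) (A' : R[X]) (F' : R[X][X]), d ≠ 0 ∧ A'.map (algebraMap R k) = C (algebraMap R k d) * A ∧
      F'.map (mapRingHom (algebraMap R k)) = C (C (algebraMap R k d)) * F := by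
  classical
  obtain ⟨b, hb⟩ := IsLocalization.exist_integer_multiples_of_finset (nonZeroDivisors R)
    (A.coeffs ∪ F.coeffs.biUnion fun p => p.coeffs)
  have hA : ∀ n, algebraMap R k b * A.coeff n ∈ Set.range (algebraMap R k) := by
    intro n
    by_cases h0 : A.coeff n = 0
    · exact ⟨0, by rw [h0, mul_zero, map_zero]⟩
    · obtain ⟨r, hr⟩ := hb (A.coeff n) (Finset.mem_union_left _ (coeff_mem_coeffs h0))
      exact ⟨r, by rw [hr, Algebra.smul_def]⟩
  have hF : ∀ n l, algebraMap R k b * (F.coeff n).coeff l ∈ Set.range (algebraMap R k) := by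
    intro n l
    by_cases h0 : (F.coeff n).coeff l = 0
    · exact ⟨0, by rw [h0, mul_zero, map_zero]⟩
    · have h1 : F.coeff n ≠ 0 := by
        intro h
        rw [h, coeff_zero] at h0
        exact h0 rfl
      obtain ⟨r, hr⟩ := hb ((F.coeff n).coeff l) (Finset.mem_union_right _ (Finset.mem_biUnion.2
        ⟨F.coeff n, coeff_mem_coeffs h1, coeff_mem_coeffs h0⟩))
      exact ⟨r, by rw [hr, Algebra.smul_def]⟩
  have h1 : C (algebraMap R k b) * A ∈ Polynomial.lifts (algebraMap R k) := by
    rw [Polynomial.lifts_iff_coeff_lifts]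
    intro n
    rw [coeff_C_mul]
    exact hA n
  obtain ⟨A', hA'⟩ := (Polynomial.mem_lifts _).1 h1
  have h2 : C (C (algebraMap R k b)) * F ∈ Polynomial.lifts (mapRingHom (algebraMap R k)) := by
    rw [Polynomial.lifts_iff_coeff_lifts]
    intro n
    rw [coeff_C_mul]
    have h3 : C (algebraMap R k b) * F.coeff n ∈ Polynomial.lifts (algebraMap R k) := by
      rw [Polynomial.lifts_iff_coeff_lifts]
      intro l
      rw [coeff_C_mul]
      exact hF n l
    obtain ⟨q, hq⟩ := (Polynomial.mem_lifts _).1 h3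
    exact ⟨q, hq⟩
  obtain ⟨F', hF'⟩ := (Polynomial.mem_lifts _).1 h2
  exact ⟨b, A', F', nonZeroDivisors.ne_zero b.2, hA', hF'⟩

/-- the discriminant of the family -/
noncomputable def disc {R : Type} [CommRing R] (F : R[X][X]) : R[X] :=
  F.coeff F.natDegree * resultant F (derivative F) F.natDegree (F.natDegree - 1)

theorem disc_map {R S : Type} [CommRing R] [CommRing S] (F : R[X][X]) (φ : R[X] →+* S) :
    φ (disc F) = (F.map φ).coeff F.natDegree *
      resultant (F.map φ) (derivative (F.map φ)) F.natDegree (F.natDegree - 1) := by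
  rw [disc, map_mul, ← resultant_map_map, coeff_map, derivative_map]

theorem res_ne_zero_iff {k : Type} [Field k] [CharZero k] (f : k[X]) (m : ℕ) (hm : 0 < m)
    (hf : f.natDegree = m) : resultant f (derivative f) m (m - 1) ≠ 0 ↔ f.Separable := by
  have h1 : (derivative f).natDegree = m - 1 := by
    rw [← hf]
    exact natDegree_derivative f
  have h2 := resultant_eq_zero_iff (f := f) (g := derivative f)
  rw [hf, h1] at h2
  have hf0 : f ≠ 0 := by
    rintro rfl
    rw [natDegree_zero] at hf
    omega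
  rw [Ne, h2]
  constructor
  · intro h
    by_contra h3
    exact h ⟨Or.inl hf0, h3⟩
  · rintro h ⟨-, h3⟩
    exact h3 h

end Pool.Agent.K6.H56.TF
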